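import Pool.Agent.Lib.MP_4e5fcd_ag.Cl.Defs

/-!
# Ideals with the same integral closure as an equivariant ideal: definitions
-/

open MvPolynomial

namespace MotMono

/-- `f` is integral over the ideal `I`: `f ^ n + a_1 f ^ (n - 1) + … + a_n = 0` with `a_i ∈ I ^ i`,
`n > 0`. -/
def IntegralOver {N : ℕ} (I : Ideal (MvPolynomial (Fin N) ℂ)) (f : MvPolynomial (Fin N) ℂ) : Prop :=
  ∃ (n : ℕ) (a : ℕ → MvPolynomial (Fin N) ℂ), 0 < n ∧ (∀ i, a i ∈ I ^ i) ∧
    f ^ n + ∑ i ∈ Finset.Icc 1 n, a i * f ^ (n - i) = 0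

/-- Near the origin `I` is contained in `J` and `J` in the integral closure of `I`: for some
polynomial `h` with `h (0) ≠ 0` all `h f`, `f ∈ I`, are in `J`, and all `h f`, `f ∈ J`, are integral
over `I`. -/
def SameClosure {N : ℕ} (I J : Ideal (MvPolynomial (Fin N) ℂ)) : Prop :=
  ∃ h : MvPolynomial (Fin N) ℂ, eval 0 h ≠ 0 ∧ (∀ f ∈ I, h * f ∈ J) ∧
    ∀ f ∈ J, IntegralOver I (h * f)

end MotMono
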