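import Pool.Agent.Lib.MP_4e5fcd_ag.Ic.TDefs
import Pool.Agent.Lib.MP_4e5fcd_ag.Cl.L1
import Pool.Agent.Lib.MP_4e5fcd_ag.Cl.E7

/-! # IC-G1: contact jets, basic facts

PROOF. `constr_CS`: all conditions are polynomial equations in the coordinates of `γ` (also `γ (i, 0) = p i`):
`constr_zeros` (compare the proof of `constr_contactArcs` in `Cl/L1.lean`, which has the polynomials
`coeff l (along f γ)`). `tame_of_empty`: `n = 1`, `c = 0`, `cls_empty`, `map_zero`. `CS_arc`: the power series of
`along f γ` is `aeval Y f` (`Polynomial.coeToPowerSeries.algHom`, compare `along_eqS` in `Cl/E7.lean`);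
`PowerSeries.X_pow_dvd_iff`, `Polynomial.coeff_coe`; the constant coefficient of `arc γ i` is `γ (i, 0)`. -/

open MvPolynomial

namespace MotMono

variable {N : ℕ} {J : Ideal (MvPolynomial (Fin N) ℂ)} {p : Fin N → ℂ}
  {y y' : MvPolynomial (Fin N) ℂ → ℂ}

private theorem G1_coeff {N n : ℕ} (f : MvPolynomial (Fin N) ℂ) :
    ∀ l : ℕ, ∃ P : MvPolynomial (Fin N × Fin n) ℂ, ∀ γ, eval γ P = (along f γ).coeff l := by
  classical
  induction f using MvPolynomial.induction_on with
  | C a =>
    intro l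
    refine ⟨C (if l = 0 then a else 0), fun γ => ?_⟩
    have h1 : along (C a : MvPolynomial (Fin N) ℂ) γ = Polynomial.C a := by
      unfold along
      rw [aeval_C]
      rfl
    rw [eval_C, h1, Polynomial.coeff_C]
  | add p q hp hq =>
    intro l
    obtain ⟨P, hP⟩ := hp l
    obtain ⟨Q, hQ⟩ := hq l
    refine ⟨P + Q, fun γ => ?_⟩
    have h1 : along (p + q) γ = along p γ + along q γ := by
      unfold along
      rw [map_add]
    rw [map_add, hP, hQ, h1, Polynomial.coeff_add]
  | mul_X p i hp =>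
    intro l
    choose P hP using hp
    refine ⟨∑ ab ∈ Finset.HasAntidiagonal.antidiagonal l, P ab.1 *
      (if h : ab.2 < n then X (i, ⟨ab.2, h⟩) else 0), fun γ => ?_⟩
    have h1 : along (p * X i) γ = along p γ * arc γ i := by
      unfold along
      rw [map_mul, aeval_X]
    have h2 : ∀ b : ℕ, (arc γ i).coeff b = if h : b < n then γ (i, ⟨b, h⟩) else 0 := by
      intro b
      unfold arc
      rw [Polynomial.finsetSum_coeff]
      simp only [Polynomial.coeff_C_mul, Polynomial.coeff_X_pow, mul_ite, mul_one, mul_zero]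
      split_ifs with hb
      · rw [Finset.sum_eq_single (⟨b, hb⟩ : Fin n)]
        · rw [if_pos rfl]
        · intro l' _ hl'
          rw [if_neg]
          intro h3
          exact hl' (Fin.ext h3.symm)
        · intro h3
          exact absurd (Finset.mem_univ _) h3
      · apply Finset.sum_eq_zero
        intro l' _
        rw [if_neg]
        intro h3
        exact hb (h3 ▸ l'.2)
    rw [map_sum, h1, Polynomial.coeff_mul]
    refine Finset.sum_congr rfl fun ab _ => ?_
    rw [map_mul, hP, h2]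
    split_ifs
    · rw [eval_X]
    · rw [map_zero]

theorem constr_CS (J : Ideal (MvPolynomial (Fin N) ℂ)) (p : Fin N → ℂ)
    (y : MvPolynomial (Fin N) ℂ → ℂ) (d : ℕ) : Constr (CS J p y d) := by
  classical
  choose P hP using fun f : MvPolynomial (Fin N) ℂ => G1_coeff (n := d + 1) f
  have e : CS J p y d = {γ | ∀ g ∈ ({g | ∃ i, g = X (i, 0) - C (p i)} ∪
      {g | ∃ f ∈ J, ∃ l < d, g = P f l} ∪ {g | ∃ f ∈ J, g = P f d - C (y f)} :
        Set (MvPolynomial (Fin N × Fin (d + 1)) ℂ)), eval γ g = 0} := by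
    ext γ
    unfold CS
    simp only [Set.mem_ofPred_eq, Set.mem_union]
    constructor
    · rintro ⟨h1, h2⟩ g ((⟨i, rfl⟩ | ⟨f, hf, l, hl, rfl⟩) | ⟨f, hf, rfl⟩)
      · rw [map_sub, eval_X, eval_C, h1, sub_self]
      · rw [hP]
        exact (h2 f hf).1 l hl
      · rw [map_sub, eval_C, hP, (h2 f hf).2, sub_self]
    · intro h
      refine ⟨fun i => ?_, fun f hf => ⟨fun l hl => ?_, ?_⟩⟩
      · have h1 := h (X (i, 0) - C (p i)) (Or.inl (Or.inl ⟨i, rfl⟩))
        rw [map_sub, eval_X, eval_C, sub_eq_zero] at h1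
        exact h1
      · have h1 := h (P f l) (Or.inl (Or.inr ⟨f, hf, l, hl, rfl⟩))
        rw [hP] at h1
        exact h1
      · have h1 := h (P f d - C (y f)) (Or.inr ⟨f, hf, rfl⟩)
        rw [map_sub, eval_C, hP, sub_eq_zero] at h1
        exact h1
  rw [e]
  exact constr_zeros _

theorem CS_congr (h : ∀ f ∈ J, y f = y' f) (d : ℕ) : CS J p y d = CS J p y' d := by
  unfold CS
  ext γ
  rw [Set.mem_ofPred_eq, Set.mem_ofPred_eq]
  refine and_congr_right fun _ => ?_
  refine forall_congr' fun f => forall_congr' fun hf => ?_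
  rw [h f hf]

theorem tame_congr (h : ∀ f ∈ J, y f = y' f) (hT : Tame J p y) : Tame J p y' := by
  obtain ⟨n, c, hn, H⟩ := hT
  refine ⟨n, c, hn, fun χ hχ d hd => ?_⟩
  rw [← CS_congr h d]
  exact H χ hχ d hd

theorem tame_of_empty (h : ∀ d, 0 < d → CS J p y d = ∅) : Tame J p y := by
  refine ⟨1, 0, Nat.one_pos, fun χ _ d hd => ?_⟩
  rw [h d hd, cls_empty, map_zero, if_pos (one_dvd d)]
  simp

/-- the power series of a polynomial curve -/
theorem aeval_coe (cv : Fin N → Polynomial ℂ) (f : MvPolynomial (Fin N) ℂ) :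
    aeval (fun i => ((cv i : Polynomial ℂ) : PowerSeries ℂ)) f =
      ((aeval cv f : Polynomial ℂ) : PowerSeries ℂ) := by
  induction f using MvPolynomial.induction_on with
  | C a =>
    rw [← algebraMap_eq, AlgHom.commutes, AlgHom.commutes, Polynomial.algebraMap_eq,
      Polynomial.coe_C]
    rfl
  | add p q hp hq => rw [map_add, map_add, hp, hq, Polynomial.coe_add]
  | mul_X p i hp => rw [map_mul, map_mul, hp, aeval_X, aeval_X, Polynomial.coe_mul]

private theorem G1_coeff_zero {n : ℕ} (γ : Fin N × Fin (n + 1) → ℂ) (i : Fin N) :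
    (arc γ i).coeff 0 = γ (i, 0) := by
  rw [c6_coeff_arc]
  rw [dif_pos (Nat.succ_pos n)]
  rfl

theorem CS_arc {d : ℕ} (γ : Fin N × Fin (d + 1) → ℂ) (hγ : γ ∈ CS J p y d) :
    p0 (fun i => ((arc γ i : Polynomial ℂ) : PowerSeries ℂ)) = p ∧
      (∀ f ∈ J, (PowerSeries.X : PowerSeries ℂ) ^ d ∣
        aeval (fun i => ((arc γ i : Polynomial ℂ) : PowerSeries ℂ)) f) ∧
      ∀ f ∈ J, yv d (fun i => ((arc γ i : Polynomial ℂ) : PowerSeries ℂ)) f = y f := by
  obtain ⟨h1, h2⟩ := hγ
  refine ⟨?_, fun f hf => ?_, fun f hf => ?_⟩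
  · funext i
    unfold p0
    rw [← PowerSeries.coeff_zero_eq_constantCoeff_apply, Polynomial.coeff_coe, G1_coeff_zero]
    exact h1 i
  · rw [aeval_coe, PowerSeries.X_pow_dvd_iff]
    intro l hl
    rw [Polynomial.coeff_coe]
    exact (h2 f hf).1 l hl
  · unfold yv
    rw [aeval_coe, Polynomial.coeff_coe]
    exact (h2 f hf).2

end MotMono
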