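import Pool.Agent.Lib.MP_4e5fcd_ag.Ic.G1

/-! # IC-G2: restriction to a coordinate subspace

PROOF. `rho_X`: `X (ι j) ↦ X j` (`hι`), `X i ↦ 0` for `i` not in the range. For jets `γ`, `γ'` with
`γ (ι j, l) = γ' (j, l)` and `γ (i, l) = 0` for `i` not in the range of `ι`: `along f γ = along (rho ι f) γ'`
(`along_rho`: both sides are algebra homomorphisms in `f`, compare on the variables: `MvPolynomial.algHom_ext`).
`CS_restrict`: `p' j = p (ι j)`, `γ₀' (j, l) = γ₀ (ι j, l)`, `y' f' = (along f' γ₀').coeff d₀`. For `f ∈ J`: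
`y' (rho ι f) = (along f γ₀).coeff d₀ = y f`; the elements of `J.map (rho ι)` are the `rho ι f`, `f ∈ J`
(`Ideal.mem_map_iff_of_surjective`, `rho_surjective`). Restriction `γ ↦ γ (ι ·, ·)` and extension by zero are
mutually inverse regular maps (coordinates resp. `0`) between the fixed set and `CS (J.map (rho ι)) p' y' d`
(for `i` not in the range of `ι`: `p i = γ₀ (i, 0) = 0`). Classes of isomorphic constructible sets agree: see the
relation `Rel.iso`, lemma `cls_iso` or similar in the library (`Kum`, `LF`; search for `RegIso`);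
constructible: `constr_CS`, `constr_fix`. -/

open MvPolynomial

namespace MotMono

variable {N N' : ℕ}

theorem rho_X (ι : Fin N' → Fin N) (hι : Function.Injective ι) (j : Fin N') :
    rho ι (X (ι j)) = X j := by
  have h : ∃ j', ι j' = ι j := ⟨j, rfl⟩
  unfold rho
  rw [aeval_X, dif_pos h, hι h.choose_spec]

theorem rho_X_of_not_mem (ι : Fin N' → Fin N) (i : Fin N) (hi : i ∉ Set.range ι) :
    rho ι (X i) = 0 := by
  unfold rho
  rw [aeval_X, dif_neg]
  rintro ⟨j, hj⟩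
  exact hi ⟨j, hj⟩

theorem rho_surjective (ι : Fin N' → Fin N) (hι : Function.Injective ι) :
    Function.Surjective (rho ι) := by
  have h : (rho ι).comp (rename ι) = AlgHom.id ℂ (MvPolynomial (Fin N') ℂ) := by
    apply MvPolynomial.algHom_ext
    intro j
    rw [AlgHom.comp_apply, rename_X, rho_X ι hι, AlgHom.id_apply]
  intro f
  exact ⟨rename ι f, congrArg (fun φ : MvPolynomial (Fin N') ℂ →ₐ[ℂ] MvPolynomial (Fin N') ℂ => φ f) h⟩

theorem along_rho (ι : Fin N' → Fin N) (hι : Function.Injective ι) {n : ℕ}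
    (γ : Fin N × Fin n → ℂ) (h0 : ∀ i, i ∉ Set.range ι → ∀ l, γ (i, l) = 0)
    (f : MvPolynomial (Fin N) ℂ) :
    along f γ = along (rho ι f) fun c : Fin N' × Fin n => γ (ι c.1, c.2) := by
  have h : (aeval (arc γ) : MvPolynomial (Fin N) ℂ →ₐ[ℂ] Polynomial ℂ) =
      (aeval (arc fun c : Fin N' × Fin n => γ (ι c.1, c.2))).comp (rho ι) := by
    apply MvPolynomial.algHom_ext
    intro i
    rw [AlgHom.comp_apply, aeval_X]
    by_cases hi : i ∈ Set.range ι
    · obtain ⟨j, rfl⟩ := hi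
      rw [rho_X ι hι, aeval_X]
      rfl
    · rw [rho_X_of_not_mem ι i hi, map_zero]
      unfold arc
      refine Finset.sum_eq_zero fun l _ => ?_
      rw [h0 i hi l, map_zero, zero_mul]
  exact congrArg (fun φ : MvPolynomial (Fin N) ℂ →ₐ[ℂ] Polynomial ℂ => φ f) h

open Classical in
private noncomputable def g2_ext (ι : Fin N' → Fin N) {n : ℕ} (γ : Fin N' × Fin n → ℂ) :
    Fin N × Fin n → ℂ :=
  fun c => if h : ∃ j, ι j = c.1 then γ (h.choose, c.2) else 0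

private theorem g2_ext_apply (ι : Fin N' → Fin N) (hι : Function.Injective ι) {n : ℕ}
    (γ : Fin N' × Fin n → ℂ) (j : Fin N') (l : Fin n) : g2_ext ι γ (ι j, l) = γ (j, l) := by
  have h : ∃ j', ι j' = ι j := ⟨j, rfl⟩
  unfold g2_ext
  rw [dif_pos h, hι h.choose_spec]

private theorem g2_ext_of_not_mem (ι : Fin N' → Fin N) {n : ℕ}
    (γ : Fin N' × Fin n → ℂ) (i : Fin N) (hi : i ∉ Set.range ι) (l : Fin n) :
    g2_ext ι γ (i, l) = 0 := by
  unfold g2_ext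
  rw [dif_neg]
  rintro ⟨j, hj⟩
  exact hi ⟨j, hj⟩

theorem CS_restrict (ι : Fin N' → Fin N) (hι : Function.Injective ι) (w : Fin N → ℤ)
    (hw : ∀ i, w i = 0 ↔ i ∈ Set.range ι) (J : Ideal (MvPolynomial (Fin N) ℂ)) (p : Fin N → ℂ)
    (y : MvPolynomial (Fin N) ℂ → ℂ) (hy : ∃ f ∈ J, y f ≠ 0) {d₀ : ℕ}
    (γ₀ : Fin N × Fin (d₀ + 1) → ℂ) (hγ₀ : γ₀ ∈ CS J p y d₀)
    (hfix : ∀ c, w c.1 ≠ 0 → γ₀ c = 0) :
    ∃ (p' : Fin N' → ℂ) (y' : MvPolynomial (Fin N') ℂ → ℂ),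
      (∃ f' ∈ J.map (rho ι), y' f' ≠ 0) ∧
        ∀ d, cls {γ | γ ∈ CS J p y d ∧ ∀ c : Fin N × Fin (d + 1), w c.1 ≠ 0 → γ c = 0} =
          cls (CS (J.map (rho ι)) p' y' d) := by
  have hnw : ∀ i, i ∉ Set.range ι → w i ≠ 0 := fun i hi h => hi ((hw i).1 h)
  have hwn : ∀ i, w i ≠ 0 → i ∉ Set.range ι := fun i hi h => hi ((hw i).2 h)
  obtain ⟨h1, h2⟩ := hγ₀
  have hp0 : ∀ i, i ∉ Set.range ι → p i = 0 := fun i hi => by
    rw [← h1 i]
    exact hfix (i, 0) (hnw i hi)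
  refine ⟨fun j => p (ι j), fun f' => (along f' fun c : Fin N' × Fin (d₀ + 1) =>
    γ₀ (ι c.1, c.2)).coeff d₀, ?_⟩
  have hy' : ∀ f ∈ J, (along (rho ι f) fun c : Fin N' × Fin (d₀ + 1) =>
      γ₀ (ι c.1, c.2)).coeff d₀ = y f := fun f hf => by
    rw [← along_rho ι hι γ₀ (fun i hi l => hfix (i, l) (hnw i hi)) f]
    exact (h2 f hf).2
  refine ⟨?_, fun d => ?_⟩
  · obtain ⟨f, hf, hfy⟩ := hy
    exact ⟨rho ι f, Ideal.mem_map_of_mem _ hf, fun h => hfy ((hy' f hf).symm.trans h)⟩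
  refine cls_iso (constr_fix (CS J p y d) (constr_CS J p y d)
    (fun c : Fin N × Fin (d + 1) => w c.1)) (constr_CS _ _ _ d)
    ⟨fun γ c => γ (ι c.1, c.2), g2_ext ι, fun c => regFun_coord _ _, fun c => ?_, ?_, ?_, ?_, ?_⟩
  · obtain ⟨i, l⟩ := c
    by_cases hi : i ∈ Set.range ι
    · obtain ⟨j, rfl⟩ := hi
      exact (regFun_coord _ (j, l)).congr fun γ _ => (g2_ext_apply ι hι γ j l).symm
    · exact (regFun_const _ 0).congr fun γ _ => (g2_ext_of_not_mem ι γ i hi l).symm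
  · rintro γ ⟨⟨h3, h4⟩, h5⟩
    refine ⟨fun j => h3 (ι j), fun f' hf' => ?_⟩
    obtain ⟨f, hf, rfl⟩ := (Ideal.mem_map_iff_of_surjective _ (rho_surjective ι hι)).1 hf'
    have h6 := along_rho ι hι γ (fun i hi l => h5 (i, l) (hnw i hi)) f
    show (∀ l < d, (along (rho ι f) fun c : Fin N' × Fin (d + 1) => γ (ι c.1, c.2)).coeff l = 0) ∧
      (along (rho ι f) fun c : Fin N' × Fin (d + 1) => γ (ι c.1, c.2)).coeff d =
        (along (rho ι f) fun c : Fin N' × Fin (d₀ + 1) => γ₀ (ι c.1, c.2)).coeff d₀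
    rw [← h6, hy' f hf]
    exact h4 f hf
  · rintro γ' ⟨h3, h4⟩
    have h5 : ∀ i, i ∉ Set.range ι → ∀ l, g2_ext ι γ' (i, l) = 0 :=
      fun i hi l => g2_ext_of_not_mem ι γ' i hi l
    refine ⟨⟨fun i => ?_, fun f hf => ?_⟩, fun c hc => h5 c.1 (hwn _ hc) c.2⟩
    · by_cases hi : i ∈ Set.range ι
      · obtain ⟨j, rfl⟩ := hi
        rw [g2_ext_apply ι hι]
        exact h3 j
      · rw [h5 i hi, hp0 i hi]
    · have h6 := along_rho ι hι (g2_ext ι γ') h5 f
      have h7 : (fun c : Fin N' × Fin (d + 1) => g2_ext ι γ' (ι c.1, c.2)) = γ' := by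
        funext c
        exact g2_ext_apply ι hι γ' c.1 c.2
      rw [h7] at h6
      have h8 := h4 (rho ι f) (Ideal.mem_map_of_mem _ hf)
      rw [h6]
      exact ⟨h8.1, h8.2.trans (hy' f hf)⟩
  · rintro γ ⟨_, h5⟩
    funext c
    obtain ⟨i, l⟩ := c
    by_cases hi : i ∈ Set.range ι
    · obtain ⟨j, rfl⟩ := hi
      exact g2_ext_apply ι hι _ j l
    · rw [g2_ext_of_not_mem ι _ i hi l]
      exact (h5 (i, l) (hnw i hi)).symm
  · intro γ' _
    funext c
    exact g2_ext_apply ι hι γ' c.1 c.2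

end MotMono
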