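import Pool.Agent.Lib.MP_4e5fcd_ag.Ic.G2

/-! # IC-G3: localization at a one-parameter group

PROOF. `chi_CS_fix`: `chi_fix` (`Cl/L1.lean`) with the weights `fun c => w c.1`, `constr_CS`. `tame_of_sub`: if for all
`d > 0` no `γ ∈ CS J p y d` vanishes at all coordinates `c` with `w c.1 ≠ 0`, then `n = 1`, `c = 0` (the class of the empty
set is `0`). Otherwise there is such a `γ₀` for some `d₀ > 0`; `CS_restrict`, `IH`, and the same `n`, `c`. -/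

open MvPolynomial

namespace MotMono

variable {N N' : ℕ}

theorem chi_CS_fix (χ : K0 →+* ℤ) (hχ : IsEulerChar χ) (J : Ideal (MvPolynomial (Fin N) ℂ))
    (p : Fin N → ℂ) (y : MvPolynomial (Fin N) ℂ → ℂ) (w : Fin N → ℤ) (hinv : Inv J p y w) (d : ℕ)
    (hd : 0 < d) :
    χ (cls (CS J p y d)) =
      χ (cls {γ | γ ∈ CS J p y d ∧ ∀ c : Fin N × Fin (d + 1), w c.1 ≠ 0 → γ c = 0}) := by
  exact chi_fix χ hχ (CS J p y d) (constr_CS J p y d) (fun c => w c.1)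
    (fun x hx τ hτ => hinv d hd x hx τ hτ)

theorem tame_of_sub (ι : Fin N' → Fin N) (hι : Function.Injective ι) (w : Fin N → ℤ)
    (hw : ∀ i, w i = 0 ↔ i ∈ Set.range ι) (J : Ideal (MvPolynomial (Fin N) ℂ)) (p : Fin N → ℂ)
    (y : MvPolynomial (Fin N) ℂ → ℂ) (hy : ∃ f ∈ J, y f ≠ 0) (hinv : Inv J p y w)
    (IH : ∀ (p' : Fin N' → ℂ) (y' : MvPolynomial (Fin N') ℂ → ℂ),
      (∃ f' ∈ J.map (rho ι), y' f' ≠ 0) → Tame (J.map (rho ι)) p' y') : Tame J p y := by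
  classical
  by_cases h : ∃ d₀ : ℕ, 0 < d₀ ∧ ∃ γ₀ ∈ CS J p y d₀,
      ∀ c : Fin N × Fin (d₀ + 1), w c.1 ≠ 0 → γ₀ c = 0
  · obtain ⟨d₀, _, γ₀, hγ₀, hfix⟩ := h
    obtain ⟨p', y', hy', hcls⟩ := CS_restrict ι hι w hw J p y hy γ₀ hγ₀ hfix
    obtain ⟨n, c, hn, hT⟩ := IH p' y' hy'
    refine ⟨n, c, hn, fun χ hχ d hd => ?_⟩
    rw [chi_CS_fix χ hχ J p y w hinv d hd, hcls d]
    exact hT χ hχ d hd
  · refine ⟨1, 0, Nat.one_pos, fun χ hχ d hd => ?_⟩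
    have he : {γ | γ ∈ CS J p y d ∧ ∀ c : Fin N × Fin (d + 1), w c.1 ≠ 0 → γ c = 0} = ∅ := by
      rw [Set.eq_empty_iff_forall_notMem]
      rintro γ ⟨h1, h2⟩
      exact h ⟨d, hd, γ, h1, h2⟩
    rw [chi_CS_fix χ hχ J p y w hinv d hd, he, cls_empty, map_zero]
    simp

end MotMono
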