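import Pool.Agent.Lib.MP_4e5fcd_ag.Ic.TDefs
import Pool.Agent.Lib.MP_4e5fcd_ag.Cl.A2
import Pool.Agent.Lib.MP_4e5fcd_ag.Cl.K0

/-! # IC-G4: the action of one-parameter groups

PROOF. `along_scl`: both sides are algebra homomorphisms in `f`; on `X i`: `C (τ ^ w i) * arc γ i` is the arc of
`τ ^ w i * γ (i, ·)`. `inv_of_scale`: `γ' = τ ^ w γ`; `γ' (i, 0) = τ ^ w i * p i = p i` (`p i = 0` or `w i = 0`); for `f ∈ J`:
`along f γ' = along (scl w τ f) γ` and `scl w τ f ∈ J`. `scl_mem`: `scl (wS e ra ca) τ f = shSub σ e g h f` for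
`g a = diagonal (τ ^ ra a i)`, `h a = diagonal (τ ^ ca a k)`: compare on the variables (`MvPolynomial.algHom_ext`,
unfold `shSub`), `Shp.actI_diagonal` (`Cl/K0.lean`; for the shapes `eps` use `RC`), `Shp.ent_mat`/`mat` of the variables at
`(pr, pc)` is the variable; `Matrix.det_diagonal`, `zpow_ne_zero`. -/

open MvPolynomial

namespace MotMono

theorem along_scl {N n : ℕ} (w : Fin N → ℤ) (τ : ℂ) (f : MvPolynomial (Fin N) ℂ)
    (γ : Fin N × Fin n → ℂ) :
    along (scl w τ f) γ = along f fun c => τ ^ w c.1 * γ c := by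
  have h : (aeval (arc γ)).comp (scl w τ) =
      (aeval (arc fun c : Fin N × Fin n => τ ^ w c.1 * γ c) :
        MvPolynomial (Fin N) ℂ →ₐ[ℂ] Polynomial ℂ) := by
    apply MvPolynomial.algHom_ext
    intro i
    rw [AlgHom.comp_apply]
    unfold scl
    rw [aeval_X, map_mul, aeval_X, aeval_X]
    have h1 : (aeval (arc γ)) (C (τ ^ w i) : MvPolynomial (Fin N) ℂ) = Polynomial.C (τ ^ w i) := by
      rw [MvPolynomial.aeval_C]
      rfl
    rw [h1]
    unfold arc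
    rw [Finset.mul_sum]
    refine Finset.sum_congr rfl fun l _ => ?_
    rw [map_mul]
    ring
  exact DFunLike.congr_fun h f

theorem inv_of_scale {N : ℕ} {J : Ideal (MvPolynomial (Fin N) ℂ)} {p : Fin N → ℂ}
    {y : MvPolynomial (Fin N) ℂ → ℂ} {w : Fin N → ℤ}
    (hJ : ∀ τ : ℂ, τ ≠ 0 → ∀ f ∈ J, scl w τ f ∈ J)
    (hy : ∀ τ : ℂ, τ ≠ 0 → ∀ f ∈ J, y (scl w τ f) = y f) (hp : ∀ i, w i ≠ 0 → p i = 0) :
    Inv J p y w := by
  intro d hd γ hγ τ hτ
  obtain ⟨h1, h2⟩ := hγ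
  refine ⟨fun i => ?_, fun f hf => ?_⟩
  · show τ ^ w i * γ (i, 0) = p i
    rw [h1 i]
    by_cases hw : w i = 0
    · rw [hw, zpow_zero, one_mul]
    · rw [hp i hw, mul_zero]
  · rw [← along_scl w τ f γ]
    have h3 := h2 (scl w τ f) (hJ τ hτ f hf)
    rw [hy τ hτ f hf] at h3
    exact h3

variable {s N : ℕ} {σ : Fin s → Shp}

theorem scl_mem (e : (Σ a, (σ a).Idx) ≃ Fin N) (J : Ideal (MvPolynomial (Fin N) ℂ))
    (hJ : ShStable σ e J) (ra ca : Fin s → ℕ → ℤ) (hrc : RC σ ra ca) (τ : ℂ) (hτ : τ ≠ 0)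
    (f : MvPolynomial (Fin N) ℂ) (hf : f ∈ J) : scl (wS e ra ca) τ f ∈ J := by
  obtain ⟨g, hg⟩ : ∃ g : ∀ a, Matrix (Fin (σ a).row) (Fin (σ a).row) ℂ,
      g = fun a => Matrix.diagonal fun i : Fin (σ a).row => τ ^ ra a i := ⟨_, rfl⟩
  obtain ⟨h, hh⟩ : ∃ h : ∀ a, Matrix (Fin (σ a).col) (Fin (σ a).col) ℂ,
      h = fun a => Matrix.diagonal fun k : Fin (σ a).col => τ ^ ca a k := ⟨_, rfl⟩
  have key : scl (wS e ra ca) τ = shSub σ e g h := by
    apply MvPolynomial.algHom_ext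
    intro i
    unfold scl shSub
    rw [aeval_X, aeval_X]
    have h1 := Shp.actI_diagonal (R := MvPolynomial (Fin N) ℂ) (σ (e.symm i).1)
      (fun j => C (τ ^ ra (e.symm i).1 j)) (fun j => C (τ ^ ca (e.symm i).1 j))
      (fun κ n hs => by rw [hrc _ κ n hs]) (fun p => X (e ⟨(e.symm i).1, p⟩)) (e.symm i).2
    have h2 : (g (e.symm i).1).map (C : ℂ → MvPolynomial (Fin N) ℂ) =
        Matrix.diagonal fun j : Fin (σ (e.symm i).1).row => C (τ ^ ra (e.symm i).1 j) := by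
      rw [hg]
      show (Matrix.diagonal fun j : Fin (σ (e.symm i).1).row => τ ^ ra (e.symm i).1 j).map C = _
      rw [Matrix.diagonal_map (map_zero _)]
    have h3 : (h (e.symm i).1).map (C : ℂ → MvPolynomial (Fin N) ℂ) =
        Matrix.diagonal fun j : Fin (σ (e.symm i).1).col => C (τ ^ ca (e.symm i).1 j) := by
      rw [hh]
      show (Matrix.diagonal fun j : Fin (σ (e.symm i).1).col => τ ^ ca (e.symm i).1 j).map C = _
      rw [Matrix.diagonal_map (map_zero _)]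
    rw [h2, h3]
    refine Eq.trans ?_ h1.symm
    have h4 : e ⟨(e.symm i).1, (e.symm i).2⟩ = i := e.apply_symm_apply i
    rw [h4, ← map_mul, ← zpow_add₀ hτ]
    rfl
  rw [key]
  refine hJ g h (fun a => ?_) (fun a => ?_) f hf
  · rw [hg]
    show (Matrix.diagonal fun i : Fin (σ a).row => τ ^ ra a i).det ≠ 0
    rw [Matrix.det_diagonal, Finset.prod_ne_zero_iff]
    exact fun i _ => zpow_ne_zero _ hτ
  · rw [hh]
    show (Matrix.diagonal fun k : Fin (σ a).col => τ ^ ca a k).det ≠ 0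
    rw [Matrix.det_diagonal, Finset.prod_ne_zero_iff]
    exact fun i _ => zpow_ne_zero _ hτ

/-- along an arc -/
theorem aeval_scl {R : Type} [CommRing R] [Algebra ℂ R] (w : Fin N → ℤ) (τ : ℂ)
    (f : MvPolynomial (Fin N) ℂ) (Y : Fin N → R) :
    aeval Y (scl w τ f) = aeval (fun i => algebraMap ℂ R (τ ^ w i) * Y i) f := by
  have h : (aeval Y).comp (scl w τ) =
      (aeval (fun i => algebraMap ℂ R (τ ^ w i) * Y i) : MvPolynomial (Fin N) ℂ →ₐ[ℂ] R) := by
    apply MvPolynomial.algHom_ext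
    intro i
    rw [AlgHom.comp_apply]
    unfold scl
    rw [aeval_X, map_mul, aeval_X, aeval_X, MvPolynomial.aeval_C]
  exact DFunLike.congr_fun h f

end MotMono
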