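import Pool.Agent.Lib.MP_4e5fcd_ag.Ic.G4

/-! # IC-G5: cone points of arcs fixed by a one-parameter group

PROOF. `inv_of_scale` with `scl_mem`; `yv k Y (scl w τ f) = yv k Y f` by `aeval_scl`: `τ ^ w i * Y i = Y i`, since `w i = 0` or
`Y i = 0`; `p0 Y i = 0` if `w i ≠ 0`. -/

open MvPolynomial

namespace MotMono

variable {s N : ℕ} {σ : Fin s → Shp}

theorem inv_arc (e : (Σ a, (σ a).Idx) ≃ Fin N) (J : Ideal (MvPolynomial (Fin N) ℂ))
    (hJ : ShStable σ e J) (ra ca : Fin s → ℕ → ℤ) (hrc : RC σ ra ca) (Y : Fin N → PowerSeries ℂ)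
    (hY : ∀ i, wS e ra ca i ≠ 0 → Y i = 0) (k : ℕ) :
    Inv J (p0 Y) (yv k Y) (wS e ra ca) := by
  refine inv_of_scale (fun τ hτ f hf => scl_mem e J hJ ra ca hrc τ hτ f hf)
    (fun τ _ f _ => ?_) (fun i hi => ?_)
  · have h1 : (fun i => algebraMap ℂ (PowerSeries ℂ) (τ ^ wS e ra ca i) * Y i) = Y := by
      funext i
      by_cases h : wS e ra ca i = 0
      · rw [h, zpow_zero, map_one, one_mul]
      · rw [hY i h, mul_zero]
    unfold yv
    rw [aeval_scl, h1]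
  · unfold p0
    rw [hY i hi, map_zero]

end MotMono
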