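import Pool.Agent.Lib.MP_4e5fcd_ag.Ic.G4
import Pool.Agent.Lib.MP_4e5fcd_ag.Cl.E1

/-! # IC-G6: cone points fixed by a one-parameter group

PROOF. `scale_dgP`: at a position `p` with a nonzero entry of the normal form, `pr p = st * i`, `pc p = st * i + st - 1`
(unfold `dgI`), `i = pr p / st < rk` (by cases on the shape), and the entry is `D i`; so multiplication with `τ ^ wS` is
multiplication of the invariant factor `c` with `τ ^ pw c` (for `i ≥ rk` the values do not matter, choose `ra, ca` there).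
`inv_face`: `inv_of_scale`, `scl_mem`. `yv k Y (scl w τ f) = coeff k (aeval (dgP e D') f)` with `D' a i = τ ^ pw * X ^ lm a i`
(`aeval_scl`, `scale_dgP`), and `aeval (dgP e D') f = aeval (D' c) (dgR σ e f) = ∑ β ∈ (dgR σ e f).support, coeff β *
∏ c, (τ ^ pw c * X ^ lm c) ^ β c` (`aeval_dgR`, `aeval_def`, `eval₂_eq'`), whose coefficient `k` is
`∑ β with ∑ β c * lm c = k, coeff β * τ ^ (∑ β c * pw c)`; `exS_of_support` and `hv`: `τ ^ 0 = 1`. Starting point: for `w i ≠ 0` the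
entry `Y i` is `0` or `X ^ lm c` with `pw c = w i ≠ 0`, so `lm c ≠ 0` by `hp`. -/

open MvPolynomial

namespace MotMono

variable {s N : ℕ} {σ : Fin s → Shp}

private theorem G6_div (τ : Shp) (p : τ.Idx)
    (h : (τ.pr p : ℕ) % τ.st = 0 ∧ (τ.pc p : ℕ) + 1 = τ.pr p + τ.st) :
    (τ.pr p : ℕ) / τ.st < τ.rk := by
  obtain ⟨h1, h2⟩ := h
  cases τ with
  | gen m n =>
    have e1 : (Shp.gen m n).st = 1 := rfl
    have e2 : (Shp.gen m n).rk = m := rfl
    have e3 : ((Shp.gen m n).pr p : ℕ) < m := ((Shp.gen m n).pr p).2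
    rw [e1] at h1 h2 ⊢
    rw [e2, Nat.div_one]
    omega
  | eps κ n =>
    have e3 : ((Shp.eps κ n).pr p : ℕ) < n := ((Shp.eps κ n).pr p).2
    have e4 : ((Shp.eps κ n).pc p : ℕ) < n := ((Shp.eps κ n).pc p).2
    cases κ with
    | false =>
      have e1 : (Shp.eps false n).st = 2 := rfl
      have e2 : (Shp.eps false n).rk = n / 2 := rfl
      rw [e1] at h1 h2 ⊢
      rw [e2]
      omega
    | true =>
      have e1 : (Shp.eps true n).st = 1 := rfl
      have e2 : (Shp.eps true n).rk = n / 1 := rfl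
      rw [e1] at h1 h2 ⊢
      rw [e2, Nat.div_one, Nat.div_one]
      omega

private theorem G6_wt (τ : Shp) (p : τ.Idx) (ra ca : ℕ → ℤ)
    (h : (τ.pr p : ℕ) % τ.st = 0 ∧ (τ.pc p : ℕ) + 1 = τ.pr p + τ.st) :
    ra (τ.st * ((τ.pr p : ℕ) / τ.st)) + ca (τ.st * ((τ.pr p : ℕ) / τ.st) + τ.st - 1) =
      ra (τ.pr p) + ca (τ.pc p) := by
  have h1 : τ.st * ((τ.pr p : ℕ) / τ.st) = τ.pr p :=
    Nat.mul_div_cancel' (Nat.dvd_of_mod_eq_zero h.1)
  rw [h1, ← h.2, Nat.add_sub_cancel]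

theorem scale_dgP {R : Type} [CommRing R] [Algebra ℂ R] (e : (Σ a, (σ a).Idx) ≃ Fin N)
    (ra ca : Fin s → ℕ → ℤ) (τ : ℂ) (D : Fin s → ℕ → R) :
    (fun i => algebraMap ℂ R (τ ^ wS e ra ca i) * dgP e D i) =
      dgP e fun a i => algebraMap ℂ R
        (τ ^ (ra a ((σ a).st * i) + ca a ((σ a).st * i + (σ a).st - 1))) * D a i := by
  funext i
  unfold dgP ptS Shp.dgI wS
  dsimp only
  by_cases h : ((σ (e.symm i).1).pr (e.symm i).2 : ℕ) % (σ (e.symm i).1).st = 0 ∧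
      ((σ (e.symm i).1).pc (e.symm i).2 : ℕ) + 1 =
        (σ (e.symm i).1).pr (e.symm i).2 + (σ (e.symm i).1).st
  · rw [if_pos h, if_pos h, G6_wt _ _ (ra (e.symm i).1) (ca (e.symm i).1) h]
  · rw [if_neg h, if_neg h, mul_zero]

private theorem G6_coeff (P : MvPolynomial (Σ a, Fin (σ a).rk) ℂ)
    (t : (Σ a, Fin (σ a).rk) → ℂ) (l : (Σ a, Fin (σ a).rk) → ℕ) (k : ℕ) :
    PowerSeries.coeff k (aeval (fun c => algebraMap ℂ (PowerSeries ℂ) (t c) *
      (PowerSeries.X : PowerSeries ℂ) ^ l c) P) =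
      ∑ β ∈ P.support, coeff β P * (∏ c, t c ^ β c) * (if ∑ c, β c * l c = k then 1 else 0) := by
  rw [aeval_def, eval₂_eq', map_sum]
  refine Finset.sum_congr rfl fun β _ => ?_
  have h1 : ∏ c, (algebraMap ℂ (PowerSeries ℂ) (t c) * (PowerSeries.X : PowerSeries ℂ) ^ l c) ^ β c =
      algebraMap ℂ (PowerSeries ℂ) (∏ c, t c ^ β c) * (PowerSeries.X : PowerSeries ℂ) ^
        (∑ c, β c * l c) := by
    rw [← Finset.prod_pow_eq_pow_sum, map_prod, ← Finset.prod_mul_distrib]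
    refine Finset.prod_congr rfl fun c _ => ?_
    rw [mul_pow, map_pow, ← pow_mul, mul_comm (l c)]
  rw [h1, ← mul_assoc, ← map_mul]
  have h2 : algebraMap ℂ (PowerSeries ℂ) (coeff β P * ∏ c, t c ^ β c) =
      PowerSeries.C (coeff β P * ∏ c, t c ^ β c) := rfl
  rw [h2, PowerSeries.coeff_C_mul, PowerSeries.coeff_X_pow]
  by_cases h3 : ∑ c, β c * l c = k
  · rw [if_pos h3, if_pos h3.symm]
  · rw [if_neg h3, if_neg (Ne.symm h3)]

theorem inv_face (e : (Σ a, (σ a).Idx) ≃ Fin N) (J : Ideal (MvPolynomial (Fin N) ℂ))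
    (hJ : ShStable σ e J) (ra ca : Fin s → ℕ → ℤ) (hrc : RC σ ra ca) (lm : Fin s → ℕ → ℕ) (k : ℕ)
    (hv : ∀ β ∈ ExS σ e J, ∑ c : (Σ a, Fin (σ a).rk), β c * lm c.1 c.2 = k →
      ∑ c, (β c : ℤ) * pw σ ra ca c = 0)
    (hp : ∀ c : (Σ a, Fin (σ a).rk), lm c.1 c.2 = 0 → pw σ ra ca c = 0) :
    Inv J (p0 (dgP e fun a i => (PowerSeries.X : PowerSeries ℂ) ^ lm a i))
      (yv k (dgP e fun a i => (PowerSeries.X : PowerSeries ℂ) ^ lm a i)) (wS e ra ca) := by
  refine inv_of_scale (fun τ hτ f hf => scl_mem e J hJ ra ca hrc τ hτ f hf) ?_ ?_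
  · intro τ hτ f hf
    unfold yv
    rw [aeval_scl, scale_dgP, ← aeval_dgR, ← aeval_dgR]
    have h1 := G6_coeff (dgR σ e f) (fun c => τ ^ pw σ ra ca c) (fun c => lm c.1 c.2) k
    have h2 := G6_coeff (dgR σ e f) (fun _ => 1) (fun c => lm c.1 c.2) k
    simp only [map_one, one_mul] at h2
    refine Eq.trans h1 (Eq.trans ?_ h2.symm)
    refine Finset.sum_congr rfl fun β hβ => ?_
    by_cases h3 : ∑ c, β c * lm c.1 c.2 = k
    · have h4 := hv (fun c => β c) (exS_of_support e J hJ f hf β hβ) h3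
      have h5 : ∏ c, (τ ^ pw σ ra ca c) ^ β c = 1 := by
        have h6 : ∀ c, (τ ^ pw σ ra ca c) ^ β c = τ ^ ((β c : ℤ) * pw σ ra ca c) := by
          intro c
          rw [mul_comm, zpow_mul, zpow_natCast]
        rw [Finset.prod_congr rfl fun c _ => h6 c]
        have h7 : ∀ S : Finset (Σ a, Fin (σ a).rk), ∏ c ∈ S, τ ^ ((β c : ℤ) * pw σ ra ca c) =
            τ ^ (∑ c ∈ S, (β c : ℤ) * pw σ ra ca c) := by
          classical
          intro S
          induction S using Finset.induction_on with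
          | empty => simp
          | insert c S hc ih => rw [Finset.prod_insert hc, Finset.sum_insert hc, ih, zpow_add₀ hτ]
        rw [h7, h4, zpow_zero]
      rw [h5]
      simp
    · rw [if_neg h3, mul_zero, mul_zero]
  · intro i hi
    unfold p0 dgP ptS Shp.dgI
    dsimp only
    by_cases h : ((σ (e.symm i).1).pr (e.symm i).2 : ℕ) % (σ (e.symm i).1).st = 0 ∧
        ((σ (e.symm i).1).pc (e.symm i).2 : ℕ) + 1 =
          (σ (e.symm i).1).pr (e.symm i).2 + (σ (e.symm i).1).st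
    · rw [if_pos h]
      have h1 := G6_div _ _ h
      have h2 : lm (e.symm i).1 (((σ (e.symm i).1).pr (e.symm i).2 : ℕ) / (σ (e.symm i).1).st) ≠
          0 := by
        intro h3
        apply hi
        have h4 := hp ⟨(e.symm i).1, ⟨_, h1⟩⟩ h3
        rw [← h4]
        exact (G6_wt _ _ (ra (e.symm i).1) (ca (e.symm i).1) h).symm
      rw [map_pow, PowerSeries.constantCoeff_X, zero_pow h2]
    · rw [if_neg h, map_zero]

end MotMono
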