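import Pool.Agent.Lib.MP_4e5fcd_ag.Ic.G1
import Pool.Agent.Lib.MP_4e5fcd_ag.Cl.A2
import Pool.Agent.Lib.MP_4e5fcd_ag.Cl.K0

/-! # IC-G7: translation of contact jets by the group

PROOF. Let `T` be the linear map of `ℂ^N` with `T x = ptS e fun a => (σ a).actI (g a) (h a) (x (e ⟨a, ·⟩))` and `γ ↦ T γ` levelwise,
`(T γ) (i, l) = (T (γ (·, l))) i`. `actI` is linear in the last argument (unfold `actI`, `act`, `mat`, `ent`: a sum
of products of entries of `g`, `h` and one entry of `x`), so `arc (T γ) = ptS e fun a => actI (g a) (h a) (arc γ (e ⟨a, ·⟩))` over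
`Polynomial ℂ`, and `along f (T γ) = along (shSub σ e g h f) γ` (`aeval_shSub`, `Cl/A2.lean`). With the inverse
matrices (`shSub` of the inverses is inverse to `shSub σ e g h`: by `aeval_shSub`, `actI_actI`, `actI_one` on the
generic point `X`, or by `MvPolynomial.funext` and `eval_shSub`) `T` is a bijection from `CS J p y d` to
`CS J (T p) (y ∘ shSub σ e g h) d`, and both maps are regular (linear in the coordinates, polynomials:
`RegFun` with denominator `1`). So the classes agree (relation `Rel.iso`). -/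

open MvPolynomial

namespace MotMono

variable {s N : ℕ} {σ : Fin s → Shp}

private theorem G7_mat_add {R : Type} [CommRing R] (τ : Shp) (x y : τ.Idx → R) :
    τ.mat (fun p => x p + y p) = τ.mat x + τ.mat y := by
  cases τ with
  | gen m n => rfl
  | eps κ n =>
    ext i k
    rw [Matrix.add_apply]
    show (if h : i < k then (x ⟨(i, k), Or.inl h⟩ + y ⟨(i, k), Or.inl h⟩)
      else if h' : k < i then (if κ = true then 1 else -1) * (x ⟨(k, i), Or.inl h'⟩ + y ⟨(k, i), Or.inl h'⟩)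
      else if hκ : κ = true then (x ⟨(i, k), Or.inr ⟨hκ, le_antisymm (not_lt.1 h') (not_lt.1 h)⟩⟩ +
          y ⟨(i, k), Or.inr ⟨hκ, le_antisymm (not_lt.1 h') (not_lt.1 h)⟩⟩)
      else 0) = (if h : i < k then x ⟨(i, k), Or.inl h⟩
      else if h' : k < i then (if κ = true then 1 else -1) * x ⟨(k, i), Or.inl h'⟩
      else if hκ : κ = true then x ⟨(i, k), Or.inr ⟨hκ, le_antisymm (not_lt.1 h') (not_lt.1 h)⟩⟩
      else 0) + (if h : i < k then y ⟨(i, k), Or.inl h⟩
      else if h' : k < i then (if κ = true then 1 else -1) * y ⟨(k, i), Or.inl h'⟩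
      else if hκ : κ = true then y ⟨(i, k), Or.inr ⟨hκ, le_antisymm (not_lt.1 h') (not_lt.1 h)⟩⟩
      else 0)
    split_ifs
    · rfl
    · rw [one_mul, one_mul, one_mul]
    · rw [mul_add]
    · rfl
    · rw [add_zero]

private theorem G7_mat_smul {R : Type} [CommRing R] (τ : Shp) (c : R) (x : τ.Idx → R) :
    τ.mat (fun p => c * x p) = c • τ.mat x := by
  cases τ with
  | gen m n => rfl
  | eps κ n =>
    ext i k
    rw [Matrix.smul_apply, smul_eq_mul]
    show (if h : i < k then c * x ⟨(i, k), Or.inl h⟩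
      else if h' : k < i then (if κ = true then 1 else -1) * (c * x ⟨(k, i), Or.inl h'⟩)
      else if hκ : κ = true then c * x ⟨(i, k), Or.inr ⟨hκ, le_antisymm (not_lt.1 h') (not_lt.1 h)⟩⟩
      else 0) = c * (if h : i < k then x ⟨(i, k), Or.inl h⟩
      else if h' : k < i then (if κ = true then 1 else -1) * x ⟨(k, i), Or.inl h'⟩
      else if hκ : κ = true then x ⟨(i, k), Or.inr ⟨hκ, le_antisymm (not_lt.1 h') (not_lt.1 h)⟩⟩
      else 0)
    split_ifs <;> ring

private theorem G7_add {R : Type} [CommRing R] (τ : Shp) (g : Matrix (Fin τ.row) (Fin τ.row) R)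
    (h : Matrix (Fin τ.col) (Fin τ.col) R) (x y : τ.Idx → R) :
    τ.actI g h (x + y) = τ.actI g h x + τ.actI g h y := by
  have h1 : ∀ M M' : Matrix (Fin τ.row) (Fin τ.col) R,
      τ.act g h (M + M') = τ.act g h M + τ.act g h M' := by
    intro M M'
    cases τ with
    | gen m n =>
      show g * (M + M') * h = g * M * h + g * M' * h
      rw [Matrix.mul_add, Matrix.add_mul]
    | eps κ n =>
      show g * (M + M') * g.transpose = g * M * g.transpose + g * M' * g.transpose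
      rw [Matrix.mul_add, Matrix.add_mul]
  show τ.ent (τ.act g h (τ.mat fun p => x p + y p)) = _
  rw [G7_mat_add, h1]
  rfl

private theorem G7_smul {R : Type} [CommRing R] (τ : Shp) (g : Matrix (Fin τ.row) (Fin τ.row) R)
    (h : Matrix (Fin τ.col) (Fin τ.col) R) (c : R) (x : τ.Idx → R) (p : τ.Idx) :
    τ.actI g h (fun p => c * x p) p = c * τ.actI g h x p := by
  have h1 : ∀ M : Matrix (Fin τ.row) (Fin τ.col) R, τ.act g h (c • M) = c • τ.act g h M := by
    intro M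
    cases τ with
    | gen m n =>
      show g * (c • M) * h = c • (g * M * h)
      rw [Matrix.mul_smul, Matrix.smul_mul]
    | eps κ n =>
      show g * (c • M) * g.transpose = c • (g * M * g.transpose)
      rw [Matrix.mul_smul, Matrix.smul_mul]
  unfold Shp.actI
  rw [G7_mat_smul, h1]
  rfl

private theorem G7_zero {R : Type} [CommRing R] (τ : Shp) (g : Matrix (Fin τ.row) (Fin τ.row) R)
    (h : Matrix (Fin τ.col) (Fin τ.col) R) : τ.actI g h (0 : τ.Idx → R) = 0 := by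
  funext p
  have h1 := G7_smul τ g h 0 (0 : τ.Idx → R) p
  rw [zero_mul] at h1
  have h2 : (fun p : τ.Idx => (0 : R) * (0 : τ.Idx → R) p) = 0 := by
    funext q
    exact zero_mul _
  rw [h2] at h1
  exact h1

private theorem G7_sum {R ι : Type} [CommRing R] (τ : Shp) (g : Matrix (Fin τ.row) (Fin τ.row) R)
    (h : Matrix (Fin τ.col) (Fin τ.col) R) (S : Finset ι) (x : ι → τ.Idx → R) :
    τ.actI g h (∑ i ∈ S, x i) = ∑ i ∈ S, τ.actI g h (x i) := by
  classical
  induction S using Finset.induction_on with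
  | empty => rw [Finset.sum_empty, Finset.sum_empty, G7_zero]
  | insert a S ha ih => rw [Finset.sum_insert ha, Finset.sum_insert ha, G7_add, ih]

/-- the translation of jets -/
private noncomputable def G7_T (e : (Σ a, (σ a).Idx) ≃ Fin N)
    (g : ∀ a, Matrix (Fin (σ a).row) (Fin (σ a).row) ℂ)
    (h : ∀ a, Matrix (Fin (σ a).col) (Fin (σ a).col) ℂ) {n : ℕ} (γ : Fin N × Fin n → ℂ) :
    Fin N × Fin n → ℂ :=
  fun c => ptS e (fun a => (σ a).actI (g a) (h a) fun q => γ (e ⟨a, q⟩, c.2)) c.1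

private theorem G7_arc (e : (Σ a, (σ a).Idx) ≃ Fin N)
    (g : ∀ a, Matrix (Fin (σ a).row) (Fin (σ a).row) ℂ)
    (h : ∀ a, Matrix (Fin (σ a).col) (Fin (σ a).col) ℂ) {n : ℕ} (γ : Fin N × Fin n → ℂ) :
    arc (G7_T e g h γ) = ptS e fun a => (σ a).actI ((g a).map (algebraMap ℂ (Polynomial ℂ)))
      ((h a).map (algebraMap ℂ (Polynomial ℂ))) fun q => arc γ (e ⟨a, q⟩) := by
  funext i
  show (∑ l : Fin n, Polynomial.C (G7_T e g h γ (i, l)) * Polynomial.X ^ (l : ℕ)) =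
    (σ (e.symm i).1).actI _ _ (fun q => arc γ (e ⟨(e.symm i).1, q⟩)) (e.symm i).2
  have h1 : (fun q : (σ (e.symm i).1).Idx => arc γ (e ⟨(e.symm i).1, q⟩)) =
      ∑ l : Fin n, fun q => (Polynomial.X : Polynomial ℂ) ^ (l : ℕ) *
        algebraMap ℂ (Polynomial ℂ) (γ (e ⟨(e.symm i).1, q⟩, l)) := by
    funext q
    rw [Finset.sum_apply]
    unfold arc
    refine Finset.sum_congr rfl fun l _ => ?_
    rw [mul_comm]
    rfl
  rw [h1, G7_sum, Finset.sum_apply]
  refine Finset.sum_congr rfl fun l _ => ?_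
  rw [G7_smul, mul_comm]
  congr 1
  exact (Shp.actI_map (σ (e.symm i).1) (algebraMap ℂ (Polynomial ℂ)) (g (e.symm i).1)
    (h (e.symm i).1) (fun q => γ (e ⟨(e.symm i).1, q⟩, l)) (e.symm i).2).symm

private theorem G7_along (e : (Σ a, (σ a).Idx) ≃ Fin N)
    (g : ∀ a, Matrix (Fin (σ a).row) (Fin (σ a).row) ℂ)
    (h : ∀ a, Matrix (Fin (σ a).col) (Fin (σ a).col) ℂ) {n : ℕ} (γ : Fin N × Fin n → ℂ)
    (f : MvPolynomial (Fin N) ℂ) : along f (G7_T e g h γ) = along (shSub σ e g h f) γ := by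
  unfold along
  rw [G7_arc]
  have h1 : arc γ = ptS e fun a q => arc γ (e ⟨a, q⟩) := by
    funext i
    unfold ptS
    show arc γ i = arc γ (e (e.symm i))
    rw [e.apply_symm_apply]
  conv_rhs => rw [h1]
  rw [aeval_shSub]

private theorem G7_inv (e : (Σ a, (σ a).Idx) ≃ Fin N)
    (g g' : ∀ a, Matrix (Fin (σ a).row) (Fin (σ a).row) ℂ)
    (h h' : ∀ a, Matrix (Fin (σ a).col) (Fin (σ a).col) ℂ) (hg : ∀ a, g' a * g a = 1)
    (hh : ∀ a, h a * h' a = 1) {n : ℕ} (γ : Fin N × Fin n → ℂ) :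
    G7_T e g' h' (G7_T e g h γ) = γ := by
  funext c
  show (σ (e.symm c.1).1).actI (g' (e.symm c.1).1) (h' (e.symm c.1).1)
    (fun q => G7_T e g h γ (e ⟨(e.symm c.1).1, q⟩, c.2)) (e.symm c.1).2 = γ c
  have h1 : (fun q => G7_T e g h γ (e ⟨(e.symm c.1).1, q⟩, c.2)) =
      (σ (e.symm c.1).1).actI (g (e.symm c.1).1) (h (e.symm c.1).1)
        fun q => γ (e ⟨(e.symm c.1).1, q⟩, c.2) := by
    funext q
    show (σ (e.symm (e ⟨(e.symm c.1).1, q⟩)).1).actI _ _ _ (e.symm (e ⟨(e.symm c.1).1, q⟩)).2 = _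
    rw [e.symm_apply_apply]
  rw [h1, Shp.actI_actI, hg, hh, Shp.actI_one]
  show γ (e (e.symm c.1), c.2) = γ c
  rw [e.apply_symm_apply]

private theorem G7_sub (e : (Σ a, (σ a).Idx) ≃ Fin N)
    (g g' : ∀ a, Matrix (Fin (σ a).row) (Fin (σ a).row) ℂ)
    (h h' : ∀ a, Matrix (Fin (σ a).col) (Fin (σ a).col) ℂ) (hg : ∀ a, g' a * g a = 1)
    (hh : ∀ a, h a * h' a = 1) (f : MvPolynomial (Fin N) ℂ) :
    shSub σ e g h (shSub σ e g' h' f) = f := by
  apply MvPolynomial.funext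
  intro x
  have h1 : x = ptS e fun a q => x (e ⟨a, q⟩) := by
    funext i
    unfold ptS
    show x i = x (e (e.symm i))
    rw [e.apply_symm_apply]
  rw [h1, eval_shSub, eval_shSub]
  congr 1
  have h2 : (fun a => (σ a).actI (g' a) (h' a) ((σ a).actI (g a) (h a) fun q => x (e ⟨a, q⟩))) =
      fun a q => x (e ⟨a, q⟩) := by
    funext a
    rw [Shp.actI_actI, hg, hh, Shp.actI_one]
  rw [h2]

private theorem G7_reg (e : (Σ a, (σ a).Idx) ≃ Fin N)
    (g : ∀ a, Matrix (Fin (σ a).row) (Fin (σ a).row) ℂ)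
    (h : ∀ a, Matrix (Fin (σ a).col) (Fin (σ a).col) ℂ) {n : ℕ} (E : Set (Fin N × Fin n → ℂ)) :
    RegularOn E (G7_T e g h) := by
  intro c
  refine (regFun_poly E ((σ (e.symm c.1).1).actI
    ((g (e.symm c.1).1).map (C : ℂ →+* MvPolynomial (Fin N × Fin n) ℂ))
    ((h (e.symm c.1).1).map (C : ℂ →+* MvPolynomial (Fin N × Fin n) ℂ))
    (fun q => X (e ⟨(e.symm c.1).1, q⟩, c.2)) (e.symm c.1).2)).congr fun γ _ => ?_
  have h1 := Shp.actI_map (σ (e.symm c.1).1) (eval γ)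
    ((g (e.symm c.1).1).map (C : ℂ →+* MvPolynomial (Fin N × Fin n) ℂ))
    ((h (e.symm c.1).1).map (C : ℂ →+* MvPolynomial (Fin N × Fin n) ℂ))
    (fun q => X (e ⟨(e.symm c.1).1, q⟩, c.2)) (e.symm c.1).2
  rw [← h1]
  have h2 : ((g (e.symm c.1).1).map (C : ℂ →+* MvPolynomial (Fin N × Fin n) ℂ)).map (eval γ) =
      g (e.symm c.1).1 := by
    ext i j
    simp
  have h3 : ((h (e.symm c.1).1).map (C : ℂ →+* MvPolynomial (Fin N × Fin n) ℂ)).map (eval γ) =
      h (e.symm c.1).1 := by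
    ext i j
    simp
  rw [h2, h3]
  simp only [eval_X]
  rfl

theorem cls_CS_trans (e : (Σ a, (σ a).Idx) ≃ Fin N) (J : Ideal (MvPolynomial (Fin N) ℂ))
    (hJ : ShStable σ e J) (g : ∀ a, Matrix (Fin (σ a).row) (Fin (σ a).row) ℂ)
    (h : ∀ a, Matrix (Fin (σ a).col) (Fin (σ a).col) ℂ) (hg : ∀ a, (g a).det ≠ 0)
    (hh : ∀ a, (h a).det ≠ 0) (p : Fin N → ℂ) (y : MvPolynomial (Fin N) ℂ → ℂ) (d : ℕ) :
    cls (CS J p y d) =
      cls (CS J (ptS e fun a => (σ a).actI (g a) (h a) fun q => p (e ⟨a, q⟩))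
        (fun f => y (shSub σ e g h f)) d) := by
  have hg1 : ∀ a, (g a)⁻¹ * g a = 1 := fun a =>
    Matrix.nonsing_inv_mul _ (isUnit_iff_ne_zero.mpr (hg a))
  have hg2 : ∀ a, g a * (g a)⁻¹ = 1 := fun a =>
    Matrix.mul_nonsing_inv _ (isUnit_iff_ne_zero.mpr (hg a))
  have hh1 : ∀ a, (h a)⁻¹ * h a = 1 := fun a =>
    Matrix.nonsing_inv_mul _ (isUnit_iff_ne_zero.mpr (hh a))
  have hh2 : ∀ a, h a * (h a)⁻¹ = 1 := fun a =>
    Matrix.mul_nonsing_inv _ (isUnit_iff_ne_zero.mpr (hh a))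
  refine cls_iso (constr_CS _ _ _ _) (constr_CS _ _ _ _) ⟨G7_T e g h,
    G7_T e (fun a => (g a)⁻¹) (fun a => (h a)⁻¹), G7_reg e _ _ _, G7_reg e _ _ _, ?_, ?_, ?_, ?_⟩
  · rintro γ ⟨h1, h2⟩
    refine ⟨fun i => ?_, fun f hf => ?_⟩
    · show ptS e (fun a => (σ a).actI (g a) (h a) fun q => γ (e ⟨a, q⟩, 0)) i = _
      simp only [h1]
    · rw [G7_along]
      exact h2 _ (shSub_mem e J hJ f hf g h)
  · rintro γ ⟨h1, h2⟩
    refine ⟨fun i => ?_, fun f hf => ?_⟩
    · show ptS e (fun a => (σ a).actI (g a)⁻¹ (h a)⁻¹ fun q => γ (e ⟨a, q⟩, 0)) i = _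
      simp only [h1]
      show (σ (e.symm i).1).actI (g (e.symm i).1)⁻¹ (h (e.symm i).1)⁻¹
        (fun q => ptS e (fun a => (σ a).actI (g a) (h a) fun q => p (e ⟨a, q⟩))
          (e ⟨(e.symm i).1, q⟩)) (e.symm i).2 = p i
      have h3 : (fun q => ptS e (fun a => (σ a).actI (g a) (h a) fun q => p (e ⟨a, q⟩))
          (e ⟨(e.symm i).1, q⟩)) = (σ (e.symm i).1).actI (g (e.symm i).1) (h (e.symm i).1)
            fun q => p (e ⟨(e.symm i).1, q⟩) := by
        funext q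
        show (σ (e.symm (e ⟨(e.symm i).1, q⟩)).1).actI _ _ _
          (e.symm (e ⟨(e.symm i).1, q⟩)).2 = _
        rw [e.symm_apply_apply]
      rw [h3, Shp.actI_actI, hg1, hh2, Shp.actI_one]
      show p (e (e.symm i)) = p i
      rw [e.apply_symm_apply]
    · rw [G7_along]
      have h3 := h2 _ (shSub_mem e J hJ f hf (fun a => (g a)⁻¹) (fun a => (h a)⁻¹))
      dsimp only at h3
      rwa [G7_sub e g (fun a => (g a)⁻¹) h (fun a => (h a)⁻¹) hg1 hh2] at h3
  · intro γ _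
    exact G7_inv e g (fun a => (g a)⁻¹) h (fun a => (h a)⁻¹) hg1 hh2 γ
  · intro γ _
    exact G7_inv e (fun a => (g a)⁻¹) g (fun a => (h a)⁻¹) h hg2 hh1 γ

end MotMono
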