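import Pool.Agent.Lib.MP_4e5fcd_ag.Ic.G7

/-! # IC-G8: translation of arcs by the group

PROOF. Choose `g`, `h` (`choose`). `yv k (ptS e Z) (shSub σ e g h f) = yv k (ptS e Z') f` by `aeval_shSub`
(`Cl/A2.lean`), and `p0 (ptS e Z')` is the image of `p0 (ptS e Z)` (`Shp.actI_map` with `PowerSeries.constantCoeff`;
`constantCoeff ∘ algebraMap ℂ = id`). So `CS J (p0 (ptS e Z)) (yv k (ptS e Z)) d` has the class of
`CS J (p0 (ptS e Z')) (fun f => yv k (ptS e Z) (shSub σ e g h f)) d` (`cls_CS_trans`) `= CS J (p0 (ptS e Z')) (yv k (ptS e Z')) d`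
(`CS_congr`). `ordAt_trans`: `→`: `aeval (ptS e Z') f = aeval (ptS e Z) (shSub σ e g h f)` and `shSub σ e g h` maps `J` onto
`J` (its inverse is `shSub` of the inverse matrices). -/

open MvPolynomial

namespace MotMono

variable {s N : ℕ} {σ : Fin s → Shp}

private theorem G8_ptS {R : Type} (e : (Σ a, (σ a).Idx) ≃ Fin N) (Y : ∀ a, (σ a).Idx → R)
    (a : Fin s) (p : (σ a).Idx) : ptS e Y (e ⟨a, p⟩) = Y a p := by
  unfold ptS
  rw [Equiv.symm_apply_apply]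

private theorem G8_cc {n m : ℕ} (g : Matrix (Fin n) (Fin m) ℂ) :
    (g.map (algebraMap ℂ (PowerSeries ℂ))).map (PowerSeries.constantCoeff (R := ℂ)) = g := by
  ext i j
  rw [Matrix.map_apply, Matrix.map_apply]
  exact PowerSeries.constantCoeff_C _

private theorem G8_p0 (e : (Σ a, (σ a).Idx) ≃ Fin N) (Z Z' : ∀ a, (σ a).Idx → PowerSeries ℂ)
    (g : ∀ a, Matrix (Fin (σ a).row) (Fin (σ a).row) ℂ)
    (h : ∀ a, Matrix (Fin (σ a).col) (Fin (σ a).col) ℂ)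
    (hZ : ∀ a, Z' a = (σ a).actI ((g a).map (algebraMap ℂ (PowerSeries ℂ)))
          ((h a).map (algebraMap ℂ (PowerSeries ℂ))) (Z a)) :
    p0 (ptS e Z') = ptS e fun a => (σ a).actI (g a) (h a) fun q => p0 (ptS e Z) (e ⟨a, q⟩) := by
  funext i
  obtain ⟨⟨a, p⟩, rfl⟩ := e.surjective i
  rw [G8_ptS]
  unfold p0
  rw [G8_ptS, hZ a]
  have h1 := Shp.actI_map (σ a) (PowerSeries.constantCoeff (R := ℂ))
    ((g a).map (algebraMap ℂ (PowerSeries ℂ))) ((h a).map (algebraMap ℂ (PowerSeries ℂ))) (Z a) p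
  rw [G8_cc, G8_cc] at h1
  rw [← h1]
  simp only [G8_ptS]

private theorem G8_ev (e : (Σ a, (σ a).Idx) ≃ Fin N) (Z Z' : ∀ a, (σ a).Idx → PowerSeries ℂ)
    (g : ∀ a, Matrix (Fin (σ a).row) (Fin (σ a).row) ℂ)
    (h : ∀ a, Matrix (Fin (σ a).col) (Fin (σ a).col) ℂ)
    (hZ : ∀ a, Z' a = (σ a).actI ((g a).map (algebraMap ℂ (PowerSeries ℂ)))
          ((h a).map (algebraMap ℂ (PowerSeries ℂ))) (Z a)) (f : MvPolynomial (Fin N) ℂ) :
    aeval (ptS e Z) (shSub σ e g h f) = aeval (ptS e Z') f := by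
  rw [aeval_shSub]
  have h1 : (fun a => (σ a).actI ((g a).map (algebraMap ℂ (PowerSeries ℂ)))
      ((h a).map (algebraMap ℂ (PowerSeries ℂ))) (Z a)) = Z' := by
    funext a
    exact (hZ a).symm
  rw [h1]

theorem tame_trans (e : (Σ a, (σ a).Idx) ≃ Fin N) (J : Ideal (MvPolynomial (Fin N) ℂ))
    (hJ : ShStable σ e J) (k : ℕ) (Z Z' : ∀ a, (σ a).Idx → PowerSeries ℂ)
    (hZ : ∀ a, ∃ (g : Matrix (Fin (σ a).row) (Fin (σ a).row) ℂ)
      (h : Matrix (Fin (σ a).col) (Fin (σ a).col) ℂ), g.det ≠ 0 ∧ h.det ≠ 0 ∧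
        Z' a = (σ a).actI (g.map (algebraMap ℂ (PowerSeries ℂ)))
          (h.map (algebraMap ℂ (PowerSeries ℂ))) (Z a))
    (hT : Tame J (p0 (ptS e Z')) (yv k (ptS e Z'))) : Tame J (p0 (ptS e Z)) (yv k (ptS e Z)) := by
  choose g h hg hh hZ using hZ
  obtain ⟨n, c, hn, hc⟩ := hT
  refine ⟨n, c, hn, fun χ hχ d hd => ?_⟩
  have h1 : cls (CS J (p0 (ptS e Z)) (yv k (ptS e Z)) d) =
      cls (CS J (p0 (ptS e Z')) (yv k (ptS e Z')) d) := by
    rw [cls_CS_trans e J hJ g h hg hh, ← G8_p0 e Z Z' g h hZ]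
    have h2 : (fun f => yv k (ptS e Z) (shSub σ e g h f)) = yv k (ptS e Z') := by
      funext f
      unfold yv
      rw [G8_ev e Z Z' g h hZ]
    rw [h2]
  rw [h1]
  exact hc χ hχ d hd

private theorem G8_inv {n : ℕ} (g : Matrix (Fin n) (Fin n) ℂ) (hg : g.det ≠ 0) :
    ∃ g' : Matrix (Fin n) (Fin n) ℂ, g'.det ≠ 0 ∧ g' * g = 1 ∧ g * g' = 1 := by
  have hu : IsUnit g.det := isUnit_iff_ne_zero.2 hg
  refine ⟨g⁻¹, ?_, Matrix.nonsing_inv_mul g hu, Matrix.mul_nonsing_inv g hu⟩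
  intro h0
  have h1 := congrArg Matrix.det (Matrix.nonsing_inv_mul g hu)
  rw [Matrix.det_mul, h0, zero_mul, Matrix.det_one] at h1
  exact zero_ne_one h1

theorem ordAt_trans (e : (Σ a, (σ a).Idx) ≃ Fin N) (J : Ideal (MvPolynomial (Fin N) ℂ))
    (hJ : ShStable σ e J) (k : ℕ) (Z Z' : ∀ a, (σ a).Idx → PowerSeries ℂ)
    (hZ : ∀ a, ∃ (g : Matrix (Fin (σ a).row) (Fin (σ a).row) ℂ)
      (h : Matrix (Fin (σ a).col) (Fin (σ a).col) ℂ), g.det ≠ 0 ∧ h.det ≠ 0 ∧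
        Z' a = (σ a).actI (g.map (algebraMap ℂ (PowerSeries ℂ)))
          (h.map (algebraMap ℂ (PowerSeries ℂ))) (Z a))
    (hO : OrdAt J (ptS e Z) k) : OrdAt J (ptS e Z') k := by
  choose g h hg hh hZ using hZ
  obtain ⟨h1, f, hf, h2⟩ := hO
  refine ⟨fun f hf => ?_, ?_⟩
  · rw [← G8_ev e Z Z' g h hZ]
    exact h1 _ (hJ g h hg hh f hf)
  · choose g' hg' hgg _ using fun a => G8_inv (g a) (hg a)
    choose h' hh' _ hhh using fun a => G8_inv (h a) (hh a)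
    refine ⟨shSub σ e g' h' f, hJ g' h' hg' hh' f hf, ?_⟩
    have hZ' : ∀ a, Z a = (σ a).actI ((g' a).map (algebraMap ℂ (PowerSeries ℂ)))
          ((h' a).map (algebraMap ℂ (PowerSeries ℂ))) (Z' a) := by
      intro a
      rw [hZ a, Shp.actI_actI, ← Matrix.map_mul, ← Matrix.map_mul, hgg, hhh,
        Matrix.map_one _ (map_zero _) (map_one _), Matrix.map_one _ (map_zero _) (map_one _),
        Shp.actI_one]
    rw [G8_ev e Z' Z g' h' hZ']
    exact h2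

end MotMono
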