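import Pool.Agent.Lib.MP_4e5fcd_ag.Ic.TDefs
import Pool.Agent.Lib.MP_4e5fcd_ag.Cl.A2

/-! # IC-G9: only the constant term of a group element matters

PROOF. `shSub_expand` (`Cl/A1.lean`): `aeval (g • Z) f = ∑ j, aeval (ghS g h) (c j) * aeval (ptS e Z) (F j)` with `F j ∈ J`, the
same `c`, `F` for `(g, h)` and for their constant terms. As `X ^ k ∣ aeval (ptS e Z) (F j)`, the coefficient `k` of
a product `u * v` with `X ^ k ∣ v` is `constantCoeff u * coeff k v` (`PowerSeries.coeff_mul`, or `v = X ^ k * v'`,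
`PowerSeries.coeff_X_pow_mul'`); the constant coefficient of `aeval (ghS g h) (c j)` is that for the constant terms
(`constantCoeff` is a ring homomorphism: `MvPolynomial.map_aeval`/`algHom`, `ghS` commutes with it).
`p0_unit`: `Shp.actI_map` with `PowerSeries.constantCoeff` on both sides. -/

open MvPolynomial

namespace MotMono

variable {s N : ℕ} {σ : Fin s → Shp}

/-- the constant term of a power series, as a power series -/
noncomputable def c0 : PowerSeries ℂ →+* PowerSeries ℂ :=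
  (algebraMap ℂ (PowerSeries ℂ)).comp PowerSeries.constantCoeff

private theorem G9_cc {ι : Type} (u v : ι → PowerSeries ℂ)
    (h : ∀ i, PowerSeries.constantCoeff (u i) = PowerSeries.constantCoeff (v i))
    (p : MvPolynomial ι ℂ) :
    PowerSeries.constantCoeff (aeval u p) = PowerSeries.constantCoeff (aeval v p) := by
  rw [MvPolynomial.map_aeval, MvPolynomial.map_aeval]
  congr 2
  funext i
  exact h i

private theorem G9_c0 (x : PowerSeries ℂ) :
    PowerSeries.constantCoeff (c0 x) = PowerSeries.constantCoeff x := by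
  unfold c0
  rw [RingHom.comp_apply, PowerSeries.algebraMap_apply, Algebra.algebraMap_self, RingHom.id_apply]
  exact PowerSeries.constantCoeff_C _

private theorem G9_coeff (k : ℕ) (u v : PowerSeries ℂ) (hv : (PowerSeries.X : PowerSeries ℂ) ^ k ∣ v) :
    PowerSeries.coeff k (u * v) = PowerSeries.constantCoeff u * PowerSeries.coeff k v := by
  obtain ⟨w, rfl⟩ := hv
  rw [mul_left_comm, PowerSeries.coeff_X_pow_mul', PowerSeries.coeff_X_pow_mul', if_pos le_rfl,
    if_pos le_rfl, Nat.sub_self, PowerSeries.coeff_zero_eq_constantCoeff_apply,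
    PowerSeries.coeff_zero_eq_constantCoeff_apply, map_mul]

theorem yv_unit (e : (Σ a, (σ a).Idx) ≃ Fin N) (J : Ideal (MvPolynomial (Fin N) ℂ))
    (hJ : ShStable σ e J) (k : ℕ) (Z : ∀ a, (σ a).Idx → PowerSeries ℂ)
    (hk : ∀ f ∈ J, (PowerSeries.X : PowerSeries ℂ) ^ k ∣ aeval (ptS e Z) f)
    (g : ∀ a, Matrix (Fin (σ a).row) (Fin (σ a).row) (PowerSeries ℂ))
    (h : ∀ a, Matrix (Fin (σ a).col) (Fin (σ a).col) (PowerSeries ℂ))
    (f : MvPolynomial (Fin N) ℂ) (hf : f ∈ J) :
    yv k (ptS e fun a => (σ a).actI (g a) (h a) (Z a)) f =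
      yv k (ptS e fun a => (σ a).actI ((g a).map c0) ((h a).map c0) (Z a)) f := by
  obtain ⟨K, c, F, hF, hE⟩ := shSub_expand e J hJ f hf
  unfold yv
  rw [hE g h Z, hE (fun a => (g a).map c0) (fun a => (h a).map c0) Z, map_sum, map_sum]
  refine Finset.sum_congr rfl fun j _ => ?_
  rw [G9_coeff k _ _ (hk _ (hF j)), G9_coeff k _ _ (hk _ (hF j))]
  congr 1
  refine G9_cc _ _ (fun i => ?_) _
  rcases i with i | i
  · exact (G9_c0 _).symm
  · exact (G9_c0 _).symm

theorem p0_unit (e : (Σ a, (σ a).Idx) ≃ Fin N) (Z : ∀ a, (σ a).Idx → PowerSeries ℂ)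
    (g : ∀ a, Matrix (Fin (σ a).row) (Fin (σ a).row) (PowerSeries ℂ))
    (h : ∀ a, Matrix (Fin (σ a).col) (Fin (σ a).col) (PowerSeries ℂ)) :
    p0 (ptS e fun a => (σ a).actI (g a) (h a) (Z a)) =
      p0 (ptS e fun a => (σ a).actI ((g a).map c0) ((h a).map c0) (Z a)) := by
  funext x
  unfold p0 ptS
  have h1 := fun (a : Fin s) (g' : Matrix (Fin (σ a).row) (Fin (σ a).row) (PowerSeries ℂ))
    (h' : Matrix (Fin (σ a).col) (Fin (σ a).col) (PowerSeries ℂ)) (p : (σ a).Idx) =>
    Shp.actI_map (σ a) (PowerSeries.constantCoeff (R := ℂ)) g' h' (Z a) p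
  rw [← h1, ← h1]
  have e1 : ∀ a, ((g a).map c0).map (PowerSeries.constantCoeff (R := ℂ)) =
      (g a).map (PowerSeries.constantCoeff (R := ℂ)) := by
    intro a
    ext i j
    exact G9_c0 _
  have e2 : ∀ a, ((h a).map c0).map (PowerSeries.constantCoeff (R := ℂ)) =
      (h a).map (PowerSeries.constantCoeff (R := ℂ)) := by
    intro a
    ext i j
    exact G9_c0 _
  rw [e1, e2]

end MotMono
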