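import Pool.Agent.Lib.MP_4e5fcd_ag.Cl.K0
import Pool.Agent.Lib.MP_4e5fcd_ag.Inv.Smith

/-! # IC-H3: normal form of skew-symmetric matrices with a unimodular matrix

PROOF. Copy `Cl/S1b.lean` (`smith_skew`) and keep track of the determinant: all matrices used there are
products of permutation matrices, unitriangular matrices and block matrices, so `P` has a unit determinant.
Instead of the second identity prove `IsUnit P.det`; where the induction needs the second identity use
`P' = P⁻¹`. -/

open MvPolynomial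

namespace MotMono

namespace H3Aux

variable {R : Type} [CommRing R]

private theorem exists_dvd_all (htot : ∀ a b : R, a ∣ b ∨ b ∣ a) {ι : Type} (s : Finset ι)
    (hs : s.Nonempty) (f : ι → R) : ∃ i ∈ s, ∀ j ∈ s, f i ∣ f j := by
  classical
  induction hs using Finset.Nonempty.cons_induction with
  | singleton a => exact ⟨a, by simp, by simp⟩
  | cons a s ha hs ih =>
    obtain ⟨i, hi, h⟩ := ih
    rcases htot (f a) (f i) with h1 | h1
    · refine ⟨a, by simp, ?_⟩
      intro j hj
      rcases Finset.mem_cons.1 hj with rfl | hj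
      · exact dvd_rfl
      · exact h1.trans (h j hj)
    · refine ⟨i, Finset.mem_cons_of_mem hi, ?_⟩
      intro j hj
      rcases Finset.mem_cons.1 hj with rfl | hj
      · exact h1
      · exact h j hj

/-- the normal form -/
private def SJ (n : ℕ) (D : ℕ → R) : Matrix (Fin n) (Fin n) R := fun i k =>
  if (i : ℕ) % 2 = 0 ∧ (k : ℕ) = i + 1 then D ((i : ℕ) / 2)
  else if (k : ℕ) % 2 = 0 ∧ (i : ℕ) = k + 1 then -D ((k : ℕ) / 2) else 0

private theorem dgI_pos (n : ℕ) (D : ℕ → R) (i k : Fin n) (h : i < k)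
    (h2 : (i : ℕ) % 2 = 0 ∧ (k : ℕ) = i + 1) :
    (Shp.eps false n).dgI D ⟨(i, k), Or.inl h⟩ = D ((i : ℕ) / 2) := by
  unfold Shp.dgI
  refine (if_pos ?_).trans ?_
  · show (i : ℕ) % 2 = 0 ∧ (k : ℕ) + 1 = (i : ℕ) + 2
    omega
  · rfl

private theorem dgI_neg (n : ℕ) (D : ℕ → R) (i k : Fin n) (h : i < k)
    (h2 : ¬((i : ℕ) % 2 = 0 ∧ (k : ℕ) = i + 1)) :
    (Shp.eps false n).dgI D ⟨(i, k), Or.inl h⟩ = 0 := by
  unfold Shp.dgI
  refine if_neg ?_
  show ¬((i : ℕ) % 2 = 0 ∧ (k : ℕ) + 1 = (i : ℕ) + 2)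
  omega

private theorem SJ_eq (n : ℕ) (D : ℕ → R) :
    ((Shp.eps false n).mat ((Shp.eps false n).dgI D)) = SJ n D := by
  funext i k
  change Fin n at i
  change Fin n at k
  rcases lt_trichotomy i k with h | h | h
  · have h1 : (i : ℕ) < k := h
    have e : (Shp.eps false n).mat ((Shp.eps false n).dgI D) i k =
        (Shp.eps false n).dgI D ⟨(i, k), Or.inl h⟩ := dif_pos h
    rw [e]
    unfold SJ
    by_cases h2 : (i : ℕ) % 2 = 0 ∧ (k : ℕ) = i + 1
    · rw [dgI_pos n D i k h h2, if_pos h2]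
    · rw [dgI_neg n D i k h h2, if_neg h2, if_neg (by omega)]
  · subst h
    have e : (Shp.eps false n).mat ((Shp.eps false n).dgI D) i i = 0 := by
      refine (dif_neg (lt_irrefl i)).trans ((dif_neg (lt_irrefl i)).trans (dif_neg (by simp)))
    rw [e]
    unfold SJ
    rw [if_neg (by omega), if_neg (by omega)]
  · have h1 : (k : ℕ) < i := h
    have e : (Shp.eps false n).mat ((Shp.eps false n).dgI D) i k =
        -1 * (Shp.eps false n).dgI D ⟨(k, i), Or.inl h⟩ :=
      (dif_neg (not_lt.2 h.le)).trans (dif_pos h)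
    rw [e]
    unfold SJ
    by_cases h2 : (k : ℕ) % 2 = 0 ∧ (i : ℕ) = k + 1
    · rw [dgI_pos n D k i h h2, if_neg (by omega), if_pos h2, neg_one_mul]
    · rw [dgI_neg n D k i h h2, if_neg (by omega), if_neg h2, mul_zero]

/-- `a, D 0, D 1, ...` -/
private def cs (a : R) (D : ℕ → R) : ℕ → R
  | 0 => a
  | i + 1 => D i

private def ee (m : ℕ) : Fin 2 ⊕ Fin m ≃ Fin (m + 2) :=
  finSumFinEquiv.trans (finCongr (Nat.add_comm 2 m))

private theorem ee_inl (m : ℕ) (i : Fin 2) : ((ee m (Sum.inl i) : Fin (m + 2)) : ℕ) = i := by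
  simp [ee]

private theorem ee_inr (m : ℕ) (j : Fin m) : ((ee m (Sum.inr j) : Fin (m + 2)) : ℕ) = 2 + j := by
  simp [ee, Nat.add_comm]

/-- the block `[[0, a], [-a, 0]]` -/
private def J2 (a : R) : Matrix (Fin 2) (Fin 2) R := !![0, a; -a, 0]

private theorem J2_transpose (a : R) : (J2 a).transpose = -J2 a := by
  ext i k
  fin_cases i <;> fin_cases k <;> simp [J2]

private theorem SJ_sub (m : ℕ) (a : R) (D : ℕ → R) :
    (SJ (m + 2) (cs a D)).submatrix (ee m) (ee m) =
      Matrix.fromBlocks (J2 a) 0 0 (SJ m D) := by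
  ext i k
  rcases i with i | i <;> rcases k with k | k
  · simp only [Matrix.submatrix_apply, SJ, Matrix.fromBlocks_apply₁₁, ee_inl]
    fin_cases i <;> fin_cases k <;> simp [J2, cs]
  · simp only [Matrix.submatrix_apply, SJ, Matrix.fromBlocks_apply₁₂, ee_inl, ee_inr]
    have hi := i.2
    rw [if_neg (by omega), if_neg (by omega)]
    rfl
  · simp only [Matrix.submatrix_apply, SJ, Matrix.fromBlocks_apply₂₁, ee_inl, ee_inr]
    have hk := k.2
    rw [if_neg (by omega), if_neg (by omega)]
    rfl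
  · simp only [Matrix.submatrix_apply, SJ, Matrix.fromBlocks_apply₂₂, ee_inr]
    by_cases h1 : (i : ℕ) % 2 = 0 ∧ (k : ℕ) = i + 1
    · rw [if_pos (by omega), if_pos h1]
      have h2 : (2 + (i : ℕ)) / 2 = (i : ℕ) / 2 + 1 := by omega
      rw [h2]
      rfl
    · rw [if_neg (by omega), if_neg h1]
      by_cases h2 : (k : ℕ) % 2 = 0 ∧ (i : ℕ) = k + 1
      · rw [if_pos (by omega), if_pos h2]
        have h3 : (2 + (k : ℕ)) / 2 = (k : ℕ) / 2 + 1 := by omega
        rw [h3]
        rfl
      · rw [if_neg (by omega), if_neg h2]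

private theorem exists_perm {n : ℕ} (x y i k : Fin n) (hxy : x ≠ y) (h : i ≠ k) :
    ∃ σ : Equiv.Perm (Fin n), σ x = i ∧ σ y = k := by
  set σ₁ : Equiv.Perm (Fin n) := Equiv.swap x i with hσ₁
  have hk : σ₁.symm k ≠ x := by
    intro h1
    have h2 : σ₁ x = k := by rw [← h1, Equiv.apply_symm_apply]
    rw [hσ₁, Equiv.swap_apply_left] at h2
    exact h h2
  refine ⟨(Equiv.swap y (σ₁.symm k)).trans σ₁, ?_, ?_⟩
  · rw [Equiv.trans_apply, Equiv.swap_apply_of_ne_of_ne hxy (Ne.symm hk), hσ₁,
      Equiv.swap_apply_left]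
  · rw [Equiv.trans_apply, Equiv.swap_apply_left, Equiv.apply_symm_apply]

private theorem blocks {m : ℕ} (N : Matrix (Fin 2 ⊕ Fin m) (Fin 2 ⊕ Fin m) R) (a : R)
    (hN : N.transpose = -N) (hd : ∀ i, N i i = 0) (ha : N (Sum.inl 0) (Sum.inl 1) = a)
    (b : Fin 2 → Fin m → R) (hb : ∀ i j, N (Sum.inr j) (Sum.inl i) = a * b i j) :
    ∃ (c : Matrix (Fin m) (Fin 2) R),
      N = Matrix.fromBlocks 1 0 c 1 *
        Matrix.fromBlocks (J2 a) 0 0 (N.toBlocks₂₂ - c * J2 a * c.transpose) *
          (Matrix.fromBlocks 1 0 c 1).transpose := by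
  refine ⟨Matrix.of fun j i => if i = 0 then b 1 j else -b 0 j, ?_⟩
  set c : Matrix (Fin m) (Fin 2) R := Matrix.of fun j i => if i = 0 then b 1 j else -b 0 j with hc
  have hsk : ∀ i k, N k i = -N i k := by
    intro i k
    have := congrFun (congrFun hN i) k
    simpa using this
  have h11 : N.toBlocks₁₁ = J2 a := by
    ext i k
    fin_cases i <;> fin_cases k
    · simpa [J2, Matrix.toBlocks₁₁] using hd (Sum.inl 0)
    · simpa [J2, Matrix.toBlocks₁₁] using ha
    · have := hsk (Sum.inl 0) (Sum.inl 1)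
      simpa [J2, Matrix.toBlocks₁₁, ha] using this
    · simpa [J2, Matrix.toBlocks₁₁] using hd (Sum.inl 1)
  have h21 : N.toBlocks₂₁ = c * J2 a := by
    ext j i
    rw [Matrix.mul_apply, Fin.sum_univ_two]
    fin_cases i
    · simp [J2, hc, Matrix.toBlocks₂₁, hb, mul_comm]
    · simp [J2, hc, Matrix.toBlocks₂₁, hb, mul_comm]
  have h12 : N.toBlocks₁₂ = J2 a * c.transpose := by
    have h3 : N.toBlocks₁₂ = -(N.toBlocks₂₁).transpose := by
      ext i j
      simpa [Matrix.toBlocks₁₂, Matrix.toBlocks₂₁] using hsk (Sum.inr j) (Sum.inl i)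
    rw [h3, h21, Matrix.transpose_mul, J2_transpose]
    simp
  rw [Matrix.fromBlocks_transpose, Matrix.fromBlocks_multiply, Matrix.fromBlocks_multiply]
  simp only [Matrix.transpose_one, Matrix.transpose_zero, Matrix.one_mul, Matrix.mul_one,
    Matrix.zero_mul, Matrix.mul_zero, add_zero, zero_add]
  conv_lhs => rw [← Matrix.fromBlocks_toBlocks N, h11, h12, h21]
  congr 1
  abel

private theorem diag_zero (h2 : ∀ x : R, x = -x → x = 0) {ι : Type} (M : Matrix ι ι R)
    (hM : M.transpose = -M) (i : ι) : M i i = 0 := by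
  have := congrFun (congrFun hM i) i
  exact h2 _ (by simpa using this)

private theorem perm_unit {m n : ℕ} (Q : Matrix (Fin 2 ⊕ Fin m) (Fin 2 ⊕ Fin m) R) (hQ : IsUnit Q.det)
    (e f : Fin n ≃ Fin 2 ⊕ Fin m) : IsUnit (Q.submatrix e f).det := by
  have h1 : Q.submatrix e f = (Q.submatrix (e.symm.trans e |>.symm.trans (f.symm.trans e)) id).submatrix f f := by
    rw [Matrix.submatrix_submatrix]
    congr 1
    funext x
    simp
  rw [h1, Matrix.det_submatrix_equiv_self]
  have h2 := Matrix.det_permute (e.symm.trans e |>.symm.trans (f.symm.trans e)) Q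
  rw [h2]
  exact (Units.isUnit _).map (Int.castRingHom R) |>.mul hQ

private theorem main (htot : ∀ a b : R, a ∣ b ∨ b ∣ a) (h2 : ∀ x : R, x = -x → x = 0) :
    ∀ (n : ℕ) (M : Matrix (Fin n) (Fin n) R), M.transpose = -M →
    ∃ (D : ℕ → R) (P : Matrix (Fin n) (Fin n) R),
      (∀ i j, i ≤ j → D i ∣ D j) ∧ (∀ x : R, (∀ i k, x ∣ M i k) → ∀ i, x ∣ D i) ∧
      M = P * SJ n D * P.transpose ∧ IsUnit P.det
  | 0, M, _ => ⟨fun _ => 0, 1, fun _ _ _ => dvd_rfl, fun x _ _ => dvd_zero x,
      by ext i; exact i.elim0, by rw [Matrix.det_one]; exact isUnit_one⟩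
  | 1, M, hM => by
    have h0 : ∀ (i k : Fin 1), M i k = 0 := by
      intro i k
      rw [Subsingleton.elim k i]
      exact diag_zero h2 M hM i
    refine ⟨fun _ => 0, 1, fun _ _ _ => dvd_rfl, fun x _ _ => dvd_zero x, ?_, ?_⟩
    · have hS : SJ 1 (fun _ => (0 : R)) = 0 := by
        ext i k
        simp [SJ]
      rw [hS]
      ext i k
      simp [h0]
    · rw [Matrix.det_one]
      exact isUnit_one
  | m + 2, M, hM => by
    obtain ⟨⟨i₀, k₀⟩, -, hdvd⟩ := exists_dvd_all htot (Finset.univ : Finset (Fin (m + 2) × Fin (m + 2)))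
      ⟨(0, 0), Finset.mem_univ _⟩ (fun p => M p.1 p.2)
    set a := M i₀ k₀ with ha
    have hall : ∀ i k, a ∣ M i k := fun i k => hdvd (i, k) (Finset.mem_univ _)
    by_cases ha0 : a = 0
    · have hM0 : M = 0 := by
        ext i k
        have := hall i k
        rw [ha0] at this
        exact zero_dvd_iff.1 this
      refine ⟨fun _ => 0, 1, fun _ _ _ => dvd_rfl, fun x _ _ => dvd_zero x, ?_, ?_⟩
      · have hS : SJ (m + 2) (fun _ => (0 : R)) = 0 := by
          ext i k
          simp [SJ]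
        rw [hM0, hS]
        simp
      · rw [Matrix.det_one]
        exact isUnit_one
    · have hik : i₀ ≠ k₀ := by
        intro h
        apply ha0
        rw [ha, h]
        exact diag_zero h2 M hM k₀
      have hne : ee m (Sum.inl 0) ≠ ee m (Sum.inl 1) := fun h => by
        have := (ee m).injective h
        simp at this
      obtain ⟨σ, hσ0, hσ1⟩ := exists_perm (ee m (Sum.inl 0)) (ee m (Sum.inl 1)) i₀ k₀ hne hik
      set f : Fin 2 ⊕ Fin m ≃ Fin (m + 2) := (ee m).trans σ with hf
      set N : Matrix (Fin 2 ⊕ Fin m) (Fin 2 ⊕ Fin m) R := M.submatrix f f with hN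
      have hMN : M = N.submatrix f.symm f.symm := by
        rw [hN, Matrix.submatrix_submatrix]
        simp
      have hNs : N.transpose = -N := by
        rw [hN, Matrix.transpose_submatrix, hM]
        rfl
      have hNa : N (Sum.inl 0) (Sum.inl 1) = a := by
        rw [hN, Matrix.submatrix_apply, hf, Equiv.trans_apply, Equiv.trans_apply, hσ0, hσ1]
      have hNd : ∀ i k, a ∣ N i k := fun i k => hall _ _
      choose b hb using fun (i : Fin 2) (j : Fin m) => hNd (Sum.inr j) (Sum.inl i)
      obtain ⟨c, hc⟩ := blocks N a hNs (diag_zero h2 N hNs) hNa b hb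
      set N₁ : Matrix (Fin m) (Fin m) R := N.toBlocks₂₂ - c * J2 a * c.transpose with hN₁
      have hN₁s : N₁.transpose = -N₁ := by
        have h3 : (N.toBlocks₂₂).transpose = -N.toBlocks₂₂ := by
          ext i k
          have := congrFun (congrFun hNs (Sum.inr i)) (Sum.inr k)
          simpa [Matrix.toBlocks₂₂] using this
        rw [hN₁, Matrix.transpose_sub, h3, Matrix.transpose_mul, Matrix.transpose_mul,
          Matrix.transpose_transpose, J2_transpose]
        simp only [Matrix.neg_mul, Matrix.mul_neg, Matrix.mul_assoc]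
        abel
      have hN₁d : ∀ x : R, (∀ i k, x ∣ M i k) → ∀ i k, x ∣ N₁ i k := by
        intro x hx i k
        rw [hN₁, Matrix.sub_apply]
        refine dvd_sub (hx _ _) ?_
        rw [Matrix.mul_apply]
        refine Finset.dvd_sum fun j _ => Dvd.dvd.mul_right ?_ _
        rw [Matrix.mul_apply]
        refine Finset.dvd_sum fun l _ => Dvd.dvd.mul_left ?_ _
        have hxa : x ∣ a := hx _ _
        fin_cases l <;> fin_cases j <;> simp [J2, hxa]
      obtain ⟨D, P, hD, hDx, h3, h4⟩ := main htot h2 m N₁ hN₁s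
      have haD : ∀ i, a ∣ D i := hDx a (hN₁d a hall)
      have hK : Matrix.fromBlocks (J2 a) 0 0 N₁ =
          Matrix.fromBlocks 1 0 0 P * Matrix.fromBlocks (J2 a) 0 0 (SJ m D) *
            (Matrix.fromBlocks (1 : Matrix (Fin 2) (Fin 2) R) 0 0 P).transpose := by
        rw [Matrix.fromBlocks_transpose, Matrix.fromBlocks_multiply, Matrix.fromBlocks_multiply]
        conv_lhs => rw [h3]
        simp
      set Q := Matrix.fromBlocks (1 : Matrix (Fin 2) (Fin 2) R) 0 c (1 : Matrix (Fin m) (Fin m) R) *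
        Matrix.fromBlocks (1 : Matrix (Fin 2) (Fin 2) R) 0 0 P with hQ
      have hQd : IsUnit Q.det := by
        rw [hQ, Matrix.det_mul, Matrix.det_fromBlocks_zero₁₂, Matrix.det_fromBlocks_zero₁₂,
          Matrix.det_one, Matrix.det_one, one_mul, one_mul, one_mul]
        exact h4
      have e1 : N = Q * (SJ (m + 2) (cs a D)).submatrix (ee m) (ee m) *
          Q.transpose := by
        rw [SJ_sub, hQ, Matrix.transpose_mul]
        conv_lhs => rw [hc, hK]
        simp only [Matrix.mul_assoc]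
      refine ⟨cs a D, Q.submatrix f.symm (ee m).symm, ?_, ?_, ?_, ?_⟩
      · intro i j hij
        rcases i with _ | i <;> rcases j with _ | j
        · exact dvd_rfl
        · exact haD j
        · exact absurd hij (by omega)
        · exact hD i j (by omega)
      · intro x hx i
        rcases i with _ | i
        · exact hx _ _
        · exact hDx x (hN₁d x hx) i
      · have e3 : SJ (m + 2) (cs a D) =
            ((SJ (m + 2) (cs a D)).submatrix (ee m) (ee m)).submatrix
              (ee m).symm (ee m).symm := by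
          rw [Matrix.submatrix_submatrix]
          simp
        rw [e3, Matrix.transpose_submatrix, Matrix.submatrix_mul_equiv, Matrix.submatrix_mul_equiv,
          ← e1]
        exact hMN
      · exact perm_unit Q hQd f.symm (ee m).symm

end H3Aux

theorem smithU_skew (n : ℕ) (M : Matrix (Fin n) (Fin n) (PowerSeries ℂ)) (hM : M.transpose = -M) :
    ∃ (D : ℕ → PowerSeries ℂ) (P : Matrix (Fin n) (Fin n) (PowerSeries ℂ)),
      (∀ i j, i ≤ j → D i ∣ D j) ∧
      M = P * ((Shp.eps false n).mat ((Shp.eps false n).dgI D)) * P.transpose ∧ IsUnit P.det := by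
  have h2 : ∀ x : PowerSeries ℂ, x = -x → x = 0 := by
    intro x hx
    have h3 : (2 : PowerSeries ℂ) * x = 0 := by
      have h4 : x + x = 0 := by
        nth_rewrite 1 [hx]
        exact neg_add_cancel x
      rw [two_mul]
      exact h4
    rcases mul_eq_zero.1 h3 with h4 | h4
    · exfalso
      have h5 := congrArg (PowerSeries.constantCoeff (R := ℂ)) h4
      rw [map_ofNat, map_zero] at h5
      norm_num at h5
    · exact h4
  obtain ⟨D, P, hD, -, h3, h4⟩ := H3Aux.main (fun a b => ValuationRing.dvd_total a b) h2 n M hM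
  refine ⟨D, P, hD, ?_, h4⟩
  rw [H3Aux.SJ_eq]
  exact h3

end MotMono
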