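import Pool.Agent.Lib.MP_4e5fcd_ag.Cl.CDefs

/-!
# The contact jets at all points of the normal cone of an equivariant ideal: auxiliary definitions
-/

open MvPolynomial

namespace MotMono

/-! ### Contact jets -/

section basic

variable {N : ℕ}

/-- the `d`-jets at `p` of contact order at least `d` with `J` whose leading coefficients are given
by `y` -/
def CS (J : Ideal (MvPolynomial (Fin N) ℂ)) (p : Fin N → ℂ)
    (y : MvPolynomial (Fin N) ℂ → ℂ) (d : ℕ) : Set (Fin N × Fin (d + 1) → ℂ) :=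
  {γ | (∀ i, γ (i, 0) = p i) ∧
    ∀ f ∈ J, (∀ l < d, (along f γ).coeff l = 0) ∧ (along f γ).coeff d = y f}

/-- the Euler characteristics of the sets `CS J p y d` are the Lefschetz numbers of
`(1 - t ^ n) ^ c` -/
def Tame (J : Ideal (MvPolynomial (Fin N) ℂ)) (p : Fin N → ℂ)
    (y : MvPolynomial (Fin N) ℂ → ℂ) : Prop :=
  ∃ n c : ℕ, 0 < n ∧ ∀ χ : K0 →+* ℤ, IsEulerChar χ → ∀ d, 0 < d →
    χ (cls (CS J p y d)) = if n ∣ d then ((n * c : ℕ) : ℤ) else 0

/-- the starting point of an arc -/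
noncomputable def p0 (Y : Fin N → PowerSeries ℂ) : Fin N → ℂ :=
  fun i => PowerSeries.constantCoeff (Y i)

/-- the `k`-th coefficients of the elements of the ideal along an arc -/
noncomputable def yv (k : ℕ) (Y : Fin N → PowerSeries ℂ) (f : MvPolynomial (Fin N) ℂ) : ℂ :=
  PowerSeries.coeff k (aeval Y f)

/-- the arc has contact order `k` with `J` -/
def OrdAt (J : Ideal (MvPolynomial (Fin N) ℂ)) (Y : Fin N → PowerSeries ℂ) (k : ℕ) : Prop :=
  (∀ f ∈ J, (PowerSeries.X : PowerSeries ℂ) ^ k ∣ aeval Y f) ∧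
    ∃ f ∈ J, PowerSeries.coeff k (aeval Y f) ≠ 0

/-- the substitution `x_i ↦ τ ^ (w i) x_i` -/
noncomputable def scl (w : Fin N → ℤ) (τ : ℂ) :
    MvPolynomial (Fin N) ℂ →ₐ[ℂ] MvPolynomial (Fin N) ℂ :=
  aeval fun i => C (τ ^ w i) * X i

/-- the one-parameter group with the weights `w` acts on the contact jets -/
def Inv (J : Ideal (MvPolynomial (Fin N) ℂ)) (p : Fin N → ℂ)
    (y : MvPolynomial (Fin N) ℂ → ℂ) (w : Fin N → ℤ) : Prop :=
  ∀ d, 0 < d → ∀ γ ∈ CS J p y d, ∀ τ : ℂ, τ ≠ 0 → (fun c => τ ^ w c.1 * γ c) ∈ CS J p y d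

open Classical in
/-- the restriction to the coordinate subspace of the coordinates `ι j` -/
noncomputable def rho {N' : ℕ} (ι : Fin N' → Fin N) :
    MvPolynomial (Fin N) ℂ →ₐ[ℂ] MvPolynomial (Fin N') ℂ :=
  aeval fun i => if h : ∃ j, ι j = i then X h.choose else 0

end basic

/-! ### Weights -/

variable {s N : ℕ} {σ : Fin s → Shp}

/-- the weights of the coordinates for given weights of the rows and columns -/
def wS (e : (Σ a, (σ a).Idx) ≃ Fin N) (ra ca : Fin s → ℕ → ℤ) (i : Fin N) : ℤ :=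
  ra (e.symm i).1 ((σ (e.symm i).1).pr (e.symm i).2) +
    ca (e.symm i).1 ((σ (e.symm i).1).pc (e.symm i).2)

/-- the rows and columns of (skew-)symmetric matrices have the same weights -/
def RC (σ : Fin s → Shp) (ra ca : Fin s → ℕ → ℤ) : Prop :=
  ∀ a κ n, σ a = Shp.eps κ n → ra a = ca a

/-- the weight of the position of an invariant factor -/
def pw (σ : Fin s → Shp) (ra ca : Fin s → ℕ → ℤ) (c : Σ a, Fin (σ a).rk) : ℤ :=
  ra c.1 ((σ c.1).st * c.2) + ca c.1 ((σ c.1).st * c.2 + (σ c.1).st - 1)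

/-- extension of an exponent vector by zero -/
def kx (β : (Σ a, Fin (σ a).rk) → ℕ) (a : Fin s) (i : ℕ) : ℕ :=
  if h : i < (σ a).rk then β ⟨a, ⟨i, h⟩⟩ else 0

open Classical in
/-- `t ^ l`, with `t ^ ∞ = 0` -/
noncomputable def Xp (l : ℕ∞) : PowerSeries ℂ :=
  if l = ⊤ then 0 else PowerSeries.X ^ l.toNat

/-- the arc whose matrices are in normal form with the invariant factors `t ^ (l a i)` -/
noncomputable def DL (e : (Σ a, (σ a).Idx) ≃ Fin N) (l : Fin s → ℕ → ℕ∞) :
    Fin N → PowerSeries ℂ :=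
  dgP e fun a i => Xp (l a i)

/-- the weight function which is `f` in the `a`-th matrix and `0` in the others -/
def one (a : Fin s) (f : ℕ → ℤ) : Fin s → ℕ → ℤ := fun b i => if b = a then f i else 0

/-- weight one at the index `n` -/
def rR (n : ℕ) : ℕ → ℤ := fun i => if i = n then 1 else 0

/-- weights `1` and `-1` at the indices `n` and `n + 1` -/
def rP (n : ℕ) : ℕ → ℤ := fun i => if i = n then 1 else if i = n + 1 then -1 else 0

/-! ### Shapes -/

namespace Shp

/-- the measure of the induction -/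
def ms : Shp → ℕ
  | gen m _ => 2 * m
  | eps κ n => if κ = true then n else 2 * n

/-- The positions of weight zero (for the weights `ra` of the rows and `ca` of the columns) in
matrices of the shape `τ` form a matrix of the shape `τ'` and `j` single entries, and the action of
the groups of these is induced by the group of `τ`. -/
def Cut (τ τ' : Shp) (j : ℕ) (ra ca : ℕ → ℤ) : Prop :=
  ∃ f : τ'.Idx ⊕ Fin j → τ.Idx, Function.Injective f ∧
    (∀ p, ra (τ.pr p) + ca (τ.pc p) = 0 ↔ p ∈ Set.range f) ∧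
    ∀ (g' : Matrix (Fin τ'.row) (Fin τ'.row) ℂ) (h' : Matrix (Fin τ'.col) (Fin τ'.col) ℂ)
      (c : Fin j → ℂ), g'.det ≠ 0 → h'.det ≠ 0 → (∀ i, c i ≠ 0) →
      ∃ (g : Matrix (Fin τ.row) (Fin τ.row) ℂ) (h : Matrix (Fin τ.col) (Fin τ.col) ℂ),
        g.det ≠ 0 ∧ h.det ≠ 0 ∧ ∀ {R : Type} [CommRing R] [Algebra ℂ R] (x : τ.Idx → R),
          (∀ p, p ∉ Set.range f → x p = 0) →
          (∀ p', τ.actI (g.map (algebraMap ℂ R)) (h.map (algebraMap ℂ R)) x (f (Sum.inl p')) =
            τ'.actI (g'.map (algebraMap ℂ R)) (h'.map (algebraMap ℂ R))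
              (fun q => x (f (Sum.inl q))) p') ∧
          (∀ i, τ.actI (g.map (algebraMap ℂ R)) (h.map (algebraMap ℂ R)) x (f (Sum.inr i)) =
            algebraMap ℂ R (c i ^ 2) * x (f (Sum.inr i))) ∧
          ∀ p, p ∉ Set.range f →
            τ.actI (g.map (algebraMap ℂ R)) (h.map (algebraMap ℂ R)) x p = 0

end Shp

/-- After multiplication with constant matrices the matrix in normal form with the invariant factors
`D i` is fixed by a one-parameter group whose fixed space consists of a smaller matrix and of single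
entries. -/
def Shp.Red (τ : Shp) (D : ℕ → PowerSeries ℂ) : Prop :=
  ∃ (τ' : Shp) (j : ℕ) (ra ca : ℕ → ℤ) (g : Matrix (Fin τ.row) (Fin τ.row) ℂ)
    (h : Matrix (Fin τ.col) (Fin τ.col) ℂ), Shp.Cut τ τ' j ra ca ∧ τ'.Le ∧ τ'.ms + j < τ.ms ∧
    (∀ κ n, τ = Shp.eps κ n → ra = ca) ∧ g.det ≠ 0 ∧ h.det ≠ 0 ∧
    ∀ p : τ.Idx, ra (τ.pr p) + ca (τ.pc p) ≠ 0 →
      τ.actI (g.map (algebraMap ℂ (PowerSeries ℂ))) (h.map (algebraMap ℂ (PowerSeries ℂ)))
        (τ.dgI D) p = 0

/-! ### Families of symmetric matrices -/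

/-- all nonempty shapes are shapes of symmetric matrices -/
def SymFam (σ : Fin s → Shp) : Prop := ∀ a, (σ a).row = 0 ∨ ∃ n, σ a = Shp.eps true n

/-- the exponents of the invariant factors are strictly increasing -/
def Strict (u : (Σ a, Fin (σ a).rk) → ℕ) : Prop :=
  ∀ a (i : ℕ), 0 < i → i < (σ a).rk → bS u a i ≠ 0

/-- the exponent of the invariant factor `c` -/
def lam (u : (Σ a, Fin (σ a).rk) → ℕ) (c : Σ a, Fin (σ a).rk) : ℕ := mue (bS u c.1) c.2

/-- the arc whose matrices are in normal form with the exponents given by `u` -/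
noncomputable def DU (e : (Σ a, (σ a).Idx) ≃ Fin N) (u : (Σ a, Fin (σ a).rk) → ℕ) :
    Fin N → PowerSeries ℂ :=
  dgP e fun a i => PowerSeries.X ^ mue (bS u a) i

/-- every boundary between invariant factors (with a positive exponent) is visible -/
def AllVis (e : (Σ a, (σ a).Idx) ≃ Fin N) (J : Ideal (MvPolynomial (Fin N) ℂ))
    (u : (Σ a, Fin (σ a).rk) → ℕ) (k : ℕ) : Prop :=
  ∀ c : Σ a, Fin (σ a).rk, 0 < lam u c →
    ∃ β ∈ ExS σ e J, ∑ c, β c * lam u c = k ∧ kx β c.1 (c.2 + 1) ≠ kx β c.1 c.2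

/-- the theorem for all families of measure `M` -/
def StmtT (M : ℕ) : Prop :=
  ∀ (s N : ℕ) (σ : Fin s → Shp), (∀ a, (σ a).Le) → ∑ a, (σ a).ms = M →
    ∀ (e : (Σ a, (σ a).Idx) ≃ Fin N) (J : Ideal (MvPolynomial (Fin N) ℂ)), ShStable σ e J →
      ∀ (p : Fin N → ℂ) (y : MvPolynomial (Fin N) ℂ → ℂ), (∃ f ∈ J, y f ≠ 0) → Tame J p y

end MotMono
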