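import Pool.Agent.Lib.MP_4e5fcd_ag.Ic.TDefs
import Pool.Agent.Lib.MP_4e5fcd_ag.Cl.E1

/-! # IC-H5: only the leading terms of the invariant factors matter

PROOF. `l a i` = the order of `D a i` (`⊤` if it is `0`), `c a i` = its coefficient there (`1` if `D a i = 0`):
`D a i = C c * Xp (l a i) * (1 + X * r)`. `l a` is monotone since `D a i ∣ D a j` for `i ≤ j`. For `β ∈ ExS σ e J` the power
`X ^ k` divides `∏ D c ^ β c` (`exS_dgR`, `hk`), hence also `∏ (C (c) * Xp (l)) ^ β c` (both are `0` or of the same order),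
and the coefficients `k` of these products agree. For `f ∈ J`: `aeval (dgP e D) f = ∑ β ∈ (dgR σ e f).support, coeff β *
∏ c, D c ^ β c` (`aeval_dgR`, `aeval_def`, `eval₂_eq'`), and the `β` are in `ExS σ e J` (`exS_of_support`). `p0`: the entries
of `dgP e D` are `0` or `D a i`, and the constant coefficients of `D a i` and of its leading term agree. -/

open MvPolynomial

namespace MotMono

variable {s N : ℕ} {σ : Fin s → Shp}

private theorem H5_am (c : ℂ) : algebraMap ℂ (PowerSeries ℂ) c = PowerSeries.C c := by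
  rw [PowerSeries.algebraMap_apply, Algebra.algebraMap_self, RingHom.id_apply]

private theorem H5_lead (D : PowerSeries ℂ) : ∃ (c : ℂ) (r : PowerSeries ℂ), c ≠ 0 ∧
    D = algebraMap ℂ (PowerSeries ℂ) c * Xp D.order * (1 + PowerSeries.X * r) := by
  by_cases h : D = 0
  · refine ⟨1, 0, one_ne_zero, ?_⟩
    rw [h, PowerSeries.order_zero]
    simp [Xp]
  · obtain ⟨U, hU⟩ := PowerSeries.X_pow_order_dvd (φ := D)
    have hX : Xp D.order = (PowerSeries.X : PowerSeries ℂ) ^ D.order.toNat := by
      unfold Xp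
      rw [if_neg]
      intro h0
      exact h (PowerSeries.order_eq_top.1 h0)
    have hc : PowerSeries.constantCoeff U ≠ 0 := by
      have h1 := PowerSeries.coeff_order h
      have h2 : PowerSeries.coeff D.order.toNat D = PowerSeries.constantCoeff U := by
        refine (congrArg (PowerSeries.coeff D.order.toNat) hU).trans ?_
        have := PowerSeries.coeff_X_pow_mul U D.order.toNat 0
        rw [zero_add] at this
        rw [this, PowerSeries.coeff_zero_eq_constantCoeff_apply]
      rwa [h2] at h1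
    obtain ⟨w, hw⟩ : (PowerSeries.X : PowerSeries ℂ) ∣ U - PowerSeries.C (PowerSeries.constantCoeff U) := by
      rw [PowerSeries.X_dvd_iff, map_sub, PowerSeries.constantCoeff_C, sub_self]
    refine ⟨PowerSeries.constantCoeff U, PowerSeries.C (PowerSeries.constantCoeff U)⁻¹ * w, hc, ?_⟩
    rw [H5_am, hX]
    have h3 : PowerSeries.C (PowerSeries.constantCoeff U) *
        PowerSeries.C (PowerSeries.constantCoeff U)⁻¹ = (1 : PowerSeries ℂ) := by
      rw [← map_mul, mul_inv_cancel₀ hc, map_one]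
    have h4 : U = PowerSeries.C (PowerSeries.constantCoeff U) + PowerSeries.X * w := by
      rw [← hw]; ring
    calc D = PowerSeries.X ^ D.order.toNat * U := hU
      _ = PowerSeries.X ^ D.order.toNat * (PowerSeries.C (PowerSeries.constantCoeff U) +
          PowerSeries.X * w) := by rw [← h4]
      _ = PowerSeries.X ^ D.order.toNat * (PowerSeries.C (PowerSeries.constantCoeff U) +
          (PowerSeries.C (PowerSeries.constantCoeff U) *
            PowerSeries.C (PowerSeries.constantCoeff U)⁻¹) * (PowerSeries.X * w)) := by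
          rw [h3, one_mul]
      _ = _ := by ring

/-- the elements `1 + X r` are closed under products and powers -/
private theorem H5_one {ι : Type} (t : Finset ι) (r : ι → PowerSeries ℂ) (n : ι → ℕ) :
    ∃ R : PowerSeries ℂ, ∏ i ∈ t, (1 + PowerSeries.X * r i) ^ n i = 1 + PowerSeries.X * R := by
  classical
  have hpow : ∀ (r : PowerSeries ℂ) (n : ℕ), ∃ R : PowerSeries ℂ,
      (1 + PowerSeries.X * r) ^ n = 1 + PowerSeries.X * R := by
    intro r n
    induction n with
    | zero => exact ⟨0, by simp⟩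
    | succ n ih =>
      obtain ⟨R, hR⟩ := ih
      exact ⟨R + r + R * (PowerSeries.X * r), by rw [pow_succ, hR]; ring⟩
  induction t using Finset.induction_on with
  | empty => exact ⟨0, by simp⟩
  | insert a t ha ih =>
    obtain ⟨R, hR⟩ := ih
    obtain ⟨R', hR'⟩ := hpow (r a) (n a)
    rw [Finset.prod_insert ha, hR, hR']
    exact ⟨R + R' + R' * (PowerSeries.X * R), by ring⟩

private theorem H5_dvd (k : ℕ) (M M' R : PowerSeries ℂ) (h : M = M' * (1 + PowerSeries.X * R))
    (hk : (PowerSeries.X : PowerSeries ℂ) ^ k ∣ M) :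
    (PowerSeries.X : PowerSeries ℂ) ^ k ∣ M' ∧ PowerSeries.coeff k M = PowerSeries.coeff k M' := by
  have hu : IsUnit (1 + PowerSeries.X * R : PowerSeries ℂ) := by
    rw [PowerSeries.isUnit_iff_constantCoeff]
    simp
  have h1 : (PowerSeries.X : PowerSeries ℂ) ^ k ∣ M' := by
    rw [h] at hk
    exact hu.dvd_mul_right.1 hk
  refine ⟨h1, ?_⟩
  have h2 : M = M' + M' * PowerSeries.X * R := by rw [h]; ring
  have h3 : (PowerSeries.X : PowerSeries ℂ) ^ (k + 1) ∣ M' * PowerSeries.X * R := by
    rw [pow_succ]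
    exact (mul_dvd_mul h1 dvd_rfl).mul_right _
  have h4 := PowerSeries.X_pow_dvd_iff.1 h3 k (Nat.lt_succ_self k)
  rw [h2, map_add, h4, add_zero]

private theorem H5_sum {n : Type} [Fintype n] (F : MvPolynomial n ℂ) (v : n → PowerSeries ℂ) :
    aeval v F = ∑ β ∈ F.support, algebraMap ℂ (PowerSeries ℂ) (coeff β F) * ∏ c, v c ^ β c := by
  rw [aeval_def, eval₂_eq']

theorem exists_lead (e : (Σ a, (σ a).Idx) ≃ Fin N) (J : Ideal (MvPolynomial (Fin N) ℂ))
    (hJ : ShStable σ e J) (k : ℕ) (D : Fin s → ℕ → PowerSeries ℂ)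
    (hD : ∀ a i j, i ≤ j → D a i ∣ D a j)
    (hk : ∀ f ∈ J, (PowerSeries.X : PowerSeries ℂ) ^ k ∣ aeval (dgP e D) f) :
    ∃ (c : Fin s → ℕ → ℂ) (l : Fin s → ℕ → ℕ∞), (∀ a i, c a i ≠ 0) ∧ (∀ a, Monotone (l a)) ∧
      p0 (dgP e D) = p0 (dgP e fun a i => algebraMap ℂ (PowerSeries ℂ) (c a i) * Xp (l a i)) ∧
      (∀ f ∈ J, yv k (dgP e D) f =
        yv k (dgP e fun a i => algebraMap ℂ (PowerSeries ℂ) (c a i) * Xp (l a i)) f) ∧
      ∀ f ∈ J, (PowerSeries.X : PowerSeries ℂ) ^ k ∣
        aeval (dgP e fun a i => algebraMap ℂ (PowerSeries ℂ) (c a i) * Xp (l a i)) f := by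
  classical
  choose c r hc hL using fun a i => H5_lead (D a i)
  refine ⟨c, fun a i => (D a i).order, hc, ?_, ?_, ?_⟩
  · intro a i j hij
    obtain ⟨q, hq⟩ := hD a i j hij
    show (D a i).order ≤ (D a j).order
    rw [hq, PowerSeries.order_mul]
    exact le_self_add
  · funext x
    have hcc : ∀ a i, PowerSeries.constantCoeff (D a i) = PowerSeries.constantCoeff
        (algebraMap ℂ (PowerSeries ℂ) (c a i) * Xp (D a i).order) := by
      intro a i
      refine (congrArg PowerSeries.constantCoeff (hL a i)).trans ?_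
      rw [map_mul, map_add, map_one, map_mul PowerSeries.constantCoeff PowerSeries.X,
        PowerSeries.constantCoeff_X, zero_mul, add_zero, mul_one]
    unfold p0 dgP ptS Shp.dgI
    dsimp only
    split_ifs with h
    · exact hcc _ _
    · rfl
  · -- the comparison of the monomials
    have key : ∀ β ∈ ExS σ e J, (PowerSeries.X : PowerSeries ℂ) ^ k ∣
        (∏ c' : (Σ a, Fin (σ a).rk), (algebraMap ℂ (PowerSeries ℂ) (c c'.1 c'.2) *
          Xp (D c'.1 c'.2).order) ^ β c') ∧
        PowerSeries.coeff k (∏ c' : (Σ a, Fin (σ a).rk), D c'.1 c'.2 ^ β c') =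
          PowerSeries.coeff k (∏ c' : (Σ a, Fin (σ a).rk), (algebraMap ℂ (PowerSeries ℂ) (c c'.1 c'.2) *
          Xp (D c'.1 c'.2).order) ^ β c') := by
      intro β hβ
      obtain ⟨f, hf, hev⟩ := exS_dgR e J β hβ
      have h1 := hk f hf
      rw [hev] at h1
      obtain ⟨R, hR⟩ := H5_one (Finset.univ : Finset (Σ a, Fin (σ a).rk)) (fun c' => r c'.1 c'.2) β
      refine H5_dvd k _ _ R ?_ h1
      rw [← hR, ← Finset.prod_mul_distrib]
      refine Finset.prod_congr rfl fun c' _ => ?_
      rw [← mul_pow, ← hL]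
    have hexp : ∀ (D' : Fin s → ℕ → PowerSeries ℂ) (f : MvPolynomial (Fin N) ℂ),
        aeval (dgP e D') f = ∑ β ∈ (dgR σ e f).support, algebraMap ℂ (PowerSeries ℂ)
          (coeff β (dgR σ e f)) * ∏ c' : (Σ a, Fin (σ a).rk), D' c'.1 c'.2 ^ β c' := by
      intro D' f
      rw [← aeval_dgR, H5_sum]
    have hsup : ∀ f ∈ J, ∀ β ∈ (dgR σ e f).support, (fun c' => β c') ∈ ExS σ e J :=
      fun f hf β hβ => exS_of_support e J hJ f hf β hβ
    refine ⟨fun f hf => ?_, fun f hf => ?_⟩
    · unfold yv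
      rw [hexp, hexp, map_sum, map_sum]
      refine Finset.sum_congr rfl fun β hβ => ?_
      rw [H5_am, PowerSeries.coeff_C_mul, PowerSeries.coeff_C_mul, (key _ (hsup f hf β hβ)).2]
    · rw [hexp]
      exact Finset.dvd_sum fun β hβ => ((key _ (hsup f hf β hβ)).1).mul_left _

end MotMono
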