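import Pool.Agent.Lib.MP_4e5fcd_ag.Ic.TDefs
import Pool.Agent.Lib.MP_4e5fcd_ag.Cl.K0

/-! # IC-H6: removal of constants

PROOF. Diagonal matrices (`Shp.actI_diagonal`, `Cl/K0.lean`): `gen m n`: `g = diagonal (c i)⁻¹`, `h = 1`; `eps true n`:
`g = diagonal r i` with `r i ^ 2 = (c i)⁻¹` (`IsAlgClosed.exists_pow_nat_eq`); `eps false n`: the row `2 i` is multiplied by
`(c i)⁻¹`, the other rows by `1`. `g.map (algebraMap ℂ R)` of a diagonal matrix is diagonal (`Matrix.diagonal_map`). -/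

open MvPolynomial

namespace MotMono

private theorem H6_core (σ : Shp) (c : ℕ → ℂ) (ra ca : ℕ → ℂ) (hra : ∀ i, ra i ≠ 0)
    (hca : ∀ i, ca i ≠ 0) (hrc : ∀ κ n, σ = Shp.eps κ n → ra = ca)
    (hk : ∀ p : σ.Idx, (σ.pr p : ℕ) % σ.st = 0 ∧ (σ.pc p : ℕ) + 1 = σ.pr p + σ.st →
      ra (σ.pr p) * ca (σ.pc p) * c ((σ.pr p : ℕ) / σ.st) = 1) :
    ∃ (g : Matrix (Fin σ.row) (Fin σ.row) ℂ) (h : Matrix (Fin σ.col) (Fin σ.col) ℂ),
      g.det ≠ 0 ∧ h.det ≠ 0 ∧ ∀ {R : Type} [CommRing R] [Algebra ℂ R] (D : ℕ → R),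
        σ.actI (g.map (algebraMap ℂ R)) (h.map (algebraMap ℂ R))
          (σ.dgI fun i => algebraMap ℂ R (c i) * D i) = σ.dgI D := by
  refine ⟨Matrix.diagonal fun i : Fin σ.row => ra i, Matrix.diagonal fun k : Fin σ.col => ca k,
    ?_, ?_, ?_⟩
  · rw [Matrix.det_diagonal]
    exact Finset.prod_ne_zero_iff.2 fun i _ => hra i
  · rw [Matrix.det_diagonal]
    exact Finset.prod_ne_zero_iff.2 fun i _ => hca i
  · intro R _ _ D
    rw [Matrix.diagonal_map (map_zero _), Matrix.diagonal_map (map_zero _)]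
    funext p
    have h1 := Shp.actI_diagonal σ (fun i => algebraMap ℂ R (ra i)) (fun i => algebraMap ℂ R (ca i))
      (fun κ n h => by rw [hrc κ n h]) (σ.dgI fun i => algebraMap ℂ R (c i) * D i) p
    refine h1.trans ?_
    unfold Shp.dgI
    split_ifs with hp
    · have h2 := congrArg (algebraMap ℂ R) (hk p hp)
      rw [map_mul, map_mul, map_one] at h2
      rw [← mul_assoc, h2, one_mul]
    · rw [mul_zero]

theorem Shp.const_act (σ : Shp) (c : ℕ → ℂ) (hc : ∀ i, c i ≠ 0) :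
    ∃ (g : Matrix (Fin σ.row) (Fin σ.row) ℂ) (h : Matrix (Fin σ.col) (Fin σ.col) ℂ),
      g.det ≠ 0 ∧ h.det ≠ 0 ∧ ∀ {R : Type} [CommRing R] [Algebra ℂ R] (D : ℕ → R),
        σ.actI (g.map (algebraMap ℂ R)) (h.map (algebraMap ℂ R))
          (σ.dgI fun i => algebraMap ℂ R (c i) * D i) = σ.dgI D := by
  cases σ with
  | gen m n =>
    refine H6_core _ c (fun i => (c i)⁻¹) (fun _ => 1) (fun i => inv_ne_zero (hc i))
      (fun _ => one_ne_zero) (fun κ n h => by cases h) ?_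
    intro p _
    show (c _)⁻¹ * 1 * c (_ / 1) = 1
    rw [Nat.div_one, mul_one, inv_mul_cancel₀ (hc _)]
  | eps κ n =>
    cases κ
    · refine H6_core _ c (fun i => if i % 2 = 0 then (c (i / 2))⁻¹ else 1)
        (fun i => if i % 2 = 0 then (c (i / 2))⁻¹ else 1) ?_ ?_ (fun _ _ _ => rfl) ?_
      · intro i
        split_ifs
        · exact inv_ne_zero (hc _)
        · exact one_ne_zero
      · intro i
        split_ifs
        · exact inv_ne_zero (hc _)
        · exact one_ne_zero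
      · rintro p ⟨h1, h2⟩
        have h3 : (Shp.eps false n).st = 2 := rfl
        rw [h3] at h1 h2 ⊢
        have h4 : ¬ ((Shp.eps false n).pc p : ℕ) % 2 = 0 := by omega
        rw [if_pos h1, if_neg h4, mul_one, inv_mul_cancel₀ (hc _)]
    · have h1 : ∀ i, ∃ r : ℂ, r ^ 2 = (c i)⁻¹ := fun i =>
        IsAlgClosed.exists_pow_nat_eq _ (by norm_num)
      choose r hr using h1
      have h2 : ∀ i, r i ≠ 0 := by
        intro i h
        have h3 := hr i
        rw [h] at h3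
        exact inv_ne_zero (hc i) (by rw [← h3]; norm_num)
      refine H6_core _ c r r h2 h2 (fun _ _ _ => rfl) ?_
      rintro p ⟨_, h4⟩
      have h3 : (Shp.eps true n).st = 1 := rfl
      rw [h3] at h4 ⊢
      have h5 : ((Shp.eps true n).pc p : ℕ) = (Shp.eps true n).pr p := by omega
      rw [h5, Nat.div_one, ← sq, hr, inv_mul_cancel₀ (hc _)]

end MotMono
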