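import Pool.Agent.Lib.MP_4e5fcd_ag.Ic.G1
import Pool.Agent.Lib.MP_4e5fcd_ag.Ic.G8
import Pool.Agent.Lib.MP_4e5fcd_ag.Ic.G9
import Pool.Agent.Lib.MP_4e5fcd_ag.Ic.H4
import Pool.Agent.Lib.MP_4e5fcd_ag.Ic.H5
import Pool.Agent.Lib.MP_4e5fcd_ag.Ic.H6

/-! # IC-H7: reduction to arcs in normal form

PROOF. If some `CS J p y k`, `k > 0`, contains a jet `γ`, let `Y` be its arc (`CS_arc`): `p = p0 Y`, `y = yv k Y` on `J`,
`X ^ k ∣` along `Y`. Write `Y = ptS e Z` (`Z a q = Y (e ⟨a, q⟩)`), `Z a = actI (g a) (h a) (dgI (D a))` (`smithU`, `choose`). As `g a`,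
`h a` are invertible over the power series, `dgP e D = ptS e fun a => actI (g a)⁻¹ (h a)⁻¹ (Z a)` (`Shp.actI_actI`,
`Shp.actI_one`), so `X ^ k ∣ aeval (dgP e D) f` for `f ∈ J` (`dvd_actS`). By `yv_unit`, `p0_unit` `g`, `h` may be replaced by their
constant terms, matrices over `ℂ` with nonzero determinants (`c0`; `constantCoeff` of a unit is not `0`), and by
`tame_trans` (with `tame_congr`) it is enough to treat `dgP e D`; then `exists_lead`, and `Shp.const_act` with `tame_trans`.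
`OrdAt`: the divisibilities are kept in all steps (`dvd_actS`, `exists_lead`, `ordAt_trans`), and the existence of `f ∈ J` with
a nonzero coefficient too (`hy` at the beginning; `ordAt_trans` or `OrdAt` from `yv` in every step). -/

open MvPolynomial

namespace MotMono

variable {s N : ℕ} {σ : Fin s → Shp}

private theorem h7_act_inv {R : Type} [CommRing R] (τ : Shp) (g : Matrix (Fin τ.row) (Fin τ.row) R)
    (h : Matrix (Fin τ.col) (Fin τ.col) R) (g' : Matrix (Fin τ.row) (Fin τ.row) R)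
    (h' : Matrix (Fin τ.col) (Fin τ.col) R) (hg : g' * g = 1) (hh : h * h' = 1) (x : τ.Idx → R) :
    x = τ.actI g' h' (τ.actI g h x) := by
  rw [Shp.actI_actI, hg, hh, Shp.actI_one]

private theorem h7_det {n : ℕ} (g : Matrix (Fin n) (Fin n) (PowerSeries ℂ)) (hg : IsUnit g.det) :
    (g.map (PowerSeries.constantCoeff (R := ℂ))).det ≠ 0 := by
  have h1 : (g.map (PowerSeries.constantCoeff (R := ℂ))).det =
      PowerSeries.constantCoeff (R := ℂ) g.det := by
    have h2 := RingHom.map_det (PowerSeries.constantCoeff (R := ℂ)) g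
    rw [h2]
    rfl
  rw [h1]
  exact (hg.map (PowerSeries.constantCoeff (R := ℂ))).ne_zero

private theorem h7_c0 {n : ℕ} (g : Matrix (Fin n) (Fin n) (PowerSeries ℂ)) :
    g.map c0 = (g.map (PowerSeries.constantCoeff (R := ℂ))).map (algebraMap ℂ (PowerSeries ℂ)) := by
  ext1 i j
  rfl

private theorem h7_inv {n : ℕ} (g : Matrix (Fin n) (Fin n) ℂ) (hg : g.det ≠ 0) :
    g⁻¹.map (algebraMap ℂ (PowerSeries ℂ)) * g.map (algebraMap ℂ (PowerSeries ℂ)) = 1 ∧
      g.map (algebraMap ℂ (PowerSeries ℂ)) * g⁻¹.map (algebraMap ℂ (PowerSeries ℂ)) = 1 := by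
  have hu : IsUnit g.det := isUnit_iff_ne_zero.2 hg
  constructor
  · rw [← Matrix.map_mul, Matrix.nonsing_inv_mul g hu]
    exact Matrix.map_one _ (map_zero _) (map_one _)
  · rw [← Matrix.map_mul, Matrix.mul_nonsing_inv g hu]
    exact Matrix.map_one _ (map_zero _) (map_one _)

private theorem h7_inv_det {n : ℕ} (g : Matrix (Fin n) (Fin n) ℂ) (hg : g.det ≠ 0) :
    g⁻¹.det ≠ 0 := by
  have hu : IsUnit g.det := isUnit_iff_ne_zero.2 hg
  have h1 := congrArg Matrix.det (Matrix.nonsing_inv_mul g hu)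
  rw [Matrix.det_mul, Matrix.det_one] at h1
  exact left_ne_zero_of_mul_eq_one h1

theorem red_diag (hle : ∀ a, (σ a).Le) (e : (Σ a, (σ a).Idx) ≃ Fin N)
    (J : Ideal (MvPolynomial (Fin N) ℂ)) (hJ : ShStable σ e J) (p : Fin N → ℂ)
    (y : MvPolynomial (Fin N) ℂ → ℂ) (hy : ∃ f ∈ J, y f ≠ 0) :
    (∀ d, 0 < d → CS J p y d = ∅) ∨
      ∃ (k : ℕ) (l : Fin s → ℕ → ℕ∞), 0 < k ∧ (∀ a, Monotone (l a)) ∧ OrdAt J (DL e l) k ∧
        (Tame J (p0 (DL e l)) (yv k (DL e l)) → Tame J p y) := by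
  by_cases hE : ∀ d, 0 < d → CS J p y d = ∅
  · exact Or.inl hE
  refine Or.inr ?_
  push Not at hE
  obtain ⟨k, hk, hne⟩ := hE
  obtain ⟨γ, hγ⟩ := hne
  obtain ⟨hp, hdv, hyv⟩ := CS_arc γ hγ
  set Y : Fin N → PowerSeries ℂ := fun i => ((arc γ i : Polynomial ℂ) : PowerSeries ℂ) with hYdef
  -- the matrices
  obtain ⟨Z, hZ⟩ : ∃ Z : ∀ a, (σ a).Idx → PowerSeries ℂ, ptS e Z = Y := by
    refine ⟨fun a q => Y (e ⟨a, q⟩), ?_⟩
    funext x
    show Y (e ⟨(e.symm x).1, (e.symm x).2⟩) = Y x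
    congr 1
    exact e.apply_symm_apply x
  choose D g h hD hZe hg hh using fun a => smithU (σ a) (hle a) (Z a)
  have hZf : Z = fun a => (σ a).actI (g a) (h a) ((σ a).dgI (D a)) := funext hZe
  -- the arc in normal form
  have hdg : ∀ f ∈ J, (PowerSeries.X : PowerSeries ℂ) ^ k ∣ aeval (dgP e D) f := by
    have h1 := dvd_actS e J hJ Z k (by rw [hZ]; exact hdv) (fun a => (g a)⁻¹) (fun a => (h a)⁻¹)
    have h2 : (fun a => (σ a).actI (g a)⁻¹ (h a)⁻¹ (Z a)) = fun a => (σ a).dgI (D a) := by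
      funext a
      conv_lhs => rw [hZe a]
      exact (h7_act_inv (σ a) (g a) (h a) (g a)⁻¹ (h a)⁻¹ (Matrix.nonsing_inv_mul _ (hg a))
        (Matrix.mul_nonsing_inv _ (hh a)) _).symm
    rw [h2] at h1
    exact h1
  -- constant terms of the group elements
  set Z2 : ∀ a, (σ a).Idx → PowerSeries ℂ :=
    fun a => (σ a).actI ((g a).map c0) ((h a).map c0) ((σ a).dgI (D a)) with hZ2
  have hp2 : p0 (ptS e Z2) = p := by
    rw [hZ2, ← p0_unit e (fun a => (σ a).dgI (D a)) g h, ← hZf, hZ, hp]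
  have hy2 : ∀ f ∈ J, yv k (ptS e Z2) f = y f := by
    intro f hf
    rw [hZ2, ← yv_unit e J hJ k (fun a => (σ a).dgI (D a)) hdg g h f hf, ← hZf, hZ]
    exact hyv f hf
  have hd2 : ∀ f ∈ J, (PowerSeries.X : PowerSeries ℂ) ^ k ∣ aeval (ptS e Z2) f :=
    dvd_actS e J hJ (fun a => (σ a).dgI (D a)) k hdg _ _
  have hO2 : OrdAt J (ptS e Z2) k := by
    obtain ⟨f, hf, hf0⟩ := hy
    refine ⟨hd2, f, hf, ?_⟩
    have := hy2 f hf
    unfold yv at this
    rw [this]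
    exact hf0
  have htr : ∀ a, ∃ (g' : Matrix (Fin (σ a).row) (Fin (σ a).row) ℂ)
      (h' : Matrix (Fin (σ a).col) (Fin (σ a).col) ℂ), g'.det ≠ 0 ∧ h'.det ≠ 0 ∧
        (σ a).dgI (D a) = (σ a).actI (g'.map (algebraMap ℂ (PowerSeries ℂ)))
          (h'.map (algebraMap ℂ (PowerSeries ℂ))) (Z2 a) := by
    intro a
    refine ⟨((g a).map (PowerSeries.constantCoeff (R := ℂ)))⁻¹,
      ((h a).map (PowerSeries.constantCoeff (R := ℂ)))⁻¹, h7_inv_det _ (h7_det _ (hg a)),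
      h7_inv_det _ (h7_det _ (hh a)), ?_⟩
    rw [hZ2]
    refine h7_act_inv (σ a) _ _ _ _ ?_ ?_ _
    · rw [h7_c0]
      exact (h7_inv _ (h7_det _ (hg a))).1
    · rw [h7_c0]
      exact (h7_inv _ (h7_det _ (hh a))).2
  have hO3 : OrdAt J (dgP e D) k :=
    ordAt_trans e J hJ k Z2 (fun a => (σ a).dgI (D a)) htr hO2
  -- leading terms
  obtain ⟨c, l, hc, hl, hp4, hy4, hd4⟩ := exists_lead e J hJ k D hD hdg
  have hO4 : OrdAt J (dgP e fun a i => algebraMap ℂ (PowerSeries ℂ) (c a i) * Xp (l a i)) k := by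
    obtain ⟨-, f, hf, hf0⟩ := hO3
    refine ⟨hd4, f, hf, ?_⟩
    have := hy4 f hf
    unfold yv at this
    rw [← this]
    exact hf0
  have htr5 : ∀ a, ∃ (g' : Matrix (Fin (σ a).row) (Fin (σ a).row) ℂ)
      (h' : Matrix (Fin (σ a).col) (Fin (σ a).col) ℂ), g'.det ≠ 0 ∧ h'.det ≠ 0 ∧
        (σ a).dgI (fun i => Xp (l a i)) = (σ a).actI (g'.map (algebraMap ℂ (PowerSeries ℂ)))
          (h'.map (algebraMap ℂ (PowerSeries ℂ)))
          ((σ a).dgI fun i => algebraMap ℂ (PowerSeries ℂ) (c a i) * Xp (l a i)) := by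
    intro a
    obtain ⟨g', h', hg', hh', hact⟩ := Shp.const_act (σ a) (c a) (hc a)
    exact ⟨g', h', hg', hh', (hact (fun i => Xp (l a i))).symm⟩
  refine ⟨k, l, hk, hl, ?_, ?_⟩
  · exact ordAt_trans e J hJ k
      (fun a => (σ a).dgI fun i => algebraMap ℂ (PowerSeries ℂ) (c a i) * Xp (l a i))
      (fun a => (σ a).dgI fun i => Xp (l a i)) htr5 hO4
  · intro hT
    have hT4 : Tame J (p0 (dgP e fun a i => algebraMap ℂ (PowerSeries ℂ) (c a i) * Xp (l a i)))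
        (yv k (dgP e fun a i => algebraMap ℂ (PowerSeries ℂ) (c a i) * Xp (l a i))) :=
      tame_trans e J hJ k
        (fun a => (σ a).dgI fun i => algebraMap ℂ (PowerSeries ℂ) (c a i) * Xp (l a i))
        (fun a => (σ a).dgI fun i => Xp (l a i)) htr5 hT
    rw [← hp4] at hT4
    have hT3 : Tame J (p0 (dgP e D)) (yv k (dgP e D)) :=
      tame_congr (fun f hf => (hy4 f hf).symm) hT4
    have hT2 : Tame J (p0 (ptS e Z2)) (yv k (ptS e Z2)) :=
      tame_trans e J hJ k Z2 (fun a => (σ a).dgI (D a)) htr hT3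
    rw [hp2] at hT2
    exact tame_congr hy2 hT2

end MotMono
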