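import Pool.Agent.Lib.MP_4e5fcd_ag.Ic.TDefs
import Pool.Agent.Lib.MP_4e5fcd_ag.Cl.K0

/-! # IC-H8: permutations of the invariant factors

PROOF. `perm_sym`: `g` = the permutation matrix with `(g M gᵀ) i k = M (π i) (π k)` (determinant `± 1`:
`Matrix.det_permutation` or `Equiv.Perm.permMatrix`; compare `Cl/E2.lean`, `exists_perm_act`), `h = 1` (it is not used for
`eps`). `perm_gen`: `g = 1`, `h` = the permutation matrix of the transposition of the columns `m` and `n - 1`: the
entries of the transformed matrix are `D i` at `(i, i)`, `i < m`, and `D m` at `(m, n - 1)`, the others are `0`; at the first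
positions (`i < m ≤ n - 1`) and at the last one the weight is `0`. -/

open MvPolynomial

namespace MotMono

/-- the matrix which moves the rows -/
private def H8_row {m : ℕ} (f : Equiv.Perm (Fin m)) : Matrix (Fin m) (Fin m) ℂ :=
  (1 : Matrix (Fin m) (Fin m) ℂ).submatrix f id

private theorem H8_det {m : ℕ} (f : Equiv.Perm (Fin m)) : (H8_row f).det ≠ 0 := by
  unfold H8_row
  rw [Matrix.det_permute, Matrix.det_one, mul_one]
  rcases Int.units_eq_one_or (Equiv.Perm.sign f) with h | h <;> rw [h] <;> simp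

private theorem H8_row_mul {R : Type} [CommRing R] [Algebra ℂ R] {m n : ℕ}
    (f : Equiv.Perm (Fin m)) (M : Matrix (Fin m) (Fin n) R) (i : Fin m) (k : Fin n) :
    ((H8_row f).map (algebraMap ℂ R) * M) i k = M (f i) k := by
  rw [Matrix.mul_apply, Finset.sum_eq_single (f i)]
  · rw [Matrix.map_apply, H8_row, Matrix.submatrix_apply, id, Matrix.one_apply_eq, map_one, one_mul]
  · intro j _ hj
    rw [Matrix.map_apply, H8_row, Matrix.submatrix_apply, id, Matrix.one_apply_ne hj.symm, map_zero,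
      zero_mul]
  · intro h
    exact absurd (Finset.mem_univ _) h

private theorem H8_mul_col {R : Type} [CommRing R] [Algebra ℂ R] {m n : ℕ}
    (f : Equiv.Perm (Fin n)) (M : Matrix (Fin m) (Fin n) R) (i : Fin m) (k : Fin n) :
    (M * ((H8_row f).map (algebraMap ℂ R)).transpose) i k = M i (f k) := by
  rw [Matrix.mul_apply, Finset.sum_eq_single (f k)]
  · rw [Matrix.transpose_apply, Matrix.map_apply, H8_row, Matrix.submatrix_apply, id,
      Matrix.one_apply_eq, map_one, mul_one]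
  · intro j _ hj
    rw [Matrix.transpose_apply, Matrix.map_apply, H8_row, Matrix.submatrix_apply, id,
      Matrix.one_apply_ne hj.symm, map_zero, mul_zero]
  · intro h
    exact absurd (Finset.mem_univ _) h

private theorem H8_mat {R : Type} [CommRing R] (n : ℕ) (D : ℕ → R) (a b : Fin n) :
    (Shp.eps true n).mat ((Shp.eps true n).dgI D) a b = if a = b then D a else 0 := by
  have hval : ∀ (a b : Fin n) (h : a < b ∨ true = true ∧ a = b),
      (Shp.eps true n).dgI D ⟨(a, b), h⟩ = if (b : ℕ) = a then D a else 0 := by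
    intro a b h
    have h1 : (Shp.eps true n).dgI D ⟨(a, b), h⟩ =
        if (a : ℕ) % 1 = 0 ∧ (b : ℕ) + 1 = a + 1 then D ((a : ℕ) / 1) else 0 := by
      unfold Shp.dgI
      exact if_congr Iff.rfl rfl rfl
    rw [h1, Nat.div_one]
    by_cases hab : (b : ℕ) = a
    · rw [if_pos hab, if_pos ⟨Nat.mod_one _, by rw [hab]⟩]
    · rw [if_neg hab, if_neg]
      rintro ⟨-, h2⟩
      exact hab (Nat.succ.inj h2)
  rcases lt_trichotomy a b with h | h | h
  · have h1 : (Shp.eps true n).mat ((Shp.eps true n).dgI D) a b =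
        (Shp.eps true n).dgI D ⟨(a, b), Or.inl h⟩ := dif_pos h
    rw [h1, hval, if_neg h.ne, if_neg]
    rw [Fin.lt_def] at h
    omega
  · subst h
    have h1 : (Shp.eps true n).mat ((Shp.eps true n).dgI D) a a =
        (Shp.eps true n).dgI D ⟨(a, a), Or.inr ⟨rfl, rfl⟩⟩ :=
      (dif_neg (lt_irrefl _)).trans ((dif_neg (lt_irrefl _)).trans (dif_pos rfl))
    rw [h1, hval, if_pos rfl, if_pos rfl]
  · have h1 : (Shp.eps true n).mat ((Shp.eps true n).dgI D) a b =
        (if true = true then 1 else -1) * (Shp.eps true n).dgI D ⟨(b, a), Or.inl h⟩ :=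
      (dif_neg (not_lt.2 h.le)).trans (dif_pos h)
    rw [h1, hval, if_neg h.ne', if_neg (c := (a : ℕ) = b), mul_zero]
    rw [Fin.lt_def] at h
    omega

theorem Shp.perm_sym (n : ℕ) (π : Equiv.Perm (Fin n)) :
    ∃ (g : Matrix (Fin (Shp.eps true n).row) (Fin (Shp.eps true n).row) ℂ)
      (h : Matrix (Fin (Shp.eps true n).col) (Fin (Shp.eps true n).col) ℂ),
      g.det ≠ 0 ∧ h.det ≠ 0 ∧ ∀ {R : Type} [CommRing R] [Algebra ℂ R] (D D' : ℕ → R),
        (∀ i : Fin n, D' i = D (π i)) →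
        (Shp.eps true n).actI (g.map (algebraMap ℂ R)) (h.map (algebraMap ℂ R))
          ((Shp.eps true n).dgI D) = (Shp.eps true n).dgI D' := by
  refine ⟨H8_row π, 1, H8_det π, by rw [Matrix.det_one]; exact one_ne_zero, ?_⟩
  intro R _ _ D D' hD
  rw [← Shp.ent_mat (Shp.eps true n) ((Shp.eps true n).dgI D')]
  show (Shp.eps true n).ent ((H8_row π).map (algebraMap ℂ R) *
    (Shp.eps true n).mat ((Shp.eps true n).dgI D) *
    ((H8_row π).map (algebraMap ℂ R)).transpose) = _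
  congr 1
  ext i k
  rw [H8_mul_col, H8_row_mul, H8_mat, H8_mat, hD i]
  simp only [EmbeddingLike.apply_eq_iff_eq]

theorem Shp.perm_gen (m n : ℕ) (hmn : m ≤ n) :
    ∃ (g : Matrix (Fin (Shp.gen (m + 1) (n + 1)).row) (Fin (Shp.gen (m + 1) (n + 1)).row) ℂ)
      (h : Matrix (Fin (Shp.gen (m + 1) (n + 1)).col) (Fin (Shp.gen (m + 1) (n + 1)).col) ℂ),
      g.det ≠ 0 ∧ h.det ≠ 0 ∧ ∀ {R : Type} [CommRing R] [Algebra ℂ R] (D : ℕ → R)
        (p : (Shp.gen (m + 1) (n + 1)).Idx),
        rR m ((Shp.gen (m + 1) (n + 1)).pr p) + -rR n ((Shp.gen (m + 1) (n + 1)).pc p) ≠ 0 →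
        (Shp.gen (m + 1) (n + 1)).actI (g.map (algebraMap ℂ R)) (h.map (algebraMap ℂ R))
          ((Shp.gen (m + 1) (n + 1)).dgI D) p = 0 := by
  obtain ⟨f, hf⟩ : ∃ f : Equiv.Perm (Fin (n + 1)),
      f = Equiv.swap (⟨m, by omega⟩ : Fin (n + 1)) ⟨n, by omega⟩ := ⟨_, rfl⟩
  refine ⟨1, (H8_row f).transpose, by rw [Matrix.det_one]; exact one_ne_zero,
    by rw [Matrix.det_transpose]; exact H8_det f, ?_⟩
  intro R _ _ D p hp
  obtain ⟨i, k⟩ := p
  have hp' : (if (i : ℕ) = m then (1 : ℤ) else 0) + -(if (k : ℕ) = n then (1 : ℤ) else 0) ≠ 0 := hp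
  have h1 : (1 : Matrix (Fin (m + 1)) (Fin (m + 1)) ℂ).map (algebraMap ℂ R) = 1 :=
    Matrix.map_one _ (map_zero _) (map_one _)
  have h2 : ((H8_row f).transpose).map (algebraMap ℂ R) =
      ((H8_row f).map (algebraMap ℂ R)).transpose := rfl
  show ((1 : Matrix (Fin (m + 1)) (Fin (m + 1)) ℂ).map (algebraMap ℂ R) *
    (Shp.gen (m + 1) (n + 1)).mat ((Shp.gen (m + 1) (n + 1)).dgI D) *
    ((H8_row f).transpose).map (algebraMap ℂ R)) i k = 0
  rw [h1, h2, Matrix.one_mul, H8_mul_col]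
  show (if (i : ℕ) % 1 = 0 ∧ (f k : ℕ) + 1 = (i : ℕ) + 1 then D ((i : ℕ) / 1) else 0) = 0
  rw [if_neg]
  rintro ⟨-, h3⟩
  have h4 : (f k : ℕ) = i := Nat.succ.inj h3
  by_cases hk : (k : ℕ) = n
  · have h5 : k = ⟨n, by omega⟩ := Fin.ext hk
    rw [h5, hf, Equiv.swap_apply_right] at h4
    have h6 : (i : ℕ) = m := h4.symm
    rw [if_pos h6, if_pos hk] at hp'
    exact hp' (by norm_num)
  · by_cases hi : (i : ℕ) = m
    · have h5 : f k = ⟨m, by omega⟩ := Fin.ext (h4.trans hi)
      rw [hf, Equiv.swap_apply_eq_iff, Equiv.swap_apply_left] at h5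
      exact hk (congrArg Fin.val h5)
    · rw [if_neg hi, if_neg hk] at hp'
      exact hp' (by norm_num)

end MotMono
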