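import Pool.Agent.Lib.MP_4e5fcd_ag.Ic.H8

/-! # IC-H9: a hyperbolic plane from two equal invariant factors

PROOF. By `Shp.perm_sym` (with a permutation `π` of `Fin (n + 2)` with `π n = i`, `π (n + 1) = i + 1`) we may assume `i = n`; then
apply `g` = the block diagonal matrix with the blocks `1` (size `n`) and `r [[1, ι], [1, -ι]]`, `ι = Complex.I`,
`r ^ 2 = 1 / 2`: for `D n = D (n + 1) = x` the block `diag (x, x)` becomes `r ^ 2 [[x - x, x + x], [x + x, x - x]] = [[0, x], [x, 0]]`,
the other entries do not change. The nonzero entries of the result are at `(i, i)`, `i < n`, and at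
`(n, n + 1)`, where the weight is `0` (`rP n i = 0` for `i < n`; `1 - 1 = 0`). Product of the two matrices:
`Shp.actI_actI`; `Matrix.det_mul`. -/

open MvPolynomial

namespace MotMono

private theorem H9_dg {R : Type} [CommRing R] (n : ℕ) (D : ℕ → R) (i k : Fin n)
    (h : i < k ∨ true = true ∧ i = k) :
    (Shp.eps true n).dgI D ⟨(i, k), h⟩ = if i = k then D i else 0 := by
  have h1 : (Shp.eps true n).st = 1 := rfl
  have h2 : (((Shp.eps true n).pr (⟨(i, k), h⟩ : (Shp.eps true n).Idx) : Fin _) : ℕ) = i := rfl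
  have h3 : (((Shp.eps true n).pc (⟨(i, k), h⟩ : (Shp.eps true n).Idx) : Fin _) : ℕ) = k := rfl
  unfold Shp.dgI
  rw [h1, h2, h3, Nat.mod_one, Nat.div_one]
  by_cases hik : i = k
  · subst hik
    rw [if_pos ⟨rfl, rfl⟩, if_pos rfl]
  · rw [if_neg hik, if_neg]
    rintro ⟨-, h4⟩
    exact hik (Fin.ext (by omega))

private theorem H9_mat {R : Type} [CommRing R] (n : ℕ) (D : ℕ → R) :
    (Shp.eps true n).mat ((Shp.eps true n).dgI D) = Matrix.diagonal (fun i : Fin n => D i) := by
  ext i k
  show (if h : i < k then (Shp.eps true n).dgI D ⟨(i, k), Or.inl h⟩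
      else if h' : k < i then (if true = true then 1 else -1) *
        (Shp.eps true n).dgI D ⟨(k, i), Or.inl h'⟩
      else if hκ : true = true then (Shp.eps true n).dgI D
        ⟨(i, k), Or.inr ⟨hκ, le_antisymm (not_lt.1 h') (not_lt.1 h)⟩⟩
      else 0) = _
  rcases lt_trichotomy i k with h | h | h
  · rw [dif_pos h, H9_dg, if_neg h.ne, Matrix.diagonal_apply_ne _ h.ne]
  · subst h
    rw [dif_neg (lt_irrefl i), dif_neg (lt_irrefl i), dif_pos rfl, H9_dg, if_pos rfl,
      Matrix.diagonal_apply_eq]
  · rw [dif_neg (not_lt.2 h.le), dif_pos h, H9_dg, if_neg h.ne, mul_zero,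
      Matrix.diagonal_apply_ne _ h.ne']

/-- the hyperbolic block: `q` is the parameter in the last columns -/
private noncomputable def H9_G {S : Type} [CommRing S] (n : ℕ) (r q : S) :
    Matrix (Fin (n + 2)) (Fin (n + 2)) S :=
  fun a b => if (a : ℕ) < n then (if a = b then 1 else 0)
    else if (b : ℕ) < n then 0
    else if (b : ℕ) = n then r
    else if (a : ℕ) = n then q else -q

/-- the inverse -/
private noncomputable def H9_H {S : Type} [CommRing S] (n : ℕ) (r q : S) :
    Matrix (Fin (n + 2)) (Fin (n + 2)) S :=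
  fun a b => if (a : ℕ) < n then (if a = b then 1 else 0)
    else if (b : ℕ) < n then 0
    else if (a : ℕ) = n then r
    else if (b : ℕ) = n then -q else q

private theorem H9_sum {S : Type} [CommRing S] (n : ℕ) (f : Fin (n + 2) → S)
    (hf : ∀ b : Fin (n + 2), (b : ℕ) < n → f b = 0) :
    ∑ b, f b = f ⟨n, by omega⟩ + f ⟨n + 1, by omega⟩ := by
  rw [Fin.sum_univ_castSucc, Fin.sum_univ_castSucc, Finset.sum_eq_zero, zero_add]
  · rfl
  · intro b _
    exact hf _ b.2

private theorem H9_mul {S : Type} [CommRing S] (n : ℕ) (r q : S) (h1 : 2 * r ^ 2 = 1)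
    (h2 : q ^ 2 = -r ^ 2) : H9_G n r q * H9_H n r q = 1 := by
  ext a c
  rw [Matrix.mul_apply]
  by_cases ha : (a : ℕ) < n
  · rw [Finset.sum_eq_single a]
    · unfold H9_G H9_H
      rw [if_pos ha, if_pos rfl, if_pos ha, one_mul, Matrix.one_apply]
    · intro b _ hb
      unfold H9_G
      rw [if_pos ha, if_neg (Ne.symm hb), zero_mul]
    · intro h
      exact absurd (Finset.mem_univ a) h
  · rw [H9_sum]
    · unfold H9_G H9_H
      by_cases hc : (c : ℕ) < n
      · have hac : a ≠ c := by
          rintro rfl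
          exact ha hc
        rw [Matrix.one_apply_ne hac]
        simp [hc, ha]
      · have ha' : (a : ℕ) = n ∨ (a : ℕ) = n + 1 := by omega
        have hc' : (c : ℕ) = n ∨ (c : ℕ) = n + 1 := by omega
        rcases ha' with ha' | ha' <;> rcases hc' with hc' | hc'
        · have hac : a = c := Fin.ext (by omega)
          rw [hac, Matrix.one_apply_eq]
          simp [hc']
          linear_combination h1 - h2
        · have hac : a ≠ c := by
            intro h
            have := congrArg Fin.val h
            omega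
          rw [Matrix.one_apply_ne hac]
          simp [ha', hc']
          linear_combination h2
        · have hac : a ≠ c := by
            intro h
            have := congrArg Fin.val h
            omega
          rw [Matrix.one_apply_ne hac]
          simp [ha', hc']
          linear_combination h2
        · have hac : a = c := Fin.ext (by omega)
          rw [hac, Matrix.one_apply_eq]
          simp [hc']
          linear_combination h1 - h2
    · intro b hb
      unfold H9_G
      rw [if_neg ha, if_pos hb, zero_mul]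

private theorem H9_map {R : Type} [CommRing R] [Algebra ℂ R] (n : ℕ) (r q : ℂ) :
    (H9_G n r q).map (algebraMap ℂ R) = H9_G n (algebraMap ℂ R r) (algebraMap ℂ R q) := by
  ext a b
  rw [Matrix.map_apply]
  unfold H9_G
  split_ifs <;> simp

/-- the entries of `G diag(D) Gᵀ` -/
private theorem H9_ent {S : Type} [CommRing S] (n : ℕ) (r q : S) (h2 : q ^ 2 = -r ^ 2)
    (D : Fin (n + 2) → S) (hD : D ⟨n, by omega⟩ = D ⟨n + 1, by omega⟩) (a c : Fin (n + 2))
    (hac : a ≤ c) (hw : rP n a + rP n c ≠ 0) :
    (H9_G n r q * Matrix.diagonal D * (H9_G n r q).transpose) a c = 0 := by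
  have hent : (H9_G n r q * Matrix.diagonal D * (H9_G n r q).transpose) a c =
      ∑ b, H9_G n r q a b * D b * H9_G n r q c b := by
    rw [Matrix.mul_apply]
    refine Finset.sum_congr rfl fun b _ => ?_
    rw [Matrix.mul_diagonal, Matrix.transpose_apply]
  rw [hent]
  by_cases ha : (a : ℕ) < n
  · apply Finset.sum_eq_zero
    intro b _
    unfold H9_G
    rw [if_pos ha]
    by_cases hab : a = b
    · have hc : ¬ (c : ℕ) < n := by
        intro hc
        apply hw
        unfold rP
        rw [if_neg (by omega), if_neg (by omega), if_neg (by omega), if_neg (by omega), add_zero]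
      rw [if_neg hc, ← hab, if_pos ha, mul_zero]
    · rw [if_neg hab, zero_mul, zero_mul]
  · have hac' : (a : ℕ) ≤ c := hac
    have ha' : (a : ℕ) = n ∨ (a : ℕ) = n + 1 := by omega
    have hc' : (c : ℕ) = n ∨ (c : ℕ) = n + 1 := by omega
    rw [H9_sum]
    · rcases ha' with ha' | ha' <;> rcases hc' with hc' | hc'
      · unfold H9_G
        simp [ha', hc', hD]
        linear_combination (D ⟨n + 1, by omega⟩) * h2
      · exfalso
        apply hw
        unfold rP
        rw [if_pos ha', if_neg (by omega), if_pos hc']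
        norm_num
      · omega
      · unfold H9_G
        simp [ha', hc', hD]
        linear_combination (D ⟨n + 1, by omega⟩) * h2
    · intro b hb
      unfold H9_G
      rw [if_neg ha, if_pos hb, zero_mul, zero_mul]

theorem Shp.hyp_sym (n i : ℕ) (hi : i + 1 < n + 2) :
    ∃ (g : Matrix (Fin (Shp.eps true (n + 2)).row) (Fin (Shp.eps true (n + 2)).row) ℂ)
      (h : Matrix (Fin (Shp.eps true (n + 2)).col) (Fin (Shp.eps true (n + 2)).col) ℂ),
      g.det ≠ 0 ∧ h.det ≠ 0 ∧ ∀ {R : Type} [CommRing R] [Algebra ℂ R] (D : ℕ → R),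
        D i = D (i + 1) → ∀ p : (Shp.eps true (n + 2)).Idx,
        rP n ((Shp.eps true (n + 2)).pr p) + rP n ((Shp.eps true (n + 2)).pc p) ≠ 0 →
        (Shp.eps true (n + 2)).actI (g.map (algebraMap ℂ R)) (h.map (algebraMap ℂ R))
          ((Shp.eps true (n + 2)).dgI D) p = 0 := by
  classical
  -- the permutation
  obtain ⟨π, hπ1, hπ2⟩ : ∃ π : Equiv.Perm (Fin (n + 2)),
      π ⟨n, by omega⟩ = ⟨i, by omega⟩ ∧ π ⟨n + 1, by omega⟩ = ⟨i + 1, hi⟩ := by
    set u : Fin (n + 2) := ⟨n, by omega⟩ with hu
    set v : Fin (n + 2) := ⟨n + 1, by omega⟩ with hv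
    set x : Fin (n + 2) := ⟨i, by omega⟩ with hx
    set y : Fin (n + 2) := ⟨i + 1, hi⟩ with hy
    have hxy : x ≠ y := by
      intro h
      have := congrArg Fin.val h
      simp only [hx, hy] at this
      omega
    have huv : u ≠ v := by
      intro h
      have := congrArg Fin.val h
      simp only [hu, hv] at this
      omega
    refine ⟨Equiv.swap (Equiv.swap u x v) y * Equiv.swap u x, ?_, ?_⟩
    · rw [Equiv.Perm.mul_apply, Equiv.swap_apply_left]
      apply Equiv.swap_apply_of_ne_of_ne _ hxy
      intro h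
      have h2 := congrArg (Equiv.swap u x) h
      rw [Equiv.swap_apply_right, Equiv.swap_apply_self] at h2
      exact huv h2
    · rw [Equiv.Perm.mul_apply, Equiv.swap_apply_left]
  obtain ⟨g', h', hg', hh', hact⟩ := Shp.perm_sym (n + 2) π
  -- the block
  obtain ⟨r, hr⟩ : ∃ r : ℂ, 2 * r ^ 2 = 1 := by
    obtain ⟨r, hr⟩ := IsAlgClosed.exists_pow_nat_eq (1 / 2 : ℂ) (by norm_num : 0 < 2)
    exact ⟨r, by rw [hr]; norm_num⟩
  have hq : (r * Complex.I) ^ 2 = -r ^ 2 := by
    rw [mul_pow, Complex.I_sq]
    ring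
  have hG : (H9_G n r (r * Complex.I)).det ≠ 0 :=
    Matrix.det_ne_zero_of_right_inverse (H9_mul n r (r * Complex.I) hr hq)
  refine ⟨H9_G n r (r * Complex.I) * g', h' * 1, ?_, ?_, ?_⟩
  · show (H9_G n r (r * Complex.I) * g').det ≠ 0
    rw [Matrix.det_mul]
    exact mul_ne_zero hG hg'
  · rw [Matrix.mul_one]
    exact hh'
  · intro R _ _ D hD p hp
    have hmul : (H9_G n r (r * Complex.I) * g').map (algebraMap ℂ R) =
        (H9_G n r (r * Complex.I)).map (algebraMap ℂ R) * g'.map (algebraMap ℂ R) := by
      rw [Matrix.map_mul]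
    have hmul' : (h' * (1 : Matrix _ _ ℂ)).map (algebraMap ℂ R) =
        h'.map (algebraMap ℂ R) * (1 : Matrix _ _ ℂ).map (algebraMap ℂ R) := by
      rw [Matrix.map_mul]
    have hstep := Shp.actI_actI (R := R) (Shp.eps true (n + 2))
      ((H9_G n r (r * Complex.I)).map (algebraMap ℂ R)) (g'.map (algebraMap ℂ R))
      ((1 : Matrix _ _ ℂ).map (algebraMap ℂ R)) (h'.map (algebraMap ℂ R))
      ((Shp.eps true (n + 2)).dgI D)
    set D' : ℕ → R := fun k => if h : k < n + 2 then D (π ⟨k, h⟩) else 0 with hD'
    have hDD : ∀ k : Fin (n + 2), D' k = D (π k) := by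
      intro k
      rw [hD']
      exact dif_pos k.2
    rw [hact D D' hDD] at hstep
    have hfin : (Shp.eps true (n + 2)).actI ((H9_G n r (r * Complex.I)).map (algebraMap ℂ R))
        ((1 : Matrix _ _ ℂ).map (algebraMap ℂ R)) ((Shp.eps true (n + 2)).dgI D') p = 0 := by
      obtain ⟨⟨a, c⟩, hpac⟩ := p
      have hac : a ≤ c := by
        rcases hpac with h | h
        · exact h.le
        · exact h.2.le
      show ((H9_G n r (r * Complex.I)).map (algebraMap ℂ R) *
        (Shp.eps true (n + 2)).mat ((Shp.eps true (n + 2)).dgI D') *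
        ((H9_G n r (r * Complex.I)).map (algebraMap ℂ R)).transpose) a c = 0
      rw [H9_mat, H9_map]
      apply H9_ent n _ _ _ _ _ a c hac hp
      · rw [← map_pow, hq, map_neg, map_pow]
      · show D' n = D' (n + 1)
        have e1 := hDD ⟨n, by omega⟩
        have e2 := hDD ⟨n + 1, by omega⟩
        rw [hπ1] at e1
        rw [hπ2] at e2
        rw [e1, e2]
        exact hD
    rw [hstep] at hfin
    rw [← hfin]
    congr 1

end MotMono
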