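import Pool.Agent.Lib.MP_4e5fcd_ag.Ic.TDefs
import Pool.Agent.Lib.MP_4e5fcd_ag.Cl.Main

/-! # IC-X0: the curve of a pole of the motivic zeta function of an equivariant ideal

PROOF. As `cl_main` in `Cl/Main.lean`: `cv = crvS e u δ`. -/

open MvPolynomial

namespace MotMono

variable {s N : ℕ}

theorem cl_main_curve (σ : Fin s → Shp) (hσ : ∀ a, (σ a).Ok) (e : (Σ a, (σ a).Idx) ≃ Fin N)
    (J : Ideal (MvPolynomial (Fin N) ℂ)) (hJ : ShStable σ e J) (s₀ : ℚ)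
    (hpole : IsPole (Zmot J) s₀) (ε : ℝ) (hε : 0 < ε) :
    ∃ (cv : Fin N → Polynomial ℂ) (n₀ c : ℕ), 0 < n₀ ∧ 0 < c ∧ ‖fun i => (cv i).eval 0‖ < ε ∧
      Complex.exp (2 * Real.pi * Complex.I * s₀) ^ n₀ = 1 ∧
      (∀ f ∈ J, ∀ l < n₀, (aeval cv f).coeff l = 0) ∧ (∃ f ∈ J, (aeval cv f).coeff n₀ ≠ 0) ∧
      ∀ χ : K0 →+* ℤ, IsEulerChar χ → ∀ d, 0 < d →
        χ (cls (CS J (fun i => (cv i).eval 0) (fun f => (aeval cv f).coeff n₀) d)) =
          if n₀ ∣ d then ((n₀ * c : ℕ) : ℤ) else 0 := by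
  classical
  have hle : ∀ a, (σ a).Le := fun a => c7s_le _ (hσ a)
  by_cases hbot : J = ⊥
  · exfalso
    rw [hbot, im_Zmot_bot] at hpole
    exact hpole (Subring.zero_mem _)
  obtain ⟨A, hA⟩ := exists_gensS e hle J hJ hbot
  have hO := ordBy e hle J hJ A hA
  obtain ⟨u₀, hu₀, hN₀, hs₀⟩ := exists_ray_of_poleS e hσ J A hA.1 hO s₀ hpole
  obtain ⟨u, hu, hdet, hp, hN, z, hz⟩ := exists_detectedS σ hle A u₀ hu₀ hN₀
  obtain ⟨n₀, hn₀⟩ : ∃ n₀, minF (AW (m := fun a => (σ a).rk) A) u = n₀ := ⟨_, rfl⟩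
  rw [hn₀] at hN hz
  have h : Dat e J A u n₀ := { le := hle, stable := hJ, gens := hA, pos := hN, min := hn₀, ext := hu, det := hdet, prim := hp }
  obtain ⟨δ, hδdef⟩ : ∃ δ : ℂ, δ = ((ε / 2 : ℝ) : ℂ) := ⟨_, rfl⟩
  have hδ : δ ≠ 0 := by
    rw [hδdef]; exact_mod_cast (by positivity : (ε / 2 : ℝ) ≠ 0)
  obtain ⟨y, hy⟩ := exists_conePoint_curve J (crvS e u δ) n₀ (crv_lt h δ)
  obtain ⟨c, hc0, hc⟩ := gam_card h
  refine ⟨crvS e u δ, n₀, c, hN, hc0, ?_, ?_, crv_lt h δ, crv_ne h δ hδ, ?_⟩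
  · rw [hδdef]
    exact crv_small e u ε hε
  · rw [hs₀, ← Complex.exp_nat_mul, Complex.exp_eq_one_iff]
    refine ⟨-z, ?_⟩
    have h1 : ((pair (nufS σ) u₀ : ℤ) : ℂ) * ((n₀ : ℤ) : ℂ) =
        (z : ℂ) * ((minF (AW (m := fun a => (σ a).rk) A) u₀ : ℤ) : ℂ) := by exact_mod_cast hz
    have h2 : ((minF (AW (m := fun a => (σ a).rk) A) u₀ : ℕ) : ℂ) ≠ 0 := by
      exact_mod_cast hN₀.ne'
    have h3 : (n₀ : ℂ) * (((pair (nufS σ) u₀ : ℕ) : ℂ) /
        ((minF (AW (m := fun a => (σ a).rk) A) u₀ : ℕ) : ℂ)) = z := by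
      rw [← mul_div_assoc, div_eq_iff h2]
      push_cast at h1
      rw [← h1]; ring
    push_cast
    rw [← h3]
    ring
  · intro χ hχ d hd
    have h5 : CS J (fun i => (crvS e u δ i).eval 0) (fun f => (aeval (crvS e u δ) f).coeff n₀) d =
        contactArcs J (fun i => (crvS e u δ i).eval 0) y d := by
      unfold CS contactArcs
      ext γ
      simp only [Set.mem_ofPred_eq]
      refine and_congr_right fun _ => forall₂_congr fun f hf => ?_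
      rw [hy f hf]
    rw [h5, chi_contact_eq χ hχ h δ y hy d hd]
    by_cases hdvd : n₀ ∣ d
    · rw [if_pos hdvd, chi_XX χ hχ h δ hδ d hdvd, hc]
    · rw [if_neg hdvd]
      have h4 : XX e J u δ n₀ d = ∅ := by
        rw [Set.eq_empty_iff_forall_notMem]
        intro x hx
        exact hdvd (xx_dvd h δ hδ d x hx)
      rw [h4, cls_empty, map_zero]

end MotMono
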