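import Pool.Agent.Lib.MP_4e5fcd_ag.Ic.X2
import Pool.Agent.Lib.MP_4e5fcd_ag.Ic.G1

/-! # IC-X3: the contact jets of an ideal with the same integral closure

PROOF. `lead_pow`: induction on `i` (`i = 0`: `y.base`, the constant coefficient; `i + 1`: `pow_succ`, `Submodule.mul_induction_on`,
`y.mul i 1`, `y.add (i + 1)`; products: the coefficient `i d + d` of `u * v` with `X ^ (i d) ∣ u`, `X ^ d ∣ v`). `lead_root`: the
coefficient `n d` of the integral equation of `h * f` (`X ^ d ∣ along (h * f) γ` by `dvd_of_integral`). `exists_finset`: choose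
`f_1, …, f_r` generating `J` (`Noetherian`), for every `f_j` the integral equation of `h * f_j`; by `lead_root` the values
`(along f_j γ).coeff d` (`= (eval p h)⁻¹ * ξ`, `dvd_of_mul`) for `γ ∈ contactArcs I p y d`, `d > 0`, are in a finite set (roots of a monic
polynomial). Let `𝒴` be the set of all `Y` which vanish outside `J` and agree on `J` with `f ↦ (along f γ).coeff d` for some `d > 0`,
`γ ∈ contactArcs I p y d`. It is finite: `Y ↦ (Y f_j)_j` is injective on `𝒴`, since `Y (∑ g_j f_j) = ∑ (eval p g_j) * Y f_j`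
(`X ^ d ∣ along f_j γ` by `dvd_of_integral`, `dvd_of_mul`). Property of `Y ∈ 𝒴`: for `f ∈ I` `Y (h * f) = eval p h * y.φ 1 f`
(`dvd_of_mul`). `iff`: `→`: `Y f = (along f γ).coeff d` for `f ∈ J`, `0` otherwise. `←`: for `f ∈ I` apply the conditions to
`h * f ∈ J` and `dvd_of_mul`. Compare `/team-store/NWT_mod_B3.lean` (proved there for monomial ideals). -/

open MvPolynomial

namespace MotMono

variable {N : ℕ} {I J : Ideal (MvPolynomial (Fin N) ℂ)}

private theorem x3_add {n : ℕ} (a b : MvPolynomial (Fin N) ℂ) (γ : Fin N × Fin n → ℂ) :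
    along (a + b) γ = along a γ + along b γ := by simp [along]

private theorem x3_mul {n : ℕ} (a b : MvPolynomial (Fin N) ℂ) (γ : Fin N × Fin n → ℂ) :
    along (a * b) γ = along a γ * along b γ := by simp [along]

private theorem x3_pow {n : ℕ} (a : MvPolynomial (Fin N) ℂ) (k : ℕ) (γ : Fin N × Fin n → ℂ) :
    along (a ^ k) γ = along a γ ^ k := by simp [along]

private theorem x3_sum {ι : Type*} {n : ℕ} (t : Finset ι) (a : ι → MvPolynomial (Fin N) ℂ)
    (γ : Fin N × Fin n → ℂ) : along (∑ i ∈ t, a i) γ = ∑ i ∈ t, along (a i) γ := by simp [along]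

private theorem x3_zero {n : ℕ} (γ : Fin N × Fin n → ℂ) :
    along (0 : MvPolynomial (Fin N) ℂ) γ = 0 := by simp [along]

private theorem x3_coeff0 (f : MvPolynomial (Fin N) ℂ) {d : ℕ} (γ : Fin N × Fin (d + 1) → ℂ) :
    (along f γ).coeff 0 = eval (fun j => γ (j, 0)) f := by
  rw [Polynomial.coeff_zero_eq_eval_zero, along]
  induction f using MvPolynomial.induction_on with
  | C a => simp
  | add p q hp hq => rw [map_add, Polynomial.eval_add, hp, hq, map_add]
  | mul_X p i hp =>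
    rw [map_mul, Polynomial.eval_mul, hp, map_mul, aeval_X, eval_X]
    congr 1
    rw [arc, Polynomial.eval_finsetSum, Finset.sum_eq_single 0]
    · simp
    · intro l _ hl
      have h1 : (l : ℕ) ≠ 0 := fun h2 => hl (Fin.ext h2)
      rw [Polynomial.eval_mul, Polynomial.eval_pow, Polynomial.eval_X, zero_pow h1, mul_zero]
    · intro h1
      exact absurd (Finset.mem_univ _) h1

private theorem x3_coeff (a : MvPolynomial (Fin N) ℂ) {d : ℕ} {p : Fin N → ℂ}
    {γ : Fin N × Fin (d + 1) → ℂ} (h : ∀ i, γ (i, 0) = p i) :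
    (along a γ).coeff 0 = eval p a := by
  rw [x3_coeff0]
  congr 2
  funext i
  exact h i

private theorem x3_form {d : ℕ} {F : Polynomial ℂ} (h : (Polynomial.X : Polynomial ℂ) ^ d ∣ F) :
    ∃ u : Polynomial ℂ, F = Polynomial.X ^ d * u ∧ u.coeff 0 = F.coeff d := by
  obtain ⟨u, hu⟩ := h
  refine ⟨u, hu, ?_⟩
  rw [hu, Polynomial.coeff_X_pow_mul', if_pos le_rfl, Nat.sub_self]

private theorem x3_mulc {d : ℕ} (A : Polynomial ℂ) {F : Polynomial ℂ}
    (h : (Polynomial.X : Polynomial ℂ) ^ d ∣ F) : (A * F).coeff d = A.coeff 0 * F.coeff d := by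
  obtain ⟨u, hu, hu'⟩ := x3_form h
  rw [← hu', hu, mul_left_comm, Polynomial.coeff_X_pow_mul', if_pos le_rfl, Nat.sub_self,
    Polynomial.mul_coeff_zero]

private theorem x3_form' {d : ℕ} (u : Polynomial ℂ) :
    (Polynomial.X : Polynomial ℂ) ^ d ∣ Polynomial.X ^ d * u ∧
      (Polynomial.X ^ d * u).coeff d = u.coeff 0 := by
  refine ⟨Dvd.intro _ rfl, ?_⟩
  rw [Polynomial.coeff_X_pow_mul', if_pos le_rfl, Nat.sub_self]

private theorem x3_pow_form (p : Fin N → ℂ) (y : ConePoint I p) (d : ℕ)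
    (γ : Fin N × Fin (d + 1) → ℂ) (hγ : γ ∈ contactArcs I p y d) (i : ℕ) :
    ∀ a ∈ I ^ i, ∃ u : Polynomial ℂ, along a γ = Polynomial.X ^ (i * d) * u ∧
      u.coeff 0 = y.φ i a := by
  induction i with
  | zero =>
    intro a _
    refine ⟨along a γ, by rw [zero_mul, pow_zero, one_mul], ?_⟩
    rw [x3_coeff a hγ.1, y.base]
  | succ i ih =>
    intro a ha
    have h1 : ∀ c ∈ I, ∃ v : Polynomial ℂ, along c γ = Polynomial.X ^ d * v ∧
        v.coeff 0 = y.φ 1 c := by
      intro c hc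
      obtain ⟨v, hv, hv'⟩ := x3_form (Polynomial.X_pow_dvd_iff.2 (hγ.2 c hc).1)
      exact ⟨v, hv, by rw [hv', (hγ.2 c hc).2]⟩
    have h2 : a ∈ I ^ (i + 1) ∧ ∃ u : Polynomial ℂ,
        along a γ = Polynomial.X ^ ((i + 1) * d) * u ∧ u.coeff 0 = y.φ (i + 1) a := by
      have ha' := ha
      rw [pow_succ] at ha'
      refine Submodule.mul_induction_on ha' ?_ ?_
      · intro b hb c hc
        obtain ⟨u, hu, hu'⟩ := ih b hb
        obtain ⟨v, hv, hv'⟩ := h1 c hc
        refine ⟨by rw [pow_succ]; exact Ideal.mul_mem_mul hb hc, u * v, ?_, ?_⟩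
        · rw [x3_mul, hu, hv]
          ring
        · rw [Polynomial.mul_coeff_zero, hu', hv', y.mul i 1 b hb c (by rw [pow_one]; exact hc)]
      · rintro b c ⟨hb, u, hu, hu'⟩ ⟨hc, v, hv, hv'⟩
        refine ⟨Ideal.add_mem _ hb hc, u + v, ?_, ?_⟩
        · rw [x3_add, hu, hv, mul_add]
        · rw [Polynomial.coeff_add, hu', hv', y.add (i + 1) b hb c hc]
    exact h2.2

theorem lead_pow (p : Fin N → ℂ) (y : ConePoint I p) (d : ℕ) (γ : Fin N × Fin (d + 1) → ℂ)
    (hγ : γ ∈ contactArcs I p y d) (i : ℕ) (a : MvPolynomial (Fin N) ℂ) (ha : a ∈ I ^ i) :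
    (Polynomial.X : Polynomial ℂ) ^ (i * d) ∣ along a γ ∧ (along a γ).coeff (i * d) = y.φ i a := by
  obtain ⟨u, hu, hu'⟩ := x3_pow_form p y d γ hγ i a ha
  rw [hu, ← hu']
  exact x3_form' u

theorem lead_root (p : Fin N → ℂ) (y : ConePoint I p) (d : ℕ) (hd : 0 < d)
    (γ : Fin N × Fin (d + 1) → ℂ) (hγ : γ ∈ contactArcs I p y d) (g : MvPolynomial (Fin N) ℂ)
    (n : ℕ) (a : ℕ → MvPolynomial (Fin N) ℂ) (ha : ∀ i, a i ∈ I ^ i)
    (heq : g ^ n + ∑ i ∈ Finset.Icc 1 n, a i * g ^ (n - i) = 0)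
    (hg : (Polynomial.X : Polynomial ℂ) ^ d ∣ along g γ) :
    (along g γ).coeff d ^ n + ∑ i ∈ Finset.Icc 1 n, y.φ i (a i) * (along g γ).coeff d ^ (n - i) =
      0 := by
  obtain ⟨v, hv, hv'⟩ := x3_form hg
  rw [← hv']
  choose u hu hu' using fun i => x3_pow_form p y d γ hγ i (a i) (ha i)
  have e := congrArg (fun a => along a γ) heq
  rw [x3_add, x3_pow, x3_sum, x3_zero, hv] at e
  have e2 : (Polynomial.X : Polynomial ℂ) ^ (n * d) * (v ^ n +
      ∑ i ∈ Finset.Icc 1 n, u i * v ^ (n - i)) = 0 := by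
    rw [← e, mul_add, Finset.mul_sum]
    congr 1
    · ring
    · refine Finset.sum_congr rfl fun i hi => ?_
      rw [Finset.mem_Icc] at hi
      rw [x3_mul, x3_pow, hv, hu]
      obtain ⟨k, rfl⟩ : ∃ k, n = i + k := ⟨n - i, by omega⟩
      rw [Nat.add_sub_cancel_left]
      ring
  have e3 := (mul_eq_zero.1 e2).resolve_left (pow_ne_zero _ Polynomial.X_ne_zero)
  have e4 := congrArg (fun q => Polynomial.eval 0 q) e3
  simp only [Polynomial.eval_add, Polynomial.eval_pow, Polynomial.eval_finsetSum,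
    Polynomial.eval_mul, Polynomial.eval_zero, ← Polynomial.coeff_zero_eq_eval_zero, hu'] at e4
  exact e4

theorem exists_finset (h : MvPolynomial (Fin N) ℂ) (h1 : ∀ f ∈ I, h * f ∈ J)
    (h2 : ∀ f ∈ J, IntegralOver I (h * f)) (p : Fin N → ℂ) (hp : eval p h ≠ 0)
    (y : ConePoint I p) :
    ∃ S : Finset (MvPolynomial (Fin N) ℂ → ℂ),
      (∀ Y ∈ S, (∀ f, f ∉ J → Y f = 0) ∧ ∀ f ∈ I, Y (h * f) = eval p h * y.φ 1 f) ∧
      ∀ d, 0 < d → ∀ γ : Fin N × Fin (d + 1) → ℂ,
        γ ∈ contactArcs I p y d ↔ ∃ Y ∈ S, γ ∈ CS J p Y d := by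
  classical
  -- divisibility
  have hdI : ∀ d, ∀ γ ∈ contactArcs I p y d, ∀ f ∈ I,
      (Polynomial.X : Polynomial ℂ) ^ d ∣ along f γ := fun d γ hγ f hf =>
    Polynomial.X_pow_dvd_iff.2 (hγ.2 f hf).1
  have hdJ : ∀ d, ∀ γ ∈ contactArcs I p y d, ∀ f ∈ J,
      (Polynomial.X : Polynomial ℂ) ^ d ∣ along f γ := by
    intro d γ hγ
    refine (dvd_iff_closure (aeval (arc γ)) d h ?_ h1 h2).1 (hdI d γ hγ)
    have h3 := x3_coeff h hγ.1
    unfold along at h3
    rw [h3]
    exact hp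
  -- the roots
  have hroot : ∀ g ∈ J, ∃ R : Polynomial ℂ, R ≠ 0 ∧ ∀ d, 0 < d → ∀ γ ∈ contactArcs I p y d,
      R.eval (eval p h * (along g γ).coeff d) = 0 := by
    intro g hg
    obtain ⟨n, a, hn, ha, heq⟩ := h2 g hg
    refine ⟨Polynomial.X ^ n + ∑ i ∈ Finset.Icc 1 n, Polynomial.C (y.φ i (a i)) *
      Polynomial.X ^ (n - i), ?_, ?_⟩
    · intro h0
      have h1 := congrArg (fun q => Polynomial.coeff q n) h0
      simp only [Polynomial.coeff_add, Polynomial.finsetSum_coeff, Polynomial.coeff_C_mul,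
        Polynomial.coeff_X_pow, if_true, Polynomial.coeff_zero] at h1
      rw [Finset.sum_eq_zero, add_zero] at h1
      · exact one_ne_zero h1
      · intro i hi
        rw [Finset.mem_Icc] at hi
        rw [if_neg (by omega), mul_zero]
    · intro d hd γ hγ
      have e1 : (along (h * g) γ).coeff d = eval p h * (along g γ).coeff d := by
        rw [x3_mul, x3_mulc _ (hdJ d γ hγ g hg), x3_coeff h hγ.1]
      have e2 := lead_root p y d hd γ hγ (h * g) n a ha heq (by
        rw [x3_mul]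
        exact Dvd.dvd.mul_left (hdJ d γ hγ g hg) _)
      rw [e1] at e2
      simp only [Polynomial.eval_add, Polynomial.eval_pow, Polynomial.eval_X,
        Polynomial.eval_finsetSum, Polynomial.eval_mul, Polynomial.eval_C]
      exact e2
  choose! R hR0 hR using hroot
  -- the set of all leading terms
  obtain ⟨s, hs⟩ : J.FG := IsNoetherian.noetherian J
  have hsJ : ∀ g ∈ s, g ∈ J := fun g hg => by
    rw [← hs]
    exact Submodule.subset_span hg
  let 𝒴 : Set (MvPolynomial (Fin N) ℂ → ℂ) := {Y | (∀ f, f ∉ J → Y f = 0) ∧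
    ∃ d, 0 < d ∧ ∃ γ ∈ contactArcs I p y d, ∀ f ∈ J, Y f = (along f γ).coeff d}
  have hfin : 𝒴.Finite := by
    have ht : {z : s → ℂ | ∀ g : s, z g ∈ {x : ℂ | (R g).eval (eval p h * x) = 0}}.Finite := by
      refine Set.Finite.pi' (t := fun g : s => {x : ℂ | (R g).eval (eval p h * x) = 0}) fun g => ?_
      have h3 : {x : ℂ | (R g).eval (eval p h * x) = 0} ⊆
          (fun x => eval p h * x) ⁻¹' {w : ℂ | (R g).eval w = 0} := fun x hx => hx
      refine Set.Finite.subset (Set.Finite.preimage ?_ ?_) h3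
      · exact fun x _ x' _ hx => mul_left_cancel₀ hp hx
      · exact Polynomial.finite_setOfPred_isRoot (hR0 g (hsJ g g.2))
    refine Set.Finite.of_injOn (f := fun Y (g : s) => Y g) ?_ ?_ ht
    · rintro Y ⟨_, d, hd, γ, hγ, hY⟩ g
      show (R g).eval (eval p h * Y g) = 0
      rw [hY g (hsJ g g.2)]
      exact hR g (hsJ g g.2) d hd γ hγ
    · rintro Y ⟨hY0, d, hd, γ, hγ, hY⟩ Y' ⟨hY0', d', hd', γ', hγ', hY'⟩ hYY
      funext f
      by_cases hf : f ∈ J
      · rw [hY f hf, hY' f hf]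
        have hf' := hf
        rw [← hs] at hf'
        refine Submodule.span_induction (p := fun f _ => (along f γ).coeff d =
          (along f γ').coeff d') ?_ ?_ ?_ ?_ hf'
        · intro g hg
          rw [← hY g (hsJ g hg), ← hY' g (hsJ g hg)]
          exact congrFun hYY ⟨g, hg⟩
        · rw [x3_zero, x3_zero, Polynomial.coeff_zero, Polynomial.coeff_zero]
        · intro a b _ _ ha hb
          rw [x3_add, x3_add, Polynomial.coeff_add, Polynomial.coeff_add, ha, hb]
        · intro a b hb hb2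
          have hb3 : b ∈ J := by
            rw [← hs]
            exact hb
          rw [smul_eq_mul, x3_mul, x3_mul, x3_mulc _ (hdJ d γ hγ b hb3),
            x3_mulc _ (hdJ d' γ' hγ' b hb3), x3_coeff a hγ.1, x3_coeff a hγ'.1, hb2]
      · rw [hY0 f hf, hY0' f hf]
  refine ⟨hfin.toFinset, ?_, ?_⟩
  · intro Y hY
    rw [Set.Finite.mem_toFinset] at hY
    obtain ⟨hY0, d, hd, γ, hγ, hY⟩ := hY
    refine ⟨hY0, fun f hf => ?_⟩
    rw [hY _ (h1 f hf), x3_mul, x3_mulc _ (hdI d γ hγ f hf), x3_coeff h hγ.1, (hγ.2 f hf).2]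
  · intro d hd γ
    constructor
    · intro hγ
      refine ⟨fun f => if f ∈ J then (along f γ).coeff d else 0, ?_, hγ.1, fun f hf => ⟨?_, ?_⟩⟩
      · rw [Set.Finite.mem_toFinset]
        exact ⟨fun f hf => if_neg hf, d, hd, γ, hγ, fun f hf => if_pos hf⟩
      · exact Polynomial.X_pow_dvd_iff.1 (hdJ d γ hγ f hf)
      · exact (if_pos hf).symm
    · rintro ⟨Y, hY, hγ⟩
      rw [Set.Finite.mem_toFinset] at hY
      obtain ⟨hY0, d', hd', γ', hγ', hY⟩ := hY
      refine ⟨hγ.1, fun f hf => ?_⟩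
      have e1 := hγ.2 (h * f) (h1 f hf)
      have e2 := dvd_of_mul (aeval (arc γ)) d h f (by
        have h3 := x3_coeff h hγ.1
        unfold along at h3
        rw [h3]
        exact hp) (Polynomial.X_pow_dvd_iff.2 e1.1)
      refine ⟨Polynomial.X_pow_dvd_iff.1 e2.1, ?_⟩
      have e3 : (along (h * f) γ).coeff d = (along h γ).coeff 0 * (along f γ).coeff d := e2.2
      have e4 : Y (h * f) = eval p h * y.φ 1 f := by
        rw [hY _ (h1 f hf), x3_mul, x3_mulc _ (hdI d' γ' hγ' f hf), x3_coeff h hγ'.1,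
          (hγ'.2 f hf).2]
      rw [e1.2, e4, x3_coeff h hγ.1] at e3
      exact (mul_left_cancel₀ hp e3).symm

end MotMono
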