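import Pool.Agent.Lib.MP_4e5fcd_ag.Z1
import Pool.Agent.Lib.MP_4e5fcd_ag.Ic.X3

/-! # IC-X4: sums of Lefschetz numbers

PROOF. `chi_contact_sum`: for `Y ≠ Y'` in `S` the sets `CS J p Y d`, `CS J p Y' d` are disjoint (`Y`, `Y'` agree on `J` if there is a
common element, and vanish outside `J`); the union is `contactArcs I p y d`; `cls_biUnion` (`K1.lean`), `constr_CS`.
`exists_zeta_sum`: `Z = ∏ i ∈ S, (1 - X ^ n i) ^ c i`. `IsZeta` for a product: the constant coefficients are `1`, and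
`X * (Z W)' = (X * Z') W + Z (X * W')` (`Derivation.leibniz`); for one factor use the proof of `exists_zeta` (`Z1.lean`; or prove
`X * ((1 - X ^ n) ^ c)' = - (n c) X ^ n (1 - X ^ n) ^ (c - 1)` and `(1 - X ^ n) * ∑ d > 0, n ∣ d, X ^ d = X ^ n`); induction on `S`. `Z` is a
polynomial with the root `ζ`, `Q = 1`. -/

open MvPolynomial

namespace MotMono

variable {N : ℕ} {I J : Ideal (MvPolynomial (Fin N) ℂ)}

theorem chi_contact_sum (χ : K0 →+* ℤ) (p : Fin N → ℂ) (y : ConePoint I p)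
    (S : Finset (MvPolynomial (Fin N) ℂ → ℂ)) (hS : ∀ Y ∈ S, ∀ f, f ∉ J → Y f = 0) (d : ℕ)
    (hd : ∀ γ : Fin N × Fin (d + 1) → ℂ, γ ∈ contactArcs I p y d ↔ ∃ Y ∈ S, γ ∈ CS J p Y d) :
    χ (cls (contactArcs I p y d)) = ∑ Y ∈ S, χ (cls (CS J p Y d)) := by
  have h1 : contactArcs I p y d = ⋃ Y ∈ S, CS J p Y d := by
    ext γ
    rw [hd γ]
    simp only [Set.mem_iUnion, exists_prop]
  rw [h1, cls_biUnion S (fun Y _ => constr_CS J p Y d), map_sum]
  intro Y hY Y' hY' hne
  refine Set.disjoint_left.2 fun γ hγ hγ' => hne ?_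
  funext f
  by_cases hf : f ∈ J
  · exact (hγ.2 f hf).2.symm.trans (hγ'.2 f hf).2
  · rw [hS Y hY f hf, hS Y' hY' f hf]

/-- the logarithmic derivative of `(1 - X ^ n)⁻¹` -/
private noncomputable def x4_G (n : ℕ) : PowerSeries ℂ :=
  PowerSeries.mk fun d => if d = 0 then (0 : ℂ) else if n ∣ d then (n : ℂ) else 0

private theorem x4_key (n : ℕ) (hn : 0 < n) :
    (1 - PowerSeries.X ^ n) * x4_G n = (n : PowerSeries ℂ) * PowerSeries.X ^ n := by
  have hC : (n : PowerSeries ℂ) = PowerSeries.C (n : ℂ) := by simp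
  ext d
  rw [hC, sub_mul, one_mul, map_sub, PowerSeries.coeff_X_pow_mul', PowerSeries.coeff_C_mul,
    PowerSeries.coeff_X_pow]
  simp only [x4_G, PowerSeries.coeff_mk]
  rcases lt_trichotomy d n with h | h | h
  · rw [if_neg (not_le.mpr h), if_neg h.ne]
    by_cases h0 : d = 0
    · simp [h0]
    · rw [if_neg h0, if_neg (Nat.not_dvd_of_pos_of_lt (Nat.pos_of_ne_zero h0) h)]
      simp
  · subst h
    rw [if_neg hn.ne', if_pos dvd_rfl, if_pos le_rfl]
    simp
  · rw [if_neg (by omega : ¬ d = 0), if_pos h.le, if_neg (by omega : ¬ d - n = 0), if_neg h.ne']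
    have : n ∣ d ↔ n ∣ d - n := by
      constructor
      · intro h2
        exact Nat.dvd_sub h2 dvd_rfl
      · intro h2
        have h3 := Nat.dvd_add h2 (dvd_refl n)
        rwa [Nat.sub_add_cancel h.le] at h3
    by_cases h1 : n ∣ d
    · rw [if_pos h1, if_pos (this.mp h1)]; simp
    · rw [if_neg h1, if_neg (fun h2 => h1 (this.mpr h2))]; simp

private theorem x4_dX (n : ℕ) :
    PowerSeries.X * PowerSeries.derivative ℂ ((PowerSeries.X : PowerSeries ℂ) ^ n) =
      (n : PowerSeries ℂ) * PowerSeries.X ^ n := by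
  rcases n with _ | n
  · simp
  · rw [Derivation.leibniz_pow]
    simp only [Nat.add_sub_cancel, PowerSeries.derivative_X, smul_eq_mul, mul_one, nsmul_eq_mul]
    ring

private theorem x4_U (n : ℕ) (hn : 0 < n) (m : ℕ) :
    PowerSeries.X * PowerSeries.derivative ℂ ((1 - PowerSeries.X ^ n : PowerSeries ℂ) ^ m) =
      -((m : PowerSeries ℂ) * x4_G n) * (1 - PowerSeries.X ^ n) ^ m := by
  induction m with
  | zero => simp
  | succ m ih =>
    have h1 : PowerSeries.X * PowerSeries.derivative ℂ (1 - PowerSeries.X ^ n : PowerSeries ℂ) =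
        -((n : PowerSeries ℂ) * PowerSeries.X ^ n) := by
      rw [map_sub, mul_sub, x4_dX]
      simp
    rw [pow_succ, Derivation.leibniz, smul_eq_mul, smul_eq_mul, mul_add]
    have e1 : PowerSeries.X * ((1 - PowerSeries.X ^ n : PowerSeries ℂ) ^ m *
        PowerSeries.derivative ℂ (1 - PowerSeries.X ^ n : PowerSeries ℂ)) =
        (1 - PowerSeries.X ^ n) ^ m * (PowerSeries.X *
          PowerSeries.derivative ℂ (1 - PowerSeries.X ^ n : PowerSeries ℂ)) := by ring
    have e2 : PowerSeries.X * ((1 - PowerSeries.X ^ n : PowerSeries ℂ) *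
        PowerSeries.derivative ℂ ((1 - PowerSeries.X ^ n : PowerSeries ℂ) ^ m)) =
        (1 - PowerSeries.X ^ n) * (PowerSeries.X *
          PowerSeries.derivative ℂ ((1 - PowerSeries.X ^ n : PowerSeries ℂ) ^ m)) := by ring
    rw [e1, e2, h1, ih, ← x4_key n hn]
    push_cast
    ring

private theorem x4_prod {ι : Type} (S : Finset ι) (n c : ι → ℕ) (hn : ∀ i ∈ S, 0 < n i) :
    PowerSeries.X * PowerSeries.derivative ℂ
        (∏ i ∈ S, (1 - PowerSeries.X ^ n i : PowerSeries ℂ) ^ c i) =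
      -(∑ i ∈ S, (c i : PowerSeries ℂ) * x4_G (n i)) *
        ∏ i ∈ S, (1 - PowerSeries.X ^ n i : PowerSeries ℂ) ^ c i := by
  classical
  induction S using Finset.induction_on with
  | empty => simp
  | insert a S ha ih =>
    have h1 := x4_U (n a) (hn a (Finset.mem_insert_self a S)) (c a)
    have h2 := ih fun i hi => hn i (Finset.mem_insert_of_mem hi)
    rw [Finset.prod_insert ha, Finset.sum_insert ha, Derivation.leibniz, smul_eq_mul, smul_eq_mul]
    linear_combination (1 - PowerSeries.X ^ n a : PowerSeries ℂ) ^ c a * h2 +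
      (∏ i ∈ S, (1 - PowerSeries.X ^ n i : PowerSeries ℂ) ^ c i) * h1

theorem exists_zeta_sum {ι : Type} (S : Finset ι) (n c : ι → ℕ) (hn : ∀ i ∈ S, 0 < n i)
    (Λ : ℕ → ℤ)
    (hΛ : ∀ d, 0 < d → Λ d = ∑ i ∈ S, if n i ∣ d then ((n i * c i : ℕ) : ℤ) else 0) (ζ : ℂ)
    (hζ : ∃ i ∈ S, 0 < c i ∧ ζ ^ n i = 1) : ∃ Z, IsZeta Λ Z ∧ ZeroOrPole Z ζ := by
  have hF : (PowerSeries.mk fun d => if d = 0 then (0 : ℂ) else (Λ d : ℂ)) =
      ∑ i ∈ S, (c i : PowerSeries ℂ) * x4_G (n i) := by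
    have hC : ∀ m : ℕ, (m : PowerSeries ℂ) = PowerSeries.C (m : ℂ) := fun m => by simp
    ext d
    rw [map_sum, PowerSeries.coeff_mk]
    by_cases h0 : d = 0
    · rw [if_pos h0]
      refine (Finset.sum_eq_zero fun i _ => ?_).symm
      rw [hC, PowerSeries.coeff_C_mul, x4_G, PowerSeries.coeff_mk, if_pos h0, mul_zero]
    · rw [if_neg h0, hΛ d (Nat.pos_of_ne_zero h0), Int.cast_sum]
      refine Finset.sum_congr rfl fun i _ => ?_
      rw [hC, PowerSeries.coeff_C_mul, x4_G, PowerSeries.coeff_mk, if_neg h0]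
      by_cases h1 : n i ∣ d
      · rw [if_pos h1, if_pos h1]; push_cast; ring
      · rw [if_neg h1, if_neg h1]; simp
  refine ⟨∏ i ∈ S, (1 - PowerSeries.X ^ n i : PowerSeries ℂ) ^ c i, ⟨?_, ?_⟩,
    ⟨∏ i ∈ S, (1 - Polynomial.X ^ n i : Polynomial ℂ) ^ c i, 1, isCoprime_one_right, ?_,
      Or.inl ?_⟩⟩
  · rw [map_prod]
    refine Finset.prod_eq_one fun i hi => ?_
    rw [map_pow, map_sub, map_pow, PowerSeries.constantCoeff_X, zero_pow (hn i hi).ne', map_one,
      sub_zero, one_pow]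
  · rw [hF, x4_prod S n c hn]
  · rw [Polynomial.coe_one, one_mul]
    have h1 := map_prod (Polynomial.coeToPowerSeries.ringHom (R := ℂ))
      (fun i => (1 - Polynomial.X ^ n i : Polynomial ℂ) ^ c i) S
    simp only [Polynomial.coeToPowerSeries.ringHom_apply] at h1
    rw [h1]
    refine Finset.prod_congr rfl fun i _ => ?_
    simp
  · obtain ⟨i, hi, hc, hz⟩ := hζ
    rw [Polynomial.eval_prod]
    refine Finset.prod_eq_zero hi ?_
    simp [hz, hc.ne']

end MotMono
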