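import Pool.Agent.Lib.MP_4e5fcd_ag.Ic.W5
import Pool.Agent.Lib.MP_4e5fcd_ag.Ic.X0
import Pool.Agent.Lib.MP_4e5fcd_ag.Ic.X4
import Pool.Agent.Lib.MP_4e5fcd_ag.Det.M7

/-! # IC-Main: assembly

PROOF. `h` from `SameClosure`; `δ > 0` with `eval p h ≠ 0` for `‖p‖ < δ` (`exists_ball`: continuity). `Zmot_closure`, `cl_main_curve` for `J` and `min ε δ`
give `cv`, `n₀`, `c`, `p = cv (0)`, `ζ ^ n₀ = 1`. Order of `I` along `cv`: `ord_iff_closure` with `G = aeval cv` (`coeff_aeval_zero`).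
`exists_conePoint_curve` for `I`, `cv`, `n₀`; `p ∈ V (I)`: coefficient `0`, `n₀ > 0`. `S` from `exists_finset`. For `Y ∈ S` there is
`f ∈ I` with `y.φ 1 f ≠ 0`, so `Y (h * f) ≠ 0`, and `tame_all` gives `n_Y`, `c_Y`. Let `Y₀ f = (aeval cv f).coeff n₀` for `f ∈ J`, `0` outside
of `J`. Given `χ`: `χ (cls (CS J p Y₀ n₀)) = n₀ c ≠ 0` (`CS_congr`), so there is `γ ∈ CS J p Y₀ n₀`; `γ ∈ contactArcs I p y n₀` (`dvd_of_mul`
for `h * f`, twice), hence `γ ∈ CS J p Y n₀` for some `Y ∈ S` and `Y = Y₀`. For `Y₀` take `n₀`, `c` instead of `n_Y`, `c_Y`.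
`chi_contact_sum`, `exists_zeta_sum`. -/

open MvPolynomial

namespace MotMono

variable {s N : ℕ}

private theorem main_ball (h : MvPolynomial (Fin N) ℂ) (h0 : eval 0 h ≠ 0) :
    ∃ δ : ℝ, 0 < δ ∧ ∀ p : Fin N → ℂ, ‖p‖ < δ → eval p h ≠ 0 := by
  have hc : Continuous fun p : Fin N → ℂ => eval p h := MvPolynomial.continuous_eval h
  have hO : IsOpen {p : Fin N → ℂ | eval p h ≠ 0} := isOpen_ne_fun hc continuous_const
  obtain ⟨δ, hδ, hb⟩ := Metric.isOpen_iff.1 hO 0 h0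
  refine ⟨δ, hδ, fun p hp => hb ?_⟩
  rw [Metric.mem_ball, dist_zero_right]
  exact hp

private theorem main_along_zero {n : ℕ} (f : MvPolynomial (Fin N) ℂ) (γ : Fin N × Fin (n + 1) → ℂ)
    (p : Fin N → ℂ) (hγ : ∀ i, γ (i, 0) = p i) : (along f γ).coeff 0 = eval p f := by
  unfold along
  rw [coeff_aeval_zero]
  have h1 : (fun i => (arc γ i).eval 0) = p := by
    funext i
    unfold arc
    rw [Polynomial.eval_finsetSum, Finset.sum_eq_single (0 : Fin (n + 1))]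
    · simp [hγ]
    · intro l _ hl
      have h2 : (l : ℕ) ≠ 0 := fun h3 => hl (Fin.ext h3)
      simp [h2]
    · intro h2
      exact absurd (Finset.mem_univ _) h2
  rw [h1]

theorem ic_main (σ : Fin s → Shp) (hσ : ∀ a, (σ a).Ok) (e : (Σ a, (σ a).Idx) ≃ Fin N)
    (I J : Ideal (MvPolynomial (Fin N) ℂ)) (hJ : ShStable σ e J) (hIJ : SameClosure I J) (s₀ : ℚ)
    (hpole : IsPole (Zmot I) s₀) (ε : ℝ) (hε : 0 < ε) :
    ∃ p : Fin N → ℂ, ‖p‖ < ε ∧ (∀ f ∈ I, eval p f = 0) ∧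
      ∃ y : ConePoint I p, y.Nonzero ∧
        ∀ χ : K0 →+* ℤ, IsEulerChar χ →
          ∃ Z, IsZeta (fun d => χ (cls (contactArcs I p y d))) Z ∧
            ZeroOrPole Z (Complex.exp (2 * Real.pi * Complex.I * s₀)) := by
  classical
  rw [Zmot_closure hIJ] at hpole
  obtain ⟨h, h0, h1, h2⟩ := hIJ
  obtain ⟨δ, hδ, hball⟩ := main_ball h h0
  have hle : ∀ a, (σ a).Le := fun a => c7s_le _ (hσ a)
  obtain ⟨cv, n₀, c, hn, hc, hp, hζ, hlt, hne, hχ⟩ :=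
    cl_main_curve σ hσ e J hJ s₀ hpole (min ε δ) (lt_min hε hδ)
  have hph : eval (fun i => (cv i).eval 0) h ≠ 0 :=
    hball _ (lt_of_lt_of_le hp (min_le_right ε δ))
  have hG : ((aeval cv : MvPolynomial (Fin N) ℂ →ₐ[ℂ] Polynomial ℂ) h).coeff 0 ≠ 0 := by
    rw [coeff_aeval_zero]
    exact hph
  obtain ⟨hltI, hneI⟩ := (ord_iff_closure (aeval cv) n₀ h hG h1 h2).2 ⟨hlt, hne⟩
  obtain ⟨y, hy⟩ := exists_conePoint_curve I cv n₀ hltI
  obtain ⟨S, hS, hSd⟩ := exists_finset h h1 h2 (fun i => (cv i).eval 0) hph y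
  refine ⟨fun i => (cv i).eval 0, lt_of_lt_of_le hp (min_le_left ε δ), ?_, y, ?_, ?_⟩
  · intro f hf
    rw [← coeff_aeval_zero]
    exact hltI f hf 0 hn
  · obtain ⟨f, hf, hfn⟩ := hneI
    exact ⟨f, hf, by rw [hy f hf]; exact hfn⟩
  intro χ hχE
  -- the value of the curve on `J`
  obtain ⟨Y₀, hY₀⟩ : ∃ Y₀ : MvPolynomial (Fin N) ℂ → ℂ,
      Y₀ = fun f => if f ∈ J then (aeval cv f).coeff n₀ else 0 := ⟨_, rfl⟩
  have hY₀J : ∀ f ∈ J, Y₀ f = (aeval cv f).coeff n₀ := by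
    intro f hf
    rw [hY₀]
    exact if_pos hf
  have hY₀n : ∀ f, f ∉ J → Y₀ f = 0 := by
    intro f hf
    rw [hY₀]
    exact if_neg hf
  have hχ₀ : ∀ d, 0 < d → χ (cls (CS J (fun i => (cv i).eval 0) Y₀ d)) =
      if n₀ ∣ d then ((n₀ * c : ℕ) : ℤ) else 0 := by
    intro d hd
    rw [CS_congr hY₀J d]
    exact hχ χ hχE d hd
  have hY₀S : Y₀ ∈ S := by
    have h3 := hχ₀ n₀ hn
    rw [if_pos (dvd_refl n₀)] at h3
    have h4 : (CS J (fun i => (cv i).eval 0) Y₀ n₀).Nonempty := by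
      rw [Set.nonempty_iff_ne_empty]
      intro h5
      rw [h5, cls_empty, map_zero] at h3
      have h6 : n₀ * c ≠ 0 := Nat.mul_ne_zero hn.ne' hc.ne'
      exact h6 (by exact_mod_cast h3.symm)
    obtain ⟨γ, hγ⟩ := h4
    have h5 : γ ∈ contactArcs I (fun i => (cv i).eval 0) y n₀ := by
      refine ⟨hγ.1, fun f hf => ?_⟩
      have h6 := hγ.2 (h * f) (h1 f hf)
      have h7 : ((aeval (arc γ) : MvPolynomial (Fin N) ℂ →ₐ[ℂ] Polynomial ℂ) h).coeff 0 ≠ 0 := by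
        have h8 := main_along_zero h γ _ hγ.1
        unfold along at h8
        rw [h8]
        exact hph
      have h9 := dvd_of_mul (aeval (arc γ)) n₀ h f h7 (Polynomial.X_pow_dvd_iff.2 h6.1)
      refine ⟨Polynomial.X_pow_dvd_iff.1 h9.1, ?_⟩
      have h10 := dvd_of_mul (aeval cv) n₀ h f hG
        (Polynomial.X_pow_dvd_iff.2 (hlt (h * f) (h1 f hf)))
      have h11 : (along (h * f) γ).coeff n₀ = Y₀ (h * f) := h6.2
      rw [hY₀J _ (h1 f hf), h10.2, coeff_aeval_zero] at h11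
      have h12 : (along (h * f) γ).coeff n₀ =
          eval (fun i => (cv i).eval 0) h * (along f γ).coeff n₀ := by
        have h13 := main_along_zero h γ _ hγ.1
        rw [← h13]
        exact h9.2
      rw [h12] at h11
      rw [hy f hf]
      exact mul_left_cancel₀ hph h11
    obtain ⟨Y, hYS, hγY⟩ := (hSd n₀ hn γ).1 h5
    have h6 : Y = Y₀ := by
      funext f
      by_cases hf : f ∈ J
      · rw [← (hγY.2 f hf).2, (hγ.2 f hf).2]
      · rw [(hS Y hYS).1 f hf, hY₀n f hf]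
    rw [← h6]
    exact hYS
  -- the Lefschetz numbers of the pieces
  have key : ∀ Y ∈ S, ∃ n' c' : ℕ, 0 < n' ∧ (Y = Y₀ → 0 < c' ∧
      Complex.exp (2 * Real.pi * Complex.I * s₀) ^ n' = 1) ∧ ∀ d, 0 < d →
      χ (cls (CS J (fun i => (cv i).eval 0) Y d)) =
        if n' ∣ d then ((n' * c' : ℕ) : ℤ) else 0 := by
    intro Y hY
    by_cases hYY : Y = Y₀
    · refine ⟨n₀, c, hn, fun _ => ⟨hc, hζ⟩, ?_⟩
      rw [hYY]
      exact hχ₀
    · obtain ⟨f, hf, hfn⟩ := hneI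
      have h3 : Y (h * f) ≠ 0 := by
        rw [(hS Y hY).2 f hf, hy f hf]
        exact mul_ne_zero hph hfn
      obtain ⟨n', c', hn', hc'⟩ := tame_all _ s N σ hle rfl e J hJ (fun i => (cv i).eval 0) Y
        ⟨h * f, h1 f hf, h3⟩
      exact ⟨n', c', hn', fun h4 => absurd h4 hYY, hc' χ hχE⟩
  choose! n' c' hn' hY₀' hc' using key
  refine exists_zeta_sum S n' c' hn' _ ?_ _ ⟨Y₀, hY₀S, hY₀' Y₀ hY₀S rfl⟩
  intro d hd
  rw [chi_contact_sum χ _ y S (fun Y hY => (hS Y hY).1) d (hSd d hd)]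
  exact Finset.sum_congr rfl fun Y hY => hc' Y hY d hd

end MotMono
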