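import Pool.Agent.Lib.MP_4e5fcd_ag.Ic.G2
import Pool.Agent.Lib.MP_4e5fcd_ag.Cl.A2
import Pool.Agent.Lib.MP_4e5fcd_ag.Cl.K0

/-! # IC-U1: families in families

PROOF. `N' = Nat.card (Σ b, (σ' b).Idx)`, `e' = Finite.equivFin _`, `ι j = e (F (e'.symm j))`. Stability: let `f' = rho ι f`, `f ∈ J`
(`Ideal.mem_map_iff_of_surjective`, `rho_surjective`), and `g'`, `h'` with nonzero determinants, `g`, `h` from `htr`. Then
`shSub σ' e' g' h' (rho ι f) = rho ι (shSub σ e g h f)` (so it is in `J.map (rho ι)`): both sides are algebra homomorphisms in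
`f`, compare on `X (e c)`: with `R = MvPolynomial (Fin N') ℂ`, `x c = rho ι (X (e c))` (zero outside the range of `F`,
`X (e' b)` at `F b`): the right side is `((σ c.1).actI (g) (h) (x ⟨c.1, ·⟩)) c.2` (`shSub` on a variable: unfold; `actI = ent ∘ act ∘
mat`, `Shp.actI_map`), which is given by `htr` (`c = F ⟨b, p'⟩`, resp. `c` not in the range). -/

open MvPolynomial

namespace MotMono

variable {s s' N : ℕ} {σ : Fin s → Shp} {σ' : Fin s' → Shp}

theorem fam_sub (e : (Σ a, (σ a).Idx) ≃ Fin N) (F : (Σ b, (σ' b).Idx) → Σ a, (σ a).Idx)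
    (hF : Function.Injective F)
    (htr : ∀ (g' : ∀ b, Matrix (Fin (σ' b).row) (Fin (σ' b).row) ℂ)
      (h' : ∀ b, Matrix (Fin (σ' b).col) (Fin (σ' b).col) ℂ),
      (∀ b, (g' b).det ≠ 0) → (∀ b, (h' b).det ≠ 0) →
      ∃ (g : ∀ a, Matrix (Fin (σ a).row) (Fin (σ a).row) ℂ)
        (h : ∀ a, Matrix (Fin (σ a).col) (Fin (σ a).col) ℂ),
        (∀ a, (g a).det ≠ 0) ∧ (∀ a, (h a).det ≠ 0) ∧
        ∀ {R : Type} [CommRing R] [Algebra ℂ R] (x : (Σ a, (σ a).Idx) → R),
          (∀ c, c ∉ Set.range F → x c = 0) →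
          (∀ (b : Fin s') (p' : (σ' b).Idx),
            (σ (F ⟨b, p'⟩).1).actI ((g (F ⟨b, p'⟩).1).map (algebraMap ℂ R))
              ((h (F ⟨b, p'⟩).1).map (algebraMap ℂ R)) (fun q => x ⟨(F ⟨b, p'⟩).1, q⟩)
              (F ⟨b, p'⟩).2 =
            (σ' b).actI ((g' b).map (algebraMap ℂ R)) ((h' b).map (algebraMap ℂ R))
              (fun q => x (F ⟨b, q⟩)) p') ∧
          ∀ c, c ∉ Set.range F → (σ c.1).actI ((g c.1).map (algebraMap ℂ R))
            ((h c.1).map (algebraMap ℂ R)) (fun q => x ⟨c.1, q⟩) c.2 = 0) :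
    ∃ (N' : ℕ) (e' : (Σ b, (σ' b).Idx) ≃ Fin N') (ι : Fin N' → Fin N),
      Function.Injective ι ∧ (∀ c, ι (e' c) = e (F c)) ∧
        ∀ J : Ideal (MvPolynomial (Fin N) ℂ), ShStable σ e J → ShStable σ' e' (J.map (rho ι)) := by
  have : Finite (Σ a, (σ a).Idx) := Finite.of_equiv _ e.symm
  have : Finite (Σ b, (σ' b).Idx) := Finite.of_injective F hF
  obtain ⟨e', -⟩ : ∃ e' : (Σ b, (σ' b).Idx) ≃ Fin (Nat.card (Σ b, (σ' b).Idx)), True :=
    ⟨Finite.equivFin _, trivial⟩
  have hιinj : Function.Injective fun j => e (F (e'.symm j)) :=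
    e.injective.comp (hF.comp e'.symm.injective)
  refine ⟨_, e', fun j => e (F (e'.symm j)), hιinj, fun c => by simp, fun J hJ g' h' hg' hh' f' hf' => ?_⟩
  obtain ⟨f, hf, rfl⟩ := (Ideal.mem_map_iff_of_surjective _ (rho_surjective _ hιinj)).1 hf'
  obtain ⟨g, h, hg, hh, hall⟩ := htr g' h' hg' hh'
  have hxF : ∀ c, rho (fun j => e (F (e'.symm j))) (X (e (F c))) = X (e' c) := fun c => by
    have h1 := rho_X (fun j => e (F (e'.symm j))) hιinj (e' c)
    simp only [Equiv.symm_apply_apply] at h1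
    exact h1
  have hx0 : ∀ c, c ∉ Set.range F → rho (fun j => e (F (e'.symm j))) (X (e c)) = 0 := fun c hc => by
    apply rho_X_of_not_mem
    rintro ⟨j, hj⟩
    exact hc ⟨e'.symm j, e.injective hj⟩
  obtain ⟨h1, h2⟩ := hall (R := MvPolynomial (Fin (Nat.card (Σ b, (σ' b).Idx))) ℂ)
    (fun c => rho (fun j => e (F (e'.symm j))) (X (e c))) hx0
  have hrho : rho (fun j => e (F (e'.symm j))) = aeval (ptS e fun a p =>
      rho (fun j => e (F (e'.symm j))) (X (e ⟨a, p⟩))) := by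
    apply MvPolynomial.algHom_ext
    intro i
    rw [aeval_X]
    unfold ptS
    exact congrArg (fun t => rho (fun j => e (F (e'.symm j))) (X t)) (e.apply_symm_apply i).symm
  have key : shSub σ' e' g' h' (rho (fun j => e (F (e'.symm j))) f) =
      rho (fun j => e (F (e'.symm j))) (shSub σ e g h f) := by
    conv_rhs => rw [hrho, aeval_shSub]
    rw [← AlgHom.comp_apply]
    have h3 : (shSub σ' e' g' h').comp (rho (fun j => e (F (e'.symm j)))) =
        aeval (ptS e fun a => (σ a).actI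
          ((g a).map (algebraMap ℂ (MvPolynomial (Fin (Nat.card (Σ b, (σ' b).Idx))) ℂ)))
          ((h a).map (algebraMap ℂ (MvPolynomial (Fin (Nat.card (Σ b, (σ' b).Idx))) ℂ)))
          fun p => rho (fun j => e (F (e'.symm j))) (X (e ⟨a, p⟩))) := by
      apply MvPolynomial.algHom_ext
      intro i
      obtain ⟨c, rfl⟩ := e.surjective i
      rw [AlgHom.comp_apply, aeval_X]
      have h4 : (ptS e fun a => (σ a).actI
          ((g a).map (algebraMap ℂ (MvPolynomial (Fin (Nat.card (Σ b, (σ' b).Idx))) ℂ)))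
          ((h a).map (algebraMap ℂ (MvPolynomial (Fin (Nat.card (Σ b, (σ' b).Idx))) ℂ)))
          fun p => rho (fun j => e (F (e'.symm j))) (X (e ⟨a, p⟩))) (e c) =
          (σ c.1).actI
          ((g c.1).map (algebraMap ℂ (MvPolynomial (Fin (Nat.card (Σ b, (σ' b).Idx))) ℂ)))
          ((h c.1).map (algebraMap ℂ (MvPolynomial (Fin (Nat.card (Σ b, (σ' b).Idx))) ℂ)))
          (fun p => rho (fun j => e (F (e'.symm j))) (X (e ⟨c.1, p⟩))) c.2 := by
        unfold ptS
        rw [Equiv.symm_apply_apply]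
      rw [h4]
      by_cases hc : c ∈ Set.range F
      · obtain ⟨⟨b, p'⟩, rfl⟩ := hc
        rw [h1 b p', hxF]
        unfold shSub
        rw [aeval_X]
        rw [Equiv.symm_apply_apply]
        have h5 : (fun q => rho (fun j => e (F (e'.symm j))) (X (e (F ⟨b, q⟩)))) =
            fun q => (X (e' ⟨b, q⟩) : MvPolynomial (Fin (Nat.card (Σ b, (σ' b).Idx))) ℂ) := by
          funext q
          exact hxF ⟨b, q⟩
        rw [h5]
        rfl
      · rw [h2 c hc, hx0 c hc, map_zero]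
    rw [h3]
  show shSub σ' e' g' h' (rho (fun j => e (F (e'.symm j))) f) ∈ _
  rw [key]
  exact Ideal.mem_map_of_mem _ (hJ g h hg hh f hf)

end MotMono
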