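import Pool.Agent.Lib.MP_4e5fcd_ag.Ic.U1

/-! # IC-U2: removing a piece of one member of a family

PROOF. `σ' = Fin.append (Function.update σ a τ') (fun _ : Fin j => Shp.eps true 1)`, i.e. `σ' (castAdd j b) = σ b` for `b ≠ a`, `= τ'`
for `b = a`, and `σ' (natAdd s i) = eps true 1`. Position map: for every `b' : Fin (s + j)` there is a map
`(σ' b').Idx → Σ a, (σ a).Idx`: the identity (`b ≠ a`), `f ∘ inl` (`b = a`), resp. constant `f (inr i)` (the shape `eps true 1` has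
exactly one position). To avoid casts prove for every `b'` the existence of a map with the needed properties (after
`obtain` of the equation for `σ' b'`, generalize `σ' b'` and `subst`), then `choose`. Injectivity from `hc`. `htr` of
`fam_sub`: for `b ≠ a` the group elements `g' (castAdd j b)`; for `a` those of `hc` for `g' (castAdd j a)` and
`c i =` the entry (determinant) of the `1 × 1` matrix `g' (natAdd s i)`: the action of `eps true 1` is `x ↦ c ^ 2 x`. Range: the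
coordinates `e ⟨b, p⟩`, `b ≠ a`, are all in the range of `ι` and have `wS (one a ra) (one a ca) = 0`; for `b = a` see `hc`. Sum of
the measures: `Fin.sum_univ_add`, `Fin.append_left`, `Fin.append_right`, `Finset.sum_update_of_mem`
(`(Shp.eps true 1).ms = 1`); `Le` of `eps` is `True`. -/

open MvPolynomial

namespace MotMono

variable {s N : ℕ} {σ : Fin s → Shp}

/-- transport of the action along an equality of shapes -/
private def u2_Tr (τ₁ τ₂ : Shp) (ψ : τ₁.Idx ≃ τ₂.Idx) : Prop :=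
  ∀ (g' : Matrix (Fin τ₁.row) (Fin τ₁.row) ℂ) (h' : Matrix (Fin τ₁.col) (Fin τ₁.col) ℂ),
    g'.det ≠ 0 → h'.det ≠ 0 →
    ∃ (g : Matrix (Fin τ₂.row) (Fin τ₂.row) ℂ) (h : Matrix (Fin τ₂.col) (Fin τ₂.col) ℂ),
      g.det ≠ 0 ∧ h.det ≠ 0 ∧ ∀ {R : Type} [CommRing R] [Algebra ℂ R] (x : τ₂.Idx → R) (p' : τ₁.Idx),
        τ₁.actI (g'.map (algebraMap ℂ R)) (h'.map (algebraMap ℂ R)) (fun q => x (ψ q)) p' =
          τ₂.actI (g.map (algebraMap ℂ R)) (h.map (algebraMap ℂ R)) x (ψ p')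

private theorem u2_tr {τ₁ τ₂ : Shp} (h : τ₁ = τ₂) : ∃ ψ : τ₁.Idx ≃ τ₂.Idx, u2_Tr τ₁ τ₂ ψ := by
  subst h
  exact ⟨Equiv.refl _, fun g' h' hg hh => ⟨g', h', hg, hh, fun x p' => rfl⟩⟩

/-- the position of the entry of a `1 × 1` matrix -/
private def u2_pt : (Shp.eps true 1).Idx := ⟨(0, 0), Or.inr ⟨rfl, rfl⟩⟩

private theorem u2_one (g : Matrix (Fin (Shp.eps true 1).row) (Fin (Shp.eps true 1).row) ℂ)
    (h : Matrix (Fin (Shp.eps true 1).col) (Fin (Shp.eps true 1).col) ℂ) {R : Type} [CommRing R]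
    [Algebra ℂ R] (x : (Shp.eps true 1).Idx → R) :
    (Shp.eps true 1).actI (g.map (algebraMap ℂ R)) (h.map (algebraMap ℂ R)) x u2_pt =
      algebraMap ℂ R ((g (0 : Fin 1) (0 : Fin 1)) ^ 2) * x u2_pt := by
  show ((g.map (algebraMap ℂ R)) * (Shp.eps true 1).mat x *
    (g.map (algebraMap ℂ R)).transpose) (0 : Fin 1) (0 : Fin 1) = _
  rw [Matrix.mul_apply]
  change ∑ j : Fin 1, _ = _
  rw [Fin.sum_univ_one, Matrix.mul_apply]
  change (∑ j : Fin 1, _) * _ = _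
  rw [Fin.sum_univ_one]
  have h1 : (Shp.eps true 1).mat x (0 : Fin 1) (0 : Fin 1) = x u2_pt := by
    simp only [Shp.mat]
    simp
    rfl
  rw [h1, map_pow]
  simp only [Matrix.map_apply, Matrix.transpose_apply]
  ring

private theorem u2_det (g : Matrix (Fin (Shp.eps true 1).row) (Fin (Shp.eps true 1).row) ℂ)
    (hg : g.det ≠ 0) : g (0 : Fin 1) (0 : Fin 1) ≠ 0 := by
  intro h
  apply hg
  have : g.det = g (0 : Fin 1) (0 : Fin 1) := Matrix.det_fin_one g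
  rw [this, h]

theorem fam_cut (e : (Σ a, (σ a).Idx) ≃ Fin N) (a : Fin s) (τ' : Shp) (j : ℕ) (ra ca : ℕ → ℤ)
    (hc : Shp.Cut (σ a) τ' j ra ca) :
    ∃ (σ' : Fin (s + j) → Shp) (N' : ℕ) (e' : (Σ b, (σ' b).Idx) ≃ Fin N') (ι : Fin N' → Fin N),
      Function.Injective ι ∧
        (∀ i, wS e (one a ra) (one a ca) i = 0 ↔ i ∈ Set.range ι) ∧
        ((∀ b, (σ b).Le) → τ'.Le → ∀ b, (σ' b).Le) ∧
        ∑ b, (σ' b).ms + (σ a).ms = ∑ b, (σ b).ms + τ'.ms + j ∧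
        ∀ J : Ideal (MvPolynomial (Fin N) ℂ), ShStable σ e J → ShStable σ' e' (J.map (rho ι)) := by
  classical
  obtain ⟨f, hf, hfw, hfa⟩ := hc
  obtain ⟨σ', hσ'⟩ : ∃ σ' : Fin (s + j) → Shp,
      σ' = Fin.append (Function.update σ a τ') (fun _ : Fin j => Shp.eps true 1) := ⟨_, rfl⟩
  have hA : ∀ b, b ≠ a → σ' (Fin.castAdd j b) = σ b := by
    intro b hb
    rw [hσ', Fin.append_left, Function.update_of_ne hb]
  have hB : σ' (Fin.castAdd j a) = τ' := by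
    rw [hσ', Fin.append_left, Function.update_self]
  have hC : ∀ i, σ' (Fin.natAdd s i) = Shp.eps true 1 := by
    intro i
    rw [hσ', Fin.append_right]
  -- the maps of positions
  have hex : ∀ b' : Fin (s + j), ∃ φ : (σ' b').Idx → Σ a, (σ a).Idx,
      (∃ b, b' = Fin.castAdd j b ∧ b ≠ a ∧ ∃ ψ : (σ' b').Idx ≃ (σ b).Idx,
        (∀ p, φ p = ⟨b, ψ p⟩) ∧ u2_Tr (σ' b') (σ b) ψ) ∨
      (b' = Fin.castAdd j a ∧ ∃ ψ : (σ' b').Idx ≃ τ'.Idx,
        (∀ p, φ p = ⟨a, f (Sum.inl (ψ p))⟩) ∧ u2_Tr (σ' b') τ' ψ) ∨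
      (∃ i, b' = Fin.natAdd s i ∧ ∃ ψ : (σ' b').Idx ≃ (Shp.eps true 1).Idx,
        (∀ p, φ p = ⟨a, f (Sum.inr i)⟩) ∧ u2_Tr (σ' b') (Shp.eps true 1) ψ) := by
    intro b'
    refine Fin.addCases (fun b => ?_) (fun i => ?_) b'
    · by_cases hb : b = a
      · subst hb
        obtain ⟨ψ, hψ⟩ := u2_tr hB
        exact ⟨fun p => ⟨b, f (Sum.inl (ψ p))⟩, Or.inr (Or.inl ⟨rfl, ψ, fun _ => rfl, hψ⟩)⟩
      · obtain ⟨ψ, hψ⟩ := u2_tr (hA b hb)
        exact ⟨fun p => ⟨b, ψ p⟩, Or.inl ⟨b, rfl, hb, ψ, fun _ => rfl, hψ⟩⟩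
    · obtain ⟨ψ, hψ⟩ := u2_tr (hC i)
      exact ⟨fun p => ⟨a, f (Sum.inr i)⟩, Or.inr (Or.inr ⟨i, rfl, ψ, fun _ => rfl, hψ⟩)⟩
  choose φ hφ using hex
  have hcn : ∀ (b : Fin s) (i : Fin j), Fin.castAdd j b ≠ Fin.natAdd s i := by
    intro b i h
    have h1 := congrArg Fin.val h
    rw [Fin.val_castAdd, Fin.val_natAdd] at h1
    have := b.2
    omega
  have hci : ∀ b b₂ : Fin s, Fin.castAdd j b = Fin.castAdd j b₂ → b = b₂ := by
    intro b b₂ h
    exact Fin.castAdd_injective s j h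
  have hni : ∀ i i₂ : Fin j, Fin.natAdd s i = Fin.natAdd s i₂ → i = i₂ := by
    intro i i₂ h
    exact Fin.natAdd_injective j s h
  -- the blocks
  have specA : ∀ b, b ≠ a → ∃ ψ : (σ' (Fin.castAdd j b)).Idx ≃ (σ b).Idx,
      (∀ p, φ (Fin.castAdd j b) p = ⟨b, ψ p⟩) ∧ u2_Tr (σ' (Fin.castAdd j b)) (σ b) ψ := by
    intro b hb
    rcases hφ (Fin.castAdd j b) with ⟨b₂, h1, -, h2⟩ | ⟨h1, -⟩ | ⟨i, h1, -⟩
    · obtain rfl := hci _ _ h1
      exact h2
    · exact absurd (hci _ _ h1) hb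
    · exact absurd h1 (hcn _ _)
  obtain ⟨ψa, hψa1, hψa2⟩ : ∃ ψ : (σ' (Fin.castAdd j a)).Idx ≃ τ'.Idx,
      (∀ p, φ (Fin.castAdd j a) p = ⟨a, f (Sum.inl (ψ p))⟩) ∧
        u2_Tr (σ' (Fin.castAdd j a)) τ' ψ := by
    rcases hφ (Fin.castAdd j a) with ⟨b₂, h1, h2, -⟩ | ⟨-, h2⟩ | ⟨i, h1, -⟩
    · exact absurd (hci _ _ h1).symm h2
    · exact h2
    · exact absurd h1 (hcn _ _)
  have specC : ∀ i, ∃ ψ : (σ' (Fin.natAdd s i)).Idx ≃ (Shp.eps true 1).Idx,
      (∀ p, φ (Fin.natAdd s i) p = ⟨a, f (Sum.inr i)⟩) ∧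
        u2_Tr (σ' (Fin.natAdd s i)) (Shp.eps true 1) ψ := by
    intro i
    rcases hφ (Fin.natAdd s i) with ⟨b₂, h1, -⟩ | ⟨h1, -⟩ | ⟨i₂, h1, h2⟩
    · exact absurd h1.symm (hcn _ _)
    · exact absurd h1.symm (hcn _ _)
    · obtain rfl := hni _ _ h1
      exact h2
  obtain ⟨F, hF⟩ : ∃ F : (Σ b, (σ' b).Idx) → Σ a, (σ a).Idx, ∀ b p, F ⟨b, p⟩ = φ b p :=
    ⟨fun c => φ c.1 c.2, fun _ _ => rfl⟩
  have hone : ∀ p q : (Shp.eps true 1).Idx, p = q := by
    intro p q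
    apply Subtype.ext
    have : Subsingleton (Fin 1 × Fin 1) := inferInstance
    exact Subsingleton.elim (α := Fin 1 × Fin 1) _ _
  have hinj1 : ∀ b', Function.Injective (φ b') := by
    intro b' p q hpq
    rcases hφ b' with ⟨b, -, -, ψ, h3, -⟩ | ⟨-, ψ, h3, -⟩ | ⟨i, -, ψ, h3, -⟩
    · rw [h3, h3] at hpq
      exact ψ.injective (eq_of_heq (Sigma.mk.inj hpq).2)
    · rw [h3, h3] at hpq
      exact ψ.injective (Sum.inl_injective (hf (eq_of_heq (Sigma.mk.inj hpq).2)))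
    · exact ψ.injective (hone _ _)
  have hdis : ∀ b' b'' (p : (σ' b').Idx) (q : (σ' b'').Idx), φ b' p = φ b'' q → b' = b'' := by
    intro b' b'' p q hpq
    rcases hφ b' with ⟨b, h1, h2, ψ, h3, -⟩ | ⟨h1, ψ, h3, -⟩ | ⟨i, h1, ψ, h3, -⟩ <;>
    rcases hφ b'' with ⟨b₂, k1, k2, ψ₂, k3, -⟩ | ⟨k1, ψ₂, k3, -⟩ | ⟨i₂, k1, ψ₂, k3, -⟩
    · rw [h3, k3] at hpq
      have := (Sigma.mk.inj hpq).1
      rw [h1, k1, this]
    · rw [h3, k3] at hpq
      exact absurd (Sigma.mk.inj hpq).1 h2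
    · rw [h3, k3] at hpq
      exact absurd (Sigma.mk.inj hpq).1 h2
    · rw [h3, k3] at hpq
      exact absurd (Sigma.mk.inj hpq).1.symm k2
    · rw [h1, k1]
    · rw [h3, k3] at hpq
      have := hf (eq_of_heq (Sigma.mk.inj hpq).2)
      cases this
    · rw [h3, k3] at hpq
      exact absurd (Sigma.mk.inj hpq).1.symm k2
    · rw [h3, k3] at hpq
      have := hf (eq_of_heq (Sigma.mk.inj hpq).2)
      cases this
    · rw [h3, k3] at hpq
      have := Sum.inr_injective (hf (eq_of_heq (Sigma.mk.inj hpq).2))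
      rw [h1, k1, this]
  have hFinj : Function.Injective F := by
    rintro ⟨b', p⟩ ⟨b'', q⟩ h
    rw [hF, hF] at h
    obtain rfl := hdis _ _ _ _ h
    rw [hinj1 _ h]
  -- the range
  have hrA : ∀ b, b ≠ a → ∀ q : (σ b).Idx, (⟨b, q⟩ : Σ a, (σ a).Idx) ∈ Set.range F := by
    intro b hb q
    obtain ⟨ψ, h1, -⟩ := specA b hb
    refine ⟨⟨Fin.castAdd j b, ψ.symm q⟩, ?_⟩
    rw [hF, h1, Equiv.apply_symm_apply]
  have hrB : ∀ q : (σ a).Idx, (⟨a, q⟩ : Σ a, (σ a).Idx) ∈ Set.range F ↔ q ∈ Set.range f := by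
    intro q
    constructor
    · rintro ⟨⟨b', p⟩, h⟩
      rw [hF] at h
      rcases hφ b' with ⟨b, h1, h2, ψ, h3, -⟩ | ⟨h1, ψ, h3, -⟩ | ⟨i, h1, ψ, h3, -⟩
      · rw [h3] at h
        exact absurd (Sigma.mk.inj h).1 h2
      · rw [h3] at h
        exact ⟨_, eq_of_heq (Sigma.mk.inj h).2⟩
      · rw [h3] at h
        exact ⟨_, eq_of_heq (Sigma.mk.inj h).2⟩
    · rintro ⟨r, rfl⟩
      rcases r with p | i
      · refine ⟨⟨Fin.castAdd j a, ψa.symm p⟩, ?_⟩
        rw [hF, hψa1, Equiv.apply_symm_apply]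
      · obtain ⟨ψ, h1, -⟩ := specC i
        refine ⟨⟨Fin.natAdd s i, ψ.symm u2_pt⟩, ?_⟩
        rw [hF, h1]
  -- the group elements
  have htr : ∀ (g' : ∀ b, Matrix (Fin (σ' b).row) (Fin (σ' b).row) ℂ)
      (h' : ∀ b, Matrix (Fin (σ' b).col) (Fin (σ' b).col) ℂ),
      (∀ b, (g' b).det ≠ 0) → (∀ b, (h' b).det ≠ 0) →
      ∀ b : Fin s, ∃ (g : Matrix (Fin (σ b).row) (Fin (σ b).row) ℂ)
        (h : Matrix (Fin (σ b).col) (Fin (σ b).col) ℂ), g.det ≠ 0 ∧ h.det ≠ 0 ∧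
        ∀ {R : Type} [CommRing R] [Algebra ℂ R] (x : (Σ a, (σ a).Idx) → R),
          (∀ c, c ∉ Set.range F → x c = 0) → ∀ q : (σ b).Idx,
          (∀ (b' : Fin (s + j)) (p' : (σ' b').Idx), F ⟨b', p'⟩ = ⟨b, q⟩ →
            (σ b).actI (g.map (algebraMap ℂ R)) (h.map (algebraMap ℂ R)) (fun q => x ⟨b, q⟩) q =
            (σ' b').actI ((g' b').map (algebraMap ℂ R)) ((h' b').map (algebraMap ℂ R))
              (fun q => x (F ⟨b', q⟩)) p') ∧
          ((⟨b, q⟩ : Σ a, (σ a).Idx) ∉ Set.range F →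
            (σ b).actI (g.map (algebraMap ℂ R)) (h.map (algebraMap ℂ R))
              (fun q => x ⟨b, q⟩) q = 0) := by
    intro g' h' hg' hh' b
    by_cases hb : b = a
    · subst hb
      obtain ⟨g₀, h₀, hg₀, hh₀, hact₀⟩ := hψa2 (g' _) (h' _) (hg' _) (hh' _)
      choose ψC hψC1 hψC2 using specC
      have hC2 : ∀ i, ∃ (g : Matrix (Fin (Shp.eps true 1).row) (Fin (Shp.eps true 1).row) ℂ)
          (h : Matrix (Fin (Shp.eps true 1).col) (Fin (Shp.eps true 1).col) ℂ),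
          g.det ≠ 0 ∧ h.det ≠ 0 ∧ ∀ {R : Type} [CommRing R] [Algebra ℂ R]
            (x : (Shp.eps true 1).Idx → R) (p' : (σ' (Fin.natAdd s i)).Idx),
            (σ' (Fin.natAdd s i)).actI ((g' _).map (algebraMap ℂ R)) ((h' _).map (algebraMap ℂ R))
              (fun q => x (ψC i q)) p' =
            (Shp.eps true 1).actI (g.map (algebraMap ℂ R)) (h.map (algebraMap ℂ R)) x (ψC i p') :=
        fun i => hψC2 i (g' _) (h' _) (hg' _) (hh' _)
      choose gC hC hgC hhC hactC using hC2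
      obtain ⟨g, h, hg, hh, hact⟩ := hfa g₀ h₀ (fun i => gC i (0 : Fin 1) (0 : Fin 1)) hg₀ hh₀
        (fun i => u2_det _ (hgC i))
      refine ⟨g, h, hg, hh, ?_⟩
      intro R _ _ x hx q
      obtain ⟨c1, c2, c3⟩ := hact (fun q => x ⟨b, q⟩) (fun p hp => hx _ (fun hp2 => hp ((hrB p).1 hp2)))
      refine ⟨?_, fun hq => c3 q (fun hq2 => hq ((hrB q).2 hq2))⟩
      intro b' p' hbp
      have hq : q ∈ Set.range f := (hrB q).1 ⟨_, hbp⟩
      obtain ⟨r, rfl⟩ := hq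
      rcases r with p₀ | i
      · have e1 : (⟨b', p'⟩ : Σ b, (σ' b).Idx) = ⟨Fin.castAdd j b, ψa.symm p₀⟩ := by
          apply hFinj
          rw [hbp, hF, hψa1, Equiv.apply_symm_apply]
        have e2 := congrArg (fun c : Σ b, (σ' b).Idx =>
          (σ' c.1).actI ((g' c.1).map (algebraMap ℂ R)) ((h' c.1).map (algebraMap ℂ R))
              (fun q => x (F ⟨c.1, q⟩)) c.2) e1
        simp only at e2
        rw [e2, c1]
        have e3 := hact₀ (fun r => x ⟨b, f (Sum.inl r)⟩) (ψa.symm p₀)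
        rw [Equiv.apply_symm_apply] at e3
        rw [← e3]
        congr 1
        funext q
        rw [hF, hψa1]
      · have e1 : (⟨b', p'⟩ : Σ b, (σ' b).Idx) = ⟨Fin.natAdd s i, (ψC i).symm u2_pt⟩ := by
          apply hFinj
          rw [hbp, hF, hψC1]
        have e2 := congrArg (fun c : Σ b, (σ' b).Idx =>
          (σ' c.1).actI ((g' c.1).map (algebraMap ℂ R)) ((h' c.1).map (algebraMap ℂ R))
              (fun q => x (F ⟨c.1, q⟩)) c.2) e1
        simp only at e2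
        rw [e2, c2]
        have e3 := hactC i (fun _ => x ⟨b, f (Sum.inr i)⟩) ((ψC i).symm u2_pt)
        rw [Equiv.apply_symm_apply, u2_one] at e3
        rw [← e3]
        congr 1
        funext q
        rw [hF, hψC1]
    · obtain ⟨ψ, h1, h2⟩ := specA b hb
      obtain ⟨g, h, hg, hh, hact⟩ := h2 (g' _) (h' _) (hg' _) (hh' _)
      refine ⟨g, h, hg, hh, ?_⟩
      intro R _ _ x hx q
      refine ⟨?_, fun hq => absurd (hrA b hb q) hq⟩
      intro b' p' hbp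
      have e1 : (⟨b', p'⟩ : Σ b, (σ' b).Idx) = ⟨Fin.castAdd j b, ψ.symm q⟩ := by
        apply hFinj
        rw [hbp, hF, h1, Equiv.apply_symm_apply]
      have e2 := congrArg (fun c : Σ b, (σ' b).Idx =>
        (σ' c.1).actI ((g' c.1).map (algebraMap ℂ R)) ((h' c.1).map (algebraMap ℂ R))
            (fun q => x (F ⟨c.1, q⟩)) c.2) e1
      simp only at e2
      rw [e2]
      have e3 := hact (fun r => x ⟨b, r⟩) (ψ.symm q)
      rw [Equiv.apply_symm_apply] at e3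
      rw [← e3]
      congr 1
      funext q
      rw [hF, h1]
  obtain ⟨N', e', ι, hι, hιF, hst⟩ := fam_sub e F hFinj (by
    intro g' h' hg' hh'
    choose g h hg hh hact using htr g' h' hg' hh'
    refine ⟨g, h, hg, hh, ?_⟩
    intro R _ _ x hx
    refine ⟨fun b p' => ?_, fun c hc => ?_⟩
    · exact (hact (F ⟨b, p'⟩).1 x hx (F ⟨b, p'⟩).2).1 b p' rfl
    · exact (hact c.1 x hx c.2).2 hc)
  refine ⟨σ', N', e', ι, hι, ?_, ?_, ?_, hst⟩
  · intro i
    have h1 : i ∈ Set.range ι ↔ e.symm i ∈ Set.range F := by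
      constructor
      · rintro ⟨k, rfl⟩
        refine ⟨e'.symm k, ?_⟩
        rw [Equiv.eq_symm_apply, ← hιF, Equiv.apply_symm_apply]
      · rintro ⟨c, hc⟩
        refine ⟨e' c, ?_⟩
        rw [hιF, hc, Equiv.apply_symm_apply]
    rw [h1]
    unfold wS one
    obtain ⟨c, hc⟩ : ∃ c, c = e.symm i := ⟨_, rfl⟩
    rw [← hc]
    obtain ⟨b, q⟩ := c
    by_cases hb : b = a
    · subst hb
      simp only [if_true]
      rw [hfw, hrB]
    · simp only [if_neg hb]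
      simp only [add_zero, true_iff]
      exact hrA b hb q
  · intro h1 h2 b'
    refine Fin.addCases (fun b => ?_) (fun i => ?_) b'
    · by_cases hb : b = a
      · rw [hb, hB]
        exact h2
      · rw [hA b hb]
        exact h1 b
    · rw [hC i]
      exact trivial
  · rw [hσ', Fin.sum_univ_add]
    simp only [Fin.append_left, Fin.append_right]
    have h1 : ∑ b, (Function.update σ a τ' b).ms + (σ a).ms = ∑ b, (σ b).ms + τ'.ms := by
      rw [← Finset.add_sum_erase _ _ (Finset.mem_univ a),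
        ← Finset.add_sum_erase _ (fun b => (σ b).ms) (Finset.mem_univ a), Function.update_self]
      have h2 : ∑ b ∈ Finset.univ.erase a, (Function.update σ a τ' b).ms =
          ∑ b ∈ Finset.univ.erase a, (σ b).ms := by
        refine Finset.sum_congr rfl fun b hb => ?_
        rw [Function.update_of_ne (Finset.ne_of_mem_erase hb)]
      rw [h2]
      ring
    have h3 : ∑ _i : Fin j, (Shp.eps true 1).ms = j := by
      rw [Finset.sum_const, Finset.card_univ, Fintype.card_fin]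
      simp [Shp.ms]
    rw [h3]
    omega

end MotMono
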