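import Pool.Agent.Lib.MP_4e5fcd_ag.Ic.TDefs
import Pool.Agent.Lib.MP_4e5fcd_ag.Cl.K0

/-! # IC-U3: removing the last index of a (skew-)symmetric matrix

PROOF. `f (inl p') = p'` with both indices `castSucc`; a position has weight `0` iff none of its indices is `n`. For `g'`
let `g = blockdiag (g', 1)` (`g i k = g' i k` for `i, k < n`, `g n n = 1`, the others `0`), `h = 1` (not used for `eps`; or also
a block matrix). `det g = det g'` (`Matrix.det_fromBlocks…` or expansion along the last row). For `x` vanishing at all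
positions with an index `n`: `(g M gᵀ) i k = ∑ j l < n, g' i j M j l g' k l` for `i, k < n` and `0` if `i = n` or `k = n`
(`Fin.sum_univ_castSucc`). -/

open MvPolynomial

namespace MotMono

/-- the block matrix -/
private noncomputable def u3_blk {n : ℕ} (g' : Matrix (Fin n) (Fin n) ℂ) :
    Matrix (Fin (n + 1)) (Fin (n + 1)) ℂ :=
  (Matrix.fromBlocks g' 0 0 (1 : Matrix (Fin 1) (Fin 1) ℂ)).submatrix finSumFinEquiv.symm
    finSumFinEquiv.symm

private theorem u3_det {n : ℕ} (g' : Matrix (Fin n) (Fin n) ℂ) : (u3_blk g').det = g'.det := by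
  unfold u3_blk
  rw [Matrix.det_submatrix_equiv_self, Matrix.det_fromBlocks_zero₂₁, Matrix.det_one, mul_one]

private theorem u3_symm_castSucc {n : ℕ} (i : Fin n) :
    (finSumFinEquiv (m := n) (n := 1)).symm i.castSucc = Sum.inl i :=
  finSumFinEquiv_symm_apply_castAdd i

private theorem u3_symm_last {n : ℕ} :
    (finSumFinEquiv (m := n) (n := 1)).symm (Fin.last n) = Sum.inr 0 :=
  finSumFinEquiv_symm_apply_natAdd 0

private theorem u3_cc {n : ℕ} (g' : Matrix (Fin n) (Fin n) ℂ) (i k : Fin n) :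
    u3_blk g' i.castSucc k.castSucc = g' i k := by
  unfold u3_blk
  rw [Matrix.submatrix_apply, u3_symm_castSucc, u3_symm_castSucc, Matrix.fromBlocks_apply₁₁]

private theorem u3_cl {n : ℕ} (g' : Matrix (Fin n) (Fin n) ℂ) (i : Fin n) :
    u3_blk g' i.castSucc (Fin.last n) = 0 := by
  unfold u3_blk
  rw [Matrix.submatrix_apply, u3_symm_castSucc, u3_symm_last, Matrix.fromBlocks_apply₁₂,
    Matrix.zero_apply]

private theorem u3_lc {n : ℕ} (g' : Matrix (Fin n) (Fin n) ℂ) (i : Fin n) :
    u3_blk g' (Fin.last n) i.castSucc = 0 := by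
  unfold u3_blk
  rw [Matrix.submatrix_apply, u3_symm_castSucc, u3_symm_last, Matrix.fromBlocks_apply₂₁,
    Matrix.zero_apply]

private def u3_f (κ : Bool) (n : ℕ) (p : (Shp.eps κ n).Idx) : (Shp.eps κ (n + 1)).Idx :=
  ⟨(p.1.1.castSucc, p.1.2.castSucc), by
    rcases p.2 with h | h
    · exact Or.inl (Fin.castSucc_lt_castSucc_iff.2 h)
    · exact Or.inr ⟨h.1, congrArg Fin.castSucc h.2⟩⟩

private theorem u3_mat {R : Type} [CommRing R] (κ : Bool) (n : ℕ)
    (x : (Shp.eps κ (n + 1)).Idx → R) (i k : Fin n) :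
    (Shp.eps κ (n + 1)).mat x i.castSucc k.castSucc =
      (Shp.eps κ n).mat (fun q => x (u3_f κ n q)) i k := by
  show (if h : i.castSucc < k.castSucc then x ⟨(i.castSucc, k.castSucc), Or.inl h⟩
      else if h' : k.castSucc < i.castSucc then
        (if κ = true then 1 else -1) * x ⟨(k.castSucc, i.castSucc), Or.inl h'⟩
      else if hκ : κ = true then x ⟨(i.castSucc, k.castSucc),
        Or.inr ⟨hκ, le_antisymm (not_lt.1 h') (not_lt.1 h)⟩⟩
      else 0) = (if h : i < k then x (u3_f κ n ⟨(i, k), Or.inl h⟩)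
      else if h' : k < i then (if κ = true then 1 else -1) * x (u3_f κ n ⟨(k, i), Or.inl h'⟩)
      else if hκ : κ = true then x (u3_f κ n ⟨(i, k),
        Or.inr ⟨hκ, le_antisymm (not_lt.1 h') (not_lt.1 h)⟩⟩)
      else 0)
  by_cases h1 : i < k
  · rw [dif_pos (Fin.castSucc_lt_castSucc_iff.2 h1), dif_pos h1]
    rfl
  · rw [dif_neg (fun h => h1 (Fin.castSucc_lt_castSucc_iff.1 h)), dif_neg h1]
    by_cases h2 : k < i
    · rw [dif_pos (Fin.castSucc_lt_castSucc_iff.2 h2), dif_pos h2]
      rfl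
    · rw [dif_neg (fun h => h2 (Fin.castSucc_lt_castSucc_iff.1 h)), dif_neg h2]
      by_cases h3 : κ = true
      · rw [dif_pos h3, dif_pos h3]
        rfl
      · rw [dif_neg h3, dif_neg h3]

private theorem u3_mat0 {R : Type} [CommRing R] (κ : Bool) (n : ℕ)
    (x : (Shp.eps κ n).Idx → R) (i k : Fin n)
    (hx : ∀ p : (Shp.eps κ n).Idx, (p.1 = (i, k) ∨ p.1 = (k, i)) → x p = 0) :
    (Shp.eps κ n).mat x i k = 0 := by
  show (if h : i < k then x ⟨(i, k), Or.inl h⟩
      else if h' : k < i then (if κ = true then 1 else -1) * x ⟨(k, i), Or.inl h'⟩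
      else if hκ : κ = true then x ⟨(i, k), Or.inr ⟨hκ, le_antisymm (not_lt.1 h') (not_lt.1 h)⟩⟩
      else 0) = 0
  by_cases h1 : i < k
  · rw [dif_pos h1]
    exact hx _ (Or.inl rfl)
  · rw [dif_neg h1]
    by_cases h2 : k < i
    · rw [dif_pos h2, hx _ (Or.inr rfl), mul_zero]
    · rw [dif_neg h2]
      by_cases h3 : κ = true
      · rw [dif_pos h3]
        exact hx _ (Or.inl rfl)
      · rw [dif_neg h3]

theorem cut_rem (κ : Bool) (n : ℕ) :
    Shp.Cut (Shp.eps κ (n + 1)) (Shp.eps κ n) 0 (rR n) (rR n) := by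
  have hr : ∀ (F : (Shp.eps κ n).Idx ⊕ Fin 0 → (Shp.eps κ (n + 1)).Idx),
      F = (fun c => Sum.elim (u3_f κ n) (fun i : Fin 0 => i.elim0) c) →
      ∀ p : (Shp.eps κ (n + 1)).Idx, p ∈ Set.range F ↔ p.1.1 ≠ Fin.last n ∧ p.1.2 ≠ Fin.last n := by
    rintro F rfl p
    constructor
    · rintro ⟨c, rfl⟩
      rcases c with q | i
      · exact ⟨(Fin.castSucc_lt_last _).ne, (Fin.castSucc_lt_last _).ne⟩
      · exact i.elim0
    · rintro ⟨h1, h2⟩
      obtain ⟨⟨a, b⟩, hp⟩ := p
      obtain ⟨a', rfl⟩ := Fin.exists_castSucc_eq.2 h1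
      obtain ⟨b', rfl⟩ := Fin.exists_castSucc_eq.2 h2
      refine ⟨Sum.inl ⟨(a', b'), ?_⟩, rfl⟩
      rcases hp with h | h
      · exact Or.inl (Fin.castSucc_lt_castSucc_iff.1 h)
      · exact Or.inr ⟨h.1, Fin.castSucc_injective _ h.2⟩
  have hrp := hr _ rfl
  refine ⟨fun c => Sum.elim (u3_f κ n) (fun i : Fin 0 => i.elim0) c, ?_, ?_, ?_⟩
  · rintro (p | i) (q | j) h
    · have h1 : (p.1.1.castSucc, p.1.2.castSucc) = (q.1.1.castSucc, q.1.2.castSucc) :=
        congrArg Subtype.val h
      have h2 := (Prod.mk.injEq _ _ _ _).mp h1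
      have h3 : p.1.1 = q.1.1 := Fin.castSucc_injective _ h2.1
      have h4 : p.1.2 = q.1.2 := Fin.castSucc_injective _ h2.2
      exact congrArg Sum.inl (Subtype.ext (Prod.ext h3 h4))
    · exact j.elim0
    · exact i.elim0
    · exact i.elim0
  · intro p
    rw [hrp p]
    show rR n (p.1.1 : ℕ) + rR n (p.1.2 : ℕ) = 0 ↔ _
    have e1 : ∀ i : Fin (n + 1), rR n (i : ℕ) = if i = Fin.last n then 1 else 0 := by
      intro i
      unfold rR
      by_cases h : i = Fin.last n
      · rw [if_pos h, if_pos (by rw [h]; rfl)]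
      · have h2 : ¬ (i : ℕ) = n := fun h' => h (Fin.ext h')
        rw [if_neg h, if_neg h2]
    rw [e1, e1]
    split_ifs with h1 h2 h2
    · exact ⟨fun h => absurd h (by norm_num), fun h => absurd h1 h.1⟩
    · exact ⟨fun h => absurd h (by norm_num), fun h => absurd h1 h.1⟩
    · exact ⟨fun h => absurd h (by norm_num), fun h => absurd h2 h.2⟩
    · exact ⟨fun _ => ⟨h1, h2⟩, fun _ => by norm_num⟩
  · intro g' h' c hg _ _
    refine ⟨u3_blk g', 1, ?_, ?_, ?_⟩
    · rw [u3_det]
      exact hg
    · rw [Matrix.det_one]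
      exact one_ne_zero
    · intro R _ _ x hx
      have hx0 : ∀ p : (Shp.eps κ (n + 1)).Idx, p.1.1 = Fin.last n ∨ p.1.2 = Fin.last n →
          x p = 0 := by
        intro p hp
        refine hx p fun h => ?_
        have h1 := (hrp p).1 h
        rcases hp with h2 | h2
        · exact h1.1 h2
        · exact h1.2 h2
      have m1 : ∀ k, (Shp.eps κ (n + 1)).mat x (Fin.last n) k = 0 := fun k => by
        refine u3_mat0 κ (n + 1) x _ _ fun p hp => hx0 p ?_
        rcases hp with h | h
        · exact Or.inl (by rw [h])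
        · exact Or.inr (by rw [h])
      have m2 : ∀ i, (Shp.eps κ (n + 1)).mat x i (Fin.last n) = 0 := fun i => by
        refine u3_mat0 κ (n + 1) x _ _ fun p hp => hx0 p ?_
        rcases hp with h | h
        · exact Or.inr (by rw [h])
        · exact Or.inl (by rw [h])
      have act : ∀ i k, ((Shp.eps κ (n + 1)).act ((u3_blk g').map (algebraMap ℂ R))
          ((1 : Matrix (Fin (n + 1)) (Fin (n + 1)) ℂ).map (algebraMap ℂ R))
          ((Shp.eps κ (n + 1)).mat x)) i k =
          ∑ l : Fin n, (∑ j : Fin n, algebraMap ℂ R (u3_blk g' i j.castSucc) *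
            (Shp.eps κ n).mat (fun q => x (u3_f κ n q)) j l) *
            algebraMap ℂ R (u3_blk g' k l.castSucc) := by
        intro i k
        show (((u3_blk g').map (algebraMap ℂ R)) * ((Shp.eps κ (n + 1)).mat x) *
          ((u3_blk g').map (algebraMap ℂ R)).transpose) i k = _
        rw [Matrix.mul_apply, Fin.sum_univ_castSucc]
        have e2 : (((u3_blk g').map (algebraMap ℂ R)) * ((Shp.eps κ (n + 1)).mat x)) i
            (Fin.last n) = 0 := by
          rw [Matrix.mul_apply]
          exact Finset.sum_eq_zero fun j _ => by rw [m2, mul_zero]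
        rw [e2, zero_mul, add_zero]
        refine Finset.sum_congr rfl fun l _ => ?_
        rw [Matrix.mul_apply, Fin.sum_univ_castSucc, m1, mul_zero, add_zero,
          Matrix.transpose_apply, Matrix.map_apply]
        refine congrArg (fun t => t * _) (Finset.sum_congr rfl fun j _ => ?_)
        rw [Matrix.map_apply, u3_mat]
      refine ⟨fun p' => ?_, fun i => i.elim0, fun p hp => ?_⟩
      · refine (act p'.1.1.castSucc p'.1.2.castSucc).trans ?_
        show _ = ((g'.map (algebraMap ℂ R)) * ((Shp.eps κ n).mat fun q => x (u3_f κ n q)) *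
          (g'.map (algebraMap ℂ R)).transpose) p'.1.1 p'.1.2
        rw [Matrix.mul_apply]
        refine Finset.sum_congr rfl fun l _ => ?_
        rw [Matrix.mul_apply, Matrix.transpose_apply, Matrix.map_apply, u3_cc]
        refine congrArg (fun t => t * _) (Finset.sum_congr rfl fun j _ => ?_)
        rw [Matrix.map_apply, u3_cc]
      · have h1 : p.1.1 = Fin.last n ∨ p.1.2 = Fin.last n := by
          by_contra h2
          rw [not_or] at h2
          exact hp ((hrp p).2 h2)
        refine (act p.1.1 p.1.2).trans ?_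
        rcases h1 with h1 | h1
        · refine Finset.sum_eq_zero fun l _ => ?_
          rw [Finset.sum_eq_zero, zero_mul]
          intro j _
          rw [h1, u3_lc, map_zero, zero_mul]
        · refine Finset.sum_eq_zero fun l _ => ?_
          rw [h1, u3_lc, map_zero, mul_zero]

end MotMono
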