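import Pool.Agent.Lib.MP_4e5fcd_ag.Ic.TDefs
import Pool.Agent.Lib.MP_4e5fcd_ag.Cl.K0

/-! # IC-U4: splitting off the last pair of indices of a (skew-)symmetric matrix

PROOF. `f (inl p') = p'` (both indices `castSucc (castSucc ·)`), `f (inr 0) = (n, n + 1)`. A position `(i, k)`, `i ≤ k`, has weight
`rP n i + rP n k = 0` iff `k < n`, or `(i, k) = (n, n + 1)` (`(i, n)`: `1` or `2`; `(i, n + 1)`, `i ≤ n - 1`: `-1`; `(n + 1, n + 1)`: `-2`).
For `g'`, `c` let `g = blockdiag (g', c 0, c 0)`. For `x` vanishing at the other positions: `(g M gᵀ) i k = ∑ j l < n, …` for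
`i, k < n`; `(g M gᵀ) n (n + 1) = c 0 ^ 2 * M n (n + 1)`; the other entries (`(n, n)`, `(i, n)`, …) vanish
(`Fin.sum_univ_castSucc` twice). -/

open MvPolynomial

namespace MotMono

/-- the positions of weight zero -/
private def U4_f (κ : Bool) (n : ℕ) : (Shp.eps κ n).Idx ⊕ Fin 1 → (Shp.eps κ (n + 2)).Idx
  | Sum.inl q => ⟨(Fin.castAdd 2 q.1.1, Fin.castAdd 2 q.1.2), by
      rcases q.2 with h | ⟨h1, h2⟩
      · exact Or.inl h
      · exact Or.inr ⟨h1, by rw [h2]⟩⟩
  | Sum.inr _ => ⟨(Fin.natAdd n 0, Fin.natAdd n 1), Or.inl (by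
      rw [Fin.lt_def]
      simp)⟩

private theorem U4_lt {n i : ℕ} (h : i < n) : rP n i = 0 := by
  unfold rP
  rw [if_neg (by omega), if_neg (by omega)]

private theorem U4_self (n : ℕ) : rP n n = 1 := by
  unfold rP
  rw [if_pos rfl]

private theorem U4_succ (n : ℕ) : rP n (n + 1) = -1 := by
  unfold rP
  rw [if_neg (by omega), if_pos rfl]

private theorem U4_inj (κ : Bool) (n : ℕ) : Function.Injective (U4_f κ n) := by
  rintro (q | i) (q' | i') h
  · have h1 := congrArg Subtype.val h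
    have h2 : Fin.castAdd 2 q.1.1 = Fin.castAdd 2 q'.1.1 := congrArg Prod.fst h1
    have h3 : Fin.castAdd 2 q.1.2 = Fin.castAdd 2 q'.1.2 := congrArg Prod.snd h1
    exact congrArg Sum.inl (Subtype.ext (Prod.ext (Fin.castAdd_injective _ _ h2)
      (Fin.castAdd_injective _ _ h3)))
  · exfalso
    have h1 := congrArg Subtype.val h
    have h2 : Fin.castAdd 2 q.1.1 = Fin.natAdd n 0 := congrArg Prod.fst h1
    have h3 := congrArg Fin.val h2
    have h4 := q.1.1.isLt
    simp only [Fin.val_castAdd, Fin.val_natAdd] at h3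
    omega
  · exfalso
    have h1 := congrArg Subtype.val h
    have h2 : Fin.natAdd n 0 = Fin.castAdd 2 q'.1.1 := congrArg Prod.fst h1
    have h3 := congrArg Fin.val h2
    have h4 := q'.1.1.isLt
    simp only [Fin.val_castAdd, Fin.val_natAdd] at h3
    omega
  · exact congrArg Sum.inr (Subsingleton.elim _ _)

private theorem U4_range (κ : Bool) (n : ℕ) (i k : Fin (n + 2))
    (h : i < k ∨ κ = true ∧ i = k) :
    rP n i + rP n k = 0 ↔ (⟨(i, k), h⟩ : (Shp.eps κ (n + 2)).Idx) ∈ Set.range (U4_f κ n) := by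
  have hik : (i : ℕ) ≤ k := by
    rcases h with h | ⟨-, h⟩
    · exact le_of_lt h
    · rw [h]
  have hi := i.isLt
  have hk := k.isLt
  constructor
  · intro hw
    by_cases h1 : (k : ℕ) < n
    · have h2 : (i : ℕ) < n := hik.trans_lt h1
      refine ⟨Sum.inl ⟨(⟨i, h2⟩, ⟨k, h1⟩), ?_⟩, ?_⟩
      · rcases h with h | ⟨h3, h4⟩
        · exact Or.inl h
        · exact Or.inr ⟨h3, Fin.ext (show (i : ℕ) = (k : ℕ) by rw [h4])⟩
      · rfl
    · have hk' : (k : ℕ) = n ∨ (k : ℕ) = n + 1 := by omega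
      have hi' : (i : ℕ) < n ∨ (i : ℕ) = n ∨ (i : ℕ) = n + 1 := by omega
      rcases hk' with hk' | hk' <;> rcases hi' with hi' | hi' | hi'
      · rw [hk', U4_lt hi', U4_self] at hw
        exact absurd hw (by norm_num)
      · rw [hk', hi', U4_self] at hw
        exact absurd hw (by norm_num)
      · omega
      · rw [hk', U4_lt hi', U4_succ] at hw
        exact absurd hw (by norm_num)
      · refine ⟨Sum.inr 0, Subtype.ext (Prod.ext (Fin.ext ?_) (Fin.ext ?_))⟩
        · show n + 0 = (i : ℕ)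
          omega
        · show n + 1 = (k : ℕ)
          omega
      · rw [hk', hi', U4_succ] at hw
        exact absurd hw (by norm_num)
  · rintro ⟨q | q, hq⟩
    · have h1 := congrArg Subtype.val hq
      have h2 : Fin.castAdd 2 q.1.1 = i := congrArg Prod.fst h1
      have h3 : Fin.castAdd 2 q.1.2 = k := congrArg Prod.snd h1
      have h4 : (i : ℕ) < n := by
        rw [← h2]
        exact q.1.1.isLt
      have h5 : (k : ℕ) < n := by
        rw [← h3]
        exact q.1.2.isLt
      rw [U4_lt h4, U4_lt h5, add_zero]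
    · have h1 := congrArg Subtype.val hq
      have h2 : Fin.natAdd n 0 = i := congrArg Prod.fst h1
      have h3 : Fin.natAdd n 1 = k := congrArg Prod.snd h1
      have h4 : (i : ℕ) = n := by
        rw [← h2]
        simp
      have h5 : (k : ℕ) = n + 1 := by
        rw [← h3]
        simp
      rw [h4, h5, U4_self, U4_succ]
      norm_num

private theorem U4_x0 {R : Type} [CommRing R] {κ : Bool} {n : ℕ}
    {x : (Shp.eps κ (n + 2)).Idx → R} (hx : ∀ p, p ∉ Set.range (U4_f κ n) → x p = 0)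
    {i k : Fin (n + 2)} (h : i < k ∨ κ = true ∧ i = k) (hw : rP n i + rP n k ≠ 0) :
    x ⟨(i, k), h⟩ = 0 :=
  hx _ fun hr => hw ((U4_range κ n i k h).2 hr)

private theorem U4_mat {R : Type} [CommRing R] (κ : Bool) (n : ℕ)
    (x : (Shp.eps κ (n + 2)).Idx → R) (hx : ∀ p, p ∉ Set.range (U4_f κ n) → x p = 0) :
    ∃ z : R, (Shp.eps κ (n + 2)).mat x =
      (Matrix.fromBlocks ((Shp.eps κ n).mat fun q => x (U4_f κ n (Sum.inl q))) 0 0
        !![0, x (U4_f κ n (Sum.inr 0)); z, 0]).submatrix finSumFinEquiv.symm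
          finSumFinEquiv.symm := by
  refine ⟨(if κ = true then 1 else -1) * x (U4_f κ n (Sum.inr 0)), ?_⟩
  ext i k
  obtain ⟨a, rfl⟩ := (finSumFinEquiv (m := n) (n := 2)).surjective i
  obtain ⟨b, rfl⟩ := (finSumFinEquiv (m := n) (n := 2)).surjective k
  rw [Matrix.submatrix_apply, Equiv.symm_apply_apply, Equiv.symm_apply_apply]
  rcases a with i | i <;> rcases b with k | k
  · rw [Matrix.fromBlocks_apply₁₁, finSumFinEquiv_apply_left, finSumFinEquiv_apply_left]
    by_cases h : i < k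
    · have h' : Fin.castAdd 2 i < Fin.castAdd 2 k := h
      have e1 : (Shp.eps κ (n + 2)).mat x (Fin.castAdd 2 i) (Fin.castAdd 2 k) =
        x ⟨(Fin.castAdd 2 i, Fin.castAdd 2 k), Or.inl h'⟩ := dif_pos h'
      have e2 : (Shp.eps κ n).mat (fun q => x (U4_f κ n (Sum.inl q))) i k =
        x (U4_f κ n (Sum.inl ⟨(i, k), Or.inl h⟩)) := dif_pos h
      rw [e1, e2]
      rfl
    · have h' : ¬ Fin.castAdd 2 i < Fin.castAdd 2 k := h
      by_cases h2 : k < i
      · have h2' : Fin.castAdd 2 k < Fin.castAdd 2 i := h2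
        have e1 : (Shp.eps κ (n + 2)).mat x (Fin.castAdd 2 i) (Fin.castAdd 2 k) =
          (if κ = true then 1 else -1) * x ⟨(Fin.castAdd 2 k, Fin.castAdd 2 i), Or.inl h2'⟩ :=
          (dif_neg h').trans (dif_pos h2')
        have e2 : (Shp.eps κ n).mat (fun q => x (U4_f κ n (Sum.inl q))) i k =
          (if κ = true then 1 else -1) * x (U4_f κ n (Sum.inl ⟨(k, i), Or.inl h2⟩)) :=
          (dif_neg h).trans (dif_pos h2)
        rw [e1, e2]
        rfl
      · have h2' : ¬ Fin.castAdd 2 k < Fin.castAdd 2 i := h2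
        by_cases hκ : κ = true
        · have h3 : i = k := le_antisymm (not_lt.1 h2) (not_lt.1 h)
          have h3' : Fin.castAdd 2 i = Fin.castAdd 2 k := by rw [h3]
          have e1 : (Shp.eps κ (n + 2)).mat x (Fin.castAdd 2 i) (Fin.castAdd 2 k) =
            x ⟨(Fin.castAdd 2 i, Fin.castAdd 2 k), Or.inr ⟨hκ, h3'⟩⟩ :=
            (dif_neg h').trans ((dif_neg h2').trans (dif_pos hκ))
          have e2 : (Shp.eps κ n).mat (fun q => x (U4_f κ n (Sum.inl q))) i k =
            x (U4_f κ n (Sum.inl ⟨(i, k), Or.inr ⟨hκ, h3⟩⟩)) :=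
            (dif_neg h).trans ((dif_neg h2).trans (dif_pos hκ))
          rw [e1, e2]
          rfl
        · have e1 : (Shp.eps κ (n + 2)).mat x (Fin.castAdd 2 i) (Fin.castAdd 2 k) = 0 :=
            (dif_neg h').trans ((dif_neg h2').trans (dif_neg hκ))
          have e2 : (Shp.eps κ n).mat (fun q => x (U4_f κ n (Sum.inl q))) i k = 0 :=
            (dif_neg h).trans ((dif_neg h2).trans (dif_neg hκ))
          rw [e1, e2]
  · rw [Matrix.fromBlocks_apply₁₂, finSumFinEquiv_apply_left, finSumFinEquiv_apply_right]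
    have hi := i.isLt
    have h' : Fin.castAdd 2 i < Fin.natAdd n k := by
      rw [Fin.lt_def, Fin.val_castAdd, Fin.val_natAdd]
      omega
    have e1 : (Shp.eps κ (n + 2)).mat x (Fin.castAdd 2 i) (Fin.natAdd n k) =
      x ⟨(Fin.castAdd 2 i, Fin.natAdd n k), Or.inl h'⟩ := dif_pos h'
    rw [e1]
    refine U4_x0 hx _ ?_
    rw [Fin.val_castAdd, U4_lt hi, Fin.val_natAdd]
    fin_cases k
    · rw [show n + ((⟨0, by omega⟩ : Fin 2) : ℕ) = n from rfl, U4_self]
      norm_num
    · rw [show n + ((⟨1, by omega⟩ : Fin 2) : ℕ) = n + 1 from rfl, U4_succ]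
      norm_num
  · rw [Matrix.fromBlocks_apply₂₁, finSumFinEquiv_apply_left, finSumFinEquiv_apply_right]
    have hk := k.isLt
    have h' : Fin.castAdd 2 k < Fin.natAdd n i := by
      rw [Fin.lt_def, Fin.val_castAdd, Fin.val_natAdd]
      omega
    have e1 : (Shp.eps κ (n + 2)).mat x (Fin.natAdd n i) (Fin.castAdd 2 k) =
      (if κ = true then 1 else -1) * x ⟨(Fin.castAdd 2 k, Fin.natAdd n i), Or.inl h'⟩ :=
      (dif_neg (not_lt.2 h'.le)).trans (dif_pos h')
    rw [e1]
    have e2 : x ⟨(Fin.castAdd 2 k, Fin.natAdd n i), Or.inl h'⟩ = 0 := by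
      refine U4_x0 hx _ ?_
      rw [Fin.val_castAdd, U4_lt hk, Fin.val_natAdd]
      fin_cases i
      · rw [show n + ((⟨0, by omega⟩ : Fin 2) : ℕ) = n from rfl, U4_self]
        norm_num
      · rw [show n + ((⟨1, by omega⟩ : Fin 2) : ℕ) = n + 1 from rfl, U4_succ]
        norm_num
    rw [e2, mul_zero]
    rfl
  · rw [Matrix.fromBlocks_apply₂₂, finSumFinEquiv_apply_right, finSumFinEquiv_apply_right]
    have hlt : (Fin.natAdd n 0 : Fin (n + 2)) < Fin.natAdd n 1 := by
      rw [Fin.lt_def]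
      simp
    have hdiag : ∀ j : Fin 2, (Shp.eps κ (n + 2)).mat x (Fin.natAdd n j) (Fin.natAdd n j) = 0 := by
      intro j
      by_cases hκ : κ = true
      · have e1 : (Shp.eps κ (n + 2)).mat x (Fin.natAdd n j) (Fin.natAdd n j) =
          x ⟨(Fin.natAdd n j, Fin.natAdd n j), Or.inr ⟨hκ, rfl⟩⟩ :=
          (dif_neg (lt_irrefl _)).trans ((dif_neg (lt_irrefl _)).trans (dif_pos hκ))
        rw [e1]
        refine U4_x0 hx _ ?_
        rw [Fin.val_natAdd]
        fin_cases j
        · rw [show n + ((⟨0, by omega⟩ : Fin 2) : ℕ) = n from rfl, U4_self]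
          norm_num
        · rw [show n + ((⟨1, by omega⟩ : Fin 2) : ℕ) = n + 1 from rfl, U4_succ]
          norm_num
      · exact (dif_neg (lt_irrefl _)).trans ((dif_neg (lt_irrefl _)).trans (dif_neg hκ))
    fin_cases i <;> fin_cases k
    · exact hdiag 0
    · exact dif_pos hlt
    · exact (dif_neg (not_lt.2 hlt.le)).trans (dif_pos hlt)
    · exact hdiag 1

private theorem U4_block {R : Type} [CommRing R] {n : ℕ} (G M : Matrix (Fin n) (Fin n) R)
    (c u v : R) :
    (Matrix.fromBlocks G 0 0 (Matrix.diagonal fun _ : Fin 2 => c)).submatrix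
        (finSumFinEquiv (m := n) (n := 2)).symm (finSumFinEquiv (m := n) (n := 2)).symm *
      (Matrix.fromBlocks M 0 0 !![0, u; v, 0]).submatrix
        (finSumFinEquiv (m := n) (n := 2)).symm (finSumFinEquiv (m := n) (n := 2)).symm *
      ((Matrix.fromBlocks G 0 0 (Matrix.diagonal fun _ : Fin 2 => c)).submatrix
        (finSumFinEquiv (m := n) (n := 2)).symm (finSumFinEquiv (m := n) (n := 2)).symm).transpose =
    (Matrix.fromBlocks (G * M * G.transpose) 0 0 !![0, c ^ 2 * u; c ^ 2 * v, 0]).submatrix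
      (finSumFinEquiv (m := n) (n := 2)).symm (finSumFinEquiv (m := n) (n := 2)).symm := by
  rw [Matrix.transpose_submatrix, Matrix.submatrix_mul_equiv, Matrix.submatrix_mul_equiv,
    Matrix.fromBlocks_transpose, Matrix.fromBlocks_multiply, Matrix.fromBlocks_multiply]
  have e : Matrix.diagonal (fun _ : Fin 2 => c) * !![0, u; v, 0] *
      (Matrix.diagonal (fun _ : Fin 2 => c)).transpose = !![0, c ^ 2 * u; c ^ 2 * v, 0] := by
    rw [Matrix.diagonal_transpose]
    ext i j
    rw [Matrix.mul_diagonal, Matrix.diagonal_mul]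
    fin_cases i <;> fin_cases j <;> simp <;> ring
  simp only [Matrix.mul_zero, Matrix.zero_mul, add_zero, zero_add, Matrix.transpose_zero, e]

theorem cut_pair (κ : Bool) (n : ℕ) :
    Shp.Cut (Shp.eps κ (n + 2)) (Shp.eps κ n) 1 (rP n) (rP n) := by
  classical
  refine ⟨U4_f κ n, U4_inj κ n, fun p => U4_range κ n p.1.1 p.1.2 p.2, ?_⟩
  intro g' h' c hg' _ hc
  have hc0 := hc 0
  refine ⟨(Matrix.fromBlocks g' 0 0 (Matrix.diagonal fun _ : Fin 2 => c 0)).submatrix
    (finSumFinEquiv (m := n) (n := 2)).symm (finSumFinEquiv (m := n) (n := 2)).symm, 1, ?_, ?_, ?_⟩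
  · rw [Matrix.det_submatrix_equiv_self, Matrix.det_fromBlocks_zero₂₁, Matrix.det_diagonal]
    exact mul_ne_zero hg' (Finset.prod_ne_zero_iff.2 fun _ _ => hc0)
  · rw [Matrix.det_one]
    exact one_ne_zero
  intro R _ _ x hx
  obtain ⟨z, hz⟩ := U4_mat κ n x hx
  have hact : (Shp.eps κ (n + 2)).act
      (((Matrix.fromBlocks g' 0 0 (Matrix.diagonal fun _ : Fin 2 => c 0)).submatrix
        (finSumFinEquiv (m := n) (n := 2)).symm (finSumFinEquiv (m := n) (n := 2)).symm).map
          (algebraMap ℂ R)) ((1 : Matrix (Fin (n + 2)) (Fin (n + 2)) ℂ).map (algebraMap ℂ R))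
      ((Shp.eps κ (n + 2)).mat x) =
      (Matrix.fromBlocks (g'.map (algebraMap ℂ R) *
        ((Shp.eps κ n).mat fun q => x (U4_f κ n (Sum.inl q))) *
        (g'.map (algebraMap ℂ R)).transpose) 0 0
        !![0, (algebraMap ℂ R (c 0)) ^ 2 * x (U4_f κ n (Sum.inr 0)); (algebraMap ℂ R (c 0)) ^ 2 * z, 0]).submatrix
      (finSumFinEquiv (m := n) (n := 2)).symm (finSumFinEquiv (m := n) (n := 2)).symm := by
    rw [← U4_block, ← hz]
    have e1 : ((Matrix.fromBlocks g' 0 0 (Matrix.diagonal fun _ : Fin 2 => c 0)).submatrix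
        (finSumFinEquiv (m := n) (n := 2)).symm (finSumFinEquiv (m := n) (n := 2)).symm).map
          (algebraMap ℂ R) =
        (Matrix.fromBlocks (g'.map (algebraMap ℂ R)) 0 0
          (Matrix.diagonal fun _ : Fin 2 => algebraMap ℂ R (c 0))).submatrix
        (finSumFinEquiv (m := n) (n := 2)).symm (finSumFinEquiv (m := n) (n := 2)).symm := by
      rw [← Matrix.submatrix_map, Matrix.fromBlocks_map, Matrix.map_zero _ (map_zero _),
        Matrix.map_zero _ (map_zero _), Matrix.diagonal_map (map_zero _)]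
    rw [e1]
    rfl
  refine ⟨fun p' => ?_, fun i => ?_, fun p hp => ?_⟩
  · have h1 := congrFun (congrFun hact (Fin.castAdd 2 p'.1.1)) (Fin.castAdd 2 p'.1.2)
    rw [Matrix.submatrix_apply, finSumFinEquiv_symm_apply_castAdd,
      finSumFinEquiv_symm_apply_castAdd, Matrix.fromBlocks_apply₁₁] at h1
    exact h1
  · have hi : i = 0 := Subsingleton.elim _ _
    subst hi
    have h1 := congrFun (congrFun hact (Fin.natAdd n 0)) (Fin.natAdd n 1)
    rw [Matrix.submatrix_apply, finSumFinEquiv_symm_apply_natAdd,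
      finSumFinEquiv_symm_apply_natAdd, Matrix.fromBlocks_apply₂₂] at h1
    rw [map_pow]
    exact h1
  · obtain ⟨⟨i, k⟩, hik⟩ := p
    have h1 := congrFun (congrFun hact i) k
    refine Eq.trans (b := _) h1 ?_
    obtain ⟨a, rfl⟩ := (finSumFinEquiv (m := n) (n := 2)).surjective i
    obtain ⟨b, rfl⟩ := (finSumFinEquiv (m := n) (n := 2)).surjective k
    rw [Matrix.submatrix_apply, Equiv.symm_apply_apply, Equiv.symm_apply_apply]
    rcases a with i | i <;> rcases b with k | k
    · exfalso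
      apply hp
      refine ⟨Sum.inl ⟨(i, k), ?_⟩, rfl⟩
      rcases hik with h | ⟨h2, h3⟩
      · exact Or.inl h
      · exact Or.inr ⟨h2, Fin.castAdd_injective n 2 h3⟩
    · rfl
    · rfl
    · rw [Matrix.fromBlocks_apply₂₂]
      fin_cases i <;> fin_cases k
      · rfl
      · exact absurd ⟨Sum.inr 0, rfl⟩ hp
      · exfalso
        rcases hik with h | ⟨-, h3⟩
        · have h4 : n + 1 < n + 0 := h
          omega
        · have h4 : n + 1 = n + 0 := congrArg Fin.val h3
          omega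
      · rfl

end MotMono
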