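import Pool.Agent.Lib.MP_4e5fcd_ag.Ic.TDefs
import Pool.Agent.Lib.MP_4e5fcd_ag.Cl.K0

/-! # IC-U5: splitting off the last row and column of a generic matrix

PROOF. `f (inl (i, k)) = (castSucc i, castSucc k)`, `f (inr 0) = (m, n)` (last, last). Weight of `(i, k)`: `[i = m] - [k = n]`, which is
`0` iff both or none of the equalities hold. `g = blockdiag (g', c 0)`, `h = blockdiag (h', c 0)`. For `x` vanishing at the
positions `(i, n)`, `(m, k)` (`i < m`, `k < n`): the blocks of `g M h` are `g' M' h'`, `0`, `0`, `c 0 * M m n * c 0`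
(`Fin.sum_univ_castSucc`). -/

open MvPolynomial

namespace MotMono

/-- the block matrix -/
private noncomputable def u5_blk {n : ℕ} (g' : Matrix (Fin n) (Fin n) ℂ) (c : ℂ) :
    Matrix (Fin (n + 1)) (Fin (n + 1)) ℂ :=
  (Matrix.fromBlocks g' 0 0 (Matrix.of fun (_ _ : Fin 1) => c)).submatrix
    finSumFinEquiv.symm finSumFinEquiv.symm

private theorem u5_det {n : ℕ} (g' : Matrix (Fin n) (Fin n) ℂ) (c : ℂ) :
    (u5_blk g' c).det = g'.det * c := by
  unfold u5_blk
  rw [Matrix.det_submatrix_equiv_self, Matrix.det_fromBlocks_zero₂₁, Matrix.det_fin_one,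
    Matrix.of_apply]

private theorem u5_symm_castSucc {n : ℕ} (i : Fin n) :
    (finSumFinEquiv (m := n) (n := 1)).symm i.castSucc = Sum.inl i :=
  finSumFinEquiv_symm_apply_castAdd i

private theorem u5_symm_last {n : ℕ} :
    (finSumFinEquiv (m := n) (n := 1)).symm (Fin.last n) = Sum.inr 0 :=
  finSumFinEquiv_symm_apply_natAdd 0

private theorem u5_cc {n : ℕ} (g' : Matrix (Fin n) (Fin n) ℂ) (c : ℂ) (i k : Fin n) :
    u5_blk g' c i.castSucc k.castSucc = g' i k := by
  unfold u5_blk
  rw [Matrix.submatrix_apply, u5_symm_castSucc, u5_symm_castSucc, Matrix.fromBlocks_apply₁₁]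

private theorem u5_cl {n : ℕ} (g' : Matrix (Fin n) (Fin n) ℂ) (c : ℂ) (i : Fin n) :
    u5_blk g' c i.castSucc (Fin.last n) = 0 := by
  unfold u5_blk
  rw [Matrix.submatrix_apply, u5_symm_castSucc, u5_symm_last, Matrix.fromBlocks_apply₁₂,
    Matrix.zero_apply]

private theorem u5_lc {n : ℕ} (g' : Matrix (Fin n) (Fin n) ℂ) (c : ℂ) (i : Fin n) :
    u5_blk g' c (Fin.last n) i.castSucc = 0 := by
  unfold u5_blk
  rw [Matrix.submatrix_apply, u5_symm_castSucc, u5_symm_last, Matrix.fromBlocks_apply₂₁,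
    Matrix.zero_apply]

private theorem u5_ll {n : ℕ} (g' : Matrix (Fin n) (Fin n) ℂ) (c : ℂ) :
    u5_blk g' c (Fin.last n) (Fin.last n) = c := by
  unfold u5_blk
  rw [Matrix.submatrix_apply, u5_symm_last, Matrix.fromBlocks_apply₂₂, Matrix.of_apply]

/-- the positions of the piece -/
private def u5_f (m n : ℕ) : (Shp.gen m n).Idx ⊕ Fin 1 → (Shp.gen (m + 1) (n + 1)).Idx :=
  Sum.elim (fun p : Fin m × Fin n => ((p.1.castSucc, p.2.castSucc) : Fin (m + 1) × Fin (n + 1)))
    (fun _ => ((Fin.last m, Fin.last n) : Fin (m + 1) × Fin (n + 1)))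

private theorem u5_range (m n : ℕ) (i : Fin (m + 1)) (k : Fin (n + 1)) :
    ((i, k) : Fin (m + 1) × Fin (n + 1)) ∈ Set.range (u5_f m n) ↔
      (i = Fin.last m ↔ k = Fin.last n) := by
  constructor
  · rintro ⟨c, hc⟩
    rcases c with q | j
    · have h1 : (q.1.castSucc, q.2.castSucc) = (i, k) := hc
      obtain ⟨h2, h3⟩ := (Prod.mk.injEq _ _ _ _).mp h1
      rw [← h2, ← h3]
      exact ⟨fun h => absurd h (Fin.castSucc_lt_last _).ne,
        fun h => absurd h (Fin.castSucc_lt_last _).ne⟩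
    · have h1 : (Fin.last m, Fin.last n) = (i, k) := hc
      obtain ⟨h2, h3⟩ := (Prod.mk.injEq _ _ _ _).mp h1
      rw [← h2, ← h3]
      exact ⟨fun _ => rfl, fun _ => rfl⟩
  · intro h
    by_cases h1 : i = Fin.last m
    · exact ⟨Sum.inr 0, Prod.ext h1.symm (h.1 h1).symm⟩
    · have h2 : k ≠ Fin.last n := fun h' => h1 (h.2 h')
      obtain ⟨a, rfl⟩ := Fin.exists_castSucc_eq.2 h1
      obtain ⟨b, rfl⟩ := Fin.exists_castSucc_eq.2 h2
      exact ⟨Sum.inl ((a, b) : Fin m × Fin n), rfl⟩

private theorem u5_rR (n : ℕ) (i : Fin (n + 1)) : rR n (i : ℕ) = if i = Fin.last n then 1 else 0 := by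
  unfold rR
  by_cases h : i = Fin.last n
  · rw [if_pos h, if_pos (by rw [h]; rfl)]
  · have h2 : ¬ (i : ℕ) = n := fun h' => h (Fin.ext h')
    rw [if_neg h, if_neg h2]

private theorem u5_act (m n : ℕ) {R : Type} [CommRing R] [Algebra ℂ R]
    (G : Matrix (Fin (m + 1)) (Fin (m + 1)) ℂ) (H : Matrix (Fin (n + 1)) (Fin (n + 1)) ℂ)
    (x : Fin (m + 1) × Fin (n + 1) → R) (h1 : ∀ i : Fin m, x (i.castSucc, Fin.last n) = 0)
    (h2 : ∀ k : Fin n, x (Fin.last m, k.castSucc) = 0) (i : Fin (m + 1)) (k : Fin (n + 1)) :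
    (G.map (algebraMap ℂ R) * (Matrix.of fun i k => x (i, k)) *
      H.map (algebraMap ℂ R)) i k =
      ∑ l : Fin n, (∑ j : Fin m, algebraMap ℂ R (G i j.castSucc) * x (j.castSucc, l.castSucc)) *
        algebraMap ℂ R (H l.castSucc k) +
      algebraMap ℂ R (G i (Fin.last m)) * x (Fin.last m, Fin.last n) *
        algebraMap ℂ R (H (Fin.last n) k) := by
  rw [Matrix.mul_apply, Fin.sum_univ_castSucc]
  congr 1
  · refine Finset.sum_congr rfl fun l _ => ?_
    rw [Matrix.mul_apply, Fin.sum_univ_castSucc]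
    rw [Matrix.of_apply, h2, mul_zero, add_zero]
    rfl
  · rw [Matrix.mul_apply, Fin.sum_univ_castSucc, Finset.sum_eq_zero, zero_add]
    · rfl
    · intro j _
      show _ * x (j.castSucc, Fin.last n) = 0
      rw [h1, mul_zero]

theorem cut_gen (m n : ℕ) :
    Shp.Cut (Shp.gen (m + 1) (n + 1)) (Shp.gen m n) 1 (rR m) (fun k => -rR n k) := by
  refine ⟨u5_f m n, ?_, ?_, ?_⟩
  · rintro (p | i) (q | j) h
    · have h1 : (p.1.castSucc, p.2.castSucc) = (q.1.castSucc, q.2.castSucc) := h
      obtain ⟨h2, h3⟩ := (Prod.mk.injEq _ _ _ _).mp h1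
      exact congrArg Sum.inl (Prod.ext (Fin.castSucc_injective _ h2)
        (Fin.castSucc_injective _ h3))
    · have h1 : (p.1.castSucc, p.2.castSucc) = (Fin.last m, Fin.last n) := h
      obtain ⟨h2, -⟩ := (Prod.mk.injEq _ _ _ _).mp h1
      exact absurd h2 (Fin.castSucc_lt_last _).ne
    · have h1 : (Fin.last m, Fin.last n) = (q.1.castSucc, q.2.castSucc) := h
      obtain ⟨h2, -⟩ := (Prod.mk.injEq _ _ _ _).mp h1
      exact absurd h2.symm (Fin.castSucc_lt_last _).ne
    · exact congrArg Sum.inr (Subsingleton.elim i j)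
  · rintro ⟨i, k⟩
    refine Iff.trans ?_ (u5_range m n i k).symm
    show rR m (i : ℕ) + -rR n (k : ℕ) = 0 ↔ _
    rw [u5_rR, u5_rR]
    split_ifs with h1 h2 h2
    · exact ⟨fun _ => ⟨fun _ => h2, fun _ => h1⟩, fun _ => by norm_num⟩
    · exact ⟨fun h => absurd h (by norm_num), fun h => absurd (h.1 h1) h2⟩
    · exact ⟨fun h => absurd h (by norm_num), fun h => absurd (h.2 h2) h1⟩
    · exact ⟨fun _ => ⟨fun h => absurd h h1, fun h => absurd h h2⟩, fun _ => by norm_num⟩
  · intro g' h' c hg hh hc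
    refine ⟨u5_blk g' (c 0), u5_blk h' (c 0), ?_, ?_, ?_⟩
    · rw [u5_det]
      exact mul_ne_zero hg (hc 0)
    · rw [u5_det]
      exact mul_ne_zero hh (hc 0)
    · intro R _ _ x hx
      have hx1 : ∀ i : Fin m, x ((i.castSucc, Fin.last n) : Fin (m + 1) × Fin (n + 1)) = 0 := by
        intro i
        refine hx _ fun h => ?_
        have h1 := (u5_range m n _ _).1 h
        exact (Fin.castSucc_lt_last _).ne (h1.2 rfl)
      have hx2 : ∀ k : Fin n, x ((Fin.last m, k.castSucc) : Fin (m + 1) × Fin (n + 1)) = 0 := by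
        intro i
        refine hx _ fun h => ?_
        have h1 := (u5_range m n _ _).1 h
        exact (Fin.castSucc_lt_last _).ne (h1.1 rfl)
      have act := u5_act m n (R := R) (u5_blk g' (c 0)) (u5_blk h' (c 0)) x hx1 hx2
      refine ⟨?_, ?_, ?_⟩
      · rintro ⟨i, k⟩
        refine (act i.castSucc k.castSucc).trans ?_
        rw [u5_cl, map_zero, zero_mul, zero_mul, add_zero]
        show _ = ((g'.map (algebraMap ℂ R)) *
          (Matrix.of fun (i : Fin m) (k : Fin n) =>
            x ((i.castSucc, k.castSucc) : Fin (m + 1) × Fin (n + 1))) *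
              (h'.map (algebraMap ℂ R))) i k
        rw [Matrix.mul_apply]
        refine Finset.sum_congr rfl fun l _ => ?_
        rw [Matrix.mul_apply, Matrix.map_apply, u5_cc]
        refine congrArg (fun t => t * _) (Finset.sum_congr rfl fun j _ => ?_)
        rw [Matrix.map_apply, u5_cc]
        rfl
      · intro j
        obtain rfl : j = 0 := Subsingleton.elim _ _
        refine (act (Fin.last m) (Fin.last n)).trans ?_
        rw [Finset.sum_eq_zero, zero_add, u5_ll, u5_ll]
        · show algebraMap ℂ R (c 0) * x ((Fin.last m, Fin.last n) : Fin (m + 1) × Fin (n + 1)) *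
            algebraMap ℂ R (c 0) = algebraMap ℂ R (c 0 ^ 2) *
              x ((Fin.last m, Fin.last n) : Fin (m + 1) × Fin (n + 1))
          rw [map_pow]
          ring
        · intro l _
          rw [u5_cl, map_zero, mul_zero]
      · rintro ⟨i, k⟩ hp'
        have hp : ¬ (i = Fin.last m ↔ k = Fin.last n) := fun h => hp' ((u5_range m n i k).2 h)
        refine (act i k).trans ?_
        by_cases h1 : i = Fin.last m
        · have h2 : k ≠ Fin.last n := fun h' => hp ⟨fun _ => h', fun _ => h1⟩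
          obtain ⟨b, rfl⟩ := Fin.exists_castSucc_eq.2 h2
          rw [u5_lc, map_zero, mul_zero, add_zero]
          refine Finset.sum_eq_zero fun l _ => ?_
          rw [Finset.sum_eq_zero, zero_mul]
          intro j _
          rw [h1, u5_lc, map_zero, zero_mul]
        · have h2 : k = Fin.last n := by
            by_contra h2
            exact hp ⟨fun h => absurd h h1, fun h => absurd h h2⟩
          obtain ⟨a, rfl⟩ := Fin.exists_castSucc_eq.2 h1
          rw [u5_cl, map_zero, zero_mul, zero_mul, add_zero]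
          refine Finset.sum_eq_zero fun l _ => ?_
          rw [h2, u5_cl, map_zero, mul_zero]

end MotMono
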