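import Pool.Agent.Lib.MP_4e5fcd_ag.Ic.TDefs
import Pool.Agent.Lib.MP_4e5fcd_ag.Cl.N0

/-! # IC-V0: families of symmetric matrices with distinct exponents

PROOF. For `τ = eps true n` with `b i ≠ 0` for `0 < i < n` no two indices are partners: `¬ lpp true b n j` (it contains
`b (j + 1) = 0`, `j + 1 < n`), so `unq true b n j ↔ j < n`, `twp = 0`, `isC p ↔ p.1.2 = p.1.1`, and `Yt b x = mat x`. In a shape with
`row = 0` there are no positions (`Idx` is empty; cases of the shape) and no rows, `rk = 0`. `str_FPS`: unfold `FPS`, `dgP`, `FP`,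
`dgI` (`st = 1`: `x / 1 = x`, `x % 1 = 0`). `DU_eq`: `crvS e u 1 = FPS e u (C 1 * X ^ vv) = dgP e (X ^ mue)` and
`dgP` commutes with the coercion to power series (`Shp.dgI_map` with `Polynomial.coeToPowerSeries.ringHom`). `Yt_pattern`:
the entries of `mat x` are `0` or `± x p` with `{i, k} = {pr p, pc p}`. -/

open MvPolynomial

namespace MotMono

private theorem V0_lpp (b : ℕ → ℕ) (n : ℕ) (hb : ∀ i, 0 < i → i < n → b i ≠ 0) (j : ℕ) :
    ¬ lpp true b n j := by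
  intro h
  unfold lpp at h
  rw [if_pos rfl] at h
  exact hb (j + 1) (Nat.succ_pos j) h.1 h.2.2

private theorem V0_unq (b : ℕ → ℕ) (n : ℕ) (hb : ∀ i, 0 < i → i < n → b i ≠ 0) (j : ℕ)
    (hj : j < n) : unq true b n j :=
  ⟨hj, V0_lpp b n hb j, fun h => V0_lpp b n hb (j - 1) h.2⟩

private theorem V0_twp (b : ℕ → ℕ) (n : ℕ) (hb : ∀ i, 0 < i → i < n → b i ≠ 0) (j : ℕ) :
    twp true b n j = 0 := by
  unfold twp
  rw [if_neg (V0_lpp b n hb j), if_neg (fun h => V0_lpp b n hb (j - 1) h.2)]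

private theorem V0_rk (n : ℕ) : (Shp.eps true n).rk = n := by
  show n / (if true = true then 1 else 2) = n
  rw [if_pos rfl, Nat.div_one]

private theorem V0_st (n : ℕ) : (Shp.eps true n).st = 1 := by
  show (if true = true then 1 else 2) = 1
  rw [if_pos rfl]

private theorem V0_om {τ : Shp} (hτ : τ.row = 0 ∨ ∃ n, τ = Shp.eps true n)
    (b : ℕ → ℕ) (hb : ∀ i, 0 < i → i < τ.rk → b i ≠ 0) (p : τ.Idx) : τ.om b p = 0 := by
  rcases hτ with h0 | ⟨n, rfl⟩
  · exact absurd (lt_of_lt_of_eq (τ.pr p).2 h0) (Nat.not_lt_zero _)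
  · rw [V0_rk] at hb
    unfold Shp.om
    show twp true b n _ + twp true b n _ = 0
    rw [V0_twp b n hb, V0_twp b n hb, add_zero]

private theorem V0_FP {τ : Shp} (hτ : τ.row = 0 ∨ ∃ n, τ = Shp.eps true n)
    (b : ℕ → ℕ) (hb : ∀ i, 0 < i → i < τ.rk → b i ≠ 0) {R : Type} [CommRing R] (z : ℕ → R)
    (p : τ.Idx) : τ.FP b z p = τ.dgI z p := by
  rcases hτ with h0 | ⟨n, rfl⟩
  · exact absurd (lt_of_lt_of_eq (τ.pr p).2 h0) (Nat.not_lt_zero _)
  · rw [V0_rk] at hb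
    have h1 : (Shp.eps true n).isC b p ↔
        (((Shp.eps true n).pr p : ℕ) % (Shp.eps true n).st = 0 ∧
          ((Shp.eps true n).pc p : ℕ) + 1 = (Shp.eps true n).pr p + (Shp.eps true n).st) := by
      rw [V0_st, Nat.mod_one]
      show (lpp true b n p.1.1 ∧ (p.1.2 : ℕ) = p.1.1 + 1) ∨
        (unq true b n p.1.1 ∧ (p.1.2 : ℕ) = p.1.1) ↔ 0 = 0 ∧ (p.1.2 : ℕ) + 1 = p.1.1 + 1
      constructor
      · rintro (h | h)
        · exact absurd h.1 (V0_lpp b n hb _)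
        · exact ⟨rfl, by rw [h.2]⟩
      · rintro ⟨-, h⟩
        exact Or.inr ⟨V0_unq b n hb _ p.1.1.2, Nat.succ_injective h⟩
    unfold Shp.FP Shp.dgI
    by_cases h : (Shp.eps true n).isC b p
    · rw [if_pos h, if_pos (h1.1 h), V0_st, Nat.div_one]
    · rw [if_neg h, if_neg (fun h2 => h (h1.2 h2))]

private theorem V0_CR {τ : Shp} (hτ : τ.row = 0 ∨ ∃ n, τ = Shp.eps true n)
    (b : ℕ → ℕ) (hb : ∀ i, 0 < i → i < τ.rk → b i ≠ 0) (i : ℕ) (hi : i < τ.row) : τ.CR b i := by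
  rcases hτ with h0 | ⟨n, rfl⟩
  · rw [h0] at hi
    exact absurd hi (Nat.not_lt_zero _)
  · rw [V0_rk] at hb
    exact Or.inr ⟨rfl, V0_unq b n hb _ hi⟩

private theorem V0_vv {τ : Shp} (hτ : τ.row = 0 ∨ ∃ n, τ = Shp.eps true n)
    (b : ℕ → ℕ) (i : ℕ) (hi : i < τ.row) : τ.vv b i = mue b i := by
  rcases hτ with h0 | ⟨n, rfl⟩
  · rw [h0] at hi
    exact absurd hi (Nat.not_lt_zero _)
  · unfold Shp.vv
    rw [V0_st, Nat.div_one]

theorem row_of_sym {τ : Shp} (hτ : τ.row = 0 ∨ ∃ n, τ = Shp.eps true n) : τ.rk = τ.row := by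
  rcases hτ with h0 | ⟨n, rfl⟩
  · cases τ with
    | gen m n => rfl
    | eps κ n =>
      have h1 : n = 0 := h0
      subst h1
      show 0 / _ = 0
      exact Nat.zero_div _
  · exact V0_rk n

theorem Yt_pattern {R : Type} [CommRing R] {τ : Shp} (hτ : τ.row = 0 ∨ ∃ n, τ = Shp.eps true n)
    (b : ℕ → ℕ) (hb : ∀ i, 0 < i → i < τ.rk → b i ≠ 0) (x : τ.Idx → R) (v : ℕ → ℤ)
    (hx : ∀ p : τ.Idx, v (τ.pr p) + v (τ.pc p) ≠ 0 → x p = 0) (i k : Fin τ.row)
    (hik : v i + v k ≠ 0) : τ.Yt b x i k = 0 := by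
  rcases hτ with h0 | ⟨n, rfl⟩
  · exact absurd (lt_of_lt_of_eq i.2 h0) (Nat.not_lt_zero _)
  · rw [V0_rk] at hb
    have hm : (Shp.eps true n).mat x i k = 0 := by
      unfold Shp.mat
      dsimp only
      by_cases h1 : i < k
      · rw [dif_pos h1]
        refine hx _ ?_
        exact hik
      · rw [dif_neg h1]
        by_cases h2 : k < i
        · rw [dif_pos h2, if_pos rfl, one_mul]
          refine hx _ ?_
          rw [add_comm] at hik
          exact hik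
        · rw [dif_neg h2, dif_pos rfl]
          refine hx _ ?_
          exact hik
    unfold Shp.Yt
    dsimp only
    by_cases hik' : i = k
    · subst hik'
      rw [if_pos rfl, dif_neg (V0_lpp b n hb _), if_pos ⟨rfl, V0_unq b n hb _ i.2⟩]
      exact hm
    · rw [if_neg hik', if_pos ⟨V0_unq b n hb _ i.2, V0_unq b n hb _ k.2⟩]
      exact hm

variable {s N : ℕ} {σ : Fin s → Shp}

theorem str_omS (hS : SymFam σ) {u : (Σ a, Fin (σ a).rk) → ℕ} (hu : Strict u)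
    (e : (Σ a, (σ a).Idx) ≃ Fin N) (i : Fin N) : omS e u i = 0 := by
  exact V0_om (hS _) _ (hu _) _

theorem str_FPS (hS : SymFam σ) {u : (Σ a, Fin (σ a).rk) → ℕ} (hu : Strict u)
    (e : (Σ a, (σ a).Idx) ≃ Fin N) {R : Type} [CommRing R] (z : Fin s → ℕ → R) :
    FPS e u z = dgP e z := by
  funext x
  exact V0_FP (hS _) _ (hu _) _ _

theorem str_CRS (hS : SymFam σ) {u : (Σ a, Fin (σ a).rk) → ℕ} (hu : Strict u)
    (c : Σ a, Fin (σ a).row) : CRS u c := by
  exact V0_CR (hS _) _ (hu _) _ c.2.2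

theorem str_vS (hS : SymFam σ) (u : (Σ a, Fin (σ a).rk) → ℕ) (c : Σ a, Fin (σ a).row) :
    vS u c = mue (bS u c.1) c.2 := by
  exact V0_vv (hS _) _ _ c.2.2

theorem str_DU (hS : SymFam σ) {u : (Σ a, Fin (σ a).rk) → ℕ} (hu : Strict u)
    (e : (Σ a, (σ a).Idx) ≃ Fin N) :
    (fun i => ((crvS e u 1 i : Polynomial ℂ) : PowerSeries ℂ)) = DU e u := by
  funext x
  unfold crvS
  rw [str_FPS hS hu]
  unfold DU dgP ptS
  generalize e.symm x = q
  obtain ⟨a, p⟩ := q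
  show (((σ a).dgI (fun i => Polynomial.C 1 * Polynomial.X ^ (σ a).vv (bS u a) i) p :
    Polynomial ℂ) : PowerSeries ℂ) = (σ a).dgI (fun i => PowerSeries.X ^ mue (bS u a) i) p
  unfold Shp.dgI
  by_cases h : ((σ a).pr p : ℕ) % (σ a).st = 0 ∧ ((σ a).pc p : ℕ) + 1 = (σ a).pr p + (σ a).st
  · rw [if_pos h, if_pos h]
    have h1 : ((σ a).pr p : ℕ) / (σ a).st < (σ a).row :=
      lt_of_le_of_lt (Nat.div_le_self _ _) ((σ a).pr p).2
    dsimp only
    rw [V0_vv (hS a) _ _ h1, map_one, one_mul, Polynomial.coe_pow, Polynomial.coe_X]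
  · rw [if_neg h, if_neg h, Polynomial.coe_zero]

/-- extension of the sum over the invariant factors to the rows -/
theorem sum_row {R : Type} [CommRing R] (hS : SymFam σ) (β : (Σ a, Fin (σ a).rk) → ℕ)
    (y : Fin s → ℕ → R) :
    ∑ c : (Σ a, Fin (σ a).row), (kx β c.1 c.2 : R) * y c.1 c.2 =
      ∑ c : (Σ a, Fin (σ a).rk), (β c : R) * y c.1 c.2 := by
  rw [Fintype.sum_sigma, Fintype.sum_sigma]
  refine Finset.sum_congr rfl fun a _ => ?_
  have h1 : ∀ i : Fin (σ a).rk, β ⟨a, i⟩ = kx β a i := by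
    intro i
    unfold kx
    rw [dif_pos i.2]
  simp only [h1]
  rw [Fin.sum_univ_eq_sum_range (fun i => (kx β a i : R) * y a i),
    Fin.sum_univ_eq_sum_range (fun i => (kx β a i : R) * y a i), row_of_sym (hS a)]

theorem prod_row {R : Type} [CommRing R] (hS : SymFam σ) (β : (Σ a, Fin (σ a).rk) → ℕ)
    (z : Fin s → ℕ → R) :
    ∏ c : (Σ a, Fin (σ a).row), z c.1 c.2 ^ kx β c.1 c.2 =
      ∏ c : (Σ a, Fin (σ a).rk), z c.1 c.2 ^ β c := by
  rw [Fintype.prod_sigma, Fintype.prod_sigma]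
  refine Finset.prod_congr rfl fun a _ => ?_
  have h1 : ∀ i : Fin (σ a).rk, β ⟨a, i⟩ = kx β a i := by
    intro i
    unfold kx
    rw [dif_pos i.2]
  simp only [h1]
  rw [Fin.prod_univ_eq_prod_range (fun i => z a i ^ kx β a i),
    Fin.prod_univ_eq_prod_range (fun i => z a i ^ kx β a i), row_of_sym (hS a)]

end MotMono
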