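import Pool.Agent.Lib.MP_4e5fcd_ag.Ic.V0
import Pool.Agent.Lib.MP_4e5fcd_ag.Cl.E6
import Pool.Agent.Lib.MP_4e5fcd_ag.Cl.P5

/-! # IC-V1: the exponents of the face of a strictly increasing exponent vector

PROOF. `dat0_of_ordAt`: `aeval (DU e u) f` is divisible by `X ^ k` for all `f ∈ J` iff `k ≤ ∑ wtS w c * lam u c = pair (Wf w) u` for all
`w ∈ A` (`dvd_dgP_iff`; `pair_wtw`, compare the proof of `exS_ge` in `Cl/P5.lean`), the same for `k + 1` shows that some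
`w ∈ A` has `pair (Wf w) u = k`; so `minF = k` (`A ≠ ∅`, `Nat.sInf_mem`, `Nat.sInf_le`). `face_dom`: let `i < j` in the `a`-th matrix
with `β (a, i) < β (a, j)`; the swapped `β'` is in `ExS` (`exS_perm`, `Equiv.swap`), so `k ≤ ∑ β' c * lam u c` (`exS_ge`), but
`∑ β' c * lam u c = k - (β (a, j) - β (a, i)) * (lam (a, j) - lam (a, i)) < k` since `lam` is strictly increasing (`hu`).
`face_gens`: by `face_dom` and `Gens` there is `w ∈ A` with `wtS w ≤ β`; `k ≤ ∑ wtS w c * lam u c ≤ ∑ β c * lam u c = k`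
(`exS_ge` for `wtS w ∈ ExS`), so the summands agree. -/

open MvPolynomial

namespace MotMono

variable {s N : ℕ} {σ : Fin s → Shp} {e : (Σ a, (σ a).Idx) ≃ Fin N}
  {J : Ideal (MvPolynomial (Fin N) ℂ)} {A : Finset ((Σ a, Fin (σ a).rk) → ℕ)}
  {u : (Σ a, Fin (σ a).rk) → ℕ} {k : ℕ}

private theorem v1_pair (w u : (Σ a, Fin (σ a).rk) → ℕ) :
    ∑ c, wtS w c * mue (bS u c.1) c.2 =
      pair (Wf (m := fun a => (σ a).rk) w) u := pair_wtw (m := fun a => (σ a).rk) w u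

private theorem v1_mono (b : ℕ → ℕ) (i j : ℕ) (hij : i ≤ j) : mue b i ≤ mue b j :=
  Finset.sum_le_sum_of_subset (Finset.range_subset_range.2 (by omega))

private theorem v1_strict (b : ℕ → ℕ) (i j : ℕ) (hij : i < j) (hb : b j ≠ 0) :
    mue b i < mue b j := by
  have h1 : mue b j = mue b (j - 1) + b j := by
    obtain ⟨k, rfl⟩ : ∃ k, j = k + 1 := ⟨j - 1, by omega⟩
    unfold mue
    rw [Finset.sum_range_succ]
    rfl
  have h2 := v1_mono b i (j - 1) (by omega)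
  omega

private theorem v1_prod (u γ : (Σ a, Fin (σ a).rk) → ℕ) :
    ∏ c : (Σ a, Fin (σ a).rk), ((fun (a : Fin s) (i : ℕ) =>
      (PowerSeries.X : PowerSeries ℂ) ^ mue (bS u a) i) c.1 c.2) ^ γ c =
    (PowerSeries.X : PowerSeries ℂ) ^ ∑ c, γ c * mue (bS u c.1) c.2 := by
  rw [← Finset.prod_pow_eq_pow_sum]
  refine Finset.prod_congr rfl fun c _ => ?_
  rw [← pow_mul, mul_comm]

theorem dat0_of_ordAt (hle : ∀ a, (σ a).Le) (hJ : ShStable σ e J) (hA : Gens σ e J A) (hk : 0 < k)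
    (hO : OrdAt J (DU e u) k) : Dat0 e J A u k := by
  have hchain : ∀ a i j, i ≤ j → (fun (a : Fin s) (i : ℕ) =>
      (PowerSeries.X : PowerSeries ℂ) ^ mue (bS u a) i) a i ∣
      (fun (a : Fin s) (i : ℕ) => (PowerSeries.X : PowerSeries ℂ) ^ mue (bS u a) i) a j :=
    fun a i j hij => pow_dvd_pow _ (v1_mono _ _ _ hij)
  have hiff : ∀ l : ℕ, (∀ f ∈ J, (PowerSeries.X : PowerSeries ℂ) ^ l ∣ aeval (DU e u) f) ↔
      ∀ w ∈ A, l ≤ pair (Wf (m := fun a => (σ a).rk) w) u := by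
    intro l
    have h1 := dvd_dgP_iff e hle J hJ A hA (fun (a : Fin s) (i : ℕ) =>
      (PowerSeries.X : PowerSeries ℂ) ^ mue (bS u a) i) hchain l
    refine h1.trans (forall₂_congr fun w _ => ?_)
    rw [v1_prod, v1_pair]
    exact pow_dvd_pow_iff PowerSeries.X_ne_zero PowerSeries.X_prime.not_isUnit
  have hge := (hiff k).1 hO.1
  have hex : ∃ w ∈ A, pair (Wf (m := fun a => (σ a).rk) w) u = k := by
    by_contra hcon
    push Not at hcon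
    obtain ⟨f, hf, hne⟩ := hO.2
    have h1 := (hiff (k + 1)).2 (fun w hw => by
      have h2 := hge w hw
      have h3 := hcon w hw
      omega) f hf
    exact hne ((PowerSeries.X_pow_dvd_iff.1 h1) k (by omega))
  refine ⟨hle, hJ, hA, hk, ?_⟩
  classical
  obtain ⟨w, hw, hwk⟩ := hex
  refine le_antisymm ?_ ?_
  · refine Nat.sInf_le ⟨Wf (m := fun a => (σ a).rk) w, ?_, hwk⟩
    unfold AW
    exact Finset.mem_image_of_mem _ hw
  · refine le_csInf ⟨k, Wf (m := fun a => (σ a).rk) w, ?_, hwk⟩ ?_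
    · unfold AW
      exact Finset.mem_image_of_mem _ hw
    · rintro l ⟨W, hW, rfl⟩
      unfold AW at hW
      obtain ⟨w', hw', rfl⟩ := Finset.mem_image.1 hW
      exact hge w' hw'

theorem face_dom (h : Dat0 e J A u k) (hu : Strict u) (β : (Σ a, Fin (σ a).rk) → ℕ)
    (hβ : β ∈ ExS σ e J) (hk : ∑ c, β c * lam u c = k) : DomS β := by
  classical
  intro a i j hij
  by_contra hcon
  rw [not_le] at hcon
  have hne : i ≠ j := fun h1 => by rw [h1] at hcon; exact lt_irrefl _ hcon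
  have hlt : (i : ℕ) < j := by
    have h1 : (i : ℕ) ≤ j := hij
    have h2 : (i : ℕ) ≠ j := fun h3 => hne (Fin.ext h3)
    omega
  obtain ⟨π, hπ⟩ : ∃ π : ∀ a, Equiv.Perm (Fin (σ a).rk),
      π = Function.update (fun a => (1 : Equiv.Perm (Fin (σ a).rk))) a (Equiv.swap i j) := ⟨_, rfl⟩
  have hπa : π a = Equiv.swap i j := by rw [hπ, Function.update_self]
  have hπb : ∀ b, b ≠ a → π b = 1 := fun b hb => by rw [hπ, Function.update_of_ne hb]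
  have h1 := exS_perm e (fun a => h.le a) J h.stable β hβ π
  have h2 := exS_ge h _ h1
  have h3 : lam u ⟨a, i⟩ < lam u ⟨a, j⟩ :=
    v1_strict (bS u a) i j hlt (hu a j (by omega) j.2)
  have h4 : ∑ c : (Σ a, Fin (σ a).rk),
      (((β c : ℕ) : ℤ) - (β ⟨c.1, π c.1 c.2⟩ : ℕ)) * (lam u c : ℕ) =
      (((β ⟨a, i⟩ : ℕ) : ℤ) - (β ⟨a, j⟩ : ℕ)) * (lam u ⟨a, i⟩ : ℕ) +
      (((β ⟨a, j⟩ : ℕ) : ℤ) - (β ⟨a, i⟩ : ℕ)) * (lam u ⟨a, j⟩ : ℕ) := by
    rw [Fintype.sum_eq_add (⟨a, i⟩ : Σ a, Fin (σ a).rk) ⟨a, j⟩]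
    · show (((β ⟨a, i⟩ : ℕ) : ℤ) - (β ⟨a, π a i⟩ : ℕ)) * (lam u ⟨a, i⟩ : ℕ) +
        (((β ⟨a, j⟩ : ℕ) : ℤ) - (β ⟨a, π a j⟩ : ℕ)) * (lam u ⟨a, j⟩ : ℕ) = _
      rw [hπa, Equiv.swap_apply_left, Equiv.swap_apply_right]
    · intro h5
      exact hne (eq_of_heq (Sigma.mk.inj h5).2)
    · rintro ⟨b, x⟩ ⟨h5, h6⟩
      show (((β ⟨b, x⟩ : ℕ) : ℤ) - (β ⟨b, π b x⟩ : ℕ)) * (lam u ⟨b, x⟩ : ℕ) = 0
      by_cases hb : b = a
      · subst hb
        have h7 : x ≠ i := fun h8 => h5 (by rw [h8])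
        have h8 : x ≠ j := fun h9 => h6 (by rw [h9])
        rw [hπa, Equiv.swap_apply_of_ne_of_ne h7 h8, sub_self, zero_mul]
      · rw [hπb b hb, Equiv.Perm.one_apply, sub_self, zero_mul]
  have h5 : ∑ c : (Σ a, Fin (σ a).rk),
      (((β c : ℕ) : ℤ) - (β ⟨c.1, π c.1 c.2⟩ : ℕ)) * (lam u c : ℕ) =
      (k : ℤ) - ((∑ c : (Σ a, Fin (σ a).rk), β ⟨c.1, π c.1 c.2⟩ * mue (bS u c.1) c.2 : ℕ) : ℤ) := by
    rw [← hk]
    push_cast
    rw [← Finset.sum_sub_distrib]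
    refine Finset.sum_congr rfl fun c _ => ?_
    unfold lam
    ring
  rw [h5] at h4
  have h6 : (k : ℤ) ≤ ((∑ c : (Σ a, Fin (σ a).rk), β ⟨c.1, π c.1 c.2⟩ * mue (bS u c.1) c.2 : ℕ) : ℤ) := by
    exact_mod_cast h2
  have h7 : (0 : ℤ) < (((β ⟨a, j⟩ : ℕ) : ℤ) - (β ⟨a, i⟩ : ℕ)) := by
    have : ((β ⟨a, i⟩ : ℕ) : ℤ) < (β ⟨a, j⟩ : ℕ) := by exact_mod_cast hcon
    linarith
  have h8 : (0 : ℤ) < ((lam u ⟨a, j⟩ : ℕ) : ℤ) - (lam u ⟨a, i⟩ : ℕ) := by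
    have : ((lam u ⟨a, i⟩ : ℕ) : ℤ) < (lam u ⟨a, j⟩ : ℕ) := by exact_mod_cast h3
    linarith
  have h9 := mul_pos h7 h8
  nlinarith

theorem face_gens (h : Dat0 e J A u k) (hu : Strict u) (β : (Σ a, Fin (σ a).rk) → ℕ)
    (hβ : β ∈ ExS σ e J) (hk : ∑ c, β c * lam u c = k) :
    ∃ w ∈ A, InFace (AW (m := fun a => (σ a).rk) A) u (Wf (m := fun a => (σ a).rk) w) ∧
      ∀ c, lam u c ≠ 0 → wtS w c = β c := by
  classical
  have hdom := face_dom h hu β hβ hk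
  obtain ⟨w, hw, hle⟩ := h.gens.2.2 β hβ hdom
  have h1 : k ≤ ∑ c, wtS w c * lam u c := exS_ge h _ (h.gens.2.1 w hw)
  have h2 : ∀ c ∈ (Finset.univ : Finset (Σ a, Fin (σ a).rk)), wtS w c * lam u c ≤ β c * lam u c :=
    fun c _ => Nat.mul_le_mul_right _ (hle c)
  have h3 : ∑ c, wtS w c * lam u c = ∑ c, β c * lam u c :=
    le_antisymm (Finset.sum_le_sum h2) (by rw [hk]; exact h1)
  have h4 := (Finset.sum_eq_sum_iff_of_le h2).1 h3
  refine ⟨w, hw, ⟨?_, ?_⟩, fun c hc => ?_⟩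
  · unfold AW
    exact Finset.mem_image_of_mem _ hw
  · intro W' hW'
    have h5 : pair (Wf (m := fun a => (σ a).rk) w) u = k := by
      rw [← v1_pair]
      exact h3.trans hk
    rw [h5, ← h.min]
    exact Nat.sInf_le ⟨W', hW', rfl⟩
  · exact Nat.eq_of_mul_eq_mul_right (Nat.pos_of_ne_zero hc) (h4 c (Finset.mem_univ _))

theorem gens_face (h : Dat0 e J A u k) (w : (Σ a, Fin (σ a).rk) → ℕ) (hw : w ∈ A)
    (hf : InFace (AW (m := fun a => (σ a).rk) A) u (Wf (m := fun a => (σ a).rk) w)) :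
    wtS w ∈ ExS σ e J ∧ ∑ c, wtS w c * lam u c = k := by
  classical
  refine ⟨h.gens.2.1 w hw, le_antisymm ?_ (exS_ge h _ (h.gens.2.1 w hw))⟩
  have h1 : ∑ c, wtS w c * lam u c = pair (Wf (m := fun a => (σ a).rk) w) u := v1_pair w u
  rw [h1]
  have hne : {l | ∃ W ∈ AW (m := fun a => (σ a).rk) A, pair W u = l}.Nonempty :=
    ⟨_, _, hf.1, rfl⟩
  obtain ⟨W', hW', hWk⟩ := Nat.sInf_mem hne
  have h2 : pair W' u = k := hWk.trans h.min
  rw [← h2]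
  exact hf.2 W' hW'

end MotMono
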