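import Pool.Agent.Lib.MP_4e5fcd_ag.Ic.V1
import Pool.Agent.Lib.MP_4e5fcd_ag.Cl.N4

/-! # IC-V2: the equations of the face

PROOF. `κ c = kx β c.1 c.2` is in `EF e J u` (`str_FPS`, `prod_row`, `exS_dgR` resp. the definition of `ExS`; `str_CRS`). `ef_hom` (`Cl/L0.lean`)
gives `f ∈ J`, homogeneous for `muwS e u` of the weight `2 * ∑ κ c * vS u c = 2 k` (`str_vS`, `sum_row`), with
`aeval (FPS e u z) f = ∏ z ^ κ` over all algebras. Let `P r` be the polynomials `ldS e u X a r`. For a point `x` with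
`ldS e u x a r ≠ 0` for all `a`, `r ≤ row`: by `eval_quo` (`omS = 0`: `str_omS`) and the above
`eval x f = ∏ c, (Δ (c + 1) / Δ c) ^ κ c` with `Δ r = ldS e u x a r` (`ldS_map` with `eval x`), and by `face_dom`
(`κ` decreasing, `kx β a row = 0`, `Δ 0 = 1`: `ldm_zero`) this is `∏ c, Δ (c + 1) ^ (κ c - κ (c + 1))` (telescoping, product
over the rows of each matrix; induction or `Finset.prod_range_succ`). So the polynomial
`(f - ∏ ldS … ^ …) * ∏ a, ∏ r ≤ row, ldS e u X a r` vanishes at all points (`MvPolynomial.funext`), and the second factor is not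
zero (`ldS_ref_ne`, `Cl/N0.lean`: it does not vanish at the reference point). -/

open MvPolynomial

namespace MotMono

variable {s N : ℕ} {σ : Fin s → Shp} {e : (Σ a, (σ a).Idx) ≃ Fin N}
  {J : Ideal (MvPolynomial (Fin N) ℂ)} {A : Finset ((Σ a, Fin (σ a).rk) → ℕ)}
  {u : (Σ a, Fin (σ a).rk) → ℕ} {k : ℕ}

private theorem V2_tele (Δ : ℕ → ℂ) (κ : ℕ → ℕ) (h0 : Δ 0 = 1) : ∀ n, (∀ r ≤ n, Δ r ≠ 0) →
    (∀ r < n, κ (r + 1) ≤ κ r) →
    ∏ r ∈ Finset.range n, (Δ (r + 1) / Δ r) ^ κ r =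
      Δ n ^ κ n * ∏ r ∈ Finset.range n, Δ (r + 1) ^ (κ r - κ (r + 1)) := by
  intro n
  induction n with
  | zero => intro _ _; simp [h0]
  | succ n ih =>
    intro hΔ hκ
    rw [Finset.prod_range_succ, Finset.prod_range_succ,
      ih (fun r hr => hΔ r (by omega)) (fun r hr => hκ r (by omega))]
    have h1 : Δ n ≠ 0 := hΔ n (by omega)
    have h2 : Δ (n + 1) ^ κ n = Δ (n + 1) ^ κ (n + 1) * Δ (n + 1) ^ (κ n - κ (n + 1)) := by
      rw [← pow_add, Nat.add_sub_cancel' (hκ n (by omega))]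
    rw [div_pow, h2]
    field_simp

theorem lead_eq (h : Dat0 e J A u k) (hS : SymFam σ) (hu : Strict u)
    (β : (Σ a, Fin (σ a).rk) → ℕ) (hβ : β ∈ ExS σ e J) (hk : ∑ c, β c * lam u c = k) :
    ∃ f ∈ J, (∀ {R : Type} [CommRing R] [Algebra ℂ R] (z : Fin s → ℕ → R),
        aeval (dgP e z) f = ∏ c : (Σ a, Fin (σ a).rk), z c.1 c.2 ^ β c) ∧
      f = ∏ c : (Σ a, Fin (σ a).row),
        ldS e u (fun i => (X i : MvPolynomial (Fin N) ℂ)) c.1 (c.2 + 1) ^
          (kx β c.1 c.2 - kx β c.1 (c.2 + 1)) := by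
  classical
  have hdom : DomS β := face_dom h hu β hβ hk
  have hrr : ∀ a, (σ a).rk = (σ a).row := fun a => row_of_sym (hS a)
  -- the exponents of the rows
  have hκ : (fun c : (Σ a, Fin (σ a).row) => kx β c.1 c.2) ∈ EF e J u := by
    refine ⟨fun c hc => absurd (str_CRS hS hu c) hc, ?_⟩
    obtain ⟨f, hf, hev⟩ := hβ
    refine ⟨f, hf, fun z => ?_⟩
    rw [str_FPS hS hu e z, hev, ← prod_row hS β z]
  obtain ⟨f, hf, hw, hev⟩ := ef_hom e J h.stable u _ hκ
  have hsum : ∑ c : (Σ a, Fin (σ a).row), kx β c.1 c.2 * vS u c = k := by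
    have h1 := sum_row (R := ℤ) hS β fun a i => (mue (bS u a) i : ℤ)
    have h2 : ((∑ c : (Σ a, Fin (σ a).row), kx β c.1 c.2 * vS u c : ℕ) : ℤ) = (k : ℤ) := by
      rw [← hk]
      push_cast
      refine Eq.trans (Finset.sum_congr rfl fun c _ => ?_) (h1.trans ?_)
      · rw [str_vS hS u c]
      · rfl
    exact_mod_cast h2
  rw [hsum] at hw
  refine ⟨f, hf, fun {R} _ _ z => ?_, ?_⟩
  · rw [← str_FPS hS hu e z, hev, prod_row hS β z]
  -- the equation
  have hX : ∀ (x : Fin N → ℂ) (a : Fin s) (r : ℕ),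
      eval x (ldS e u (fun i => (X i : MvPolynomial (Fin N) ℂ)) a r) = ldS e u x a r := by
    intro x a r
    rw [← ldS_map (eval x) e u (fun i => (X i : MvPolynomial (Fin N) ℂ)) a r]
    congr 1
    funext i
    rw [eval_X]
  set Q : MvPolynomial (Fin N) ℂ := ∏ a : Fin s, ∏ r ∈ Finset.range ((σ a).row + 1),
    ldS e u (fun i => (X i : MvPolynomial (Fin N) ℂ)) a r with hQ
  have hQe : ∀ x : Fin N → ℂ, eval x Q =
      ∏ a : Fin s, ∏ r ∈ Finset.range ((σ a).row + 1), ldS e u x a r := by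
    intro x
    rw [hQ, map_prod]
    refine Finset.prod_congr rfl fun a _ => ?_
    rw [map_prod]
    exact Finset.prod_congr rfl fun r _ => hX x a r
  have hQ0 : Q ≠ 0 := by
    intro h0
    have h1 := hQe (FPS e u fun _ _ => 1)
    rw [h0, map_zero] at h1
    refine absurd h1.symm (Finset.prod_ne_zero_iff.2 fun a _ =>
      Finset.prod_ne_zero_iff.2 fun r hr => ?_)
    exact ldS_ref_ne e h.le u 1 one_ne_zero a r (by
      have := Finset.mem_range.1 hr
      omega)
  have hkx : ∀ a, ∀ r < (σ a).row, kx β a (r + 1) ≤ kx β a r := by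
    intro a r hr
    unfold kx
    by_cases h1 : r + 1 < (σ a).rk
    · rw [dif_pos h1, dif_pos (by omega : r < (σ a).rk)]
      exact hdom a ⟨r, by omega⟩ ⟨r + 1, h1⟩ (Fin.mk_le_mk.2 (by omega))
    · rw [dif_neg h1]
      exact Nat.zero_le _
  have hkx0 : ∀ a, kx β a (σ a).row = 0 := by
    intro a
    unfold kx
    rw [dif_neg (by rw [hrr a]; exact lt_irrefl _)]
  have key : (f - ∏ c : (Σ a, Fin (σ a).row),
      ldS e u (fun i => (X i : MvPolynomial (Fin N) ℂ)) c.1 (c.2 + 1) ^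
        (kx β c.1 c.2 - kx β c.1 (c.2 + 1))) * Q = 0 := by
    apply MvPolynomial.funext
    intro x
    rw [map_mul, map_zero, mul_eq_zero, map_sub]
    by_cases hx : eval x Q = 0
    · exact Or.inr hx
    left
    rw [hQe, ← ne_eq, Finset.prod_ne_zero_iff] at hx
    have hΔ : ∀ a, ∀ r ≤ (σ a).row, ldS e u x a r ≠ 0 := by
      intro a r hr
      exact (Finset.prod_ne_zero_iff.1 (hx a (Finset.mem_univ a))) r
        (Finset.mem_range.2 (by omega))
    have h1 := eval_quo h x (fun i _ => str_omS hS hu e i) hΔ f hf (2 * k) le_rfl hw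
    rw [if_pos rfl] at h1
    have h2 := hev (R := ℂ) fun a r => ldS e u x a (r + 1) / ldS e u x a r
    rw [aeval_eq_eval] at h2
    have h3 : eval (FPS e u fun a r => ldS e u x a (r + 1) / ldS e u x a r) f =
        ∏ c : (Σ a, Fin (σ a).row),
          (ldS e u x c.1 (c.2 + 1) / ldS e u x c.1 c.2) ^ kx β c.1 c.2 := h2
    rw [h1, h3, map_prod, sub_eq_zero, Fintype.prod_sigma, Fintype.prod_sigma]
    refine Finset.prod_congr rfl fun a _ => ?_
    have h4 := V2_tele (fun r => ldS e u x a r) (fun r => kx β a r) (ldm_zero _) (σ a).row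
      (fun r hr => hΔ a r hr) (fun r hr => hkx a r hr)
    simp only [hkx0, pow_zero, one_mul, Finset.prod_range] at h4
    rw [h4]
    refine Finset.prod_congr rfl fun r _ => ?_
    rw [map_pow, hX]
  rcases mul_eq_zero.1 key with h1 | h1
  · exact sub_eq_zero.1 h1
  · exact absurd h1 hQ0

end MotMono
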