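import Pool.Agent.Lib.MP_4e5fcd_ag.Ic.V2
import Pool.Agent.Lib.MP_4e5fcd_ag.Ic.G3
import Pool.Agent.Lib.MP_4e5fcd_ag.Ic.G6
import Pool.Agent.Lib.MP_4e5fcd_ag.Cl.E4

/-! # IC-V3: one-parameter groups which act on the contact jets without fixed points

PROOF. `sum_zero_of_ldm`: `ldm M r ≠ 0` is the determinant of the leading submatrix; by `Matrix.det_apply` there is a
permutation `π` of `Fin r` with `M i (π i) ≠ 0` (or `M (π i) i`) for all `i`, so `v i + v (π i) = 0`; the sum over `i` is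
`2 * ∑ v i = 0` (`Equiv.sum_comp`). `tame_torus`: `n = 1`, `c = 0`. Let `w = wS e (zx v) (zx v)`, `Inv J … w` by `inv_face`
(`lm a i = mue (bS u a) i`, `pw c = 2 v c`, since `st = 1` for symmetric matrices and in the other shapes `rk = 0`). By
`chi_CS_fix` it suffices that no `γ ∈ CS J p y d` vanishes at all coordinates `c` with `w c.1 ≠ 0`. Choose `A` (`exists_gensS`:
`J ≠ ⊥` by `hO`), `Dat0` (`dat0_of_ordAt`). Let `c` with `lam u c > 0` and `β` from `hvis` for `c`, `f` from `lead_eq`. `y f = 1`: `yv k (DU e u) f =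
coeff k (∏ X ^ (mue * β)) = 1`. So `(along f γ).coeff d = 1` and `along f γ ≠ 0`; by the formula for `f` (`ldS_map` with
`aeval (arc γ)`) the factor of `c` is not `0`, and its exponent is not `0` (`β` is decreasing, `kx β (c + 1) ≠ kx β c`), so
`ldS e u (arc γ) c.1 (c.2 + 1) ≠ 0`. By `Yt_pattern` and `sum_zero_of_ldm` `∑ i ≤ c.2, zx v c.1 i = 0`. This holds for all `c` with
`lam u c > 0`; if `lam u (a, 0) = 0` then `v (a, 0) = 0` (`hv0`); so all partial sums vanish and `v = 0`. -/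

open MvPolynomial

namespace MotMono

theorem sum_zero_of_ldm {R : Type} [CommRing R] {n : ℕ} (M : Matrix (Fin n) (Fin n) R) (v : ℕ → ℤ)
    (hM : ∀ i k : Fin n, v i + v k ≠ 0 → M i k = 0) (r : ℕ) (h : ldm M r ≠ 0) :
    ∑ i ∈ Finset.range r, v i = 0 := by
  unfold ldm at h
  by_cases hr : r ≤ n
  · rw [dif_pos hr, Matrix.det_apply] at h
    obtain ⟨π, -, hπ⟩ := Finset.exists_ne_zero_of_sum_ne_zero h
    have h1 : ∀ i : Fin r, v (π i) + v i = 0 := by
      intro i
      by_contra hne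
      apply hπ
      have h2 : M (Fin.castLE hr (π i)) (Fin.castLE hr i) = 0 := hM _ _ (by simpa using hne)
      have h3 : ∏ i : Fin r, M.submatrix (Fin.castLE hr) (Fin.castLE hr) (π i) i = 0 :=
        Finset.prod_eq_zero (Finset.mem_univ i) h2
      rw [h3, smul_zero]
    have h2 : ∑ i : Fin r, v (π i) = ∑ i : Fin r, v i :=
      Equiv.sum_comp π fun i : Fin r => v i
    have h3 : ∑ i : Fin r, (v (π i) + v i) = 0 := Finset.sum_eq_zero fun i _ => h1 i
    rw [Finset.sum_add_distrib, h2] at h3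
    rw [Finset.sum_range]
    omega
  · rw [dif_neg hr] at h
    exact absurd rfl h

variable {s N : ℕ} {σ : Fin s → Shp}

/-- extension by zero -/
def zx (v : (Σ a, Fin (σ a).rk) → ℤ) (a : Fin s) (i : ℕ) : ℤ :=
  if h : i < (σ a).rk then v ⟨a, ⟨i, h⟩⟩ else 0

private theorem V3_zx (v : (Σ a, Fin (σ a).rk) → ℤ) (c : Σ a, Fin (σ a).rk) :
    zx v c.1 c.2 = v c := by
  unfold zx
  rw [dif_pos c.2.2]

private theorem V3_st (hS : SymFam σ) (c : Σ a, Fin (σ a).rk) : (σ c.1).st = 1 := by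
  rcases hS c.1 with h | ⟨n, h⟩
  · have h1 := row_of_sym (hS c.1)
    have h2 := c.2.2
    omega
  · rw [h]
    rfl

private theorem V3_pw (hS : SymFam σ) (v : (Σ a, Fin (σ a).rk) → ℤ) (c : Σ a, Fin (σ a).rk) :
    pw σ (zx v) (zx v) c = 2 * v c := by
  unfold pw
  rw [V3_st hS c, one_mul, Nat.add_sub_cancel, V3_zx]
  ring

private theorem V3_yv (e : (Σ a, (σ a).Idx) ≃ Fin N) (u : (Σ a, Fin (σ a).rk) → ℕ) (k : ℕ)
    (β : (Σ a, Fin (σ a).rk) → ℕ) (hk : ∑ c, β c * lam u c = k) (f : MvPolynomial (Fin N) ℂ)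
    (hf : ∀ {R : Type} [CommRing R] [Algebra ℂ R] (z : Fin s → ℕ → R),
        aeval (dgP e z) f = ∏ c : (Σ a, Fin (σ a).rk), z c.1 c.2 ^ β c) :
    yv k (DU e u) f = 1 := by
  unfold yv DU
  rw [hf]
  have h1 : ∏ c : (Σ a, Fin (σ a).rk),
      ((PowerSeries.X : PowerSeries ℂ) ^ mue (bS u c.1) c.2) ^ β c = PowerSeries.X ^ k := by
    rw [← hk, ← Finset.prod_pow_eq_pow_sum]
    refine Finset.prod_congr rfl fun c _ => ?_
    rw [← pow_mul, mul_comm]
    rfl
  rw [h1, PowerSeries.coeff_X_pow_self]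

theorem tame_torus (hle : ∀ a, (σ a).Le) (e : (Σ a, (σ a).Idx) ≃ Fin N)
    (J : Ideal (MvPolynomial (Fin N) ℂ)) (hJ : ShStable σ e J) (hS : SymFam σ)
    (u : (Σ a, Fin (σ a).rk) → ℕ) (hu : Strict u) (k : ℕ) (hk : 0 < k) (hO : OrdAt J (DU e u) k)
    (hvis : AllVis e J u k) (v : (Σ a, Fin (σ a).rk) → ℤ) (hne : v ≠ 0)
    (hv0 : ∀ c, lam u c = 0 → v c = 0)
    (hvf : ∀ β ∈ ExS σ e J, ∑ c, β c * lam u c = k → ∑ c, (β c : ℤ) * v c = 0) :
    Tame J (p0 (DU e u)) (yv k (DU e u)) := by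
  classical
  have hinv : Inv J (p0 (DU e u)) (yv k (DU e u)) (wS e (zx v) (zx v)) := by
    refine inv_face e J hJ (zx v) (zx v) (fun a κ n _ => rfl) (fun a i => mue (bS u a) i) k ?_ ?_
    · intro β hβ hs
      have h1 := hvf β hβ hs
      have h2 : ∑ c, (β c : ℤ) * pw σ (zx v) (zx v) c = 2 * ∑ c, (β c : ℤ) * v c := by
        rw [Finset.mul_sum]
        refine Finset.sum_congr rfl fun c _ => ?_
        rw [V3_pw hS]
        ring
      rw [h2, h1, mul_zero]
    · intro c hc
      rw [V3_pw hS, hv0 c hc, mul_zero]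
  have hJne : J ≠ ⊥ := by
    obtain ⟨f, hf, hf0⟩ := hO.2
    rintro rfl
    rw [Ideal.mem_bot] at hf
    rw [hf, map_zero, map_zero] at hf0
    exact hf0 rfl
  obtain ⟨A, hA⟩ := exists_gensS e hle J hJ hJne
  have hD := dat0_of_ordAt hle hJ hA hk hO
  refine ⟨1, 0, Nat.one_pos, fun χ hχ d hd => ?_⟩
  rw [chi_CS_fix χ hχ J _ _ _ hinv d hd]
  have he : {γ | γ ∈ CS J (p0 (DU e u)) (yv k (DU e u)) d ∧
      ∀ c : Fin N × Fin (d + 1), wS e (zx v) (zx v) c.1 ≠ 0 → γ c = 0} = ∅ := by
    rw [Set.eq_empty_iff_forall_notMem]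
    rintro γ ⟨hγ, hfix⟩
    apply hne
    -- partial sums
    have hps : ∀ c : (Σ a, Fin (σ a).rk), 0 < lam u c →
        ∑ i ∈ Finset.range ((c.2 : ℕ) + 1), zx v c.1 i = 0 := by
      intro c hc
      obtain ⟨β, hβ, hβk, hβc⟩ := hvis c hc
      obtain ⟨f, hf, hf1, hf2⟩ := lead_eq hD hS hu β hβ hβk
      have hyf : yv k (DU e u) f = 1 := V3_yv e u k β hβk f hf1
      have hal : along f γ ≠ 0 := by
        intro h0
        have h1 := (hγ.2 f hf).2
        rw [h0, Polynomial.coeff_zero, hyf] at h1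
        exact zero_ne_one h1
      have hrow := row_of_sym (hS c.1)
      have hprod : along f γ = ∏ c : (Σ a, Fin (σ a).row),
          ldS e u (fun i => arc γ i) c.1 (c.2 + 1) ^
            (kx β c.1 c.2 - kx β c.1 (c.2 + 1)) := by
        unfold along
        conv_lhs => rw [hf2]
        rw [map_prod]
        refine Finset.prod_congr rfl fun c _ => ?_
        rw [map_pow]
        congr 1
        have h2 := ldS_map ((aeval (arc γ) : MvPolynomial (Fin N) ℂ →ₐ[ℂ] Polynomial ℂ) :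
          MvPolynomial (Fin N) ℂ →+* Polynomial ℂ) e u
          (fun i => (X i : MvPolynomial (Fin N) ℂ)) c.1 (c.2 + 1)
        have h3 : (fun i => ((aeval (arc γ) : MvPolynomial (Fin N) ℂ →ₐ[ℂ] Polynomial ℂ) :
          MvPolynomial (Fin N) ℂ →+* Polynomial ℂ) (X i)) = fun i => arc γ i := by
          funext i
          exact aeval_X _ i
        rw [h3] at h2
        exact h2.symm
      rw [hprod] at hal
      have hcr : (c.2 : ℕ) < (σ c.1).row := by rw [← hrow]; exact c.2.2
      have hfac := (Finset.prod_ne_zero_iff.1 hal) ⟨c.1, ⟨c.2, hcr⟩⟩ (Finset.mem_univ _)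
      dsimp only at hfac
      have hdom := face_dom hD hu β hβ hβk
      have hexp : kx β c.1 c.2 - kx β c.1 (c.2 + 1) ≠ 0 := by
        have h1 : kx β c.1 (c.2 + 1) ≤ kx β c.1 c.2 := by
          unfold kx
          rw [dif_pos c.2.2]
          split_ifs with h2
          · exact hdom c.1 ⟨c.2, c.2.2⟩ ⟨c.2 + 1, h2⟩ (by
              rw [Fin.le_def]
              exact Nat.le_succ _)
          · exact Nat.zero_le _
        omega
      have hld : ldS e u (fun i => arc γ i) c.1 (c.2 + 1) ≠ 0 := by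
        intro h0
        rw [h0, zero_pow hexp] at hfac
        exact hfac rfl
      unfold ldS at hld
      refine sum_zero_of_ldm _ (zx v c.1) ?_ _ hld
      intro i k' hik
      refine Yt_pattern (hS c.1) (bS u c.1) (hu c.1) _ (zx v c.1) ?_ i k' hik
      intro p hp
      show arc γ (e ⟨c.1, p⟩) = 0
      unfold arc
      refine Finset.sum_eq_zero fun l _ => ?_
      have hw : wS e (zx v) (zx v) (e ⟨c.1, p⟩) ≠ 0 := by
        unfold wS
        rw [Equiv.symm_apply_apply]
        exact hp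
      rw [hfix (e ⟨c.1, p⟩, l) hw, Polynomial.C_0, zero_mul]
    -- all values vanish
    have hall : ∀ (a : Fin s) (i : ℕ) (hi : i < (σ a).rk), v ⟨a, ⟨i, hi⟩⟩ = 0 := by
      intro a i
      induction i using Nat.strong_induction_on with
      | _ i ih =>
        intro hi
        rcases Nat.eq_zero_or_pos (lam u ⟨a, ⟨i, hi⟩⟩) with h0 | h0
        · exact hv0 _ h0
        · have h1 := hps ⟨a, ⟨i, hi⟩⟩ h0
          dsimp only at h1
          rw [Finset.sum_range_succ] at h1
          have h2 : ∑ j ∈ Finset.range i, zx v a j = 0 := by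
            refine Finset.sum_eq_zero fun j hj => ?_
            have hji : j < i := Finset.mem_range.1 hj
            unfold zx
            rw [dif_pos (hji.trans hi)]
            exact ih j hji (hji.trans hi)
          rw [h2, zero_add] at h1
          unfold zx at h1
          rw [dif_pos hi] at h1
          exact h1
    funext c
    exact hall c.1 c.2 c.2.2
  rw [he, cls_empty, map_zero]
  simp

end MotMono
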