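import Pool.Agent.Lib.MP_4e5fcd_ag.Ic.V1
import Pool.Agent.Lib.MP_4e5fcd_ag.Det.U1

/-! # IC-V4: rays

PROOF. `u ≠ 0`: the minimum `k` is positive. Let `y` be as in `Ext` and let `v c = ∑ i ≤ c.2, y (c.1, i)`. For `w` in the face
`∑ (Wf w) c * y c = ∑ wtS w c * v c` (summation by parts, compare `sum_Wf_mul` (`Det/U1.lean`) and `pair_wtw`), and this is a
constant `κ`. Let `v' = v - (κ / k) * lam u`: `∑ wtS w c * v' c = 0` for all `w` in the face (`gens_face`), and `v' c = 0` if `lam u c = 0`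
(then `u (c.1, i) = 0` for `i ≤ c.2`, so `y = 0` there). For `β ∈ ExS` in the face `∑ β c * v' c = ∑ wtS w c * v' c = 0` for the `w` of
`face_gens`. Multiply `v'` by a common denominator: by `hno` it is `0`, so `v = (κ / k) lam u`, and the differences are
`y = (κ / k) u`. -/

open MvPolynomial

namespace MotMono

variable {s N : ℕ} {σ : Fin s → Shp} {e : (Σ a, (σ a).Idx) ≃ Fin N}
  {J : Ideal (MvPolynomial (Fin N) ℂ)} {A : Finset ((Σ a, Fin (σ a).rk) → ℕ)}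
  {u : (Σ a, Fin (σ a).rk) → ℕ} {k : ℕ}

/-- extension by zero -/
private def V4_x {ι : Fin s → ℕ} (y : (Σ a, Fin (ι a)) → ℚ) (a : Fin s) (i : ℕ) : ℚ :=
  if h : i < ι a then y ⟨a, ⟨i, h⟩⟩ else 0

/-- partial sums -/
private def V4_v {ι : Fin s → ℕ} (y : (Σ a, Fin (ι a)) → ℚ) (a : Fin s) (j : ℕ) : ℚ :=
  ∑ i ∈ Finset.range j, V4_x y a i

private theorem V4_v_eq {ι : Fin s → ℕ} (y : (Σ a, Fin (ι a)) → ℚ) (a : Fin s) (j : Fin (ι a)) :
    V4_v y a (j + 1) = ∑ l : Fin (ι a), if l ≤ j then y ⟨a, l⟩ else 0 := by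
  have h1 : ∑ l : Fin (ι a), (if l ≤ j then y ⟨a, l⟩ else 0) =
      ∑ l ∈ Finset.range (ι a), if l ≤ (j : ℕ) then V4_x y a l else 0 := by
    rw [Finset.sum_range]
    refine Finset.sum_congr rfl fun l _ => ?_
    unfold V4_x
    rw [dif_pos l.2]
    exact if_congr Iff.rfl rfl rfl
  rw [h1, ← Finset.sum_filter]
  unfold V4_v
  refine Finset.sum_congr ?_ fun _ _ => rfl
  ext l
  rw [Finset.mem_range, Finset.mem_filter, Finset.mem_range]
  omega

private theorem V4_count {r : ℕ} (l i : Fin r) :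
    (((i : ℕ) + 1 - (l : ℕ) : ℕ) : ℚ) = ∑ j : Fin r, if l ≤ j ∧ j ≤ i then (1 : ℚ) else 0 := by
  rw [Finset.sum_ite, Finset.sum_const_zero, add_zero, Finset.sum_const, nsmul_eq_mul, mul_one]
  have h1 : (Finset.univ.filter fun j : Fin r => l ≤ j ∧ j ≤ i) = Finset.Icc l i := by
    ext j
    simp
  rw [h1, Fin.card_Icc]

private theorem V4_parts (w : (Σ a, Fin (σ a).rk) → ℕ) (y : (Σ a, Fin (σ a).rk) → ℚ) :
    ∑ c, (Wf (m := fun a => (σ a).rk) w c : ℚ) * y c =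
      ∑ c : (Σ a, Fin (σ a).rk), (wtS w c : ℚ) * V4_v y c.1 (c.2 + 1) := by
  rw [Fintype.sum_sigma, Fintype.sum_sigma]
  refine Finset.sum_congr rfl fun a _ => ?_
  have hL : ∀ l : Fin (σ a).rk, (Wf (m := fun a => (σ a).rk) w ⟨a, l⟩ : ℚ) * y ⟨a, l⟩ =
      ∑ j : Fin (σ a).rk, ∑ i : Fin (σ a).rk,
        if l ≤ j ∧ j ≤ i then (w ⟨a, i⟩ : ℚ) * y ⟨a, l⟩ else 0 := by
    intro l
    change ((∑ i : Fin (σ a).rk, w ⟨a, i⟩ * ((i : ℕ) + 1 - (l : ℕ)) : ℕ) : ℚ) * y ⟨a, l⟩ = _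
    push_cast
    rw [Finset.sum_comm, Finset.sum_mul]
    refine Finset.sum_congr rfl fun i _ => ?_
    rw [V4_count l i, Finset.mul_sum, Finset.sum_mul]
    refine Finset.sum_congr rfl fun j _ => ?_
    split_ifs
    · rw [mul_one]
    · rw [mul_zero, zero_mul]
  have hR : ∀ j : Fin (σ a).rk, (wtS w ⟨a, j⟩ : ℚ) * V4_v y a (j + 1) =
      ∑ l : Fin (σ a).rk, ∑ i : Fin (σ a).rk,
        if l ≤ j ∧ j ≤ i then (w ⟨a, i⟩ : ℚ) * y ⟨a, l⟩ else 0 := by
    intro j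
    change ((∑ i : Fin (σ a).rk, if j ≤ i then w ⟨a, i⟩ else 0 : ℕ) : ℚ) * _ = _
    rw [V4_v_eq]
    push_cast
    rw [Finset.mul_sum]
    refine Finset.sum_congr rfl fun l _ => ?_
    rw [Finset.sum_mul]
    refine Finset.sum_congr rfl fun i _ => ?_
    by_cases h1 : l ≤ j
    · by_cases h2 : j ≤ i
      · rw [if_pos h1, if_pos h2, if_pos ⟨h1, h2⟩]
      · rw [if_neg h2, if_neg (c := l ≤ j ∧ j ≤ i) fun h => h2 h.2, zero_mul]
    · rw [if_neg h1, if_neg (c := l ≤ j ∧ j ≤ i) fun h => h1 h.1, mul_zero]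
  rw [Finset.sum_congr rfl fun l _ => hL l, Finset.sum_comm]
  exact (Finset.sum_congr rfl fun j _ => hR j).symm

private theorem V4_lam (c : Σ a, Fin (σ a).rk) :
    (lam u c : ℚ) = V4_v (fun c => (u c : ℚ)) c.1 (c.2 + 1) := by
  unfold lam mue V4_v
  push_cast
  refine Finset.sum_congr rfl fun i _ => ?_
  unfold V4_x
  show ((if h : i < (σ c.1).rk then u ⟨c.1, ⟨i, h⟩⟩ else 0 : ℕ) : ℚ) = _
  split_ifs with h
  · rfl
  · exact Nat.cast_zero

private theorem V4_den {ι : Type} [Fintype ι] (v : ι → ℚ) :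
    ∃ (D : ℕ) (z : ι → ℤ), 0 < D ∧ ∀ i, (z i : ℚ) = D * v i := by
  classical
  refine ⟨∏ i, (v i).den, fun i => (v i).num * ∏ j ∈ Finset.univ.erase i, ((v j).den : ℤ),
    Finset.prod_pos fun i _ => (v i).den_pos, fun i => ?_⟩
  have h1 : (∏ j, ((v j).den : ℚ)) = ((v i).den : ℚ) * ∏ j ∈ Finset.univ.erase i, ((v j).den : ℚ) :=
    (Finset.mul_prod_erase Finset.univ (fun j => ((v j).den : ℚ)) (Finset.mem_univ i)).symm
  push_cast
  rw [h1]
  have h2 : ((v i).den : ℚ) * v i = (v i).num := by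
    have h3 := Rat.mul_den_eq_num (v i)
    rw [mul_comm]
    exact h3
  rw [mul_right_comm, h2]

theorem ext_of_no_torus (h : Dat0 e J A u k) (hu : Strict u)
    (hno : ∀ v : (Σ a, Fin (σ a).rk) → ℤ, (∀ c, lam u c = 0 → v c = 0) →
      (∀ β ∈ ExS σ e J, ∑ c, β c * lam u c = k → ∑ c, (β c : ℤ) * v c = 0) → v = 0) :
    Ext (AW (m := fun a => (σ a).rk) A) u := by
  have hk : 0 < k := h.pos
  have hmin : 0 < minF (AW (m := fun a => (σ a).rk) A) u := by rw [h.min]; exact hk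
  obtain ⟨w0, hw0, hf0, hp0⟩ := u1_face_nonempty (m := fun a => (σ a).rk) A u hmin
  have hkq : (k : ℚ) ≠ 0 := by exact_mod_cast hk.ne'
  refine ⟨?_, ?_⟩
  · intro hu0
    have h1 : pair (Wf (m := fun a => (σ a).rk) w0) u = 0 := by
      rw [hu0]
      unfold pair
      simp
    rw [h1] at hp0
    omega
  intro y hy0 hyc
  obtain ⟨κ, hκ⟩ : ∃ κ : ℚ, κ = ∑ c, (Wf (m := fun a => (σ a).rk) w0 c : ℚ) * y c := ⟨_, rfl⟩
  obtain ⟨v', hv'⟩ : ∃ v' : (Σ a, Fin (σ a).rk) → ℚ,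
      ∀ c, v' c = V4_v y c.1 (c.2 + 1) - κ / k * lam u c := ⟨_, fun c => rfl⟩
  -- the face is annihilated
  have hface : ∀ w ∈ A, InFace (AW (m := fun a => (σ a).rk) A) u (Wf (m := fun a => (σ a).rk) w) →
      ∑ c, (wtS w c : ℚ) * v' c = 0 := by
    intro w hw hf
    have h1 : ∑ c, (Wf (m := fun a => (σ a).rk) w c : ℚ) * y c = κ := by
      rw [hκ]
      exact hyc _ _ hf hf0
    rw [V4_parts] at h1
    have h2 := (gens_face h w hw hf).2
    have h3 : ∑ c, (wtS w c : ℚ) * (lam u c : ℚ) = k := by exact_mod_cast h2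
    have h4 : ∑ c, (wtS w c : ℚ) * v' c = ∑ c : (Σ a, Fin (σ a).rk),
        (wtS w c : ℚ) * V4_v y c.1 (c.2 + 1) - κ / k * ∑ c, (wtS w c : ℚ) * (lam u c : ℚ) := by
      rw [Finset.mul_sum, ← Finset.sum_sub_distrib]
      refine Finset.sum_congr rfl fun c _ => ?_
      rw [hv']
      ring
    rw [h4, h1, h3]
    field_simp
    ring
  -- the support
  have hsupp : ∀ c, lam u c = 0 → v' c = 0 := by
    intro c hc
    rw [hv', hc, Nat.cast_zero, mul_zero, sub_zero]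
    unfold V4_v
    refine Finset.sum_eq_zero fun i hi => ?_
    unfold V4_x
    split_ifs with h1
    · apply hy0
      have h2 : (∑ l ∈ Finset.range ((c.2 : ℕ) + 1), bS u c.1 l) = 0 := hc
      rw [Finset.sum_eq_zero_iff] at h2
      have h3 := h2 i hi
      have h4 : bS u c.1 i = u ⟨c.1, ⟨i, h1⟩⟩ := dif_pos h1
      rw [h4] at h3
      exact h3
    · rfl
  obtain ⟨D, z, hD, hz⟩ := V4_den v'
  have hDq : (D : ℚ) ≠ 0 := by exact_mod_cast hD.ne'
  have hz0 : z = 0 := by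
    apply hno
    · intro c hc
      have h1 := hz c
      rw [hsupp c hc, mul_zero] at h1
      exact_mod_cast h1
    · intro β hβ hβk
      obtain ⟨w, hw, hf, hwβ⟩ := face_gens h hu β hβ hβk
      have h1 := hface w hw hf
      have h2 : ((∑ c, (β c : ℤ) * z c : ℤ) : ℚ) = 0 := by
        push_cast
        have h3 : ∀ c, (β c : ℚ) * (z c : ℚ) = D * ((wtS w c : ℚ) * v' c) := by
          intro c
          rw [hz c]
          by_cases hc : lam u c = 0
          · rw [hsupp c hc]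
            ring
          · rw [hwβ c hc]
            ring
        rw [Finset.sum_congr rfl fun c _ => h3 c, ← Finset.mul_sum, h1, mul_zero]
      exact_mod_cast h2
  have hv0 : ∀ c, v' c = 0 := by
    intro c
    have h1 := hz c
    rw [hz0] at h1
    have h2 : (D : ℚ) * v' c = 0 := by
      rw [← h1]
      simp
    exact (mul_eq_zero.1 h2).resolve_left hDq
  refine ⟨κ / k, ?_⟩
  have hstep : ∀ (a : Fin s) (j : ℕ), j < (σ a).rk → V4_v y a (j + 1) =
      κ / k * V4_v (fun c => (u c : ℚ)) a (j + 1) := by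
    intro a j hj
    have h1 := hv0 ⟨a, ⟨j, hj⟩⟩
    rw [hv', V4_lam] at h1
    exact sub_eq_zero.1 h1
  rintro ⟨a, i⟩
  have h1 := hstep a i i.2
  have h2 : V4_v y a i = κ / k * V4_v (fun c => (u c : ℚ)) a i := by
    rcases Nat.eq_zero_or_pos (i : ℕ) with h0 | h0
    · rw [h0]
      unfold V4_v
      simp
    · obtain ⟨j, hj⟩ : ∃ j, (i : ℕ) = j + 1 := ⟨i - 1, by omega⟩
      rw [hj]
      exact hstep a j (by have := i.2; omega)
  have h3 : ∀ x : (Σ a, Fin (σ a).rk) → ℚ, V4_v x a ((i : ℕ) + 1) = V4_v x a i + x ⟨a, i⟩ := by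
    intro x
    unfold V4_v
    rw [Finset.sum_range_succ]
    congr 1
    exact dif_pos i.2
  rw [h3, h3, h2] at h1
  linarith

end MotMono
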