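import Pool.Agent.Lib.MP_4e5fcd_ag.Ic.V3
import Pool.Agent.Lib.MP_4e5fcd_ag.Ic.V4
import Pool.Agent.Lib.MP_4e5fcd_ag.Ic.G1
import Pool.Agent.Lib.MP_4e5fcd_ag.Cl.Main

/-! # IC-V5: arcs in normal form of symmetric matrices with distinct exponents

PROOF. If there is `v ≠ 0` as in `tame_torus`, use it. Otherwise choose `A` (`exists_gensS`, `J ≠ ⊥` by `hO`), `Dat0`
(`dat0_of_ordAt`), `Ext` (`ext_of_no_torus`), and `g`, `u'` from `exists_prim` (`Cl/US4.lean`): `u = g u'`, `n₀ = minF u' > 0`,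
`k = g n₀`. `Dat e J A u' n₀`: `DetectedS` is vacuous, since `u' (a, i + 1) ≠ 0` (`Strict`). As in `Cl/Main.lean` (with `δ = 1`) there are a
cone point `y'` of `J` with `y'.φ 1 f = (aeval (crvS e u' 1) f).coeff n₀` for `f ∈ J` (`exists_conePoint_curve`), and `c` with
`χ (cls (contactArcs J _ y' d)) = n₀ c` for `n₀ ∣ d`, `= 0` otherwise (`chi_contact_eq`, `chi_XX`, `gam_card`, `xx_dvd`). Finally
`contactArcs J p y' d = CS J (p0 (DU e u)) (yv k (DU e u)) d`: `p0 (DU e u) = p0 (DU e u') = (crvS e u' 1) (0)` (`X ^ l` has the constant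
coefficient `1` for `l = 0`, else `0`), and `yv k (DU e u) f = (aeval (crvS e u' 1) f).coeff n₀`: `aeval (DU e u) f` is the power series
`aeval (DU e u') f` with `X` replaced by `X ^ g` (coefficient `k = g n₀`; with polynomials: `Polynomial.expand ℂ g`, `str_DU`,
`aeval_coe`). -/

open MvPolynomial

namespace MotMono

variable {s N : ℕ} {σ : Fin s → Shp}

private theorem V5_minF {ι : Type} [Fintype ι] (B : Finset (ι → ℕ)) (u u' : ι → ℕ) (g : ℕ)
    (hg : 0 < g) (hu : ∀ c, u c = g * u' c) (h : 0 < minF B u) : minF B u = g * minF B u' := by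
  have hpair : ∀ W, pair W u = g * pair W u' := by
    intro W
    unfold pair
    rw [Finset.mul_sum]
    refine Finset.sum_congr rfl fun c _ => ?_
    rw [hu c]
    ring
  have hne : B.Nonempty := by
    by_contra hB
    rw [Finset.not_nonempty_iff_eq_empty] at hB
    have h1 : minF B u = 0 := by
      unfold minF
      rw [hB]
      simp
    omega
  obtain ⟨W, hW, hmin⟩ := Finset.exists_min_image B (fun W => pair W u) hne
  have key : ∀ v : ι → ℕ, (∀ W' ∈ B, pair W v ≤ pair W' v) → minF B v = pair W v := by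
    intro v hv
    unfold minF
    refine le_antisymm (Nat.sInf_le ⟨W, hW, rfl⟩) ?_
    refine le_csInf ⟨pair W v, W, hW, rfl⟩ ?_
    rintro k ⟨W', hW', rfl⟩
    exact hv W' hW'
  rw [key u hmin, key u' ?_, hpair]
  intro W' hW'
  have h2 := hmin W' hW'
  rw [hpair, hpair] at h2
  exact Nat.le_of_mul_le_mul_left h2 hg

private theorem V5_bS (u u' : (Σ a, Fin (σ a).rk) → ℕ) (g : ℕ) (hu : ∀ c, u c = g * u' c)
    (a : Fin s) (i : ℕ) : bS u a i = g * bS u' a i := by
  unfold bS part extb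
  split_ifs
  · exact hu _
  · rfl

private theorem V5_crv (hS : SymFam σ) (e : (Σ a, (σ a).Idx) ≃ Fin N)
    (u u' : (Σ a, Fin (σ a).rk) → ℕ) (g : ℕ) (hu : ∀ c, u c = g * u' c) (h1 : Strict u)
    (h2 : Strict u') (i : Fin N) :
    crvS e u 1 i = Polynomial.expand ℂ g (crvS e u' 1 i) := by
  unfold crvS
  rw [str_FPS hS h1, str_FPS hS h2]
  unfold dgP ptS Shp.dgI
  dsimp only
  split_ifs with hc
  · rw [map_mul, Polynomial.expand_C, map_pow, Polynomial.expand_X, ← pow_mul]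
    congr 2
    unfold Shp.vv mue
    rw [Finset.mul_sum]
    exact Finset.sum_congr rfl fun j _ => V5_bS u u' g hu _ j
  · rw [map_zero]

theorem tame_strict (hle : ∀ a, (σ a).Le) (e : (Σ a, (σ a).Idx) ≃ Fin N)
    (J : Ideal (MvPolynomial (Fin N) ℂ)) (hJ : ShStable σ e J) (hS : SymFam σ)
    (u : (Σ a, Fin (σ a).rk) → ℕ) (hu : Strict u) (k : ℕ) (hk : 0 < k) (hO : OrdAt J (DU e u) k)
    (hvis : AllVis e J u k) : Tame J (p0 (DU e u)) (yv k (DU e u)) := by
  classical
  by_cases hno : ∃ v : (Σ a, Fin (σ a).rk) → ℤ, v ≠ 0 ∧ (∀ c, lam u c = 0 → v c = 0) ∧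
      ∀ β ∈ ExS σ e J, ∑ c, β c * lam u c = k → ∑ c, (β c : ℤ) * v c = 0
  · obtain ⟨v, hne, hv0, hvf⟩ := hno
    exact tame_torus hle e J hJ hS u hu k hk hO hvis v hne hv0 hvf
  have hbot : J ≠ ⊥ := by
    rintro rfl
    obtain ⟨f, hf, hne⟩ := hO.2
    rw [Ideal.mem_bot] at hf
    rw [hf, map_zero, map_zero] at hne
    exact hne rfl
  obtain ⟨A, hA⟩ := exists_gensS e hle J hJ hbot
  have h0 : Dat0 e J A u k := dat0_of_ordAt hle hJ hA hk hO
  have hext := ext_of_no_torus h0 hu (fun v hv0 hvf => by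
    by_contra hne
    exact hno ⟨v, hne, hv0, hvf⟩)
  have hposu : 0 < minF (AW (m := fun a => (σ a).rk) A) u := by
    rw [h0.min]; exact hk
  obtain ⟨g, u', hg, hu', hext', hprim, hmin, _, _⟩ := exists_prim A u hext hposu
  have hmm := V5_minF _ u u' g hg hu' hposu
  obtain ⟨n₀, hn₀⟩ : ∃ n₀, minF (AW (m := fun a => (σ a).rk) A) u' = n₀ := ⟨_, rfl⟩
  rw [hn₀] at hmin hmm
  rw [h0.min] at hmm
  have hstr : Strict u' := by
    intro a i hi hi' hz
    apply hu a i hi hi'
    rw [V5_bS u u' g hu', hz, mul_zero]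
  have hdet : DetectedS σ A u' := by
    intro a i _ h hz
    exfalso
    apply hstr a (i + 1) (Nat.succ_pos _) h
    unfold bS part extb
    rw [dif_pos h]
    exact hz
  have h : Dat e J A u' n₀ := { le := hle, stable := hJ, gens := hA, pos := hmin, min := hn₀, ext := hext', det := hdet, prim := hprim }
  have hcrv : crvS e u 1 = fun i => Polynomial.expand ℂ g (crvS e u' 1 i) :=
    funext fun i => V5_crv hS e u u' g hu' hu hstr i
  obtain ⟨y', hy'⟩ := exists_conePoint_curve J (crvS e u' 1) n₀ (crv_lt h 1)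
  obtain ⟨c, hc0, hc⟩ := gam_card h
  have hp : p0 (DU e u) = fun i => (crvS e u' 1 i).eval 0 := by
    funext i
    unfold p0
    rw [← str_DU hS hu e, ← PowerSeries.coeff_zero_eq_constantCoeff_apply, Polynomial.coeff_coe,
      hcrv, ← Polynomial.coeff_zero_eq_eval_zero]
    have h3 := Polynomial.coeff_expand_mul hg (crvS e u' 1 i) 0
    rw [zero_mul] at h3
    exact h3
  have hy : ∀ f ∈ J, yv k (DU e u) f = y'.φ 1 f := by
    intro f hf
    rw [hy' f hf]
    unfold yv
    rw [← str_DU hS hu e, aeval_coe, Polynomial.coeff_coe, hcrv]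
    have h3 : aeval (fun i => Polynomial.expand ℂ g (crvS e u' 1 i)) f =
        Polynomial.expand ℂ g (aeval (crvS e u' 1) f) :=
      (MvPolynomial.comp_aeval_apply (crvS e u' 1) (Polynomial.expand ℂ g) f).symm
    rw [h3, hmm, mul_comm g n₀, Polynomial.coeff_expand_mul hg]
  refine ⟨n₀, c, h.pos, fun χ hχ d hd => ?_⟩
  have hset : CS J (p0 (DU e u)) (yv k (DU e u)) d =
      contactArcs J (fun i => (crvS e u' 1 i).eval 0) y' d := by
    rw [CS_congr hy d, hp]
    rfl
  rw [hset, chi_contact_eq χ hχ h 1 y' hy' d hd]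
  by_cases hdvd : n₀ ∣ d
  · rw [if_pos hdvd, chi_XX χ hχ h 1 one_ne_zero d hdvd, hc]
  · rw [if_neg hdvd]
    have h4 : XX e J u' 1 n₀ d = ∅ := by
      rw [Set.eq_empty_iff_forall_notMem]
      intro x hx
      exact hdvd (xx_dvd h 1 one_ne_zero d x hx)
    rw [h4, cls_empty, map_zero]

end MotMono
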