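import Pool.Agent.Lib.MP_4e5fcd_ag.Ic.G3
import Pool.Agent.Lib.MP_4e5fcd_ag.Ic.U2

/-! # IC-W1: the induction step

PROOF. `fam_cut` gives `σ'`, `e'`, `ι` and the stability of `J.map (rho ι)`; `∑ (σ' b).ms = M - (σ a).ms + τ'.ms + j < M`; `tame_of_sub` with
`w = wS e (one a ra) (one a ca)`, `IH` = the induction hypothesis for `σ'`. -/

open MvPolynomial

namespace MotMono

variable {s N : ℕ} {σ : Fin s → Shp}

theorem tame_step {M : ℕ} (IH : ∀ M' < M, StmtT M') (hle : ∀ a, (σ a).Le)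
    (hM : ∑ a, (σ a).ms = M) (e : (Σ a, (σ a).Idx) ≃ Fin N) (J : Ideal (MvPolynomial (Fin N) ℂ))
    (hJ : ShStable σ e J) (a : Fin s) (τ' : Shp) (j : ℕ) (ra ca : ℕ → ℤ)
    (hc : Shp.Cut (σ a) τ' j ra ca) (hle' : τ'.Le) (hlt : τ'.ms + j < (σ a).ms) (p : Fin N → ℂ)
    (y : MvPolynomial (Fin N) ℂ → ℂ) (hy : ∃ f ∈ J, y f ≠ 0)
    (hinv : Inv J p y (wS e (one a ra) (one a ca))) : Tame J p y := by
  obtain ⟨σ', N', e', ι, hι, hw, hLe, hsum, hst⟩ := fam_cut e a τ' j ra ca hc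
  have hlt2 : ∑ b, (σ' b).ms < M := by omega
  exact tame_of_sub ι hι (wS e (one a ra) (one a ca)) hw J p y hy hinv fun p' y' hy' =>
    IH _ hlt2 (s + j) N' σ' (hLe hle hle') rfl e' (J.map (rho ι)) (hst J hJ) p' y' hy'

end MotMono
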