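import Pool.Agent.Lib.MP_4e5fcd_ag.Ic.W1
import Pool.Agent.Lib.MP_4e5fcd_ag.Ic.G5
import Pool.Agent.Lib.MP_4e5fcd_ag.Ic.G6
import Pool.Agent.Lib.MP_4e5fcd_ag.Ic.G8

/-! # IC-W2: the induction step for arcs in normal form

PROOF. `tame_red`: let `Z b = (σ b).dgI (D b)`, `Z' b` = the same for `b ≠ a`, `Z' a = actI g h (Z a)` (`Function.update`). `tame_trans` (with
the identity matrices for `b ≠ a`, `Shp.actI_one`) reduces to `ptS e Z'`; `ordAt_trans` gives `OrdAt J (ptS e Z') k`, so there is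
`f ∈ J` with `yv k (ptS e Z') f ≠ 0`. `inv_arc` with `one a ra`, `one a ca` (`RC`: from `∀ κ n, τ = eps κ n → ra = ca` in `Red`; for `b ≠ a` both
are `0`): `wS i ≠ 0` implies that `i` is a position of the `a`-th matrix with `ra (pr) + ca (pc) ≠ 0`. Then `tame_step`.
`tame_face`: `tame_step` with `inv_face`, `hy` from `hO`. -/

open MvPolynomial

namespace MotMono

variable {s N : ℕ} {σ : Fin s → Shp}

theorem tame_red {M : ℕ} (IH : ∀ M' < M, StmtT M') (hle : ∀ a, (σ a).Le)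
    (hM : ∑ a, (σ a).ms = M) (e : (Σ a, (σ a).Idx) ≃ Fin N) (J : Ideal (MvPolynomial (Fin N) ℂ))
    (hJ : ShStable σ e J) (D : Fin s → ℕ → PowerSeries ℂ) (k : ℕ) (hO : OrdAt J (dgP e D) k)
    (a : Fin s) (hR : (σ a).Red (D a)) : Tame J (p0 (dgP e D)) (yv k (dgP e D)) := by
  obtain ⟨τ', j, ra, ca, g, h, hc, hle', hlt, hrc, hg, hh, hz⟩ := hR
  have hZ : ∀ b, ∃ (g' : Matrix (Fin (σ b).row) (Fin (σ b).row) ℂ)
      (h' : Matrix (Fin (σ b).col) (Fin (σ b).col) ℂ), g'.det ≠ 0 ∧ h'.det ≠ 0 ∧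
        (Function.update (fun b => (σ b).dgI (D b)) a
          ((σ a).actI (g.map (algebraMap ℂ (PowerSeries ℂ)))
            (h.map (algebraMap ℂ (PowerSeries ℂ))) ((σ a).dgI (D a))) :
              ∀ b, (σ b).Idx → PowerSeries ℂ) b =
          (σ b).actI (g'.map (algebraMap ℂ (PowerSeries ℂ)))
          (h'.map (algebraMap ℂ (PowerSeries ℂ))) ((fun b => (σ b).dgI (D b)) b) := by
    intro b
    by_cases hb : b = a
    · subst hb
      refine ⟨g, h, hg, hh, ?_⟩
      rw [Function.update_self]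
    · refine ⟨1, 1, ?_, ?_, ?_⟩
      · rw [Matrix.det_one]; exact one_ne_zero
      · rw [Matrix.det_one]; exact one_ne_zero
      · rw [Function.update_of_ne hb, Matrix.map_one _ (map_zero _) (map_one _),
          Matrix.map_one _ (map_zero _) (map_one _), Shp.actI_one]
  have hO' := ordAt_trans e J hJ k _ _ hZ hO
  refine tame_trans e J hJ k _ _ hZ ?_
  refine tame_step IH hle hM e J hJ a τ' j ra ca hc hle' hlt _ _ ?_ ?_
  · obtain ⟨f, hf, hne⟩ := hO'.2
    exact ⟨f, hf, hne⟩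
  · refine inv_arc e J hJ _ _ ?_ _ ?_ k
    · intro b κ n hb
      by_cases hba : b = a
      · subst hba
        rw [hrc κ n hb]
      · funext i
        simp only [one, if_neg hba]
    · intro i hi
      revert hi
      unfold wS ptS
      generalize e.symm i = c
      obtain ⟨b, q⟩ := c
      intro hi
      by_cases hba : b = a
      · subst hba
        have h1 := hz q (by
          intro h0
          apply hi
          simp only [one, if_true]
          exact h0)
        simp only [Function.update_self]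
        exact h1
      · exfalso
        apply hi
        simp only [one, if_neg hba, add_zero]

theorem tame_face {M : ℕ} (IH : ∀ M' < M, StmtT M') (hle : ∀ a, (σ a).Le)
    (hM : ∑ a, (σ a).ms = M) (e : (Σ a, (σ a).Idx) ≃ Fin N) (J : Ideal (MvPolynomial (Fin N) ℂ))
    (hJ : ShStable σ e J) (a : Fin s) (τ' : Shp) (j : ℕ) (ra : ℕ → ℤ)
    (hc : Shp.Cut (σ a) τ' j ra ra) (hle' : τ'.Le) (hlt : τ'.ms + j < (σ a).ms)
    (lm : Fin s → ℕ → ℕ) (k : ℕ)
    (hO : OrdAt J (dgP e fun a i => (PowerSeries.X : PowerSeries ℂ) ^ lm a i) k)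
    (hv : ∀ β ∈ ExS σ e J, ∑ c : (Σ a, Fin (σ a).rk), β c * lm c.1 c.2 = k →
      ∑ c, (β c : ℤ) * pw σ (one a ra) (one a ra) c = 0)
    (hp : ∀ c : (Σ a, Fin (σ a).rk), lm c.1 c.2 = 0 → pw σ (one a ra) (one a ra) c = 0) :
    Tame J (p0 (dgP e fun a i => (PowerSeries.X : PowerSeries ℂ) ^ lm a i))
      (yv k (dgP e fun a i => (PowerSeries.X : PowerSeries ℂ) ^ lm a i)) := by
  refine tame_step IH hle hM e J hJ a τ' j ra ra hc hle' hlt _ _ ?_ ?_
  · obtain ⟨f, hf, hne⟩ := hO.2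
    exact ⟨f, hf, hne⟩
  · exact inv_face e J hJ _ _ (fun b κ n hb => rfl) lm k hv hp

end MotMono
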