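import Pool.Agent.Lib.MP_4e5fcd_ag.Ic.H8
import Pool.Agent.Lib.MP_4e5fcd_ag.Ic.H9
import Pool.Agent.Lib.MP_4e5fcd_ag.Ic.U3
import Pool.Agent.Lib.MP_4e5fcd_ag.Ic.U4
import Pool.Agent.Lib.MP_4e5fcd_ag.Ic.U5

/-! # IC-W3: one-parameter groups fixing a matrix in normal form

PROOF. `red_gen`: `cut_gen`, `Shp.perm_gen` (`ms`: `2 m + 1 < 2 (m + 1)`; `Le`: `m ≤ n`). `red_skew`: if `n + 1` is odd, the index `n` is
not in any position `(2 i, 2 i + 1)` of a nonzero entry of `dgI`: `cut_rem false n` with `g = h = 1` (`Shp.actI_one`;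
`Matrix.map_one`); if `n + 1 = n' + 2` is even, then `(n', n' + 1)` is the last one of these positions, all of them have the
weight `0`: `cut_pair false n'`, `g = h = 1`. `red_zero`: `cut_rem true n`, `g = h = 1`, the nonzero entries are diagonal, the one
at `(n, n)` is `D n = 0`. `red_hyp`: `cut_pair true n`, `Shp.hyp_sym`. -/

open MvPolynomial

namespace MotMono

private theorem W3_actI_one (τ : Shp) (x : τ.Idx → PowerSeries ℂ) :
    τ.actI ((1 : Matrix (Fin τ.row) (Fin τ.row) ℂ).map (algebraMap ℂ (PowerSeries ℂ)))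
      ((1 : Matrix (Fin τ.col) (Fin τ.col) ℂ).map (algebraMap ℂ (PowerSeries ℂ))) x = x := by
  rw [Matrix.map_one _ (map_zero _) (map_one _), Matrix.map_one _ (map_zero _) (map_one _)]
  exact Shp.actI_one τ x

theorem red_gen (m n : ℕ) (hmn : m ≤ n) (D : ℕ → PowerSeries ℂ) :
    (Shp.gen (m + 1) (n + 1)).Red D := by
  obtain ⟨g, h, hg, hh, H⟩ := Shp.perm_gen m n hmn
  refine ⟨Shp.gen m n, 1, rR m, fun k => -rR n k, g, h, cut_gen m n, hmn, ?_, ?_, hg, hh, ?_⟩
  · change 2 * m + 1 < 2 * (m + 1)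
    omega
  · intro κ k hk
    cases hk
  · intro p hp
    exact H (R := PowerSeries ℂ) D p hp

/-- the nonzero entries of the normal form of a skew-symmetric matrix -/
private theorem W3_skew (n : ℕ) (D : ℕ → PowerSeries ℂ) (p : (Shp.eps false n).Idx)
    (h : (Shp.eps false n).dgI D p ≠ 0) :
    ((Shp.eps false n).pr p : ℕ) % 2 = 0 ∧
      ((Shp.eps false n).pc p : ℕ) = (Shp.eps false n).pr p + 1 := by
  unfold Shp.dgI at h
  have hst : (Shp.eps false n).st = 2 := rfl
  rw [hst] at h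
  by_cases hc : ((Shp.eps false n).pr p : ℕ) % 2 = 0 ∧
      ((Shp.eps false n).pc p : ℕ) + 1 = (Shp.eps false n).pr p + 2
  · exact ⟨hc.1, by omega⟩
  · exact absurd (if_neg hc) h

/-- the nonzero entries of the normal form of a symmetric matrix -/
private theorem W3_sym (n : ℕ) (D : ℕ → PowerSeries ℂ) (p : (Shp.eps true n).Idx)
    (h : (Shp.eps true n).dgI D p ≠ 0) :
    ((Shp.eps true n).pc p : ℕ) = (Shp.eps true n).pr p ∧
      D ((Shp.eps true n).pr p : ℕ) ≠ 0 := by
  unfold Shp.dgI at h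
  have hst : (Shp.eps true n).st = 1 := rfl
  rw [hst] at h
  by_cases hc : ((Shp.eps true n).pr p : ℕ) % 1 = 0 ∧
      ((Shp.eps true n).pc p : ℕ) + 1 = (Shp.eps true n).pr p + 1
  · rw [if_pos hc, Nat.div_one] at h
    exact ⟨by omega, h⟩
  · exact absurd (if_neg hc) h

private theorem W3_skew2 (n' : ℕ) (hn2 : n' % 2 = 0) (D : ℕ → PowerSeries ℂ) :
    (Shp.eps false (n' + 2)).Red D := by
  refine ⟨Shp.eps false n', 1, rP n', rP n', 1, 1, cut_pair false n', trivial, ?_,
    fun _ _ _ => rfl, ?_, ?_, ?_⟩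
  · change 2 * n' + 1 < 2 * (n' + 2)
    omega
  · rw [Matrix.det_one]
    exact one_ne_zero
  · rw [Matrix.det_one]
    exact one_ne_zero
  · intro p hp
    rw [W3_actI_one]
    by_contra h
    obtain ⟨h1, h2⟩ := W3_skew (n' + 2) D p h
    apply hp
    have h3 : ((Shp.eps false (n' + 2)).pc p : ℕ) < n' + 2 :=
      ((Shp.eps false (n' + 2)).pc p).2
    by_cases h4 : ((Shp.eps false (n' + 2)).pr p : ℕ) = n'
    · have h5 : ((Shp.eps false (n' + 2)).pc p : ℕ) = n' + 1 := by omega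
      unfold rP
      rw [if_pos h4, if_neg (by omega), if_pos h5]
      norm_num
    · unfold rP
      rw [if_neg h4, if_neg (by omega), if_neg (by omega), if_neg (by omega), add_zero]

theorem red_skew (n : ℕ) (D : ℕ → PowerSeries ℂ) : (Shp.eps false (n + 1)).Red D := by
  rcases Nat.even_or_odd n with hn | hn
  · have hn2 : n % 2 = 0 := Nat.even_iff.1 hn
    refine ⟨Shp.eps false n, 0, rR n, rR n, 1, 1, cut_rem false n, trivial, ?_, fun _ _ _ => rfl,
      ?_, ?_, ?_⟩
    · change 2 * n + 0 < 2 * (n + 1)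
      omega
    · rw [Matrix.det_one]
      exact one_ne_zero
    · rw [Matrix.det_one]
      exact one_ne_zero
    · intro p hp
      rw [W3_actI_one]
      by_contra h
      obtain ⟨h1, h2⟩ := W3_skew (n + 1) D p h
      apply hp
      have h3 : ((Shp.eps false (n + 1)).pc p : ℕ) < n + 1 := ((Shp.eps false (n + 1)).pc p).2
      unfold rR
      rw [if_neg (by omega), if_neg (by omega), add_zero]
  · obtain ⟨n', rfl⟩ : ∃ n', n = n' + 1 := ⟨n - 1, by have := hn.pos; omega⟩
    have hn2 : (n' + 1) % 2 = 1 := Nat.odd_iff.1 hn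
    exact W3_skew2 n' (by omega) D

theorem red_zero (n : ℕ) (D : ℕ → PowerSeries ℂ) (hD : D n = 0) :
    (Shp.eps true (n + 1)).Red D := by
  refine ⟨Shp.eps true n, 0, rR n, rR n, 1, 1, cut_rem true n, trivial, ?_, fun _ _ _ => rfl,
    ?_, ?_, ?_⟩
  · change n + 0 < n + 1
    omega
  · rw [Matrix.det_one]
    exact one_ne_zero
  · rw [Matrix.det_one]
    exact one_ne_zero
  · intro p hp
    rw [W3_actI_one]
    by_contra h
    obtain ⟨h1, h2⟩ := W3_sym (n + 1) D p h
    apply hp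
    have h3 : ((Shp.eps true (n + 1)).pr p : ℕ) ≠ n := by
      intro h4
      rw [h4] at h2
      exact h2 hD
    unfold rR
    rw [if_neg h3, if_neg (by omega), add_zero]

theorem red_hyp (n : ℕ) (D : ℕ → PowerSeries ℂ) (i : ℕ) (hi : i + 1 < n + 2)
    (hD : D i = D (i + 1)) : (Shp.eps true (n + 2)).Red D := by
  obtain ⟨g, h, hg, hh, H⟩ := Shp.hyp_sym n i hi
  refine ⟨Shp.eps true n, 1, rP n, rP n, g, h, cut_pair true n, trivial, ?_, fun _ _ _ => rfl,
    hg, hh, ?_⟩
  · change n + 1 < n + 2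
    omega
  · intro p hp
    exact H (R := PowerSeries ℂ) D hD p hp

end MotMono
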