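import Pool.Agent.Lib.MP_4e5fcd_ag.Ic.W2
import Pool.Agent.Lib.MP_4e5fcd_ag.Ic.H8
import Pool.Agent.Lib.MP_4e5fcd_ag.Ic.U3
import Pool.Agent.Lib.MP_4e5fcd_ag.Ic.U4
import Pool.Agent.Lib.MP_4e5fcd_ag.Cl.E2

/-! # IC-W4: invisible boundaries of the exponents of symmetric matrices

PROOF. `tame_last`: `σ c.1 = eps true (n + 1)`, `c.2 = n`, `tame_face` with `a = c.1`, `cut_rem true n`, `ra = rR n`, `lm a i = mue (bS u a) i`
(`DU e u` is by definition `dgP e (X ^ lm)`): `pw c' = 2` for `c' = c` and `0` otherwise; `hv`, `hl`. (To get the equality of the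
shapes without casts: prove the lemma `∀ τ, (∃ n, τ = eps true n) → 0 < τ.rk → Shp.Cut τ (eps true (τ.rk - 1)) 0 (rR (τ.rk - 1))
(rR (τ.rk - 1)) ∧ ms` by `subst`.)
`tame_inner`: `σ c.1 = eps true (n + 2)`; let `π` be a permutation of `Fin (n + 2)` with `π n = c.2`, `π (n + 1) = c.2 + 1`, and
`lm a i = mue (bS u a) (π i)` for `a = c.1`, `lm a i = mue (bS u a) i` for the others. By `Shp.perm_sym` (a shape-level lemma as
above), `tame_trans` and `ordAt_trans` (identity for the other matrices) it suffices to treat `dgP e (X ^ lm)`: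
`tame_face` with `cut_pair true n`, `ra = rP n`: `pw` is `2` at `(a, n)`, `-2` at `(a, n + 1)` and `0` otherwise. `hv` of `tame_face`: for
`β ∈ ExS` with `∑ β c' * lm c' = k` the exponent `β' = β ∘ π⁻¹` (in the `a`-th matrix) is in `ExS` (`exS_perm`) and
`∑ β' c' * lam u c' = k`, so `kx β' a (c.2 + 1) = kx β' a c.2`, i.e. `β (a, n + 1) = β (a, n)`. `hp`: `lm (a, n) = lam u c > 0`,
`lm (a, n + 1) = mue (c.2 + 1) ≥ lam u c > 0`. -/

open MvPolynomial

namespace MotMono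

variable {s N : ℕ} {σ : Fin s → Shp}

private theorem w4_rk (n : ℕ) : (Shp.eps true n).rk = n := by
  simp [Shp.rk]

private theorem w4_ms (n : ℕ) : (Shp.eps true n).ms = n := by
  simp [Shp.ms]

private theorem w4_last (τ : Shp) (hs : ∃ n, τ = Shp.eps true n) (hr : 0 < τ.rk) :
    Shp.Cut τ (Shp.eps true (τ.rk - 1)) 0 (rR (τ.rk - 1)) (rR (τ.rk - 1)) ∧
      (Shp.eps true (τ.rk - 1)).ms + 0 < τ.ms ∧ τ.st = 1 := by
  obtain ⟨n, rfl⟩ := hs
  rw [w4_rk] at hr ⊢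
  obtain ⟨m, rfl⟩ : ∃ m, n = m + 1 := ⟨n - 1, by omega⟩
  refine ⟨?_, ?_, rfl⟩
  · rw [Nat.add_sub_cancel]
    exact cut_rem true m
  · rw [w4_ms, w4_ms]
    omega

private theorem w4_pair (τ : Shp) (hs : ∃ n, τ = Shp.eps true n) (hr : 2 ≤ τ.rk) :
    Shp.Cut τ (Shp.eps true (τ.rk - 2)) 1 (rP (τ.rk - 2)) (rP (τ.rk - 2)) ∧
      (Shp.eps true (τ.rk - 2)).ms + 1 < τ.ms ∧ τ.st = 1 := by
  obtain ⟨n, rfl⟩ := hs
  rw [w4_rk] at hr ⊢
  obtain ⟨m, rfl⟩ : ∃ m, n = m + 2 := ⟨n - 2, by omega⟩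
  refine ⟨?_, ?_, rfl⟩
  · rw [Nat.add_sub_cancel]
    exact cut_pair true m
  · rw [w4_ms, w4_ms]
    omega

private theorem w4_act (τ : Shp) (hs : ∃ n, τ = Shp.eps true n) (π : Equiv.Perm (Fin τ.rk)) :
    ∃ (g : Matrix (Fin τ.row) (Fin τ.row) ℂ) (h : Matrix (Fin τ.col) (Fin τ.col) ℂ),
      g.det ≠ 0 ∧ h.det ≠ 0 ∧ ∀ {R : Type} [CommRing R] [Algebra ℂ R] (D D' : ℕ → R),
        (∀ i : Fin τ.rk, D' i = D (π i)) →
        τ.actI (g.map (algebraMap ℂ R)) (h.map (algebraMap ℂ R)) (τ.dgI D) = τ.dgI D' := by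
  obtain ⟨n, rfl⟩ := hs
  obtain ⟨g, h, hg, hh, hgh⟩ := Shp.perm_sym n ((finCongr (w4_rk n)).permCongr π)
  refine ⟨g, h, hg, hh, fun {R} _ _ D D' hD => hgh D D' fun i => ?_⟩
  have h1 := hD ((finCongr (w4_rk n)).symm i)
  exact h1

private theorem w4_perm {r : ℕ} (a0 a1 b0 b1 : Fin r) (h : a0 ≠ a1) (h' : b0 ≠ b1) :
    ∃ π : Equiv.Perm (Fin r), π a0 = b0 ∧ π a1 = b1 := by
  obtain ⟨π₁, hπ₁⟩ : ∃ π₁ : Equiv.Perm (Fin r), π₁ = Equiv.swap a0 b0 := ⟨_, rfl⟩
  have h1 : π₁ a0 = b0 := by rw [hπ₁, Equiv.swap_apply_left]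
  refine ⟨π₁.trans (Equiv.swap (π₁ a1) b1), ?_, ?_⟩
  · rw [Equiv.trans_apply, h1]
    refine Equiv.swap_apply_of_ne_of_ne ?_ h'
    intro h2
    rw [← h1] at h2
    exact h (π₁.injective h2)
  · rw [Equiv.trans_apply, Equiv.swap_apply_left]

theorem tame_last {M : ℕ} (IH : ∀ M' < M, StmtT M') (hle : ∀ a, (σ a).Le)
    (hM : ∑ a, (σ a).ms = M) (e : (Σ a, (σ a).Idx) ≃ Fin N) (J : Ideal (MvPolynomial (Fin N) ℂ))
    (hJ : ShStable σ e J) (u : (Σ a, Fin (σ a).rk) → ℕ) (k : ℕ) (hO : OrdAt J (DU e u) k)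
    (c : Σ a, Fin (σ a).rk) (hs : ∃ n, σ c.1 = Shp.eps true n) (hc : (c.2 : ℕ) + 1 = (σ c.1).rk)
    (hl : 0 < lam u c) (hv : ∀ β ∈ ExS σ e J, ∑ c, β c * lam u c = k → β c = 0) :
    Tame J (p0 (DU e u)) (yv k (DU e u)) := by
  classical
  obtain ⟨a, i₀⟩ := c
  have hs : ∃ n, σ a = Shp.eps true n := hs
  have hc : (i₀ : ℕ) + 1 = (σ a).rk := hc
  obtain ⟨h1, h2, h3⟩ := w4_last (σ a) hs (by omega)
  have hpw : ∀ c' : (Σ a, Fin (σ a).rk),
      pw σ (one a (rR ((σ a).rk - 1))) (one a (rR ((σ a).rk - 1))) c' =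
        if c' = ⟨a, i₀⟩ then 2 else 0 := by
    rintro ⟨b, i⟩
    unfold pw one
    by_cases hb : b = a
    · subst hb
      simp only [if_true]
      rw [h3, one_mul, Nat.add_sub_cancel]
      unfold rR
      by_cases hi : i = i₀
      · subst hi
        rw [if_pos (by omega), if_pos rfl]
        rfl
      · have h4 : (i : ℕ) ≠ (σ b).rk - 1 := by
          intro h5
          apply hi
          apply Fin.ext
          omega
        rw [if_neg h4, if_neg]
        · rfl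
        · intro h5
          apply hi
          cases h5
          rfl
    · simp only [if_neg hb]
      rw [if_neg]
      · rfl
      · intro h5
        apply hb
        cases h5
        rfl
  refine tame_face IH hle hM e J hJ a _ 0 _ h1 trivial h2 (fun a i => mue (bS u a) i) k hO ?_ ?_
  · intro β hβ hβk
    have h4 := hv β hβ hβk
    rw [Finset.sum_eq_single (⟨a, i₀⟩ : Σ a, Fin (σ a).rk)]
    · rw [h4]
      simp
    · intro c' _ hc'
      rw [hpw, if_neg hc', mul_zero]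
    · intro h5
      exact absurd (Finset.mem_univ _) h5
  · intro c' hc'
    rw [hpw]
    split_ifs with h5
    · subst h5
      exact absurd hc' hl.ne'
    · rfl

theorem tame_inner {M : ℕ} (IH : ∀ M' < M, StmtT M') (hle : ∀ a, (σ a).Le)
    (hM : ∑ a, (σ a).ms = M) (e : (Σ a, (σ a).Idx) ≃ Fin N) (J : Ideal (MvPolynomial (Fin N) ℂ))
    (hJ : ShStable σ e J) (u : (Σ a, Fin (σ a).rk) → ℕ) (k : ℕ) (hO : OrdAt J (DU e u) k)
    (c : Σ a, Fin (σ a).rk) (hs : ∃ n, σ c.1 = Shp.eps true n) (hc : (c.2 : ℕ) + 1 < (σ c.1).rk)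
    (hl : 0 < lam u c)
    (hv : ∀ β ∈ ExS σ e J, ∑ c, β c * lam u c = k → kx β c.1 (c.2 + 1) = kx β c.1 c.2) :
    Tame J (p0 (DU e u)) (yv k (DU e u)) := by
  classical
  obtain ⟨a, i₀⟩ := c
  have hs : ∃ n, σ a = Shp.eps true n := hs
  have hc : (i₀ : ℕ) + 1 < (σ a).rk := hc
  obtain ⟨h1, h2, h3⟩ := w4_pair (σ a) hs (by omega)
  obtain ⟨a0, ha0⟩ : ∃ a0 : Fin (σ a).rk, (a0 : ℕ) = (σ a).rk - 2 := ⟨⟨(σ a).rk - 2, by omega⟩, rfl⟩
  obtain ⟨a1, ha1⟩ : ∃ a1 : Fin (σ a).rk, (a1 : ℕ) = (σ a).rk - 1 := ⟨⟨(σ a).rk - 1, by omega⟩, rfl⟩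
  obtain ⟨i₁, hi₁⟩ : ∃ i₁ : Fin (σ a).rk, (i₁ : ℕ) = i₀ + 1 := ⟨⟨i₀ + 1, hc⟩, rfl⟩
  have ha01 : a0 ≠ a1 := by
    intro h
    rw [h] at ha0
    omega
  have hi01 : i₀ ≠ i₁ := by
    intro h
    rw [← h] at hi₁
    omega
  obtain ⟨π, hπ0, hπ1⟩ := w4_perm a0 a1 i₀ i₁ ha01 hi01
  -- the permutations of all the members
  obtain ⟨πs, hπs⟩ : ∃ πs : ∀ b, Equiv.Perm (Fin (σ b).rk), πs =
      Function.update (β := fun b => Equiv.Perm (Fin (σ b).rk))
        (fun b => Equiv.refl (Fin (σ b).rk)) a π := ⟨_, rfl⟩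
  have hπa : πs a = π := by rw [hπs, Function.update_self]
  have hπb : ∀ b, b ≠ a → πs b = Equiv.refl _ := fun b hb => by
    rw [hπs, Function.update_of_ne hb]
  let lm : Fin s → ℕ → ℕ := fun b i =>
    if h : i < (σ b).rk then mue (bS u b) (πs b ⟨i, h⟩) else mue (bS u b) i
  have hlm : ∀ (b : Fin s) (i : Fin (σ b).rk), lm b i = mue (bS u b) (πs b i) := by
    intro b i
    have h4 : lm b i = mue (bS u b) (πs b ⟨(i : ℕ), i.2⟩) := dif_pos i.2
    rw [h4]
  have hZ : ∀ b, ∃ (g : Matrix (Fin (σ b).row) (Fin (σ b).row) ℂ)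
      (h : Matrix (Fin (σ b).col) (Fin (σ b).col) ℂ), g.det ≠ 0 ∧ h.det ≠ 0 ∧
        (σ b).dgI (fun i => (PowerSeries.X : PowerSeries ℂ) ^ lm b i) =
          (σ b).actI (g.map (algebraMap ℂ (PowerSeries ℂ))) (h.map (algebraMap ℂ (PowerSeries ℂ)))
            ((σ b).dgI fun i => (PowerSeries.X : PowerSeries ℂ) ^ mue (bS u b) i) := by
    intro b
    by_cases hb : b = a
    · subst hb
      obtain ⟨g, h, hg, hh, hgh⟩ := w4_act (σ b) hs (πs b)
      refine ⟨g, h, hg, hh, (hgh _ _ fun i => ?_).symm⟩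
      rw [hlm]
    · refine ⟨1, 1, by simp, by simp, ?_⟩
      rw [Matrix.map_one _ (map_zero _) (map_one _), Matrix.map_one _ (map_zero _) (map_one _),
        Shp.actI_one]
      congr 1
      funext i
      have h4 : lm b i = mue (bS u b) i := by
        by_cases hi : i < (σ b).rk
        · have h5 := hlm b ⟨i, hi⟩
          rw [hπb b hb] at h5
          exact h5
        · exact dif_neg hi
      rw [h4]
  refine tame_trans e J hJ k (fun b => (σ b).dgI fun i => (PowerSeries.X : PowerSeries ℂ) ^ mue (bS u b) i)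
    (fun b => (σ b).dgI fun i => (PowerSeries.X : PowerSeries ℂ) ^ lm b i) hZ ?_
  have hO' : OrdAt J (dgP e fun a i => (PowerSeries.X : PowerSeries ℂ) ^ lm a i) k :=
    ordAt_trans e J hJ k (fun b => (σ b).dgI fun i => (PowerSeries.X : PowerSeries ℂ) ^ mue (bS u b) i)
    (fun b => (σ b).dgI fun i => (PowerSeries.X : PowerSeries ℂ) ^ lm b i) hZ hO
  have hpw : ∀ c' : (Σ a, Fin (σ a).rk),
      pw σ (one a (rP ((σ a).rk - 2))) (one a (rP ((σ a).rk - 2))) c' =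
        if c' = ⟨a, a0⟩ then 2 else if c' = ⟨a, a1⟩ then -2 else 0 := by
    rintro ⟨b, i⟩
    unfold pw one
    by_cases hb : b = a
    · subst hb
      simp only [if_true]
      rw [h3, one_mul, Nat.add_sub_cancel]
      unfold rP
      by_cases hi : i = a0
      · subst hi
        rw [if_pos (by omega), if_pos rfl]
        rfl
      · have h4 : (i : ℕ) ≠ (σ b).rk - 2 := by
          intro h5
          apply hi
          apply Fin.ext
          omega
        have h4' : (⟨b, i⟩ : Σ a, Fin (σ a).rk) ≠ ⟨b, a0⟩ := by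
          intro h5
          apply hi
          cases h5
          rfl
        rw [if_neg h4, if_neg h4']
        by_cases hi' : i = a1
        · subst hi'
          rw [if_pos (by omega), if_pos rfl]
          rfl
        · have h5 : (i : ℕ) ≠ (σ b).rk - 2 + 1 := by
            intro h5
            apply hi'
            apply Fin.ext
            omega
          have h5' : (⟨b, i⟩ : Σ a, Fin (σ a).rk) ≠ ⟨b, a1⟩ := by
            intro h5
            apply hi'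
            cases h5
            rfl
          rw [if_neg h5, if_neg h5']
          rfl
    · simp only [if_neg hb]
      have h5' : ∀ j, (⟨b, i⟩ : Σ a, Fin (σ a).rk) ≠ ⟨a, j⟩ := by
        intro j h5
        apply hb
        cases h5
        rfl
      rw [if_neg (h5' _), if_neg (h5' _)]
      rfl
  refine tame_face IH hle hM e J hJ a _ 1 _ h1 trivial h2 lm k hO' ?_ ?_
  · intro β hβ hβk
    have h4 := hv _ (exS_perm e hle J hJ β hβ fun b => (πs b).symm) (by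
      rw [← hβk, ← (Equiv.sigmaCongrRight πs).sum_comp]
      refine Finset.sum_congr rfl fun c' _ => ?_
      obtain ⟨b, i⟩ := c'
      change β ⟨b, (πs b).symm (πs b i)⟩ * lam u ⟨b, πs b i⟩ = β ⟨b, i⟩ * lm b i
      rw [Equiv.symm_apply_apply, hlm]
      rfl)
    have e1 : β ⟨a, a1⟩ = β ⟨a, a0⟩ := by
      have h5 : kx (fun c : (Σ a, Fin (σ a).rk) => β ⟨c.1, (πs c.1).symm c.2⟩) a ((i₀ : ℕ) + 1) =
          β ⟨a, a1⟩ := by
        unfold kx
        rw [dif_pos hc]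
        have h6 : (⟨(i₀ : ℕ) + 1, hc⟩ : Fin (σ a).rk) = πs a a1 := by
          apply Fin.ext
          rw [hπa, hπ1, hi₁]
        change β ⟨a, (πs a).symm ⟨(i₀ : ℕ) + 1, hc⟩⟩ = _
        rw [h6, Equiv.symm_apply_apply]
      have h5' : kx (fun c : (Σ a, Fin (σ a).rk) => β ⟨c.1, (πs c.1).symm c.2⟩) a (i₀ : ℕ) =
          β ⟨a, a0⟩ := by
        unfold kx
        rw [dif_pos i₀.2]
        have h6 : (⟨(i₀ : ℕ), i₀.2⟩ : Fin (σ a).rk) = πs a a0 := by
          apply Fin.ext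
          rw [hπa, hπ0]
        change β ⟨a, (πs a).symm ⟨(i₀ : ℕ), i₀.2⟩⟩ = _
        rw [h6, Equiv.symm_apply_apply]
      rw [← h5, ← h5']
      exact h4
    have hne : (⟨a, a0⟩ : Σ a, Fin (σ a).rk) ≠ ⟨a, a1⟩ := by
      intro h5
      apply ha01
      cases h5
      rfl
    rw [Finset.sum_eq_add_of_mem (⟨a, a0⟩ : Σ a, Fin (σ a).rk) ⟨a, a1⟩ (Finset.mem_univ _)
      (Finset.mem_univ _) hne]
    · rw [hpw, hpw, if_pos rfl, if_neg hne.symm, if_pos rfl, e1]
      ring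
    · rintro c' _ ⟨hc1, hc2⟩
      rw [hpw, if_neg hc1, if_neg hc2, mul_zero]
  · intro c' hc'
    rw [hpw]
    have hl0 : 0 < mue (bS u a) i₀ := hl
    split_ifs with h5 h6
    · subst h5
      have h7 : lm a a0 = mue (bS u a) i₀ := by rw [hlm, hπa, hπ0]
      have h8 : lm a a0 = 0 := hc'
      omega
    · subst h6
      have h7 : lm a a1 = mue (bS u a) i₁ := by rw [hlm, hπa, hπ1]
      have h8 : lm a a1 = 0 := hc'
      have h9 : mue (bS u a) i₀ ≤ mue (bS u a) i₁ := by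
        unfold mue
        apply Finset.sum_le_sum_of_subset
        intro x hx
        rw [Finset.mem_range] at hx ⊢
        omega
      omega
    · rfl

end MotMono
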