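import Pool.Agent.Lib.MP_4e5fcd_ag.Ic.W3
import Pool.Agent.Lib.MP_4e5fcd_ag.Ic.W4
import Pool.Agent.Lib.MP_4e5fcd_ag.Ic.V5
import Pool.Agent.Lib.MP_4e5fcd_ag.Ic.H7

/-! # IC-W5: the theorem on the contact jets

PROOF. `red_or`: shape level, by cases. `tame_DL`: let `D a i = Xp (l a i)` (`DL e l = dgP e D`). If some `(σ a).Red (D a)` holds, use
`tame_red`. Otherwise, by `red_or`, for every `a` the shape `σ a` has `row = 0` or is `eps true n`, and `l a i` is finite and
strictly increasing for `i < rk`. Put `u (a, i) = (l a i).toNat - (l a (i - 1)).toNat` for `i > 0`, `u (a, 0) = (l a 0).toNat`: `lam u (a, i) =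
(l a i).toNat` (telescoping), `Strict u`, `SymFam σ`, `DL e l = DU e u` (compare the entries: `dgI` uses `D a i` only for `i < rk`).
If `AllVis e J u k`: `tame_strict`. Otherwise there is `c` with `0 < lam u c` and `kx β c.1 (c.2 + 1) = kx β c.1 c.2` for all `β` in
the face; `σ c.1 = eps true n` (`rk = 0` if `row = 0`); `c.2 + 1 = rk`: `tame_last` (`kx β c.1 rk = 0`, `kx β c.1 c.2 = β c`), else
`tame_inner`. `tame_all`: strong induction (`Nat.strong_induction_on`) with `red_diag`, `tame_of_empty`, `tame_DL`. -/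

open MvPolynomial

namespace MotMono

private theorem W5_rk0 {τ : Shp} (h : τ.row = 0) : τ.rk = 0 := by
  cases τ with
  | gen m n => exact h
  | eps κ n =>
    have h0 : n = 0 := h
    subst h0
    exact Nat.zero_div _

theorem red_or (τ : Shp) (hτ : τ.Le) (l : ℕ → ℕ∞) (hl : Monotone l) :
    τ.Red (fun i => Xp (l i)) ∨ ((τ.row = 0 ∨ ∃ n, τ = Shp.eps true n) ∧ (∀ i < τ.rk, l i ≠ ⊤) ∧
      ∀ i, i + 1 < τ.rk → l i < l (i + 1)) := by
  have h0 : τ.row = 0 → ((τ.row = 0 ∨ ∃ n, τ = Shp.eps true n) ∧ (∀ i < τ.rk, l i ≠ ⊤) ∧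
      ∀ i, i + 1 < τ.rk → l i < l (i + 1)) := by
    intro h
    refine ⟨Or.inl h, ?_, ?_⟩
    · intro i hi
      rw [W5_rk0 h] at hi
      omega
    · intro i hi
      rw [W5_rk0 h] at hi
      omega
  cases τ with
  | gen m n =>
    rcases Nat.eq_zero_or_pos m with hm | hm
    · exact Or.inr (h0 hm)
    · have hmn : m ≤ n := hτ
      obtain ⟨m', rfl⟩ : ∃ m', m = m' + 1 := ⟨m - 1, by omega⟩
      obtain ⟨n', rfl⟩ : ∃ n', n = n' + 1 := ⟨n - 1, by omega⟩
      exact Or.inl (red_gen m' n' (by omega) _)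
  | eps κ n =>
    rcases Nat.eq_zero_or_pos n with hn | hn
    · exact Or.inr (h0 hn)
    obtain ⟨n', rfl⟩ : ∃ n', n = n' + 1 := ⟨n - 1, by omega⟩
    cases κ with
    | false => exact Or.inl (red_skew n' _)
    | true =>
      by_cases htop : l n' = ⊤
      · left
        refine red_zero n' _ ?_
        simp only [Xp, htop, if_true]
      by_cases hex : ∃ i, i + 1 < n' + 1 ∧ l i = l (i + 1)
      · obtain ⟨i, hi, hli⟩ := hex
        obtain ⟨n'', rfl⟩ : ∃ n'', n' = n'' + 1 := ⟨n' - 1, by omega⟩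
        left
        refine red_hyp n'' _ i hi ?_
        simp only [hli]
      · right
        have hrk : (Shp.eps true (n' + 1)).rk = n' + 1 := by simp [Shp.rk]
        refine ⟨Or.inr ⟨_, rfl⟩, ?_, ?_⟩
        · intro i hi
          rw [hrk] at hi
          exact ne_top_of_le_ne_top htop (hl (by omega))
        · intro i hi
          rw [hrk] at hi
          exact lt_of_le_of_ne (hl (by omega)) fun h => hex ⟨i, hi, h⟩

private theorem W5_dgI {R : Type} [CommRing R] {τ : Shp}
    (hτ : τ.row = 0 ∨ ∃ n, τ = Shp.eps true n) {D D' : ℕ → R} (h : ∀ i < τ.rk, D i = D' i) :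
    τ.dgI D = τ.dgI D' := by
  funext p
  unfold Shp.dgI
  split_ifs with hc
  · rcases hτ with h0 | ⟨n, rfl⟩
    · exact absurd (τ.pr p).isLt (by omega)
    · refine h _ ?_
      have h1 : (Shp.eps true n).st = 1 := by simp [Shp.st]
      have h2 : (Shp.eps true n).rk = n := by simp [Shp.rk]
      rw [h1, h2, Nat.div_one]
      exact ((Shp.eps true n).pr p).isLt
  · rfl

variable {s N : ℕ} {σ : Fin s → Shp}

/-- the differences of the exponents -/
private noncomputable def W5_u (σ : Fin s → Shp) (l : Fin s → ℕ → ℕ∞) :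
    (Σ a, Fin (σ a).rk) → ℕ := fun c =>
  if (c.2 : ℕ) = 0 then (l c.1 0).toNat else (l c.1 c.2).toNat - (l c.1 ((c.2 : ℕ) - 1)).toNat

private theorem W5_bS (l : Fin s → ℕ → ℕ∞) (a : Fin s) {i : ℕ} (hi : i < (σ a).rk) :
    bS (W5_u σ l) a i =
      if i = 0 then (l a 0).toNat else (l a i).toNat - (l a (i - 1)).toNat := by
  unfold bS part extb
  rw [dif_pos hi]
  rfl

private theorem W5_mue (l : Fin s → ℕ → ℕ∞) (a : Fin s) (hl : Monotone (l a))
    (ht : ∀ i < (σ a).rk, l a i ≠ ⊤) :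
    ∀ i, i < (σ a).rk → mue (bS (W5_u σ l) a) i = (l a i).toNat := by
  intro i
  induction i with
  | zero =>
    intro hi
    unfold mue
    rw [zero_add, Finset.sum_range_one, W5_bS l a hi, if_pos rfl]
  | succ i ih =>
    intro hi
    have h1 := ih (by omega)
    unfold mue at h1 ⊢
    rw [Finset.sum_range_succ, h1, W5_bS l a hi, if_neg (by omega), Nat.add_sub_cancel]
    have h2 : (l a i).toNat ≤ (l a (i + 1)).toNat :=
      ENat.toNat_le_toNat (hl (by omega)) (ht _ hi)
    omega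

theorem tame_DL {M : ℕ} (IH : ∀ M' < M, StmtT M') (hle : ∀ a, (σ a).Le)
    (hM : ∑ a, (σ a).ms = M) (e : (Σ a, (σ a).Idx) ≃ Fin N) (J : Ideal (MvPolynomial (Fin N) ℂ))
    (hJ : ShStable σ e J) (k : ℕ) (hk : 0 < k) (l : Fin s → ℕ → ℕ∞) (hl : ∀ a, Monotone (l a))
    (hO : OrdAt J (DL e l) k) : Tame J (p0 (DL e l)) (yv k (DL e l)) := by
  by_cases hR : ∃ a, (σ a).Red (fun i => Xp (l a i))
  · obtain ⟨a, ha⟩ := hR
    exact tame_red IH hle hM e J hJ (fun a i => Xp (l a i)) k hO a ha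
  have hall : ∀ a, (((σ a).row = 0 ∨ ∃ n, σ a = Shp.eps true n) ∧ (∀ i < (σ a).rk, l a i ≠ ⊤) ∧
      ∀ i, i + 1 < (σ a).rk → l a i < l a (i + 1)) := by
    intro a
    rcases red_or (σ a) (hle a) (l a) (hl a) with h | h
    · exact absurd ⟨a, h⟩ hR
    · exact h
  have hS : SymFam σ := fun a => (hall a).1
  set u := W5_u σ l with hu_def
  have hmue : ∀ a i, i < (σ a).rk → mue (bS u a) i = (l a i).toNat := fun a =>
    W5_mue l a (hl a) (hall a).2.1
  have hu : Strict u := by
    intro a i hi0 hi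
    rw [hu_def, W5_bS l a hi, if_neg (by omega)]
    obtain ⟨i', rfl⟩ : ∃ i', i = i' + 1 := ⟨i - 1, by omega⟩
    rw [Nat.add_sub_cancel]
    have h1 := (hall a).2.2 i' hi
    have h2 : (l a i').toNat < (l a (i' + 1)).toNat := by
      have e1 := ENat.natCast_toNat ((hall a).2.1 i' (by omega))
      have e2 := ENat.natCast_toNat ((hall a).2.1 (i' + 1) hi)
      rw [← e1, ← e2] at h1
      exact_mod_cast h1
    omega
  have hDL : DL e l = DU e u := by
    unfold DL DU dgP
    congr 1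
    funext a
    refine W5_dgI (hS a) fun i hi => ?_
    change Xp (l a i) = PowerSeries.X ^ mue (bS u a) i
    rw [hmue a i hi]
    unfold Xp
    rw [if_neg ((hall a).2.1 i hi)]
  rw [hDL] at hO ⊢
  by_cases hvis : AllVis e J u k
  · exact tame_strict hle e J hJ hS u hu k hk hO hvis
  unfold AllVis at hvis
  push Not at hvis
  obtain ⟨c, hc0, hc⟩ := hvis
  have hs : ∃ n, σ c.1 = Shp.eps true n := by
    rcases hS c.1 with h | h
    · have h1 := W5_rk0 h
      have h2 := c.2.isLt
      omega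
    · exact h
  rcases Nat.lt_or_ge ((c.2 : ℕ) + 1) (σ c.1).rk with h | h
  · exact tame_inner IH hle hM e J hJ u k hO c hs h hc0 hc
  · have h1 : (c.2 : ℕ) + 1 = (σ c.1).rk := by
      have h2 := c.2.isLt
      omega
    refine tame_last IH hle hM e J hJ u k hO c hs h1 hc0 fun β hβ hβk => ?_
    have h3 := hc β hβ hβk
    unfold kx at h3
    rw [dif_neg (by omega), dif_pos c.2.isLt] at h3
    exact h3.symm

theorem tame_all (M : ℕ) : StmtT M := by
  induction M using Nat.strong_induction_on with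
  | _ M IH =>
    intro s N σ hle hM e J hJ p y hy
    rcases red_diag hle e J hJ p y hy with h | ⟨k, l, hk, hl, hO, hT⟩
    · exact tame_of_empty h
    · exact hT (tame_DL IH hle hM e J hJ k hk l hl hO)

end MotMono
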