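import Pool.Agent.Lib.MP_4e5fcd_ag.Ic.Defs

/-! # IC-X1: integral elements along curves

PROOF. `dvd_pow_ideal`: the preimage under `G` of the ideal `(X ^ k)` contains `I`, so `G (I ^ i) ⊆ (X ^ k) ^ i`, or induction with
`Submodule.mul_induction_on` (compare `dvd_pow_along` in `/team-store/NWT_mod_B1.lean`, where all of this is proved for monomial
ideals). `dvd_of_integral`: suppose not; `G g = X ^ v * r`, `v < k`, `r (0) ≠ 0` (in particular `G g ≠ 0`); the equation gives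
`G g ^ n = - ∑ G (a i) * G g ^ (n - i)`, and `X ^ (n v + 1)` divides every term on the right (`i k + (n - i) v ≥ n v + 1` for `i ≥ 1`), but
not the left side. `dvd_iff`: `→`: `h * f` is integral over `I`, `X ^ k ∣ G h * G f`, and `G h` has a nonzero constant
coefficient (`Polynomial.X_pow_dvd_iff`; `X` is prime and does not divide `G h`). `←`: `h * f ∈ J`. `ord_iff`: from `dvd_iff` for `k` and
`k + 1`. -/

open MvPolynomial

namespace MotMono

variable {N : ℕ} {I J : Ideal (MvPolynomial (Fin N) ℂ)}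

theorem dvd_pow_ideal (G : MvPolynomial (Fin N) ℂ →ₐ[ℂ] Polynomial ℂ) (k : ℕ)
    (hk : ∀ f ∈ I, (Polynomial.X : Polynomial ℂ) ^ k ∣ G f) (i : ℕ) (a : MvPolynomial (Fin N) ℂ)
    (ha : a ∈ I ^ i) : (Polynomial.X : Polynomial ℂ) ^ (i * k) ∣ G a := by
  induction i generalizing a with
  | zero => rw [zero_mul, pow_zero]; exact one_dvd _
  | succ i ih =>
    rw [pow_succ] at ha
    refine Submodule.mul_induction_on ha (fun x hx y hy => ?_) (fun x y hx hy => ?_)
    · rw [map_mul, Nat.succ_mul, pow_add]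
      exact mul_dvd_mul (ih x hx) (hk y hy)
    · rw [map_add]
      exact dvd_add hx hy

theorem dvd_of_integral (G : MvPolynomial (Fin N) ℂ →ₐ[ℂ] Polynomial ℂ) (k : ℕ)
    (hk : ∀ f ∈ I, (Polynomial.X : Polynomial ℂ) ^ k ∣ G f) (g : MvPolynomial (Fin N) ℂ)
    (hg : IntegralOver I g) : (Polynomial.X : Polynomial ℂ) ^ k ∣ G g := by
  obtain ⟨q, a, hq, ha, heq⟩ := hg
  have heq2 := congrArg G heq
  rw [map_add, map_pow, map_sum, map_zero] at heq2
  suffices H : ∀ j ≤ k, (Polynomial.X : Polynomial ℂ) ^ j ∣ G g from H k le_rfl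
  intro j
  induction j with
  | zero => intro _; rw [pow_zero]; exact one_dvd _
  | succ j ih =>
    intro hj
    have hd := ih (by omega)
    obtain ⟨u, hu⟩ := hd
    have h1 : (Polynomial.X : Polynomial ℂ) ^ (j * q + 1) ∣
        ∑ i ∈ Finset.Icc 1 q, G (a i * g ^ (q - i)) := by
      refine Finset.dvd_sum fun i hi => ?_
      rw [Finset.mem_Icc] at hi
      rw [map_mul, map_pow, hu, mul_pow, ← pow_mul]
      have h2 := dvd_pow_ideal G k hk i (a i) (ha i)
      have h3 : (Polynomial.X : Polynomial ℂ) ^ (i * k + j * (q - i)) ∣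
          G (a i) * (Polynomial.X ^ (j * (q - i)) * u ^ (q - i)) := by
        rw [pow_add]
        exact mul_dvd_mul h2 (Dvd.intro _ rfl)
      refine (pow_dvd_pow _ ?_).trans h3
      obtain ⟨r, hr⟩ : ∃ r, q = i + r := ⟨q - i, by omega⟩
      have h3 : q - i = r := by omega
      rw [h3, hr]
      have h4 : i * (j + 1) ≤ i * k := Nat.mul_le_mul_left i hj
      have h5 : i * (j + 1) = i * j + i := by ring
      have h6 : j * (i + r) = i * j + j * r := by ring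
      omega
    have h3 : (Polynomial.X : Polynomial ℂ) ^ (j * q + 1) ∣ G g ^ q := by
      rw [eq_neg_of_add_eq_zero_left heq2]
      exact h1.neg_right
    rw [hu, mul_pow, ← pow_mul, pow_succ] at h3
    have h5 : (Polynomial.X : Polynomial ℂ) ∣ u ^ q :=
      (mul_dvd_mul_iff_left (pow_ne_zero _ Polynomial.X_ne_zero)).1 h3
    have h6 := Polynomial.prime_X.dvd_of_dvd_pow h5
    rw [hu, pow_succ]
    exact mul_dvd_mul_left _ h6

private theorem x1_not (G : MvPolynomial (Fin N) ℂ →ₐ[ℂ] Polynomial ℂ) (h : MvPolynomial (Fin N) ℂ)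
    (hG : (G h).coeff 0 ≠ 0) : ¬ (Polynomial.X : Polynomial ℂ) ∣ G h := by
  rw [Polynomial.X_dvd_iff]
  exact hG

theorem dvd_of_mul (G : MvPolynomial (Fin N) ℂ →ₐ[ℂ] Polynomial ℂ) (k : ℕ)
    (h f : MvPolynomial (Fin N) ℂ) (hG : (G h).coeff 0 ≠ 0)
    (hf : (Polynomial.X : Polynomial ℂ) ^ k ∣ G (h * f)) :
    (Polynomial.X : Polynomial ℂ) ^ k ∣ G f ∧ (G (h * f)).coeff k = (G h).coeff 0 * (G f).coeff k := by
  rw [map_mul] at hf ⊢
  have h1 : (Polynomial.X : Polynomial ℂ) ^ k ∣ G f :=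
    Polynomial.prime_X.pow_dvd_of_dvd_mul_left k (x1_not G h hG) hf
  refine ⟨h1, ?_⟩
  obtain ⟨u, hu⟩ := h1
  have e1 : G h * G f = Polynomial.X ^ k * (G h * u) := by rw [hu]; ring
  rw [e1, hu]
  have e2 : ∀ v : Polynomial ℂ, (Polynomial.X ^ k * v).coeff k = v.coeff 0 := fun v => by
    have := Polynomial.coeff_X_pow_mul v k 0
    rwa [zero_add] at this
  rw [e2, e2, Polynomial.mul_coeff_zero]

theorem dvd_iff_closure (G : MvPolynomial (Fin N) ℂ →ₐ[ℂ] Polynomial ℂ) (k : ℕ)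
    (h : MvPolynomial (Fin N) ℂ) (hG : (G h).coeff 0 ≠ 0) (h1 : ∀ f ∈ I, h * f ∈ J)
    (h2 : ∀ f ∈ J, IntegralOver I (h * f)) :
    (∀ f ∈ I, (Polynomial.X : Polynomial ℂ) ^ k ∣ G f) ↔
      ∀ f ∈ J, (Polynomial.X : Polynomial ℂ) ^ k ∣ G f := by
  constructor
  · intro hI f hf
    exact (dvd_of_mul G k h f hG (dvd_of_integral G k hI _ (h2 f hf))).1
  · intro hJ f hf
    exact (dvd_of_mul G k h f hG (hJ _ (h1 f hf))).1

theorem ord_iff_closure (G : MvPolynomial (Fin N) ℂ →ₐ[ℂ] Polynomial ℂ) (k : ℕ)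
    (h : MvPolynomial (Fin N) ℂ) (hG : (G h).coeff 0 ≠ 0) (h1 : ∀ f ∈ I, h * f ∈ J)
    (h2 : ∀ f ∈ J, IntegralOver I (h * f)) :
    ((∀ f ∈ I, ∀ l < k, (G f).coeff l = 0) ∧ ∃ f ∈ I, (G f).coeff k ≠ 0) ↔
      (∀ f ∈ J, ∀ l < k, (G f).coeff l = 0) ∧ ∃ f ∈ J, (G f).coeff k ≠ 0 := by
  have key : ∀ K : Ideal (MvPolynomial (Fin N) ℂ),
      ((∀ f ∈ K, ∀ l < k, (G f).coeff l = 0) ∧ ∃ f ∈ K, (G f).coeff k ≠ 0) ↔
      ((∀ f ∈ K, (Polynomial.X : Polynomial ℂ) ^ k ∣ G f) ∧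
        ¬ ∀ f ∈ K, (Polynomial.X : Polynomial ℂ) ^ (k + 1) ∣ G f) := by
    intro K
    constructor
    · rintro ⟨ha, f, hf, hfk⟩
      refine ⟨fun f hf => Polynomial.X_pow_dvd_iff.2 (ha f hf), fun hb => ?_⟩
      exact hfk (Polynomial.X_pow_dvd_iff.1 (hb f hf) k (Nat.lt_succ_self k))
    · rintro ⟨ha, hb⟩
      refine ⟨fun f hf => Polynomial.X_pow_dvd_iff.1 (ha f hf), ?_⟩
      by_contra hc
      push Not at hc
      apply hb
      intro f hf
      rw [Polynomial.X_pow_dvd_iff]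
      intro l hl
      rcases Nat.lt_succ_iff_lt_or_eq.1 hl with h3 | h3
      · exact Polynomial.X_pow_dvd_iff.1 (ha f hf) l h3
      · rw [h3]; exact hc f hf
  rw [key I, key J, dvd_iff_closure G k h hG h1 h2, dvd_iff_closure G (k + 1) h hG h1 h2]

end MotMono
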