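import Pool.Agent.Lib.MP_4e5fcd_ag.Ic.X1

/-! # IC-X2: the motivic zeta function

PROOF. `ordLocus_closure`: for a jet `γ` at the origin `along · γ = aeval (arc γ)`, the constant coefficient of `along h γ` is
`eval 0 h ≠ 0` (compare `LF.coeff_along_zero` or `eval_curve_zero`); `ord_iff_closure` with `G = aeval (arc γ)`. -/

open MvPolynomial

namespace MotMono

variable {N : ℕ} {I J : Ideal (MvPolynomial (Fin N) ℂ)}

theorem coeff_aeval_zero (cv : Fin N → Polynomial ℂ) (f : MvPolynomial (Fin N) ℂ) :
    (aeval cv f).coeff 0 = eval (fun i => (cv i).eval 0) f := by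
  rw [Polynomial.coeff_zero_eq_eval_zero]
  induction f using MvPolynomial.induction_on with
  | C a => rw [MvPolynomial.aeval_C, MvPolynomial.eval_C]; exact Polynomial.eval_C
  | add p q hp hq => rw [map_add, Polynomial.eval_add, hp, hq, map_add]
  | mul_X p i hp => rw [map_mul, Polynomial.eval_mul, hp, aeval_X, map_mul, MvPolynomial.eval_X]

theorem ordLocus_closure (hIJ : SameClosure I J) (k : ℕ) : ordLocus I k = ordLocus J k := by
  obtain ⟨h, h0, h1, h2⟩ := hIJ
  ext γ
  have key : (∀ i, γ (i, 0) = 0) → ((along h γ).coeff 0 ≠ 0) := by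
    intro hγ
    unfold along
    rw [coeff_aeval_zero]
    have h3 : (fun i => (arc γ i).eval 0) = 0 := by
      funext i
      unfold arc
      rw [Polynomial.eval_finset_sum, Finset.sum_eq_zero]
      · rfl
      · intro l _
        rw [Polynomial.eval_mul, Polynomial.eval_C, Polynomial.eval_pow, Polynomial.eval_X]
        rcases Nat.eq_zero_or_pos (l : ℕ) with hl | hl
        · have hl' : l = 0 := Fin.ext hl
          rw [hl', hγ i, zero_mul]
        · rw [zero_pow (by omega), mul_zero]
    rw [h3]
    exact h0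
  constructor
  · rintro ⟨hγ, h3⟩
    exact ⟨hγ, (ord_iff_closure (aeval (arc γ)) k h (key hγ) h1 h2).1 h3⟩
  · rintro ⟨hγ, h3⟩
    exact ⟨hγ, (ord_iff_closure (aeval (arc γ)) k h (key hγ) h1 h2).2 h3⟩

theorem Zmot_closure (hIJ : SameClosure I J) : Zmot I = Zmot J := by
  unfold Zmot
  congr 1
  funext k
  rw [ordLocus_closure hIJ k]

end MotMono
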